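import Pool.Agent.P.MP_d483fb_an.Z.Lie.Ex3

/-! The Lie algebra of a subgroup and the closed subgroup theorem. -/

open scoped Matrix Matrix.Norms.Operator InnerProductSpace RealInnerProductSpace Topology
open NormedSpace Filter Set

noncomputable section

namespace Pool.Agent.P.MP_d483fb_an.Z

theorem Closed_sub {n : ℕ} (v : Submodule ℝ (Mat n)) : IsClosed (v : Set (Mat n)) :=
  v.closed_of_finiteDimensional

theorem Closed_smul_br {n : ℕ} (t : ℝ) (X Y : Mat n) : ⁅t • X, Y⁆ = t • ⁅X, Y⁆ := by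
  simp only [Ring.lie_def, smul_mul_assoc, mul_smul_comm, smul_sub]

theorem Closed_add_br {n : ℕ} (X X' Y : Mat n) : ⁅X + X', Y⁆ = ⁅X, Y⁆ + ⁅X', Y⁆ := by
  simp only [Ring.lie_def, add_mul, mul_add]
  abel

theorem Closed_subseq {n : ℕ} {u : ℕ → Mat n} (hu : ∀ m, ‖u m‖ = 1) :
    ∃ Z : Mat n, Z ≠ 0 ∧ ∃ φ : ℕ → ℕ, StrictMono φ ∧ Tendsto (u ∘ φ) atTop (𝓝 Z) := by
  have : ProperSpace (Mat n) := FiniteDimensional.proper ℝ (Mat n)
  obtain ⟨Z, hZ, φ, hφ, h⟩ := (isCompact_sphere (0 : Mat n) 1).tendsto_subseq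
    (x := u) fun m => mem_sphere_zero_iff_norm.2 (hu m)
  refine ⟨Z, ?_, φ, hφ, h⟩
  rintro rfl
  simp at hZ

namespace ExpData

variable {G : Type} [Group G] [TopologicalSpace G] [IsTopologicalGroup G] {n : ℕ}
  (D : ExpData G n)

set_option linter.unusedSectionVars false

theorem lie_le (H : Subgroup G) : D.lie H ≤ D.g := Submodule.span_le.2 fun _ hX => hX.1

theorem mem_lie_of {H : Subgroup G} {X : Mat n} (hX : X ∈ D.g) (h : ∀ t : ℝ, D.ex (t • X) ∈ H) :
    X ∈ D.lie H := Submodule.subset_span ⟨hX, h⟩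

theorem le_lie {H : Subgroup G} {v : Submodule ℝ (Mat n)} (hv : v ≤ D.g)
    (h : ∀ X ∈ v, D.ex X ∈ H) : v ≤ D.lie H :=
  fun _ hX => D.mem_lie_of (hv hX) fun t => h _ (v.smul_mem t hX)

theorem lie_mono {H H' : Subgroup G} (h : H ≤ H') : D.lie H ≤ D.lie H' :=
  Submodule.span_mono fun _ hX => ⟨hX.1, fun t => h (hX.2 t)⟩

theorem lie_top : D.lie ⊤ = D.g :=
  le_antisymm (D.lie_le ⊤) (D.le_lie le_rfl fun _ _ => Subgroup.mem_top _)

theorem Ad_mem_lie {H : Subgroup G} {x : G} (hx : x ∈ H) {X : Mat n} (hX : X ∈ D.lie H) :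
    D.Ad x X ∈ D.lie H := by
  have h : D.lie H ≤ (D.lie H).comap (D.Ad x) := by
    refine Submodule.span_le.2 fun Y hY => D.mem_lie_of (D.Ad_mem x hY.1) fun t => ?_
    rw [← map_smul, ← D.conj_ex x (D.g.smul_mem t hY.1)]
    exact H.mul_mem (H.mul_mem hx (hY.2 t)) (H.inv_mem hx)
  exact h hX

theorem Closed_br {v : Submodule ℝ (Mat n)} {X Y : Mat n} (hX : X ∈ D.g)
    (h : ∀ t : ℝ, D.Ad (D.ex (t • X)) Y ∈ v) : ⁅X, Y⁆ ∈ v := by
  refine br_mem_of_conj (A := Mat n) (Closed_sub v) (Eventually.of_forall fun t => ?_)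
  have h1 := h t
  rw [D.Ad_ex (D.g.smul_mem t hX)] at h1
  exact h1

/-- No closedness is needed here. -/
theorem lie_isSub (H : Subgroup G) : IsSub (D.lie H) := by
  intro X hX Y hY
  induction hX using Submodule.span_induction with
  | mem X hX => exact D.Closed_br hX.1 fun t => D.Ad_mem_lie (hX.2 t) hY
  | zero =>
    have : ⁅(0 : Mat n), Y⁆ = 0 := by simp [Ring.lie_def]
    rw [this]
    exact zero_mem _
  | add X X' _ _ h h' =>
    rw [Closed_add_br]
    exact add_mem h h'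
  | smul t X _ h =>
    rw [Closed_smul_br]
    exact Submodule.smul_mem _ t h

/-- No closedness is needed here. -/
theorem eq_top_of_le_lie [PreconnectedSpace G] {H : Subgroup G} (h : D.g ≤ D.lie H) :
    H = ⊤ := by
  obtain ⟨s, hs, he⟩ := (Submodule.fg_span_iff_fg_span_finset_subset
    {X | X ∈ D.g ∧ ∀ t : ℝ, D.ex (t • X) ∈ H}).1 (IsNoetherian.noetherian (D.lie H))
  obtain ⟨Y, hY⟩ : ∃ Y : Fin s.card → Mat n, range Y = s :=
    ⟨fun i => (s.equivFin.symm i).1, by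
      ext X
      constructor
      · rintro ⟨i, rfl⟩
        exact (s.equivFin.symm i).2
      · intro hX
        exact ⟨s.equivFin ⟨X, hX⟩, by simp⟩⟩
  have hYs : ∀ i, Y i ∈ D.g ∧ ∀ t : ℝ, D.ex (t • Y i) ∈ H := fun i =>
    hs (hY ▸ mem_range_self i)
  have h1 := D.prod_nhds (fun i => Submodule.span ℝ {Y i})
    (fun i => (Submodule.span_singleton_le_iff_mem _ _).2 (hYs i).1)
    (by rw [← Submodule.span_range_eq_iSup, hY, ← he]; exact h) one_pos
  have h2 : (H : Set G) ∈ 𝓝 (1 : G) := by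
    refine mem_of_superset h1 ?_
    rintro x ⟨X, hX, rfl⟩
    refine H.list_prod_mem fun y hy => ?_
    obtain ⟨i, rfl⟩ := List.mem_ofFn.1 hy
    obtain ⟨t, ht⟩ := Submodule.mem_span_singleton.1 (hX i).1
    rw [← ht]
    exact (hYs i).2 t
  rw [← H.closure_eq]
  exact closure_nhds h2

theorem mem_lie {H : Subgroup G} (hH : IsClosed (H : Set G)) {X : Mat n} :
    X ∈ D.lie H ↔ X ∈ D.g ∧ ∀ t : ℝ, D.ex (t • X) ∈ H := by
  refine ⟨fun hX => ?_, fun h => D.mem_lie_of h.1 h.2⟩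
  induction hX using Submodule.span_induction with
  | mem X hX => exact hX
  | zero =>
    refine ⟨zero_mem _, fun t => ?_⟩
    rw [smul_zero, D.ex_zero]
    exact H.one_mem
  | add X X' _ _ h h' =>
    refine ⟨add_mem h.1 h'.1, fun t => ?_⟩
    rw [smul_add]
    refine hH.mem_of_tendsto (D.trotter (D.g.smul_mem t h.1) (D.g.smul_mem t h'.1))
      (Eventually.of_forall fun m => ?_)
    rw [smul_smul, smul_smul]
    exact H.pow_mem (H.mul_mem (h.2 _) (h'.2 _)) m
  | smul c X _ h =>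
    refine ⟨D.g.smul_mem c h.1, fun t => ?_⟩
    rw [smul_smul]
    exact h.2 _

theorem ex_mem_of_lie {H : Subgroup G} (hH : IsClosed (H : Set G)) {X : Mat n}
    (hX : X ∈ D.lie H) : D.ex X ∈ H := by
  have h := ((D.mem_lie hH).1 hX).2 1
  rwa [one_smul] at h

theorem grp_le {H : Subgroup G} (hH : IsClosed (H : Set G)) {v : Submodule ℝ (Mat n)}
    (h : v ≤ D.lie H) : D.grp v ≤ H := by
  refine (Subgroup.closure_le H).2 ?_
  rintro _ ⟨X, hX, rfl⟩
  exact D.ex_mem_of_lie hH (h hX)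

theorem mem_lie_of_tendsto {H : Subgroup G} (hH : IsClosed (H : Set G)) {x : ℕ → G}
    (hx : ∀ m, x m ∈ H) (h1 : Tendsto x atTop (𝓝 1)) {c : ℕ → ℝ} {X : Mat n}
    (h : Tendsto (fun m => c m • D.lg (x m)) atTop (𝓝 X)) : X ∈ D.lie H := by
  refine D.mem_lie_of (D.tendsto_zpow h1 h).1 fun t => ?_
  have h2 : Tendsto (fun m => (t * c m) • D.lg (x m)) atTop (𝓝 (t • X)) := by
    simpa only [smul_smul] using h.const_smul t
  exact hH.mem_of_tendsto (D.tendsto_zpow h1 h2).2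
    (Eventually.of_forall fun m => H.zpow_mem (hx m) _)

theorem Closed_ex : Tendsto D.ex (𝓝[D.g] 0) (𝓝 1) := D.ex_nhds.le

theorem Closed_small {p : G → Mat n} {C : ℝ} (hg : ∀ᶠ x in 𝓝 (1 : G), p x ∈ D.g)
    (h : ∀ᶠ x in 𝓝 (1 : G), ‖p x‖ ≤ C * ‖D.ρ x - 1‖) : Tendsto p (𝓝 1) (𝓝[D.g] 0) := by
  refine tendsto_nhdsWithin_iff.2 ⟨?_, hg⟩
  have hc : Continuous fun x : G => C * ‖D.ρ x - 1‖ :=
    continuous_const.mul (D.cont.sub continuous_const).norm
  have h1 := hc.tendsto 1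
  simp only [map_one, sub_self, norm_zero, mul_zero] at h1
  exact squeeze_zero_norm' h h1

theorem lg_mem_lie {H : Subgroup G} (hH : IsClosed (H : Set G)) :
    ∀ᶠ x in 𝓝 (1 : G), x ∈ H → D.lg x ∈ D.lie H := by
  obtain ⟨w₀, hw₀⟩ := Submodule.exists_isCompl (D.lie H)
  have hs : D.g ≤ D.lie H ⊔ (w₀ ⊓ D.g) := by
    rw [← sup_inf_assoc_of_le w₀ (D.lie_le H), hw₀.sup_eq_top, top_inf_eq]
  have hd : Disjoint (D.lie H) (w₀ ⊓ D.g) := hw₀.disjoint.mono_right inf_le_left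
  obtain ⟨p, q, h1, -, C, h2⟩ := D.factor2 (D.lie_le H) inf_le_right hs hd
  have hp : Tendsto p (𝓝 1) (𝓝[D.g] 0) :=
    D.Closed_small (C := C) (h1.mono fun x hx => D.lie_le H hx.1)
      (h2.mono fun x hx => le_trans (le_add_of_nonneg_right (norm_nonneg _)) hx)
  have hq : Tendsto q (𝓝 1) (𝓝[D.g] 0) :=
    D.Closed_small (C := C) (h1.mono fun x hx => hx.2.1.2)
      (h2.mono fun x hx => le_trans (le_add_of_nonneg_left (norm_nonneg _)) hx)
  by_contra hc
  have : (𝓝 (1 : G)).IsCountablyGenerated := by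
    have : FirstCountableTopology (Mat n) :=
      inferInstanceAs (FirstCountableTopology (Fin n → Fin n → ℝ))
    rw [← D.ex_nhds]
    infer_instance
  obtain ⟨x, hx, hk⟩ := exists_seq_forall_of_frequently ((not_eventually.1 hc).and_eventually
    (h1.and ((hp.eventually D.lg_ex).and (hq.eventually D.lg_ex))))
  have hxH : ∀ m, x m ∈ H := fun m => by
    by_contra h
    exact (hk m).1 fun h' => absurd h' h
  have hq0 : ∀ m, q (x m) ≠ 0 := fun m h => by
    obtain ⟨k0, ⟨k1, -, k2, -⟩, k3, -⟩ := hk m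
    rw [h, D.ex_zero, mul_one] at k2
    rw [k2] at k3
    exact k0 fun _ => k3 ▸ k1
  have hyH : ∀ m, D.ex (q (x m)) ∈ H := fun m => by
    obtain ⟨-, ⟨k1, -, k2, -⟩, -⟩ := hk m
    rw [eq_inv_mul_of_mul_eq k2]
    exact H.mul_mem (H.inv_mem (D.ex_mem_of_lie hH k1)) (hxH m)
  obtain ⟨Z, hZ, φ, hφ, hl⟩ := Closed_subseq (u := fun m => ‖q (x m)‖⁻¹ • q (x m))
    fun m => norm_smul_inv_norm (hq0 m)
  have hy : Tendsto (fun m => D.ex (q (x (φ m)))) atTop (𝓝 1) :=
    D.Closed_ex.comp (hq.comp (hx.comp hφ.tendsto_atTop))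
  have z1 : Z ∈ D.lie H := by
    refine D.mem_lie_of_tendsto hH (fun m => hyH (φ m)) hy (c := fun m => ‖q (x (φ m))‖⁻¹)
      (hl.congr fun m => ?_)
    rw [(hk (φ m)).2.2.2]
    rfl
  have z2 : Z ∈ w₀ ⊓ D.g :=
    (Closed_sub (w₀ ⊓ D.g)).mem_of_tendsto hl
      (Eventually.of_forall fun m => Submodule.smul_mem _ _ (hk (φ m)).2.1.2.1)
  exact hZ (Submodule.disjoint_def.1 hd Z z1 z2)

theorem lie_nhds {H : Subgroup G} (hH : IsClosed (H : Set G)) :
    Filter.map D.ex (𝓝[D.lie H] 0) = 𝓝[H] 1 := by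
  refine le_antisymm (tendsto_nhdsWithin_iff.2 ⟨?_, ?_⟩)
    (le_map_of_right_inverse (mba := D.lg) ?_ ?_)
  · exact D.Closed_ex.mono_left (nhdsWithin_mono _ (D.lie_le H))
  · exact eventually_nhdsWithin_of_forall fun X hX => D.ex_mem_of_lie hH hX
  · exact (D.ex_lg.mono fun x hx => hx.2).filter_mono nhdsWithin_le_nhds
  · refine tendsto_nhdsWithin_iff.2 ⟨?_, eventually_nhdsWithin_iff.2 (D.lg_mem_lie hH)⟩
    exact (D.tendsto_lg.mono_right nhdsWithin_le_nhds).mono_left nhdsWithin_le_nhds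

theorem exists_restrict {H : Subgroup G} (hH : IsClosed (H : Set G)) :
    ∃ E : ExpData H n, E.g = D.lie H ∧ (∀ x : H, E.ρ x = D.ρ x) ∧
      ∀ X ∈ D.lie H, (E.ex X : G) = D.ex X := by
  classical
  obtain ⟨e, he⟩ : ∃ e : Mat n → H, ∀ X ∈ D.lie H, (e X : G) = D.ex X :=
    ⟨fun X => if h : D.ex X ∈ H then ⟨D.ex X, h⟩ else 1, fun X hX => by
      simp only [dif_pos (D.ex_mem_of_lie hH hX)]⟩
  refine ⟨{ ρ := D.ρ.comp H.subtype
            g := D.lie H
            ex := e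
            cont := D.cont.comp continuous_subtype_val
            ρ_ex := fun X hX => ?_
            ex_cont := ?_
            ex_zero := Subtype.ext ((he 0 (zero_mem _)).trans D.ex_zero)
            ex_nhds := ?_
            disc := ?_
            Ad_mem' := fun x X hX => ?_ }, rfl, fun _ => rfl, he⟩
  · show D.ρ (e X) = exp X
    rw [he X hX, D.ρ_ex X (D.lie_le H hX)]
  · refine Topology.IsInducing.subtypeVal.continuousOn_iff.2 ?_
    exact (D.ex_cont.mono (D.lie_le H)).congr fun X hX => he X hX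
  · refine map_injective Subtype.val_injective ?_
    have h1 : Filter.map (Subtype.val : H → G) (𝓝 1) = 𝓝[H] 1 :=
      map_nhds_subtype_val (s := (H : Set G)) (1 : H)
    rw [h1, map_map, ← D.lie_nhds hH]
    exact map_congr (eventually_nhdsWithin_of_forall fun X hX => he X hX)
  · have h1 : Tendsto (Subtype.val : H → G) (𝓝 1) (𝓝 1) := continuous_subtype_val.tendsto (1 : H)
    exact (h1.eventually D.disc).mono fun x hx h => Subtype.ext (hx h)
  · have h1 := D.Ad_mem_lie x.2 hX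
    rw [D.Ad_apply] at h1
    exact h1

/-- The stabiliser of a subspace is closed and its Lie algebra is the normaliser. -/
theorem exists_normaliser (v : Submodule ℝ (Mat n)) :
    ∃ H : Subgroup G, IsClosed (H : Set G) ∧ (∀ x, x ∈ H ↔ ∀ Y ∈ v, D.Ad x Y ∈ v) ∧
      ∀ X, X ∈ D.lie H ↔ X ∈ D.g ∧ ∀ Y ∈ v, ⁅X, Y⁆ ∈ v := by
  let H : Subgroup G :=
    { carrier := {x | ∀ Y ∈ v, D.Ad x Y ∈ v}
      one_mem' := fun Y hY => by rwa [D.Ad_one]
      mul_mem' := fun {x y} hx hy Y hY => by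
        rw [D.Ad_mul]
        exact hx _ (hy Y hY)
      inv_mem' := fun {x} hx Y hY => by
        have hi : Function.Injective ((D.Ad x).restrict hx) := fun a b hab => by
          have h := congrArg (D.Ad x⁻¹) (congrArg Subtype.val hab)
          simp only [LinearMap.coe_restrict_apply, D.Ad_inv_Ad] at h
          exact Subtype.ext h
        obtain ⟨Y', hY'⟩ := LinearMap.injective_iff_surjective.1 hi ⟨Y, hY⟩
        have h : D.Ad x Y' = Y := congrArg Subtype.val hY'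
        rw [← h, D.Ad_inv_Ad]
        exact Y'.2 }
  have hH : IsClosed (H : Set G) := by
    have e : (H : Set G) = ⋂ Y ∈ v, (fun x => D.Ad x Y) ⁻¹' v := by
      ext x
      simp only [mem_iInter]
      rfl
    rw [e]
    exact isClosed_biInter fun Y _ =>
      (Closed_sub v).preimage (D.Ad_cont.comp (continuous_id.prodMk continuous_const))
  refine ⟨H, hH, fun _ => Iff.rfl, fun X => ?_⟩
  rw [D.mem_lie hH]
  refine and_congr_right fun hX => ⟨fun h Y hY => D.Closed_br hX fun t => h t Y hY,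
    fun h t Y hY => D.Ad_ex_mem (D.g.smul_mem t hX) (fun Z hZ => ?_) hY⟩
  rw [Closed_smul_br]
  exact v.smul_mem t (h Z hZ)

end ExpData

end Pool.Agent.P.MP_d483fb_an.Z
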