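import Pool.Agent.P.MP_d483fb_an.Z.Lie.Std0
import Pool.Agent.P.MP_d483fb_an.Z.Avg.Trace

/-! Projections on weight spaces and roots. -/

open scoped Matrix Matrix.Norms.Operator InnerProductSpace RealInnerProductSpace Topology
open NormedSpace Filter Set

set_option linter.unusedSectionVars false

noncomputable section

namespace Pool.Agent.P.MP_d483fb_an.Z

namespace Std

variable {G : Type} [Group G] [TopologicalSpace G] [IsTopologicalGroup G] {n k : ℕ}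
  (D : Std G n k)

theorem prS_mem_wtS (S : Set (Euc k)) (X : Mat n) : D.prS S X ∈ D.wtS S := Avg.prS_wt D S X

theorem prS_eq_self {S : Set (Euc k)} {X : Mat n} : D.prS S X = X ↔ X ∈ D.wtS S :=
  ⟨fun h => h ▸ D.prS_mem_wtS S X, Avg.prS_of_mem D⟩

theorem prS_eq_zero {S T : Set (Euc k)} {X : Mat n} (hX : X ∈ D.wtS T) (h : Disjoint S T) :
    D.prS S X = 0 := by
  ext i j
  rw [D.prS_apply]
  split_ifs with h'
  · by_contra h2
    exact Set.disjoint_left.1 h h' (hX i j h2)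
  · rfl

theorem prS_add_compl (S : Set (Euc k)) (X : Mat n) : D.prS S X + D.prS Sᶜ X = X :=
  Avg.prS_add_compl D S X

theorem norm_prS_le (S : Set (Euc k)) (X : Mat n) : ‖D.prS S X‖ ≤ ‖X‖ := by
  rw [Matrix.linfty_opNorm_def, Matrix.linfty_opNorm_def, NNReal.coe_le_coe]
  refine Finset.sup_mono_fun fun i _ => Finset.sum_le_sum fun j _ => ?_
  rw [D.prS_apply]
  split_ifs <;> simp

theorem prS_mem_of_inv {v : Submodule ℝ (Mat n)} (hv : ∀ s, ∀ X ∈ v, ⁅D.dg s, X⁆ ∈ v)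
    (S : Set (Euc k)) {X : Mat n} (hX : X ∈ v) : D.prS S X ∈ v := Avg.prS_mem D hv S hX

theorem prS_mem (S : Set (Euc k)) {X : Mat n} (hX : X ∈ D.g) : D.prS S X ∈ D.grS S :=
  ⟨D.prS_mem_of_inv (fun s _ hY => D.g_isSub _ (D.dg_mem s) _ hY) S hX, D.prS_mem_wtS S X⟩

theorem pr_mem (β : Euc k) {X : Mat n} (hX : X ∈ D.g) : D.pr β X ∈ D.gr β := D.prS_mem _ hX

theorem sum_pr (X : Mat n) : ∑ β ∈ D.wts, D.pr β X = X := Avg.sum_pr D X

theorem mem_roots {β : Euc k} : β ∈ D.roots ↔ β ≠ 0 ∧ D.gr β ≠ ⊥ := Avg.mem_roots D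

theorem exists_ne_zero {β : Euc k} (h : β ∈ D.roots) : ∃ E ∈ D.gr β, E ≠ 0 :=
  (Submodule.ne_bot_iff _).1 (D.mem_roots.1 h).2

theorem root_ne_zero {β : Euc k} (h : β ∈ D.roots) : β ≠ 0 := (D.mem_roots.1 h).1

theorem gr_eq_bot {β : Euc k} (h0 : β ≠ 0) (h : β ∉ D.roots) : D.gr β = ⊥ := by
  by_contra hb
  exact h (D.mem_roots.2 ⟨h0, hb⟩)

theorem decomp {X : Mat n} (hX : X ∈ D.g) : D.pr 0 X + ∑ β ∈ D.roots, D.pr β X = X := by
  ext i j
  have key : ∀ β, D.pr β X i j = if D.lam i - D.lam j = β then X i j else 0 := fun β => by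
    rw [pr, D.prS_apply]
    simp only [mem_singleton_iff]
  rw [Matrix.add_apply, Matrix.sum_apply]
  by_cases h0 : D.lam i - D.lam j = 0
  · rw [key, if_pos h0, Finset.sum_eq_zero, add_zero]
    intro β hβ
    rw [key, if_neg]
    rw [h0]
    exact (D.root_ne_zero hβ).symm
  rw [key, if_neg h0, zero_add, Finset.sum_eq_single (D.lam i - D.lam j), key, if_pos rfl]
  · intro β _ hβ
    rw [key, if_neg hβ.symm]
  · intro h
    have := D.pr_mem (D.lam i - D.lam j) hX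
    rw [D.gr_eq_bot h0 h, Submodule.mem_bot] at this
    rw [this]
    rfl

theorem grS_le_of {S : Set (Euc k)} {v : Submodule ℝ (Mat n)}
    (h : ∀ β ∈ S, β = 0 ∨ β ∈ D.roots → D.gr β ≤ v) : D.grS S ≤ v := by
  refine Avg.grS_le D D.g_isSub fun β hβ => ?_
  by_cases h1 : β = 0 ∨ β ∈ D.roots
  · exact h β hβ h1
  · rw [not_or] at h1
    rw [D.gr_eq_bot h1.1 h1.2]
    exact bot_le

theorem grS_congr {S T : Set (Euc k)} (h : ∀ β, β = 0 ∨ β ∈ D.roots → (β ∈ S ↔ β ∈ T)) :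
    D.grS S = D.grS T :=
  le_antisymm (D.grS_le_of fun β hβ h1 => D.gr_le_grS ((h β h1).1 hβ))
    (D.grS_le_of fun β hβ h1 => D.gr_le_grS ((h β h1).2 hβ))

theorem br_grS {S T R : Set (Euc k)} {X Y : Mat n} (hX : X ∈ D.grS S) (hY : Y ∈ D.grS T)
    (h : ∀ β ∈ S, ∀ γ ∈ T, β + γ ∈ R) : ⁅X, Y⁆ ∈ D.grS R :=
  ⟨D.g_isSub _ hX.1 _ hY.1, Avg.br_wt D hX.2 hY.2 h⟩

theorem br_gr {β γ : Euc k} {X Y : Mat n} (hX : X ∈ D.gr β) (hY : Y ∈ D.gr γ) :
    ⁅X, Y⁆ ∈ D.gr (β + γ) :=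
  D.br_grS hX hY fun a ha b hb => by
    rw [show a = β from ha, show b = γ from hb]
    rfl

theorem br_eq_zero {β γ : Euc k} {X Y : Mat n} (hX : X ∈ D.gr β) (hY : Y ∈ D.gr γ)
    (h0 : β + γ ≠ 0) (h : β + γ ∉ D.roots) : ⁅X, Y⁆ = 0 := by
  have := D.br_gr hX hY
  rwa [D.gr_eq_bot h0 h, Submodule.mem_bot] at this

theorem grS_isSub {S : Set (Euc k)} (h : ∀ β ∈ S, ∀ γ ∈ S, β + γ ∈ S) : IsSub (D.grS S) :=
  fun _ hX _ hY => D.br_grS hX hY h

theorem tr_wtS {S : Set (Euc k)} {X : Mat n} (hX : X ∈ D.wtS S) : Xᵀ ∈ D.wtS (-S) :=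
  Avg.tr_wt D hX fun _ hβ => Set.neg_mem_neg.2 hβ

theorem tr_grS {S : Set (Euc k)} {X : Mat n} (hX : X ∈ D.grS S) : Xᵀ ∈ D.grS (-S) :=
  ⟨D.tr_mem hX.1, D.tr_wtS hX.2⟩

theorem tr_gr {β : Euc k} {X : Mat n} (hX : X ∈ D.gr β) : Xᵀ ∈ D.gr (-β) :=
  Avg.tr_gr D (fun _ => D.tr_mem) hX

theorem neg_mem_roots {β : Euc k} (h : β ∈ D.roots) : -β ∈ D.roots :=
  Avg.neg_mem_roots D (fun _ => D.tr_mem) h

theorem ip_wtS {S T : Set (Euc k)} {X Y : Mat n} (hX : X ∈ D.wtS S) (hY : Y ∈ D.wtS T)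
    (h : Disjoint S T) : ip X Y = 0 := by
  refine Finset.sum_eq_zero fun i _ => Finset.sum_eq_zero fun j _ => ?_
  by_contra hne
  exact Set.disjoint_left.1 h (hX i j (left_ne_zero_of_mul hne)) (hY i j (right_ne_zero_of_mul hne))

theorem finrank_grS_le_neg (S : Set (Euc k)) :
    Module.finrank ℝ (D.grS S) ≤ Module.finrank ℝ (D.grS (-S)) := by
  let f : D.grS S →ₗ[ℝ] D.grS (-S) :=
    { toFun := fun X => ⟨X.1ᵀ, D.tr_grS X.2⟩
      map_add' := fun X Y => Subtype.ext (Matrix.transpose_add _ _)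
      map_smul' := fun c X => Subtype.ext (Matrix.transpose_smul _ _) }
  refine LinearMap.finrank_le_finrank_of_injective (f := f) fun X Y h => Subtype.ext ?_
  exact Matrix.transpose_injective (congrArg Subtype.val h)

theorem finrank_grS_neg (S : Set (Euc k)) :
    Module.finrank ℝ (D.grS (-S)) = Module.finrank ℝ (D.grS S) := by
  refine le_antisymm ?_ (D.finrank_grS_le_neg S)
  have := D.finrank_grS_le_neg (-S)
  rwa [neg_neg] at this

theorem grS_union (S T : Set (Euc k)) : D.grS (S ∪ T) = D.grS S ⊔ D.grS T :=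
  le_antisymm
    (D.grS_le_of fun _ hβ _ => hβ.elim (fun h => (D.gr_le_grS h).trans le_sup_left)
      fun h => (D.gr_le_grS h).trans le_sup_right)
    (sup_le (D.grS_mono subset_union_left) (D.grS_mono subset_union_right))

theorem finrank_grS_union {S T : Set (Euc k)} (h : Disjoint S T) :
    Module.finrank ℝ (D.grS (S ∪ T)) =
      Module.finrank ℝ (D.grS S) + Module.finrank ℝ (D.grS T) := by
  have h0 : D.grS S ⊓ D.grS T = ⊥ :=
    eq_bot_iff.2 fun X hX => ip_self_eq_zero.1 (D.ip_wtS hX.1.2 hX.2.2 h)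
  rw [D.grS_union, ← Submodule.finrank_sup_add_finrank_inf_eq, h0, finrank_bot, add_zero]

theorem exists_reg : ∃ s, D.Reg s := by
  obtain ⟨s, -, -, hs⟩ := exists_generic ⊤ D.roots
    (fun β hβ => ⟨β, trivial, inner_self_ne_zero.2 (D.root_ne_zero hβ)⟩) (s₀ := 0) trivial
    Filter.univ_mem
  exact ⟨s, hs⟩

theorem pos_half (s : Euc k) : Pos {γ : Euc k | 0 < ⟪γ, s⟫} s := by
  refine ⟨fun β hβ γ hγ => ?_, fun _ h => h⟩
  rw [mem_ofPred_eq, inner_add_left]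
  exact add_pos hβ hγ

theorem pos_cls {β : Euc k} (h : β ≠ 0) : Pos (cls β) β := by
  constructor
  · rintro _ ⟨c, hc, rfl⟩ _ ⟨d, hd, rfl⟩
    exact ⟨c + d, add_pos hc hd, (add_smul c d β).symm⟩
  · rintro _ ⟨c, hc, rfl⟩
    rw [real_inner_smul_left]
    exact mul_pos hc (real_inner_self_pos.2 h)

end Std

end Pool.Agent.P.MP_d483fb_an.Z
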