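import Pool.Agent.P.MP_d483fb_an.Z.Lie.Root2

/-! The parabolic count. -/

open scoped Matrix Matrix.Norms.Operator InnerProductSpace RealInnerProductSpace Topology
open NormedSpace Filter Set

noncomputable section

namespace Pool.Agent.P.MP_d483fb_an.Z

namespace Std

variable {G : Type} [Group G] [TopologicalSpace G] [IsTopologicalGroup G] [PreconnectedSpace G]
  {n k : ℕ} (D : Std G n k)

omit [PreconnectedSpace G] in
theorem u_le_of_mem {q : Submodule ℝ (Mat n)} (hq : IsSub q) {H : Euc k} (hn : D.np H ≤ q)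
    {β γ : Euc k} (hβ : ⟪β, H⟫ < 0) (hγ : γ ∈ cls β) {E : Mat n} (hE : E ∈ D.gr γ) (hEq : E ∈ q)
    (hE0 : E ≠ 0) : D.u β ≤ q := by
  have h0 : -β ≠ 0 := by
    rintro h
    rw [neg_eq_zero.1 h, inner_zero_left] at hβ
    exact lt_irrefl _ hβ
  have h1 : D.u (-β) ≤ q := by
    refine le_trans (D.grS_mono ?_) hn
    rintro _ ⟨c, hc, rfl⟩
    change 0 < ⟪c • -β, H⟫
    rw [real_inner_smul_left, inner_neg_left]
    exact mul_pos hc (neg_pos.2 hβ)
  have := D.rank_one hq h0 h1 (by rwa [neg_neg]) hE hEq hE0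
  rwa [neg_neg] at this

omit [PreconnectedSpace G] in
theorem par_count' {m : ℕ} (hv : D.ltV m) {q : Submodule ℝ (Mat n)} (hq : IsSub q)
    (hne : ¬D.g ≤ q) {H : Euc k} (hH : D.Reg H) (hn : D.np H ≤ q) :
    m < Module.finrank ℝ (D.grS {γ | ⟪γ, H⟫ < 0 ∧ ¬D.u γ ≤ q}) := by
  set T : Set (Euc k) := {γ | ⟪γ, H⟫ < 0 ∧ ¬D.u γ ≤ q} with hT
  have hgood : ∀ β ∈ D.roots, β ∉ T → D.gr β ≤ q := by
    intro β hβ hβT
    rcases lt_or_gt_of_ne (hH β hβ) with h | h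
    · exact (D.gr_le_grS (self_mem_cls β)).trans (not_not.1 fun h' => hβT ⟨h, h'⟩)
    · exact (D.gr_le_grS (S := {γ | 0 < ⟪γ, H⟫}) h).trans hn
  have hbr : ∀ β ∉ T, β = 0 ∨ β ∈ D.roots → ∀ γ ∉ T, γ = 0 ∨ γ ∈ D.roots →
      ∀ X ∈ D.gr β, ∀ Y ∈ D.gr γ, ⁅X, Y⁆ ∈ D.grS Tᶜ := by
    intro β hβ hβ' γ hγ hγ' X hX Y hY
    by_cases h0 : ⁅X, Y⁆ = 0
    · rw [h0]
      exact zero_mem _
    refine D.gr_le_grS (S := Tᶜ) ?_ (D.br_gr hX hY)
    rcases hβ' with rfl | hβ'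
    · rwa [zero_add]
    rcases hγ' with rfl | hγ'
    · rwa [add_zero]
    exact fun h => h.2 (D.u_le_of_mem hq hn h.1 (self_mem_cls _) (D.br_gr hX hY)
      (hq X (hgood β hβ' hβ hX) Y (hgood γ hγ' hγ hY)) h0)
  have hsub : ∀ X ∈ D.grS Tᶜ, ∀ Y ∈ D.grS Tᶜ, ⁅X, Y⁆ ∈ D.grS Tᶜ := by
    intro X hX Y hY
    refine D.grS_le_of (v := (D.grS Tᶜ).comap (LinearMap.mulRight ℝ Y - LinearMap.mulLeft ℝ Y))
      (fun β hβ hβ' X hX => ?_) hX
    exact D.grS_le_of (v := (D.grS Tᶜ).comap (LinearMap.mulLeft ℝ X - LinearMap.mulRight ℝ X))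
      (fun γ hγ hγ' Y hY => hbr β hβ hβ' γ hγ hγ' X hX Y hY) hY
  obtain ⟨P, hP, -, hl⟩ := D.exists_normaliser (D.grS Tᶜ)
  have hle : D.grS Tᶜ ≤ D.lie P := fun X hX => (hl X).2 ⟨hX.1, hsub X hX⟩
  have htop : P ≠ ⊤ := by
    rintro rfl
    refine hne (D.gen_all hq fun β hβ => hgood β hβ fun hβT => ?_)
    obtain ⟨E, hE, hE0⟩ := D.exists_ne_zero hβ
    have h0 : (0 : Euc k) ∈ Tᶜ := fun h => by
      have := h.1
      rw [inner_zero_left] at this
      exact lt_irrefl _ this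
    have h1 := ((hl E).1 (by rw [D.lie_top]; exact hE.1)).2 _ (D.gr_le_grS h0 (D.dg_mem_gr H))
    have h2 : ⁅E, D.dg H⁆ = (-⟪β, H⟫) • E := by
      rw [neg_smul, ← D.br_dg hE H, Ring.lie_def, Ring.lie_def, neg_sub]
    rw [h2, Submodule.smul_mem_iff _ (neg_ne_zero.2 (hH β hβ))] at h1
    refine hE0 (Matrix.ext fun i j => by_contra fun hij => ?_)
    have h3 : D.lam i - D.lam j = β := hE.2 i j hij
    exact h1.2 i j hij (h3 ▸ hβT)
  have h1 := hv P hP htop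
  have h2 := Submodule.finrank_mono hle
  have h3 := D.finrank_grS_union (S := T) (T := Tᶜ) disjoint_compl_right
  rw [union_compl_self, D.grS_univ] at h3
  omega

theorem par_count {m : ℕ} (hv : D.ltV m) {q : Submodule ℝ (Mat n)} (hq : IsSub q)
    (hne : ¬D.g ≤ q) {H : Euc k} (hH : D.Reg H) (hn : D.np H ≤ q) :
    m < Module.finrank ℝ (D.grS {γ | ⟪γ, H⟫ < 0 ∧ ¬D.u γ ≤ q}) :=
  D.par_count' hv hq hne hH hn

omit [PreconnectedSpace G] in
theorem finrank_le_card' {ι : Type} [Fintype ι] (w : ι → Euc k) {S : Set (Euc k)} (h0 : 0 ∉ S)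
    (h : ∀ β ∈ D.roots, β ∈ S → Module.finrank ℝ (D.u β) ≤ Nat.card {i // w i ∈ cls β}) :
    Module.finrank ℝ (D.grS S) ≤ Fintype.card ι := by
  classical
  let C : Finset (Set (Euc k)) := (D.roots.filter (· ∈ S)).image cls
  have h1 : D.grS S ≤ C.sup D.grS := by
    refine D.grS_le_of fun β hβ hβ' => ?_
    rcases hβ' with rfl | hβ'
    · exact absurd hβ h0
    · exact (D.gr_le_grS (self_mem_cls β)).trans
        (Finset.le_sup (Finset.mem_image_of_mem _ (Finset.mem_filter.2 ⟨hβ', hβ⟩)))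
  have h2 : ∀ A : Finset (Set (Euc k)), Module.finrank ℝ (A.sup D.grS : Submodule ℝ (Mat n)) ≤
      ∑ c ∈ A, Module.finrank ℝ (D.grS c) := by
    intro A
    induction A using Finset.induction_on with
    | empty => simp
    | insert c A hc ih =>
      rw [Finset.sup_insert, Finset.sum_insert hc]
      exact (Submodule.finrank_add_le_finrank_add_finrank _ _).trans (by omega)
  have h3 : ∑ c ∈ C, Module.finrank ℝ (D.grS c) ≤
      ∑ c ∈ C, (Finset.univ.filter fun i => w i ∈ c).card := by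
    refine Finset.sum_le_sum fun c hc => ?_
    obtain ⟨β, hβ, rfl⟩ := Finset.mem_image.1 hc
    have := h β (Finset.mem_filter.1 hβ).1 (Finset.mem_filter.1 hβ).2
    rwa [Nat.card_eq_fintype_card, Fintype.card_subtype] at this
  rw [← Finset.card_biUnion] at h3
  · exact (Submodule.finrank_mono h1).trans ((h2 C).trans (h3.trans (Finset.card_le_univ _)))
  · intro c hc c' hc' hne
    obtain ⟨β, -, rfl⟩ := Finset.mem_image.1 hc
    obtain ⟨β', -, rfl⟩ := Finset.mem_image.1 hc'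
    refine Finset.disjoint_left.2 fun i hi hi' => hne ?_
    rw [← cls_eq (Finset.mem_filter.1 hi).2, cls_eq (Finset.mem_filter.1 hi').2]

theorem finrank_le_card {ι : Type} [Fintype ι] (w : ι → Euc k) {S : Set (Euc k)} (h0 : 0 ∉ S)
    (h : ∀ β ∈ D.roots, β ∈ S → Module.finrank ℝ (D.u β) ≤ Nat.card {i // w i ∈ cls β}) :
    Module.finrank ℝ (D.grS S) ≤ Fintype.card ι :=
  D.finrank_le_card' w h0 h

theorem le_of_count {ι : Type} [Fintype ι] (w : ι → Euc k) (hv : D.ltV (Fintype.card ι))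
    {q : Submodule ℝ (Mat n)} (hq : IsSub q) {H : Euc k} (hH : D.Reg H) (hn : D.np H ≤ q)
    (h : ∀ β ∈ D.roots, ⟪β, H⟫ < 0 → (∃ γ ∈ cls β, ∃ E ∈ D.gr γ, E ∈ q ∧ E ≠ 0) ∨
      Module.finrank ℝ (D.u β) ≤ Nat.card {i // w i ∈ cls β}) : D.g ≤ q := by
  by_contra hne
  refine absurd (D.par_count hv hq hne hH hn) (not_lt.2 (D.finrank_le_card w (fun h0 => ?_)
    fun β hβ hβT => ?_))
  · have := h0.1
    rw [inner_zero_left] at this
    exact lt_irrefl _ this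
  · rcases h β hβ hβT.1 with ⟨γ, hγ, E, hE, hEq, hE0⟩ | h1
    · exact absurd (D.u_le_of_mem hq hn hβT.1 hγ hE hEq hE0) hβT.2
    · exact h1

end Std

end Pool.Agent.P.MP_d483fb_an.Z
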