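import Pool.Agent.P.MP_d483fb_an.Z.Lie.Ex1

/-! Topology of the group, generation, products of exponentials. -/

open scoped Matrix Matrix.Norms.Operator InnerProductSpace RealInnerProductSpace Topology
open NormedSpace Filter Set

noncomputable section

namespace Pool.Agent.P.MP_d483fb_an.Z

namespace ExpData

variable {G : Type} [Group G] [TopologicalSpace G] [IsTopologicalGroup G] {n : ℕ}
  (D : ExpData G n)

include D in
theorem t2Space : T2Space G := by
  rw [IsTopologicalGroup.t2Space_iff_one_closed]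
  refine isClosed_of_closure_subset fun x hx => ?_
  have h1 : (1 : G) ⤳ x := specializes_iff_mem_closure.2 hx
  have h2 : D.ρ x = 1 := by
    have := (h1.map D.cont).eq
    rw [← this, map_one]
  have h3 : pure x ≤ 𝓝 (1 : G) := specializes_iff_pure.1 h1.symm
  exact (D.disc.filter_mono h3) h2

theorem ex_ball_nhds {r : ℝ} (hr : 0 < r) :
    D.ex '' {X | X ∈ D.g ∧ ‖X‖ < r} ∈ 𝓝 (1 : G) := by
  rw [← D.ex_nhds]
  refine image_mem_map ?_
  have h : {X : Mat n | ‖X‖ < r} ∈ 𝓝 (0 : Mat n) :=
    (isOpen_lt continuous_norm continuous_const).mem_nhds (by simpa using hr)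
  exact inter_mem_nhdsWithin (D.g : Set (Mat n)) h

theorem ex_ball_compact (r : ℝ) : IsCompact (D.ex '' {X | X ∈ D.g ∧ ‖X‖ ≤ r}) := by
  have : ProperSpace (Mat n) := FiniteDimensional.proper_real (Mat n)
  have h1 : IsClosed (D.g : Set (Mat n)) := D.g.closed_of_finiteDimensional
  have h2 : IsCompact ((D.g : Set (Mat n)) ∩ Metric.closedBall 0 r) :=
    (isCompact_closedBall (0 : Mat n) r).inter_left h1
  have h3 : {X : Mat n | X ∈ D.g ∧ ‖X‖ ≤ r} = (D.g : Set (Mat n)) ∩ Metric.closedBall 0 r := by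
    ext X
    simp
  rw [h3]
  exact h2.image_of_continuousOn (D.ex_cont.mono inter_subset_left)

include D in
theorem locallyCompactSpace : LocallyCompactSpace G := by
  refine (D.ex_ball_compact 1).locallyCompactSpace_of_mem_nhds_of_group (x := 1) ?_
  exact mem_of_superset (D.ex_ball_nhds one_pos) (image_mono fun X hX => ⟨hX.1, hX.2.le⟩)

omit D in
theorem closure_nhds [PreconnectedSpace G] {S : Set G} (hS : S ∈ 𝓝 (1 : G)) :
    Subgroup.closure S = ⊤ := by
  have ho : IsOpen (Subgroup.closure S : Set G) :=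
    Subgroup.isOpen_of_mem_nhds _ (mem_of_superset hS Subgroup.subset_closure)
  have hc : IsClopen (Subgroup.closure S : Set G) := ⟨Subgroup.isClosed_of_isOpen _ ho, ho⟩
  rw [← Subgroup.coe_eq_univ]
  exact hc.eq_univ ⟨1, one_mem _⟩

theorem ex_induction [PreconnectedSpace G] {p : G → Prop} {r : ℝ} (hr : 0 < r) (h1 : p 1)
    (hm : ∀ X ∈ D.g, ‖X‖ < r → ∀ x, p x → p (D.ex X * x)) (x : G) : p x := by
  have hx : x ∈ Subgroup.closure (D.ex '' {X | X ∈ D.g ∧ ‖X‖ < r}) := by
    rw [closure_nhds (D.ex_ball_nhds hr)]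
    exact Subgroup.mem_top x
  induction hx using Subgroup.closure_induction_left with
  | one => exact h1
  | mul_left y hy z _ ih =>
    obtain ⟨X, hX, rfl⟩ := hy
    exact hm X hX.1 hX.2 z ih
  | inv_mul_cancel y hy z _ ih =>
    obtain ⟨X, hX, rfl⟩ := hy
    rw [← D.ex_neg hX.1]
    exact hm (-X) (D.g.neg_mem hX.1) (by rw [norm_neg]; exact hX.2) z ih

open TopologicalSpace Pointwise in
include D in
theorem secondCountable [PreconnectedSpace G] : SecondCountableTopology G := by
  have : SecondCountableTopology (Mat n) :=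
    inferInstanceAs (SecondCountableTopology (Fin n → Fin n → ℝ))
  have : (𝓝 (1 : G)).IsCountablyGenerated := by
    rw [← D.ex_nhds]
    infer_instance
  have hS : IsSeparable (D.ex '' D.g) := by
    rw [image_eq_range]
    exact isSeparable_range D.ex_cont.domRestrict
  have hp : ∀ m : ℕ, IsSeparable ((D.ex '' D.g) ^ m) := by
    intro m
    induction m with
    | zero => exact (finite_singleton (1 : G)).isSeparable
    | succ m ih =>
      rw [pow_succ', ← image_mul_prod]
      exact (hS.prod ih).image continuous_mul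
  have hu : IsSeparable (univ : Set G) := by
    refine (IsSeparable.iUnion hp).mono fun x _ => ?_
    refine D.ex_induction (p := fun x => x ∈ ⋃ m : ℕ, (D.ex '' D.g) ^ m) one_pos ?_ ?_ x
    · exact mem_iUnion.2 ⟨0, rfl⟩
    · intro X hX _ y hy
      obtain ⟨m, hm⟩ := mem_iUnion.1 hy
      refine mem_iUnion.2 ⟨m + 1, ?_⟩
      rw [pow_succ']
      exact mul_mem_mul ⟨X, hX, rfl⟩ hm
  have : SeparableSpace G := isSeparable_univ_iff.1 hu
  let : UniformSpace G := IsTopologicalGroup.rightUniformSpace G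
  have : (uniformity G).IsCountablyGenerated := by
    rw [uniformity_eq_comap_nhds_one' G]
    infer_instance
  exact UniformSpace.secondCountable_of_separable G

theorem ker_countable [PreconnectedSpace G] : {x | D.ρ x = 1}.Countable := by
  have := D.secondCountable
  have h : ∀ x ∈ {x | D.ρ x = 1}, ({x} : Set G) ∈ 𝓝[{x | D.ρ x = 1}] x := by
    intro x hx
    have h1 : Tendsto (fun y : G => x⁻¹ * y) (𝓝 x) (𝓝 1) := by
      have : Continuous fun y : G => x⁻¹ * y := continuous_const.mul continuous_id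
      simpa using this.tendsto x
    have h2 := (h1.eventually D.disc).filter_mono (nhdsWithin_le_nhds (s := {x | D.ρ x = 1}))
    filter_upwards [h2, self_mem_nhdsWithin] with y hy hy'
    have h3 : D.ρ (x⁻¹ * y) = 1 := by
      have h4 := D.ρ_inv_mul x
      rw [show D.ρ x = 1 from hx, mul_one] at h4
      rw [map_mul, h4, show D.ρ y = 1 from hy', mul_one]
    exact (inv_mul_eq_one.1 (hy h3)).symm
  obtain ⟨t, -, ht, hst⟩ := TopologicalSpace.countable_cover_nhdsWithin h
  refine ht.mono ?_
  simpa using hst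

theorem grp_top [PreconnectedSpace G] : D.grp D.g = ⊤ :=
  closure_nhds (mem_of_superset (D.ex_ball_nhds one_pos) (image_mono fun _ hX => hX.1))

theorem Ad_mem_of_br [PreconnectedSpace G] {v : Submodule ℝ (Mat n)}
    (h : ∀ X ∈ D.g, ∀ Y ∈ v, ⁅X, Y⁆ ∈ v) (x : G) {Y : Mat n} (hY : Y ∈ v) : D.Ad x Y ∈ v := by
  refine D.ex_induction (p := fun x => D.Ad x Y ∈ v) one_pos ?_ ?_ x
  · rwa [D.Ad_one]
  · intro X hX _ y hy
    rw [D.Ad_mul]
    exact D.Ad_ex_mem hX (h X hX) hy

theorem comm_of_br [PreconnectedSpace G] {Z : Mat n} (h : ∀ X ∈ D.g, ⁅X, Z⁆ = 0) (x : G) :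
    D.ρ x * Z = Z * D.ρ x := by
  refine D.ex_induction (p := fun x => D.ρ x * Z = Z * D.ρ x) one_pos ?_ ?_ x
  · rw [map_one, one_mul, mul_one]
  · intro X hX _ y hy
    have h1 : Commute X Z := by
      have := h X hX
      rwa [Ring.lie_def, sub_eq_zero] at this
    have h2 : exp X * Z = Z * exp X := h1.exp_left
    rw [map_mul, D.ρ_ex X hX, mul_assoc, hy, ← mul_assoc, h2, mul_assoc]

theorem ker_central [PreconnectedSpace G] {z : G} (hz : D.ρ z = 1) (x : G) :
    z * x = x * z := by
  refine D.lift_eq (S := univ) isPreconnected_univ (f₁ := fun x => z * x) (f₂ := fun x => x * z)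
    (continuous_const.mul continuous_id).continuousOn
    (continuous_id.mul continuous_const).continuousOn ?_ (mem_univ 1) ?_ x (mem_univ x)
  · intro t _
    rw [map_mul, map_mul, hz, one_mul, mul_one]
  · rw [mul_one, one_mul]

theorem grp_normal {v : Submodule ℝ (Mat n)} (hv : v ≤ D.g) {x : G}
    (h : ∀ X ∈ v, D.Ad x X ∈ v) {y : G} (hy : y ∈ D.grp v) : x * y * x⁻¹ ∈ D.grp v := by
  induction hy using Subgroup.closure_induction with
  | mem y hy =>
    obtain ⟨X, hX, rfl⟩ := hy
    rw [D.conj_ex x (hv hX)]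
    exact Subgroup.subset_closure ⟨_, h X hX, rfl⟩
  | one => simp
  | mul y z _ _ hy hz =>
    have : x * (y * z) * x⁻¹ = x * y * x⁻¹ * (x * z * x⁻¹) := by group
    rw [this]
    exact mul_mem hy hz
  | inv y _ hy =>
    have : x * y⁻¹ * x⁻¹ = (x * y * x⁻¹)⁻¹ := by group
    rw [this]
    exact inv_mem hy

end ExpData

end Pool.Agent.P.MP_d483fb_an.Z
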