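import Pool.Agent.P.MP_d483fb_an.Z.Lie.Root1
import Pool.Agent.P.MP_d483fb_an.Z.Avg.Dich

/-! Generation by root spaces. -/

open scoped Matrix Matrix.Norms.Operator InnerProductSpace RealInnerProductSpace Topology
open NormedSpace Filter Set

noncomputable section

namespace Pool.Agent.P.MP_d483fb_an.Z

namespace Std

variable {G : Type} [Group G] [TopologicalSpace G] [IsTopologicalGroup G] [PreconnectedSpace G]
  {n k : ℕ} (D : Std G n k)

omit [PreconnectedSpace G] in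
theorem gen_all {q : Submodule ℝ (Mat n)} (hq : IsSub q) (h : ∀ β ∈ D.roots, D.gr β ≤ q) :
    D.g ≤ q := by
  refine (Avg.le_of_zed D D.g_isSub (fun _ => D.tr_mem) (Avg.zed_bot D D.g_isSub)
    (q := q ⊓ D.g) inf_le_right
    (fun X hX Y hY => ⟨hq _ hX.1 _ hY.1, D.g_isSub _ hX.2 _ hY.2⟩) ?_).trans inf_le_left
  exact le_inf (D.grS_le_of fun β hβ hr => h β (hr.resolve_left hβ)) (D.grS_le _)

omit [PreconnectedSpace G] in
theorem exists_pos_root {α γ s : Euc k} (hα : α ∈ D.roots) (h1 : ⟪α, s⟫ ≠ 0) (h2 : ⟪α, γ⟫ ≠ 0) :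
    ∃ α ∈ D.roots, ⟪α, s⟫ ≠ 0 ∧ 0 < ⟪α, γ⟫ := by
  rcases h2.lt_or_gt with h | h
  · refine ⟨-α, D.neg_mem_roots hα, ?_, ?_⟩ <;> rw [inner_neg_left]
    · exact neg_ne_zero.2 h1
    · exact neg_pos.2 h
  · exact ⟨α, hα, h1, h⟩

omit [PreconnectedSpace G] in
theorem gen_conn {q : Submodule ℝ (Mat n)} (hq : IsSub q) {s : Euc k}
    (h : ∀ γ ∈ D.roots, ⟪γ, s⟫ ≠ 0 → D.gr γ ≤ q) {β γ : Euc k} (hβ : β ∈ D.roots)
    (hs : ⟪β, s⟫ ≠ 0) (hc : D.Conn β γ) : D.gr γ ≤ q := by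
  have good : γ ∈ D.roots ∧ ∃ α ∈ D.roots, ⟪α, s⟫ ≠ 0 ∧ ⟪α, γ⟫ ≠ 0 := by
    induction hc with
    | refl => exact ⟨hβ, β, hβ, hs, inner_self_ne_zero.2 (D.root_ne_zero hβ)⟩
    | @tail γ δ _ hγδ ih =>
      obtain ⟨hγ, hδ, hne⟩ := hγδ
      refine ⟨hδ, ?_⟩
      by_cases h1 : ⟪γ, s⟫ = 0
      swap
      · exact ⟨γ, hγ, h1, hne⟩
      obtain ⟨-, α, hα, h2, h3⟩ := ih
      obtain ⟨α, hα, h2, h3⟩ := D.exists_pos_root hα h2 h3
      by_cases h4 : ⟪α, δ⟫ = 0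
      swap
      · exact ⟨α, hα, h2, h4⟩
      refine ⟨α - γ, D.sub_mem_roots hγ hα (by rwa [real_inner_comm]) ?_, ?_, ?_⟩
      · rintro rfl
        exact h2 h1
      · rwa [inner_sub_left, h1, sub_zero]
      · rwa [inner_sub_left, h4, zero_sub, neg_ne_zero]
  obtain ⟨hγ, α, hα, h2, h3⟩ := good
  by_cases h1 : ⟪γ, s⟫ = 0
  swap
  · exact h γ hγ h1
  obtain ⟨α, hα, h2, h3⟩ := D.exists_pos_root hα h2 h3
  obtain ⟨E, hE, h0⟩ := D.exists_ne_zero hα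
  intro Z hZ
  obtain ⟨W, hW, rfl⟩ := D.br_onto hE h0 h3 hZ
  refine hq _ (h α hα h2 hE) _ (h _ (D.sub_mem_roots hα hγ h3 ?_) ?_ hW)
  · rintro rfl
    exact h2 h1
  · rwa [inner_sub_left, h1, zero_sub, neg_ne_zero]

omit [PreconnectedSpace G] in
theorem gen_full {q : Submodule ℝ (Mat n)} (hq : IsSub q) {s : Euc k} (hs : D.Full s)
    (h : ∀ γ ∈ D.roots, ⟪γ, s⟫ ≠ 0 → D.gr γ ≤ q) : D.g ≤ q := by
  refine D.gen_all hq fun γ hγ => ?_
  obtain ⟨β, hβ, hc, h0⟩ := hs γ hγ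
  exact D.gen_conn hq h hβ h0 (D.conn_symm hc)

theorem full_of_wall {θ s : Euc k} (h : ∀ γ ∈ D.roots, (∀ c : ℝ, γ ≠ c • θ) → ⟪γ, s⟫ ≠ 0) :
    D.Full s := by
  intro γ hγ
  by_cases h1 : ∀ c : ℝ, γ ≠ c • θ
  · exact ⟨γ, hγ, Relation.ReflTransGen.refl, h γ hγ h1⟩
  push Not at h1
  obtain ⟨c, rfl⟩ := h1
  obtain ⟨α, hα, h2, h3⟩ := D.rank2 hγ
  have hc : c ≠ 0 := fun h0 => D.root_ne_zero hγ (by rw [h0, zero_smul])
  refine ⟨α, hα, Relation.ReflTransGen.single ⟨hγ, hα, ?_⟩, h α hα fun e he => h3 (e / c) ?_⟩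
  · rw [real_inner_comm]
    exact h2.ne'
  · rw [smul_smul, div_mul_cancel₀ _ hc, he]

theorem gen_off_line {q : Submodule ℝ (Mat n)} (hq : IsSub q) (θ : Euc k)
    (h : ∀ γ ∈ D.roots, (∀ c : ℝ, γ ≠ c • θ) → D.gr γ ≤ q) : D.g ≤ q := by
  obtain ⟨s, h0, hs⟩ := exists_generic_wall θ D.roots
  refine D.gen_full hq (D.full_of_wall hs) fun γ hγ h1 => h γ hγ fun c hc => h1 ?_
  rw [hc, real_inner_smul_left, h0, mul_zero]

omit [IsTopologicalGroup G] [PreconnectedSpace G] in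
theorem full_of_reg' {s : Euc k} (h : D.Reg s) : D.Full s :=
  fun γ hγ => ⟨γ, hγ, Relation.ReflTransGen.refl, h γ hγ⟩

set_option linter.unusedSectionVars false in
omit [PreconnectedSpace G] in
theorem full_of_reg {s : Euc k} (h : D.Reg s) : D.Full s := D.full_of_reg' h

theorem eq_top_of_roots {H : Subgroup G} (h : ∀ β ∈ D.roots, ∀ X ∈ D.gr β, D.ex X ∈ H) :
    H = ⊤ :=
  D.eq_top_of_le_lie (D.gen_all (D.lie_isSub H) fun β hβ => D.le_lie (D.gr_le β) (h β hβ))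

theorem eq_top_of_full {H : Subgroup G} {s : Euc k} (hs : D.Full s)
    (h : ∀ β ∈ D.roots, ⟪β, s⟫ ≠ 0 → ∀ X ∈ D.gr β, D.ex X ∈ H) : H = ⊤ :=
  D.eq_top_of_le_lie
    (D.gen_full (D.lie_isSub H) hs fun β hβ h0 => D.le_lie (D.gr_le β) (h β hβ h0))

theorem eq_top_off_line {H : Subgroup G} (θ : Euc k)
    (h : ∀ β ∈ D.roots, (∀ c : ℝ, β ≠ c • θ) → ∀ X ∈ D.gr β, D.ex X ∈ H) : H = ⊤ :=
  D.eq_top_of_le_lie
    (D.gen_off_line (D.lie_isSub H) θ fun β hβ h0 => D.le_lie (D.gr_le β) (h β hβ h0))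

include D in
theorem perfect {A : Type*} [CommMonoid A] (χ : G →* A) (x : G) : χ x = 1 := by
  have : χ.ker = ⊤ := D.eq_top_of_roots fun β hβ X hX => by
    have hb : ⟪β, β⟫ ≠ 0 := inner_self_ne_zero.2 (D.root_ne_zero hβ)
    have h1 := D.a_conj_ex ((Real.log 2 / ⟪β, β⟫) • β) hX
    rw [real_inner_smul_right, div_mul_cancel₀ _ hb, Real.exp_log two_pos] at h1
    have h2 := D.ex_nsmul hX.1 2
    rw [Nat.cast_ofNat, ← h1] at h2
    have h3 := congrArg χ h2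
    rw [map_mul, map_mul, mul_right_comm, ← map_mul, mul_inv_cancel, map_one, one_mul, map_pow,
      sq] at h3
    rw [MonoidHom.mem_ker]
    calc χ (D.ex X) = χ (D.ex X) * χ (D.ex X) * χ (D.ex X)⁻¹ := by
          rw [mul_assoc, ← map_mul, mul_inv_cancel, map_one, mul_one]
      _ = 1 := by rw [← h3, ← map_mul, mul_inv_cancel, map_one]
  exact MonoidHom.mem_ker.1 (this ▸ Subgroup.mem_top x)

theorem det_ρ (x : G) : (D.ρ x).det = 1 := D.perfect (Matrix.detMonoidHom.comp D.ρ) x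

omit [PreconnectedSpace G] in
theorem exists_neg_root {s : Euc k} (hs : s ≠ 0) : ∃ β ∈ D.roots, ⟪β, s⟫ < 0 := by
  by_contra h
  push Not at h
  refine hs (D.roots_span fun β hβ => le_antisymm ?_ (h β hβ))
  have := h _ (D.neg_mem_roots hβ)
  rwa [inner_neg_left, neg_nonneg] at this

set_option linter.unusedSectionVars false in
theorem Par_ne_top {s : Euc k} (hs : s ≠ 0) : D.Par s ≠ ⊤ := by
  intro h
  obtain ⟨β, hβ, h1⟩ := D.exists_neg_root hs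
  obtain ⟨E, hE, h0⟩ := D.exists_ne_zero hβ
  have h2 := D.lie_stab (half s)
  rw [show D.stab (half s) = ⊤ from h, D.lie_top] at h2
  have h3 : E ∈ D.grS (half s) := h2 ▸ hE.1
  exact h0 (ip_self_eq_zero.1 (D.ip_wtS hE.2 h3.2 (Set.disjoint_singleton_left.2 h1.not_ge)))

set_option linter.unusedSectionVars false in
theorem lt_finrank_np {m : ℕ} (hv : D.ltV m) {s : Euc k} (hs : s ≠ 0) :
    m < Module.finrank ℝ (D.np s) := by
  have h := Avg.lt_finrank_neg D hv (D.exists_neg_root (neg_ne_zero.2 hs))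
  have h1 : {γ : Euc k | ⟪γ, -s⟫ < 0} = {γ | 0 < ⟪γ, s⟫} := by
    ext γ
    simp only [mem_ofPred_eq, inner_neg_right, neg_lt_zero]
  rwa [h1] at h

set_option linter.unusedSectionVars false in
/-- The Lie algebra is spanned by the centralisers of generic elements of the walls. -/
theorem span_walls (σ : Euc k → Euc k) (hσ : ∀ β ∈ D.roots, ⟪β, σ β⟫ = 0) (s : Euc k) :
    D.g ≤ D.grS (wall s) ⊔ ⨆ β ∈ D.roots, D.grS (wall (σ β)) := by
  rw [← D.grS_univ]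
  refine D.grS_le_of fun β _ hβ => ?_
  rcases hβ with rfl | hβ
  · exact (D.gr_le_grS (wall s).zero_mem).trans le_sup_left
  · refine (D.gr_le_grS (S := wall (σ β)) (hσ β hβ)).trans (le_sup_of_le_right ?_)
    exact le_iSup₂ (f := fun β (_ : β ∈ D.roots) => D.grS (wall (σ β))) β hβ

end Std

end Pool.Agent.P.MP_d483fb_an.Z
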