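import Pool.Agent.P.MP_d483fb_an.Z.Lie.Root1

/-! The Lie algebra data at a longest root. -/

open scoped Matrix Matrix.Norms.Operator InnerProductSpace RealInnerProductSpace Topology
open NormedSpace Filter Set

noncomputable section

namespace Pool.Agent.P.MP_d483fb_an.Z

namespace Std

variable {G : Type} [Group G] [TopologicalSpace G] [IsTopologicalGroup G] [PreconnectedSpace G]
  {n k : ℕ} (D : Std G n k)

theorem exists_half_root {b : Euc k} (hb : b ∈ D.roots)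
    (hl : ∀ δ ∈ D.roots, ⟪δ, b⟫ ≠ 0 → ‖δ‖ ≤ ‖b‖) :
    ∃ c ∈ D.roots, 2 * ⟪c, b⟫ = ⟪b, b⟫ ∧ ⟪b, b⟫ ≤ 2 * ⟪c, c⟫ := by
  obtain ⟨c, hc, hpos, hne⟩ := D.rank2 hb
  have hB : 0 < ⟪b, b⟫ := real_inner_self_pos.2 (D.root_ne_zero hb)
  have hC : 0 < ⟪c, c⟫ := real_inner_self_pos.2 (D.root_ne_zero hc)
  have hle : ⟪c, c⟫ ≤ ⟪b, b⟫ := by
    rw [real_inner_self_eq_norm_sq, real_inner_self_eq_norm_sq]
    exact pow_le_pow_left₀ (norm_nonneg _) (hl c hc hpos.ne') 2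
  have hq : ∀ t : ℝ, 0 < ⟪c, c⟫ - 2 * t * ⟪c, b⟫ + t ^ 2 * ⟪b, b⟫ := by
    intro t
    have h := real_inner_self_pos.2 (sub_ne_zero.2 (hne t))
    simp only [inner_sub_left, inner_sub_right, real_inner_smul_left, real_inner_smul_right,
      real_inner_comm c b] at h
    linarith
  obtain ⟨m, hm⟩ := D.integral hb hc
  rw [real_inner_comm] at hm
  have hm1 : m = 1 := by
    have h1 : (0 : ℝ) < m := by
      by_contra h
      nlinarith [not_lt.1 h]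
    have h2 : (m : ℝ) < 2 := by
      by_contra h
      nlinarith [not_lt.1 h, hq 1]
    have h1' : 0 < m := by exact_mod_cast h1
    have h2' : m < 2 := by exact_mod_cast h2
    omega
  rw [hm1, Int.cast_one, one_mul] at hm
  obtain ⟨m', hm'⟩ := D.integral hc hb
  by_cases h2 : m' ≤ 2
  · have : (m' : ℝ) ≤ 2 := by exact_mod_cast h2
    exact ⟨c, hc, hm, by nlinarith⟩
  have h3 : m' = 3 := by
    have h4 : (m' : ℝ) < 4 := by
      by_contra h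
      nlinarith [not_lt.1 h, hq (1 / 2)]
    have h4' : m' < 4 := by exact_mod_cast h4
    omega
  rw [h3] at hm'
  push_cast at hm'
  have hr : -refl c b = (3 : ℝ) • c - b := by
    rw [refl, hm', mul_div_assoc, div_self hC.ne', mul_one, neg_sub]
  refine ⟨(3 : ℝ) • c - b, hr ▸ D.neg_mem_roots (D.refl_mem_roots hc hb), ?_, ?_⟩
  · simp only [inner_sub_left, real_inner_smul_left]
    linarith
  · simp only [inner_sub_left, inner_sub_right, real_inner_smul_left, real_inner_smul_right,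
      real_inner_comm c b]
    linarith

omit [PreconnectedSpace G] in
theorem exists_half_data {a c b : Euc k} (hab : a + c = b)
    (hl : ∀ δ ∈ D.roots, ⟪δ, b⟫ ≠ 0 → ‖δ‖ ≤ ‖b‖) (hB : 0 < ⟪b, b⟫) (ha : 2 * ⟪a, b⟫ = ⟪b, b⟫)
    (hA : ⟪b, b⟫ ≤ 2 * ⟪a, a⟫) {x z : Mat n} (hx : x ∈ D.gr a)
    (hz : z ∈ D.gr b) (hz0 : z ≠ 0) :
    ⁅z, x⁆ = 0 ∧ ∃ w ∈ D.gr (-c), ⁅w, z⁆ = x ∧ ⁅w, ⁅w, x⁆⁆ = 0 ∧ ⁅z, ⁅w, x⁆⁆ = 0 ∧
      ⁅x, ⁅w, x⁆⁆ = 0 := by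
  have hnot : ∀ p q : ℝ, 2 * p + q ≠ 0 → 1 < p ^ 2 + p * q + q ^ 2 / 2 → ∀ {β γ : Euc k}
      {X Y : Mat n}, X ∈ D.gr β → Y ∈ D.gr γ → β + γ = p • b + q • a → ⁅X, Y⁆ = 0 := by
    intro p q h1 h2 β γ X Y hX hY he
    have hi : ⟪p • b + q • a, b⟫ ≠ 0 := by
      simp only [inner_add_left, real_inner_smul_left]
      have : p * ⟪b, b⟫ + q * ⟪a, b⟫ = (2 * p + q) * ⟪a, b⟫ := by rw [← ha]; ring
      rw [this]
      exact mul_ne_zero h1 (by linarith)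
    refine D.br_eq_zero hX hY ?_ ?_
    · rw [he]
      intro h0
      rw [h0, inner_zero_left] at hi
      exact hi rfl
    · rw [he]
      intro hr
      have h3 := pow_le_pow_left₀ (norm_nonneg _) (hl _ hr hi) 2
      rw [← real_inner_self_eq_norm_sq, ← real_inner_self_eq_norm_sq] at h3
      simp only [inner_add_left, inner_add_right, real_inner_smul_left, real_inner_smul_right,
        real_inner_comm a b] at h3
      have h4 : q ^ 2 * ⟪b, b⟫ ≤ q ^ 2 * (2 * ⟪a, a⟫) :=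
        mul_le_mul_of_nonneg_left hA (sq_nonneg q)
      have h5 : ⟪a, b⟫ = ⟪b, b⟫ / 2 := by linarith
      rw [h5] at h3
      nlinarith
  have hca : c = b - a := by rw [← hab]; abel
  refine ⟨hnot 1 1 (by norm_num) (by norm_num) hz hx (by simp), ?_⟩
  obtain ⟨W, hW, hWx⟩ := D.br_onto hz hz0 (by rw [real_inner_comm]; linarith) hx
  have hw : -W ∈ D.gr (-c) := by
    rw [hca, neg_sub]
    exact Submodule.neg_mem _ hW
  have hx2 := D.br_gr hw hx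
  refine ⟨-W, hw, ?_, ?_, ?_, ?_⟩
  · rw [← hWx, Ring.lie_def, Ring.lie_def]
    noncomm_ring
  · exact hnot (-2) 3 (by norm_num) (by norm_num) hw hx2 (by rw [hca]; module)
  · exact hnot 0 2 (by norm_num) (by norm_num) hz hx2 (by rw [hca]; module)
  · exact hnot (-1) 3 (by norm_num) (by norm_num) hx hx2 (by rw [hca]; module)

theorem exists_stLie {b : Euc k} (hb : b ∈ D.roots)
    (hl : ∀ δ ∈ D.roots, ⟪δ, b⟫ ≠ 0 → ‖δ‖ ≤ ‖b‖) :
    ∃ (a c : Euc k) (x y z w w' f : Mat n), a + c = b ∧ 0 < ⟪a, b⟫ ∧ 0 < ⟪c, b⟫ ∧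
      0 < ⟪a - c, a⟫ ∧ 0 < ⟪c - a, c⟫ ∧
      x ∈ D.gr a ∧ y ∈ D.gr c ∧ z ∈ D.gr b ∧ w ∈ D.gr (-c) ∧ w' ∈ D.gr (-a) ∧ f ∈ D.gr (-b) ∧
      ⁅x, y⁆ = z ∧ ⁅z, x⁆ = 0 ∧ ⁅z, y⁆ = 0 ∧
      ⁅w, z⁆ = x ∧ ⁅w, ⁅w, x⁆⁆ = 0 ∧ ⁅z, ⁅w, x⁆⁆ = 0 ∧ ⁅x, ⁅w, x⁆⁆ = 0 ∧
      ⁅w', z⁆ = y ∧ ⁅w', ⁅w', y⁆⁆ = 0 ∧ ⁅z, ⁅w', y⁆⁆ = 0 ∧ ⁅y, ⁅w', y⁆⁆ = 0 ∧
      ⁅z, f⁆ = D.dg ((2 / ⟪b, b⟫) • b) := by
  obtain ⟨c, hc, hcb, hC⟩ := D.exists_half_root hb hl
  have hB : 0 < ⟪b, b⟫ := real_inner_self_pos.2 (D.root_ne_zero hb)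
  have hne : b ≠ c := by
    rintro rfl
    linarith
  have ha : b - c ∈ D.roots := D.sub_mem_roots hc hb (by linarith) hne
  have hab : 2 * ⟪b - c, b⟫ = ⟪b, b⟫ := by
    rw [inner_sub_left]
    linarith
  have hA : ⟪b, b⟫ ≤ 2 * ⟪b - c, b - c⟫ := by
    simp only [inner_sub_left, inner_sub_right, real_inner_comm c b]
    linarith
  obtain ⟨z, hz, hz0⟩ := D.exists_ne_zero hb
  obtain ⟨x, hx, hx0⟩ := D.exists_ne_zero ha
  obtain ⟨y, hy, hxy⟩ := D.br_onto hx hx0 (by linarith) hz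
  rw [sub_sub_cancel] at hy
  obtain ⟨h1, w, hw, h2, h3, h4, h5⟩ :=
    D.exists_half_data (sub_add_cancel b c) hl hB hab hA hx hz hz0
  obtain ⟨h1', w', hw', h2', h3', h4', h5'⟩ :=
    D.exists_half_data (add_sub_cancel c b) hl hB hcb hC hy hz hz0
  obtain ⟨f, hf, hzf⟩ := D.exists_sl2 (D.root_ne_zero hb) hz hz0
  refine ⟨b - c, c, x, y, z, w, w', f, sub_add_cancel b c, by linarith, by linarith, ?_, ?_,
    hx, hy, hz, hw, hw', hf, hxy, h1, h1', h2, h3, h4, h5, h2', h3', h4', h5', hzf⟩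
  · simp only [inner_sub_left, inner_sub_right, real_inner_comm c b]
    linarith
  · simp only [inner_sub_left, real_inner_comm c b]
    linarith

end Std

end Pool.Agent.P.MP_d483fb_an.Z
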