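import Pool.Agent.P.MP_d483fb_an.Z.Lie.Defs

/-! The trace form, Hadamard masks and generic vectors. -/

open scoped Matrix Matrix.Norms.Operator InnerProductSpace RealInnerProductSpace Topology
open NormedSpace Filter Set

noncomputable section

namespace Pool.Agent.P.MP_d483fb_an.Z

variable {n : ℕ}

theorem ip_eq_trace (X Y : Mat n) : ip X Y = Matrix.trace (X * Yᵀ) := by
  simp [ip, Matrix.trace, Matrix.mul_apply]

theorem ip_comm (X Y : Mat n) : ip X Y = ip Y X := by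
  simp only [ip, mul_comm]

theorem ip_add_left (X Y Z : Mat n) : ip (X + Y) Z = ip X Z + ip Y Z := by
  simp only [ip, Matrix.add_apply, add_mul, Finset.sum_add_distrib]

theorem ip_add_right (X Y Z : Mat n) : ip X (Y + Z) = ip X Y + ip X Z := by
  simp only [ip, Matrix.add_apply, mul_add, Finset.sum_add_distrib]

theorem ip_smul_left (c : ℝ) (X Y : Mat n) : ip (c • X) Y = c * ip X Y := by
  simp only [ip, Matrix.smul_apply, smul_eq_mul, Finset.mul_sum, mul_assoc]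

theorem ip_smul_right (c : ℝ) (X Y : Mat n) : ip X (c • Y) = c * ip X Y := by
  rw [ip_comm, ip_smul_left, ip_comm]

theorem ip_neg_left (X Y : Mat n) : ip (-X) Y = -ip X Y := by
  simp only [ip, Matrix.neg_apply, neg_mul, Finset.sum_neg_distrib]

theorem ip_neg_right (X Y : Mat n) : ip X (-Y) = -ip X Y := by
  rw [ip_comm, ip_neg_left, ip_comm]

theorem ip_sub_left (X Y Z : Mat n) : ip (X - Y) Z = ip X Z - ip Y Z := by
  rw [sub_eq_add_neg, ip_add_left, ip_neg_left, sub_eq_add_neg]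

theorem ip_sub_right (X Y Z : Mat n) : ip X (Y - Z) = ip X Y - ip X Z := by
  rw [sub_eq_add_neg, ip_add_right, ip_neg_right, sub_eq_add_neg]

theorem ip_zero_left (X : Mat n) : ip 0 X = 0 := by
  simp [ip]

theorem ip_zero_right (X : Mat n) : ip X 0 = 0 := by
  simp [ip]

theorem ip_self_nonneg (X : Mat n) : 0 ≤ ip X X := Finset.sum_nonneg fun _ _ =>
  Finset.sum_nonneg fun _ _ => mul_self_nonneg _

theorem ip_self_eq_zero {X : Mat n} : ip X X = 0 ↔ X = 0 := by
  refine ⟨fun h => ?_, fun h => by rw [h, ip_zero_left]⟩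
  ext i j
  have h1 := (Finset.sum_eq_zero_iff_of_nonneg fun i _ =>
    Finset.sum_nonneg fun j _ => mul_self_nonneg (X i j)).1 h i (Finset.mem_univ i)
  have h2 := (Finset.sum_eq_zero_iff_of_nonneg fun j _ => mul_self_nonneg (X i j)).1 h1 j
    (Finset.mem_univ j)
  exact mul_self_eq_zero.1 h2

theorem ip_self_pos {X : Mat n} (h : X ≠ 0) : 0 < ip X X :=   (ip_self_nonneg X).lt_of_ne fun e => h (ip_self_eq_zero.1 e.symm)

theorem ip_tr (X Y : Mat n) : ip Xᵀ Yᵀ = ip X Y := by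
  simp only [ip, Matrix.transpose_apply]
  exact Finset.sum_comm

theorem ip_mul_left (X Y Z : Mat n) : ip (X * Y) Z = ip Y (Xᵀ * Z) := by
  rw [ip_eq_trace, ip_eq_trace, Matrix.transpose_mul, Matrix.transpose_transpose,
    Matrix.mul_assoc, Matrix.trace_mul_comm, Matrix.mul_assoc]

theorem ip_mul_right (X Y Z : Mat n) : ip (Y * X) Z = ip Y (Z * Xᵀ) := by
  rw [ip_eq_trace, ip_eq_trace, Matrix.transpose_mul, Matrix.transpose_transpose,
    Matrix.mul_assoc]

theorem ip_br (X Y Z : Mat n) : ip ⁅X, Y⁆ Z = ip Y ⁅Xᵀ, Z⁆ := by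
  rw [Ring.lie_def, Ring.lie_def, ip_sub_left, ip_sub_right, ip_mul_left, ip_mul_right]

theorem tr_br (X Y : Mat n) : ⁅X, Y⁆ᵀ = ⁅Yᵀ, Xᵀ⁆ := by
  rw [Ring.lie_def, Ring.lie_def, Matrix.transpose_sub, Matrix.transpose_mul,
    Matrix.transpose_mul]

theorem ip_cont : Continuous fun p : Mat n × Mat n => ip p.1 p.2 := by
  unfold ip
  refine continuous_finsetSum _ fun i _ => continuous_finsetSum _ fun j _ => ?_
  exact (continuous_fst.matrix_elem i j).mul (continuous_snd.matrix_elem i j)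

/-- Matrices as Euclidean vectors. -/
def Mx2_vec : Mat n →ₗ[ℝ] EuclideanSpace ℝ (Fin n × Fin n) where
  toFun X := WithLp.toLp 2 fun p => X p.1 p.2
  map_add' _ _ := rfl
  map_smul' _ _ := rfl

theorem Mx2_inner (X Y : Mat n) : ⟪Mx2_vec X, Mx2_vec Y⟫ = ip X Y := by
  simp only [ip, PiLp.inner_apply, Fintype.sum_prod_type, RCLike.inner_apply, conj_trivial,
    mul_comm]
  rfl

theorem exists_proj (v : Submodule ℝ (Mat n)) (X : Mat n) :
    ∃ Y ∈ v, ∀ Z ∈ v, ip (X - Y) Z = 0 := by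
  obtain ⟨_, ⟨Y, hY, rfl⟩, z, hz, e⟩ :=
    (v.map Mx2_vec).exists_add_mem_mem_orthogonal (Mx2_vec X)
  refine ⟨Y, hY, fun Z hZ => ?_⟩
  rw [← Mx2_inner, map_sub, e, add_sub_cancel_left]
  exact Submodule.inner_left_of_mem_orthogonal (Submodule.mem_map_of_mem hZ) hz

theorem le_of_orth {v w : Submodule ℝ (Mat n)} (hvw : v ≤ w)
    (h : ∀ X ∈ w, (∀ Y ∈ v, ip X Y = 0) → X = 0) : w ≤ v := by
  intro X hX
  obtain ⟨Y, hY, h1⟩ := exists_proj v X
  have h2 := h (X - Y) (w.sub_mem hX (hvw hY)) h1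
  rwa [sub_eq_zero.1 h2]

/-- The Hadamard multipliers of a subspace. -/
def Mx2_mult (v : Submodule ℝ (Mat n)) : Subalgebra ℝ (Fin n × Fin n → ℝ) where
  carrier := {m | ∀ X ∈ v, (Matrix.of fun i j => m (i, j) * X i j) ∈ v}
  mul_mem' := by
    intro a b ha hb X hX
    have := ha _ (hb X hX)
    simpa only [Matrix.of_apply, Pi.mul_apply, mul_assoc] using this
  add_mem' := by
    intro a b ha hb X hX
    have := v.add_mem (ha X hX) (hb X hX)
    convert this using 1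
    ext i j
    simp [add_mul]
  algebraMap_mem' := by
    intro r X hX
    exact v.smul_mem r hX

open Classical in
/-- A subspace invariant under a family of Hadamard multiplications is invariant under every mask
which is constant on the level sets of the family. -/
theorem mask_mem {ι : Type} (v : Submodule ℝ (Mat n)) (c : ι → Fin n → Fin n → ℝ)
    (h : ∀ a, ∀ X ∈ v, (Matrix.of fun i j => c a i j * X i j) ∈ v) (S : Set (Fin n × Fin n))
    (hS : ∀ p ∈ S, ∀ q : Fin n × Fin n, (∀ a, c a p.1 p.2 = c a q.1 q.2) → q ∈ S)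
    {X : Mat n} (hX : X ∈ v) : (Matrix.of fun i j => if (i, j) ∈ S then X i j else 0) ∈ v := by
  have h1 : ∀ p ∈ S, ∀ q ∉ S, ∃ f ∈ Mx2_mult v, f p = 1 ∧ f q = 0 := by
    intro p hp q hq
    obtain ⟨a, ha⟩ : ∃ a, c a p.1 p.2 ≠ c a q.1 q.2 := by
      by_contra hc
      exact hq (hS p hp q fun a => by_contra fun e => hc ⟨a, e⟩)
    have hm : (fun r : Fin n × Fin n => c a r.1 r.2) ∈ Mx2_mult v := h a
    refine ⟨(c a p.1 p.2 - c a q.1 q.2)⁻¹ • ((fun r : Fin n × Fin n => c a r.1 r.2) -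
      algebraMap ℝ _ (c a q.1 q.2)), Subalgebra.smul_mem _ (Subalgebra.sub_mem _ hm
        (Subalgebra.algebraMap_mem _ _)) _, ?_, ?_⟩
    · simpa using inv_mul_cancel₀ (sub_ne_zero.2 ha)
    · simp
  have h2 : ∀ p ∈ S, ∃ g ∈ Mx2_mult v, g p = 1 ∧ ∀ q ∉ S, g q = 0 := by
    intro p hp
    choose! f hf hf1 hf0 using h1 p hp
    refine ⟨∏ q ∈ Finset.univ.filter (· ∉ S), f q,
      Subalgebra.prod_mem _ fun q hq => hf q (Finset.mem_filter.1 hq).2, ?_, fun q hq => ?_⟩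
    · rw [Finset.prod_apply]
      exact Finset.prod_eq_one fun q hq => hf1 q (Finset.mem_filter.1 hq).2
    · rw [Finset.prod_apply]
      exact Finset.prod_eq_zero (Finset.mem_filter.2 ⟨Finset.mem_univ q, hq⟩) (hf0 q hq)
  choose! g hg hg1 hg0 using h2
  have h3 : 1 - ∏ p ∈ Finset.univ.filter (· ∈ S), (1 - g p) ∈ Mx2_mult v :=
    Subalgebra.sub_mem _ (Subalgebra.one_mem _) (Subalgebra.prod_mem _ fun p hp =>
      Subalgebra.sub_mem _ (Subalgebra.one_mem _) (hg p (Finset.mem_filter.1 hp).2))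
  convert h3 X hX using 4 with i j
  rw [Pi.sub_apply, Finset.prod_apply, Pi.one_apply]
  split_ifs with hij
  · rw [Finset.prod_eq_zero (Finset.mem_filter.2 ⟨Finset.mem_univ (i, j), hij⟩)
      (by rw [Pi.sub_apply, hg1 _ hij, Pi.one_apply, sub_self]), sub_zero, one_mul]
  · rw [Finset.prod_eq_one fun p hp => by
      rw [Pi.sub_apply, hg0 p (Finset.mem_filter.1 hp).2 _ hij, Pi.one_apply, sub_zero],
      sub_self, zero_mul]

/-- A vector of a subspace, close to a given one, off finitely many hyperplanes. -/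
theorem exists_generic {k : ℕ} (W : Submodule ℝ (Euc k)) (F : Finset (Euc k))
    (hF : ∀ β ∈ F, ∃ s ∈ W, ⟪β, s⟫ ≠ 0) {s₀ : Euc k} (h₀ : s₀ ∈ W) {O : Set (Euc k)}
    (hO : O ∈ 𝓝 s₀) : ∃ s ∈ W, s ∈ O ∧ ∀ β ∈ F, ⟪β, s⟫ ≠ 0 := by
  classical
  induction F using Finset.induction_on generalizing s₀ O with
  | empty => exact ⟨s₀, h₀, mem_of_mem_nhds hO, by simp⟩
  | insert β F _ ih =>
    obtain ⟨s₁, hs₁, hO₁, h₁⟩ := ih (fun γ hγ => hF γ (Finset.mem_insert_of_mem hγ)) h₀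
      (interior_mem_nhds.2 hO)
    by_cases hb : ⟪β, s₁⟫ = 0
    · obtain ⟨w, hw, hβ⟩ := hF β (Finset.mem_insert_self _ _)
      have e1 : ∀ᶠ s in 𝓝 s₁, s ∈ O := mem_interior_iff_mem_nhds.1 hO₁
      have e2 : ∀ᶠ s in 𝓝 s₁, ∀ γ ∈ F, ⟪γ, s⟫ ≠ 0 :=
        (Finset.eventually_all F).2 fun γ hγ =>
          (continuous_const.inner continuous_id).continuousAt.eventually_ne (h₁ γ hγ)
      have ht : Tendsto (fun t : ℝ => s₁ + t • w) (𝓝[≠] 0) (𝓝 s₁) := by
        have : Continuous fun t : ℝ => s₁ + t • w := by fun_prop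
        simpa using (this.tendsto 0).mono_left nhdsWithin_le_nhds
      obtain ⟨t, ⟨a1, a2⟩, a3⟩ := ((ht.eventually (e1.and e2)).and self_mem_nhdsWithin).exists
      refine ⟨s₁ + t • w, W.add_mem hs₁ (W.smul_mem t hw), a1, fun γ hγ => ?_⟩
      rcases Finset.mem_insert.1 hγ with rfl | hγ
      · rw [inner_add_right, hb, zero_add, real_inner_smul_right]
        exact mul_ne_zero a3 hβ
      · exact a2 γ hγ
    · refine ⟨s₁, hs₁, interior_subset hO₁, fun γ hγ => ?_⟩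
      rcases Finset.mem_insert.1 hγ with rfl | hγ
      · exact hb
      · exact h₁ γ hγ

/-- A vector orthogonal to `θ` and to no vector of `F` that is off the line of `θ`. -/
theorem exists_generic_wall {k : ℕ} (θ : Euc k) (F : Finset (Euc k)) :
    ∃ s : Euc k, ⟪θ, s⟫ = 0 ∧ ∀ β ∈ F, (∀ c : ℝ, β ≠ c • θ) → ⟪β, s⟫ ≠ 0 := by
  classical
  obtain ⟨s, hs, -, h⟩ := exists_generic (ℝ ∙ θ)ᗮ (F.filter fun β => ∀ c : ℝ, β ≠ c • θ)
    (fun β hβ => by
      by_contra hc
      have h1 : β ∈ (ℝ ∙ θ)ᗮᗮ := (Submodule.mem_orthogonal' _ _).2 fun s hs =>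
        by_contra fun e => hc ⟨s, hs, e⟩
      rw [Submodule.orthogonal_orthogonal, Submodule.mem_span_singleton] at h1
      obtain ⟨c, hc'⟩ := h1
      exact (Finset.mem_filter.1 hβ).2 c hc'.symm)
    (Submodule.zero_mem _) univ_mem
  exact ⟨s, Submodule.mem_orthogonal_singleton_iff_inner_right.1 hs,
    fun β hβ hc => h β (Finset.mem_filter.2 ⟨hβ, hc⟩)⟩

end Pool.Agent.P.MP_d483fb_an.Z
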