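import Pool.Agent.P.MP_d483fb_an.Z.Lie.StdK
import Pool.Agent.P.MP_d483fb_an.Z.HP.NilExp

/-! Unipotent subgroups. -/

open scoped Matrix Matrix.Norms.Operator InnerProductSpace RealInnerProductSpace Topology
open NormedSpace Filter Set

set_option linter.unusedSectionVars false

noncomputable section

namespace Pool.Agent.P.MP_d483fb_an.Z

namespace Std

variable {G : Type} [Group G] [TopologicalSpace G] [IsTopologicalGroup G] {n k : ℕ}
  (D : Std G n k)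

variable {P : Set (Euc k)} {H : Euc k}

theorem wtS_le_Fil (hP : Pos P H) : D.wtS P ≤ NE.Fil (fun i => ⟪D.lam i, H⟫) 1 := fun X hX => NE.mem_Fil_one.2 fun i j h => by
  have := hP.pos _ (hX i j h)
  rw [inner_sub_left] at this
  exact sub_pos.1 this

omit [IsTopologicalGroup G] in
theorem Unip_pow (hP : Pos P H) {Y : Mat n} (hY : Y ∈ D.wtS P) (m : ℕ) :
    Y ^ (m + 1) ∈ D.wtS P := by
  induction m with
  | zero => simpa using hY
  | succ m ih => rw [pow_succ]; exact D.wtS_mul ih hY hP.add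

omit [IsTopologicalGroup G] in
theorem Unip_mul (hP : Pos P H) {x y : Mat n} (hx : 1 - x ∈ D.wtS P) (hy : 1 - y ∈ D.wtS P) :
    1 - x * y ∈ D.wtS P := by
  have : 1 - x * y = (1 - x) + (1 - y) - (1 - x) * (1 - y) := by noncomm_ring
  rw [this]
  exact Submodule.sub_mem _ (Submodule.add_mem _ hx hy) (D.wtS_mul hx hy hP.add)

theorem Unip_nlog_cont : Continuous (NE.nlog : Mat n → Mat n) :=
  (NE.contDiff_nlog (n := 0)).continuous

theorem Unip_norm_pow {A : Mat n} {B : ℝ} (hB : 1 ≤ B) (h : ‖A‖ ≤ B) {j : ℕ} (hj : j ≤ n) :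
    ‖A ^ j‖ ≤ (‖(1 : Mat n)‖ + 1) * B ^ n := by
  have h1 : (1 : ℝ) ≤ B ^ n := one_le_pow₀ hB
  have h0 := norm_nonneg (1 : Mat n)
  rcases Nat.eq_zero_or_pos j with rfl | hj0
  · rw [pow_zero]
    nlinarith
  · have h2 : ‖A ^ j‖ ≤ B ^ n := (norm_pow_le' A hj0).trans
      ((pow_le_pow_left₀ (norm_nonneg _) h j).trans (pow_le_pow_right₀ hB hj))
    nlinarith

theorem one_sub_exp_mem (hP : Pos P H) {Y : Mat n} (hY : Y ∈ D.wtS P) :
    1 - exp Y ∈ D.wtS P := by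
  rw [NE.exp_eq_sum (D.wtS_le_Fil hP hY), Finset.sum_range_succ']
  simp only [Nat.factorial_zero, Nat.cast_one, inv_one, pow_zero, one_smul, sub_add_cancel_right]
  exact Submodule.neg_mem _ (Submodule.sum_mem _ fun j _ => Submodule.smul_mem _ _
    (D.Unip_pow hP hY j))

theorem nlog_mem_wtS (hP : Pos P H) {y : Mat n} (hy : 1 - y ∈ D.wtS P) :
    NE.nlog y ∈ D.wtS P :=   Submodule.neg_mem _ (Submodule.sum_mem _ fun j _ => Submodule.smul_mem _ _ (D.Unip_pow hP hy j))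

theorem unip_log (hP : Pos P H) {x : G} (hx : 1 - D.ρ x ∈ D.wtS P) :
    NE.nlog (D.ρ x) ∈ D.grS P ∧ exp (NE.nlog (D.ρ x)) = D.ρ x := by
  have he := NE.exp_nlog (D.wtS_le_Fil hP hx)
  have hw := D.nlog_mem_wtS hP hx
  refine ⟨⟨?_, hw⟩, he⟩
  set Y := NE.nlog (D.ρ x)
  have h0 := D.tendsto_Ad_a (s := H) (D.wtS_mono (fun β hβ => hP.pos β hβ) hw)
  have h1 : ∀ᶠ y in 𝓝[range D.ρ] (1 : Mat n), mlog y ∈ D.g := by
    rw [← D.opn]
    exact D.ex_lg.mono fun x hx => hx.1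
  have h2 : Tendsto (fun t : ℝ => exp (D.Ad (D.a (-(t • H))) Y)) atTop (𝓝[range D.ρ] 1) := by
    refine tendsto_nhdsWithin_iff.2 ⟨?_, .of_forall fun t => ?_⟩
    · have := ((exp_cont (A := Mat n)).tendsto 0).comp h0
      rwa [exp_zero] at this
    · refine ⟨D.a (-(t • H)) * x * (D.a (-(t • H)))⁻¹, ?_⟩
      rw [← D.Ad_exp, he, D.Ad_apply, map_mul, map_mul]
  have h3 : ∀ᶠ X in 𝓝 (0 : Mat n), mlog (exp X) = X := mlog_exp
  obtain ⟨t, ht, ht'⟩ := ((h2.eventually h1).and (h0.eventually h3)).exists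
  rw [ht'] at ht
  have := D.Ad_mem (D.a (-(t • H)))⁻¹ ht
  rwa [D.Ad_inv_Ad] at this

theorem ex_mul_ex (hP : Pos P H) {Y Z : Mat n} (hY : Y ∈ D.grS P) (hZ : Z ∈ D.grS P) :
    NE.nlog (exp Y * exp Z) ∈ D.grS P ∧
      D.ex Y * D.ex Z = D.ex (NE.nlog (exp Y * exp Z)) := by
  have hm : ∀ t : ℝ, NE.nlog (exp (t • Y) * exp (t • Z)) ∈ D.grS P ∧
      exp (NE.nlog (exp (t • Y) * exp (t • Z))) = D.ρ (D.ex (t • Y) * D.ex (t • Z)) := by
    intro t
    have e : D.ρ (D.ex (t • Y) * D.ex (t • Z)) = exp (t • Y) * exp (t • Z) := by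
      rw [map_mul, D.ρ_ex _ (D.g.smul_mem t hY.1), D.ρ_ex _ (D.g.smul_mem t hZ.1)]
    rw [← e]
    refine D.unip_log hP ?_
    rw [e]
    exact D.Unip_mul hP (D.one_sub_exp_mem hP (Submodule.smul_mem _ t hY.2))
      (D.one_sub_exp_mem hP (Submodule.smul_mem _ t hZ.2))
  have hc : Continuous fun t : ℝ => NE.nlog (exp (t • Y) * exp (t • Z)) :=
    Unip_nlog_cont.comp (((exp_cont (A := Mat n)).comp (continuous_id.smul continuous_const)).mul
      ((exp_cont (A := Mat n)).comp (continuous_id.smul continuous_const)))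
  have key := D.lift_eq (S := univ) isPreconnected_univ
    (f₁ := fun t : ℝ => D.ex (t • Y) * D.ex (t • Z))
    (f₂ := fun t : ℝ => D.ex (NE.nlog (exp (t • Y) * exp (t • Z))))
    ((D.ex_smul_cont hY.1).mul (D.ex_smul_cont hZ.1)).continuousOn
    (D.ex_cont.comp hc.continuousOn fun t _ => (hm t).1.1)
    (fun t _ => by rw [D.ρ_ex _ (hm t).1.1, (hm t).2]) (mem_univ 0)
    (by simp [NE.nlog_one, D.ex_zero]) 1 (mem_univ _)
  have h1 := (hm 1).1
  simp only [one_smul] at key h1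
  exact ⟨h1, key⟩

theorem mem_grp_grS (hP : Pos P H) {x : G} :
    x ∈ D.grp (D.grS P) ↔ ∃ Y ∈ D.grS P, x = D.ex Y := by
  refine ⟨fun h => ?_, fun ⟨Y, hY, e⟩ => Subgroup.subset_closure ⟨Y, hY, e.symm⟩⟩
  induction h using Subgroup.closure_induction with
  | mem x hx =>
    obtain ⟨Y, hY, rfl⟩ := hx
    exact ⟨Y, hY, rfl⟩
  | one => exact ⟨0, zero_mem _, D.ex_zero.symm⟩
  | mul x y _ _ hx hy =>
    obtain ⟨Y, hY, rfl⟩ := hx
    obtain ⟨Z, hZ, rfl⟩ := hy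
    exact ⟨_, (D.ex_mul_ex hP hY hZ).1, (D.ex_mul_ex hP hY hZ).2⟩
  | inv x _ hx =>
    obtain ⟨Y, hY, rfl⟩ := hx
    exact ⟨-Y, neg_mem hY, (D.ex_neg hY.1).symm⟩

theorem nlog_ρ_ex (hP : Pos P H) {Y : Mat n} (hY : Y ∈ D.grS P) :
    NE.nlog (D.ρ (D.ex Y)) = Y := by
  rw [D.ρ_ex _ hY.1, NE.nlog_exp (D.wtS_le_Fil hP hY.2)]

theorem ex_closedEmbedding (hP : Pos P H) :
    Topology.IsClosedEmbedding fun Y : D.grS P => D.ex Y := by
  have := D.t2Space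
  have hc : Continuous fun Y : D.grS P => D.ex Y :=
    D.ex_cont.comp_continuous continuous_subtype_val fun Y => Y.2.1
  have hl : Continuous fun x : G => NE.nlog (D.ρ x) := Unip_nlog_cont.comp D.cont
  refine ⟨Topology.IsEmbedding.of_comp hc hl ?_, ?_⟩
  · have e : (fun x : G => NE.nlog (D.ρ x)) ∘ (fun Y : D.grS P => D.ex Y) = Subtype.val :=
      funext fun Y => D.nlog_ρ_ex hP Y.2
    rw [e]
    exact Topology.IsEmbedding.subtypeVal
  · have hC : IsClosed {x : G | 1 - D.ρ x ∈ D.wtS P} :=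
      (D.wtS P).closed_of_finiteDimensional.preimage (continuous_const.sub D.cont)
    have h := hC.isClosed_eq (f := fun x => D.ex (NE.nlog (D.ρ x))) (g := id)
      (D.ex_cont.comp hl.continuousOn fun x hx => (D.unip_log hP hx).1.1) continuousOn_id
    convert h using 1
    ext x
    constructor
    · rintro ⟨Y, rfl⟩
      refine ⟨?_, ?_⟩
      · show 1 - D.ρ (D.ex Y) ∈ D.wtS P
        rw [D.ρ_ex _ Y.2.1]
        exact D.one_sub_exp_mem hP Y.2.2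
      · show D.ex (NE.nlog (D.ρ (D.ex Y))) = D.ex Y
        rw [D.nlog_ρ_ex hP Y.2]
    · rintro ⟨hx, e⟩
      exact ⟨⟨_, (D.unip_log hP hx).1⟩, e⟩

theorem grp_grS_closed (hP : Pos P H) : IsClosed (D.grp (D.grS P) : Set G) := by
  convert (D.ex_closedEmbedding hP).isClosed_range using 1
  ext x
  rw [SetLike.mem_coe, D.mem_grp_grS hP]
  exact ⟨fun ⟨Y, hY, e⟩ => ⟨⟨Y, hY⟩, e.symm⟩, fun ⟨Y, e⟩ => ⟨Y, Y.2, e.symm⟩⟩

theorem lie_grp_grS (hP : Pos P H) : D.lie (D.grp (D.grS P)) = D.grS P := by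
  refine le_antisymm (fun X hX => ?_)
    (D.le_lie (D.grS_le P) fun X hX => (D.mem_grp_grS hP).2 ⟨X, hX, rfl⟩)
  obtain ⟨hg, h⟩ := (D.mem_lie (D.grp_grS_closed hP)).1 hX
  refine ⟨hg, ?_⟩
  have h1 : ∀ t : ℝ, 1 - exp (t • X) ∈ D.wtS P := fun t => by
    obtain ⟨Y, hY, e⟩ := (D.mem_grp_grS hP).1 (h t)
    rw [← D.ρ_ex _ (D.g.smul_mem t hg), e, D.ρ_ex _ hY.1]
    exact D.one_sub_exp_mem hP hY.2
  have h2 := hasDerivAt_iff_tendsto_slope.1 (hasDerivAt_exp_smul_const (𝕂 := ℝ) X 0)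
  simp only [zero_smul, exp_zero, one_mul] at h2
  refine (D.wtS P).closed_of_finiteDimensional.mem_of_tendsto h2 (.of_forall fun t => ?_)
  rw [slope_def_module, zero_smul, exp_zero, ← neg_sub 1]
  exact Submodule.smul_mem _ _ (neg_mem (h1 t))

theorem norm_exp_le (H : Euc k) : ∃ C : ℝ, ∀ Y ∈ D.wtS {γ | 0 < ⟪γ, H⟫},
    ‖exp Y‖ ≤ C * (1 + ‖Y‖) ^ n ∧ ‖Y‖ ≤ C * (1 + ‖exp Y‖) ^ n := by
  set c : ℝ := ‖(1 : Mat n)‖ + 1 with hc
  have hc1 : 1 ≤ c := le_add_of_nonneg_left (norm_nonneg _)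
  refine ⟨(n + 1) * c * c ^ n, fun Y hY => ?_⟩
  have hF := D.wtS_le_Fil (pos_half H) hY
  have hcn : (1 : ℝ) ≤ c ^ n := one_le_pow₀ hc1
  constructor
  · have hB : (1 : ℝ) ≤ 1 + ‖Y‖ := le_add_of_nonneg_right (norm_nonneg _)
    rw [NE.exp_eq_sum hF, Fintype.card_fin]
    refine (norm_sum_le _ _).trans ((Finset.sum_le_card_nsmul _ _ (c * (1 + ‖Y‖) ^ n)
      fun j hj => ?_).trans ?_)
    · rw [norm_smul, norm_inv, Real.norm_natCast]
      refine (mul_le_of_le_one_left (norm_nonneg _) (inv_le_one_of_one_le₀ ?_)).trans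
        (Unip_norm_pow hB (by linarith) (Nat.lt_succ_iff.1 (Finset.mem_range.1 hj)))
      exact_mod_cast Nat.succ_le_of_lt (Nat.factorial_pos j)
    · rw [Finset.card_range, nsmul_eq_mul, Nat.cast_succ, ← mul_assoc]
      have : (0 : ℝ) ≤ (n + 1) * c := by positivity
      exact mul_le_mul_of_nonneg_right (le_mul_of_one_le_right this hcn) (by positivity)
  · have h0 := norm_nonneg (exp Y)
    have hB : (1 : ℝ) ≤ c * (1 + ‖exp Y‖) := by nlinarith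
    have hA : ‖1 - exp Y‖ ≤ c * (1 + ‖exp Y‖) := by
      have := norm_sub_le 1 (exp Y)
      nlinarith
    conv_lhs => rw [← NE.nlog_exp hF, NE.nlog, norm_neg, Fintype.card_fin]
    refine (norm_sum_le _ _).trans ((Finset.sum_le_card_nsmul _ _
      (c * (c * (1 + ‖exp Y‖)) ^ n) fun j hj => ?_).trans ?_)
    · rw [norm_smul, norm_inv, Real.norm_of_nonneg (by positivity)]
      refine (mul_le_of_le_one_left (norm_nonneg _) (inv_le_one_of_one_le₀ ?_)).trans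
        (Unip_norm_pow hB hA (Finset.mem_range.1 hj))
      exact le_add_of_nonneg_left (Nat.cast_nonneg j)
    · rw [Finset.card_range, nsmul_eq_mul, mul_pow]
      have : (0 : ℝ) ≤ c * (c ^ n * (1 + ‖exp Y‖) ^ n) := by positivity
      nlinarith

/-- Factorisation along a splitting of the weights, the second part being closed and the first an
ideal. -/
theorem ex_split (hP : Pos P H) {Q : Set (Euc k)} (hQ : Q ⊆ P)
    (h1 : ∀ β ∈ Q, ∀ γ ∈ P, β + γ ∈ Q) (h2 : ∀ β ∈ P \ Q, ∀ γ ∈ P \ Q, β + γ ∈ P \ Q)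
    {Y : Mat n} (hY : Y ∈ D.grS P) :
    ∃ Z ∈ D.grS Q, D.ex Y = D.ex Z * D.ex (D.prS (P \ Q) Y) := by
  have _ := h2
  have hQP : Pos Q H := ⟨fun β hβ γ hγ => h1 β hβ γ (hQ hγ), fun β hβ => hP.pos β (hQ hβ)⟩
  have h1' : ∀ β ∈ P, ∀ γ ∈ Q, β + γ ∈ Q := fun β hβ γ hγ => add_comm γ β ▸ h1 γ hγ β hβ
  set Y₁ := D.prS (P \ Q) Y with hY₁
  have hm : Y₁ ∈ D.grS P := D.grS_mono sdiff_subset (D.prS_mem _ hY.1)
  have hd : Y - Y₁ ∈ D.wtS Q := by
    intro i j hij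
    rw [Matrix.sub_apply, hY₁, D.prS_apply] at hij
    split_ifs at hij with h
    · exact absurd (sub_self _) hij
    · by_contra hq
      exact h ⟨hY.2 i j (by simpa using hij), hq⟩
  have hp : ∀ m : ℕ, Y ^ (m + 1) - Y₁ ^ (m + 1) ∈ D.wtS Q := by
    intro m
    induction m with
    | zero => simpa using hd
    | succ m ih =>
      have : Y ^ (m + 1 + 1) - Y₁ ^ (m + 1 + 1) =
          Y * (Y ^ (m + 1) - Y₁ ^ (m + 1)) + (Y - Y₁) * Y₁ ^ (m + 1) := by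
        rw [pow_succ' Y (m + 1), pow_succ' Y₁ (m + 1)]
        noncomm_ring
      rw [this]
      exact add_mem (D.wtS_mul hY.2 ih h1') (D.wtS_mul hd (D.Unip_pow hP hm.2 m) h1)
  have he : exp Y - exp Y₁ ∈ D.wtS Q := by
    rw [NE.exp_eq_sum (D.wtS_le_Fil hP hY.2), NE.exp_eq_sum (D.wtS_le_Fil hP hm.2),
      ← Finset.sum_sub_distrib, Finset.sum_range_succ']
    simp only [pow_zero, sub_self, add_zero, ← smul_sub]
    exact Submodule.sum_mem _ fun j _ => Submodule.smul_mem _ _ (hp j)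
  have hu : 1 - exp Y * exp (-Y₁) ∈ D.wtS Q := by
    have e0 : exp Y₁ * exp (-Y₁) = 1 := exp_mul_neg (A := Mat n) Y₁
    have e : 1 - exp Y * exp (-Y₁) =
        (exp Y - exp Y₁) * (1 - exp (-Y₁)) - (exp Y - exp Y₁) := by
      rw [mul_sub, mul_one, sub_mul, e0]
      abel
    rw [e]
    exact sub_mem (D.wtS_mul he (D.one_sub_exp_mem hP (neg_mem hm.2)) h1) he
  obtain ⟨h3, h4⟩ := D.ex_mul_ex hP hY (neg_mem hm)
  refine ⟨_, ⟨h3.1, D.nlog_mem_wtS hQP hu⟩, ?_⟩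
  rw [← h4, D.ex_neg hm.1, inv_mul_cancel_right]

/-- Logarithmic distortion. -/
theorem ex_eq_conj (H : Euc k) : ∃ C : ℝ, ∀ Y ∈ D.np H, ∃ m : ℕ, ∃ Z ∈ D.np H, ‖Z‖ ≤ 1 ∧
    (m : ℝ) ≤ C * (1 + Real.log (1 + ‖Y‖)) ∧ D.ex Y = D.a H ^ m * D.ex Z * (D.a H ^ m)⁻¹ := by
  obtain ⟨c, hc, hgap⟩ := D.exists_gap H
  refine ⟨1 + c⁻¹, fun Y hY => ?_⟩
  have h0 := norm_nonneg Y
  have hL : 0 ≤ Real.log (1 + ‖Y‖) := Real.log_nonneg (by linarith)
  set m := ⌈Real.log (1 + ‖Y‖) / c⌉₊ with hm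
  have hm1 : Real.log (1 + ‖Y‖) ≤ m * c := (div_le_iff₀ hc).1 (Nat.le_ceil _)
  have hZ : D.Ad (D.a (-((m : ℝ) • H))) Y ∈ D.np H := D.Ad_a_grS _ hY
  refine ⟨m, _, hZ, ?_, ?_, ?_⟩
  · refine (D.norm_Ad_a_le _ hY.2 (c := -Real.log (1 + ‖Y‖)) fun β hβ hw => ?_).trans ?_
    · rw [inner_neg_right, inner_smul_right]
      have := mul_le_mul_of_nonneg_left (hgap β hw hβ) (Nat.cast_nonneg (α := ℝ) m)
      linarith
    · rw [Real.exp_neg, Real.exp_log (by linarith), inv_mul_le_iff₀ (by linarith)]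
      linarith
  · have h1 := (Nat.ceil_lt_add_one (div_nonneg hL hc.le)).le
    rw [← hm, div_eq_mul_inv] at h1
    have := inv_pos.2 hc
    nlinarith
  · rw [← D.a_nsmul, D.conj_ex _ hZ.1, D.a_neg, D.Ad_Ad_inv]

end Std

end Pool.Agent.P.MP_d483fb_an.Z
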