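import Pool.Agent.P.MP_d483fb_an.Z.Lie.StdW
import Pool.Agent.P.MP_d483fb_an.Z.Lie.Ex2

/-! The Cartan subgroup. -/

open scoped Matrix Matrix.Norms.Operator InnerProductSpace RealInnerProductSpace Topology
open NormedSpace Filter Set

noncomputable section

namespace Pool.Agent.P.MP_d483fb_an.Z

theorem Std1_exp_diag {n : ℕ} (d : Fin n → ℝ) :
    exp (Matrix.diagonal d : Mat n) = Matrix.diagonal fun i => Real.exp (d i) := by
  rw [Matrix.exp_diagonal]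
  congr 1
  funext i
  rw [Pi.exp_def, Real.exp_eq_exp_ℝ]

theorem Std1_norm_le {n : ℕ} {X Y : Mat n} {c : ℝ} (hc : 0 ≤ c)
    (h : ∀ i j, ‖Y i j‖ ≤ c * ‖X i j‖) : ‖Y‖ ≤ c * ‖X‖ := by
  lift c to NNReal using hc
  have key : ‖Y‖₊ ≤ c * ‖X‖₊ := by
    rw [Matrix.linfty_opNNNorm_def, Matrix.linfty_opNNNorm_def]
    refine Finset.sup_le fun i _ => ?_
    calc ∑ j, ‖Y i j‖₊ ≤ ∑ j, c * ‖X i j‖₊ := Finset.sum_le_sum fun j _ => h i j
      _ = c * ∑ j, ‖X i j‖₊ := (Finset.mul_sum _ _ _).symm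
      _ ≤ _ := mul_le_mul_of_nonneg_left
          (Finset.le_sup (f := fun i => ∑ j, ‖X i j‖₊) (Finset.mem_univ i)) zero_le
  exact_mod_cast key

namespace Std

variable {G : Type} [Group G] [TopologicalSpace G] [IsTopologicalGroup G] {n k : ℕ}
  (D : Std G n k)

omit [IsTopologicalGroup G] in
theorem Std1_ρ_a (s : Euc k) :
    D.ρ (D.a s) = Matrix.diagonal fun i => Real.exp ⟪D.lam i, s⟫ := by
  rw [a, D.ρ_ex _ (D.dg_mem s), dg_apply, Std1_exp_diag]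

theorem ρ_a (s : Euc k) :
    D.ρ (D.a s) = Matrix.diagonal fun i => Real.exp ⟪D.lam i, s⟫ := D.Std1_ρ_a s

theorem a_zero : D.a 0 = 1 := by
  rw [a, map_zero, D.ex_zero]

theorem a_add (s t : Euc k) : D.a (s + t) = D.a s * D.a t := by
  rw [a, map_add]
  exact D.ex_add_of_commute (D.dg_mem s) (D.dg_mem t) (D.dg_br s t)

theorem a_neg (s : Euc k) : D.a (-s) = (D.a s)⁻¹ := by
  rw [a, map_neg]
  exact D.ex_neg (D.dg_mem s)

theorem a_comm (s t : Euc k) : D.a s * D.a t = D.a t * D.a s := by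
  rw [← a_add, ← a_add, add_comm]

theorem a_nsmul (s : Euc k) (m : ℕ) : D.a ((m : ℝ) • s) = D.a s ^ m := by
  rw [a, map_smul]
  exact D.ex_nsmul (D.dg_mem s) m

theorem a_zsmul (s : Euc k) (m : ℤ) : D.a ((m : ℝ) • s) = D.a s ^ m := by
  rw [a, map_smul]
  exact D.ex_zsmul (D.dg_mem s) m

theorem a_cont : Continuous D.a :=
  D.ex_cont.comp_continuous D.dg.continuous_of_finiteDimensional D.dg_mem

omit [IsTopologicalGroup G] in
theorem Std1_sum (s : Euc k) : ∑ i, ⟪D.lam i, s⟫ • D.lam i = s := by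
  refine ext_inner_right ℝ fun t => ?_
  rw [sum_inner, ← D.frame s t]
  exact Finset.sum_congr rfl fun i _ => real_inner_smul_left _ _ _

omit [IsTopologicalGroup G] in
theorem Std1_sq (s : Euc k) : ∑ i, ⟪D.lam i, s⟫ ^ 2 = ‖s‖ ^ 2 := by
  rw [← real_inner_self_eq_norm_sq, ← D.frame s s]
  exact Finset.sum_congr rfl fun i _ => sq _

omit [IsTopologicalGroup G] in
theorem Std1_abs_le (s : Euc k) (i : Fin n) : |⟪D.lam i, s⟫| ≤ ‖s‖ := by
  refine abs_le_of_sq_le_sq' ?_ (norm_nonneg _) |> abs_le.2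
  rw [← D.Std1_sq s]
  exact Finset.single_le_sum (f := fun i => ⟪D.lam i, s⟫ ^ 2) (fun _ _ => sq_nonneg _)
    (Finset.mem_univ i)

omit [IsTopologicalGroup G] in
theorem Std1_log (s : Euc k) : ∑ i, Real.log (D.ρ (D.a s) i i) • D.lam i = s := by
  simp only [D.Std1_ρ_a, Matrix.diagonal_apply_eq, Real.log_exp]
  exact D.Std1_sum s

theorem Std1_cont_at {x : G} (hx : ∀ i, D.ρ x i i ≠ 0) :
    ContinuousAt (fun y => ∑ i, Real.log (D.ρ y i i) • D.lam i) x := by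
  refine tendsto_finsetSum _ fun i _ => ?_
  exact (((D.cont.matrix_elem i i).continuousAt.log (hx i)).smul continuousAt_const)

theorem Std1_diag_ne {x : G} (hx : x ∈ closure (range D.a)) (i : Fin n) : D.ρ x i i ≠ 0 := by
  have hc : IsClosed {y : G | D.ρ y i i * D.ρ y⁻¹ i i = 1} :=
    isClosed_eq ((D.cont.matrix_elem i i).mul ((D.cont.comp continuous_inv).matrix_elem i i))
      continuous_const
  have h : x ∈ {y : G | D.ρ y i i * D.ρ y⁻¹ i i = 1} := by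
    refine closure_minimal ?_ hc hx
    rintro _ ⟨s, rfl⟩
    rw [mem_ofPred_eq, ← D.a_neg, D.ρ_a, D.ρ_a, Matrix.diagonal_apply_eq, Matrix.diagonal_apply_eq,
      ← Real.exp_add, inner_neg_right, add_neg_cancel, Real.exp_zero]
  exact left_ne_zero_of_mul_eq_one h

theorem a_closedEmbedding : Topology.IsClosedEmbedding D.a := by
  have := D.t2Space
  let L : G → Euc k := fun y => ∑ i, Real.log (D.ρ y i i) • D.lam i
  have hL : ∀ s, L (D.a s) = s := D.Std1_log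
  have hc : ∀ x ∈ closure (range D.a), ContinuousAt L x := fun x hx =>
    D.Std1_cont_at (D.Std1_diag_ne hx)
  refine ⟨⟨Topology.isInducing_iff_nhds.2 fun s => le_antisymm ?_ ?_,
    Function.LeftInverse.injective hL⟩, isClosed_of_closure_subset fun x hx => ⟨L x, ?_⟩⟩
  · exact tendsto_iff_comap.1 (D.a_cont.tendsto s)
  · have h1 : Tendsto (fun t => L (D.a t)) (comap D.a (𝓝 (D.a s))) (𝓝 (L (D.a s))) :=
      (hc _ (subset_closure (mem_range_self s))).tendsto.comp tendsto_comap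
    simp only [hL] at h1
    exact h1
  · have hn : (𝓝[range D.a] x).NeBot := mem_closure_iff_nhdsWithin_neBot.1 hx
    have h1 : Tendsto (fun y => D.a (L y)) (𝓝[range D.a] x) (𝓝 (D.a (L x))) :=
      ((D.a_cont.tendsto _).comp (hc x hx).tendsto).mono_left nhdsWithin_le_nhds
    have h2 : Tendsto (fun y => D.a (L y)) (𝓝[range D.a] x) (𝓝 x) := by
      refine (tendsto_id.mono_left nhdsWithin_le_nhds).congr' ?_
      filter_upwards [self_mem_nhdsWithin] with y hy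
      obtain ⟨s, rfl⟩ := hy
      rw [hL, id]
    exact tendsto_nhds_unique h1 h2

theorem norm_ρ_a_le (s : Euc k) : ‖D.ρ (D.a s)‖ ≤ Real.exp ‖s‖ := by
  rw [D.ρ_a, Matrix.linfty_opNorm_diagonal]
  refine (pi_norm_le_iff_of_nonneg (Real.exp_pos _).le).2 fun i => ?_
  rw [Real.norm_eq_abs, abs_of_pos (Real.exp_pos _)]
  exact Real.exp_le_exp.2 ((le_abs_self _).trans (D.Std1_abs_le s i))

theorem Std1_le {s : Euc k} {R : ℝ} (h : ‖D.ρ (D.a s)‖ ≤ Real.exp R) (i : Fin n) :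
    ⟪D.lam i, s⟫ ≤ R := by
  rw [D.ρ_a, Matrix.linfty_opNorm_diagonal] at h
  have h1 := (norm_le_pi_norm (fun i => Real.exp ⟪D.lam i, s⟫) i).trans h
  rw [Real.norm_eq_abs, abs_of_pos (Real.exp_pos _)] at h1
  exact Real.exp_le_exp.1 h1

theorem norm_le_of_ρ_a {s : Euc k} {R : ℝ} (h : ‖D.ρ (D.a s)‖ ≤ Real.exp R)
    (h' : ‖D.ρ (D.a s)⁻¹‖ ≤ Real.exp R) : ‖s‖ ≤ n * R := by
  rw [← D.a_neg] at h'
  have h1 : ∀ i, |⟪D.lam i, s⟫| ≤ R := fun i => by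
    have h2 := D.Std1_le h' i
    rw [inner_neg_right] at h2
    exact abs_le.2 ⟨by linarith, D.Std1_le h i⟩
  have h3 : ‖s‖ * ‖s‖ ≤ n * R * ‖s‖ := by
    calc ‖s‖ * ‖s‖ = ∑ i, ⟪D.lam i, s⟫ ^ 2 := by rw [D.Std1_sq, sq]
      _ ≤ ∑ _i : Fin n, R * ‖s‖ := Finset.sum_le_sum fun i _ => by
          rw [← sq_abs, sq]
          exact mul_le_mul (h1 i) (D.Std1_abs_le s i) (abs_nonneg _)
            ((abs_nonneg _).trans (h1 i))
      _ = n * R * ‖s‖ := by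
          rw [Finset.sum_const, Finset.card_univ, Fintype.card_fin, nsmul_eq_mul, mul_assoc]
  rcases (norm_nonneg s).eq_or_lt with h0 | h0
  · rw [← h0]
    rcases Nat.eq_zero_or_pos n with hn | hn
    · rw [hn, Nat.cast_zero, zero_mul]
    · exact mul_nonneg n.cast_nonneg ((abs_nonneg _).trans (h1 ⟨0, hn⟩))
  · exact le_of_mul_le_mul_right h3 h0

theorem Ad_a_apply (s : Euc k) (X : Mat n) (i j : Fin n) :
    D.Ad (D.a s) X i j = Real.exp ⟪D.lam i - D.lam j, s⟫ * X i j := by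
  rw [ExpData.Ad_apply, ← D.a_neg, D.ρ_a, D.ρ_a, Matrix.mul_diagonal, Matrix.diagonal_mul,
    inner_sub_left, inner_neg_right, sub_eq_add_neg, Real.exp_add]
  ring

theorem Std1_Ad_wt (s : Euc k) {β : Euc k} {X : Mat n} (hX : X ∈ D.wtS {β}) :
    D.Ad (D.a s) X = Real.exp ⟪β, s⟫ • X := by
  ext i j
  rw [D.Ad_a_apply, Matrix.smul_apply, smul_eq_mul]
  by_cases h : X i j = 0
  · rw [h, mul_zero, mul_zero]
  · rw [mem_singleton_iff.1 (hX i j h)]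

theorem Ad_a_dg (s t : Euc k) : D.Ad (D.a s) (D.dg t) = D.dg t := by
  rw [D.Std1_Ad_wt s (D.dg_mem_gr t).2, inner_zero_left, Real.exp_zero, one_smul]

theorem Ad_a_gr (s : Euc k) {β : Euc k} {X : Mat n} (hX : X ∈ D.gr β) :
    D.Ad (D.a s) X = Real.exp ⟪β, s⟫ • X := D.Std1_Ad_wt s hX.2

theorem a_conj_ex (s : Euc k) {β : Euc k} {X : Mat n} (hX : X ∈ D.gr β) :
    D.a s * D.ex X * (D.a s)⁻¹ = D.ex (Real.exp ⟪β, s⟫ • X) := by
  rw [D.conj_ex _ hX.1, D.Ad_a_gr s hX]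

theorem Ad_a_wtS (s : Euc k) {S : Set (Euc k)} {X : Mat n} (hX : X ∈ D.wtS S) :
    D.Ad (D.a s) X ∈ D.wtS S := by
  intro i j h
  rw [D.Ad_a_apply] at h
  exact hX i j (right_ne_zero_of_mul h)

theorem Ad_a_grS (s : Euc k) {S : Set (Euc k)} {X : Mat n} (hX : X ∈ D.grS S) :
    D.Ad (D.a s) X ∈ D.grS S := ⟨D.Ad_mem _ hX.1, D.Ad_a_wtS s hX.2⟩

theorem Std1_norm_Ad (s : Euc k) {X : Mat n} {c : ℝ}
    (h : ∀ i j, X i j ≠ 0 → ⟪D.lam i - D.lam j, s⟫ ≤ c) :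
    ‖D.Ad (D.a s) X‖ ≤ Real.exp c * ‖X‖ := by
  refine Std1_norm_le (Real.exp_pos c).le fun i j => ?_
  rw [D.Ad_a_apply, norm_mul, Real.norm_eq_abs, abs_of_pos (Real.exp_pos _)]
  by_cases h0 : X i j = 0
  · rw [h0, norm_zero, mul_zero, mul_zero]
  · exact mul_le_mul_of_nonneg_right (Real.exp_le_exp.2 (h i j h0)) (norm_nonneg _)

omit [IsTopologicalGroup G] in
theorem Std1_mem_wts (i j : Fin n) : D.lam i - D.lam j ∈ D.wts := by
  classical
  unfold wts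
  convert Finset.mem_image_of_mem (fun p : Fin n × Fin n => D.lam p.1 - D.lam p.2)
    (Finset.mem_univ (i, j))

theorem norm_Ad_a_le (s : Euc k) {S : Set (Euc k)} {X : Mat n} (hX : X ∈ D.wtS S) {c : ℝ}
    (h : ∀ β ∈ S, β ∈ D.wts → ⟪β, s⟫ ≤ c) : ‖D.Ad (D.a s) X‖ ≤ Real.exp c * ‖X‖ :=
  D.Std1_norm_Ad s fun i j h0 => h _ (hX i j h0) (D.Std1_mem_wts i j)

theorem norm_Ad_a_le' (s : Euc k) {S : Set (Euc k)} {X : Mat n} (hX : X ∈ D.grS S) {c : ℝ}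
    (h : ∀ β ∈ S, β = 0 ∨ β ∈ D.roots → ⟪β, s⟫ ≤ c) :
    ‖D.Ad (D.a s) X‖ ≤ Real.exp c * ‖X‖ := by
  refine D.Std1_norm_Ad s fun i j h0 => h _ (hX.2 i j h0) ?_
  by_cases hb : D.lam i - D.lam j = 0
  · exact Or.inl hb
  · refine Or.inr (D.mem_roots.2 ⟨hb, fun hbot => h0 ?_⟩)
    have h1 := D.pr_mem (D.lam i - D.lam j) hX.1
    rw [hbot, Submodule.mem_bot] at h1
    have h2 := congrFun (congrFun h1 i) j
    rwa [pr, prS_apply, if_pos (mem_singleton _)] at h2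

theorem exists_gap (s : Euc k) : ∃ c > 0, ∀ β ∈ D.wts, 0 < ⟪β, s⟫ → c ≤ ⟪β, s⟫ := by
  have h : ∀ᶠ c in 𝓝[>] (0 : ℝ), ∀ β ∈ D.wts, 0 < ⟪β, s⟫ → c ≤ ⟪β, s⟫ := by
    refine (Finset.eventually_all _).2 fun β _ => ?_
    by_cases hb : 0 < ⟪β, s⟫
    · filter_upwards [nhdsWithin_le_nhds (Iic_mem_nhds hb)] with c hc _ using hc
    · exact Eventually.of_forall fun c hc => absurd hc hb
  obtain ⟨c, h1, h2⟩ := (h.and self_mem_nhdsWithin).exists
  exact ⟨c, h2, h1⟩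

theorem tendsto_Ad_a {s : Euc k} {X : Mat n} (hX : X ∈ D.wtS {γ | 0 < ⟪γ, s⟫}) :
    Tendsto (fun t : ℝ => D.Ad (D.a (-(t • s))) X) atTop (𝓝 0) := by
  obtain ⟨c, hc, h⟩ := D.exists_gap s
  have h1 : Tendsto (fun t : ℝ => Real.exp (-(t * c)) * ‖X‖) atTop (𝓝 (0 * ‖X‖)) :=
    (Real.tendsto_exp_neg_atTop_nhds_zero.comp (tendsto_id.atTop_mul_const hc)).mul_const _
  rw [zero_mul] at h1
  refine squeeze_zero_norm' ?_ h1
  filter_upwards [eventually_ge_atTop 0] with t ht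
  refine D.norm_Ad_a_le _ hX fun β hβ hw => ?_
  rw [inner_neg_right, real_inner_smul_right]
  exact neg_le_neg (mul_le_mul_of_nonneg_left (h β hw hβ) ht)

theorem tendsto_conj_ex {s : Euc k} {X : Mat n} (hX : X ∈ D.np s) :
    Tendsto (fun t : ℝ => D.a (-(t • s)) * D.ex X * D.a (t • s)) atTop (𝓝 1) := by
  have h1 : Tendsto (fun t : ℝ => D.Ad (D.a (-(t • s))) X) atTop (𝓝[D.g] 0) :=
    tendsto_nhdsWithin_iff.2 ⟨D.tendsto_Ad_a hX.2, Eventually.of_forall fun t => D.Ad_mem _ hX.1⟩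
  have h2 : Tendsto D.ex (𝓝[D.g] 0) (𝓝 1) := D.ex_nhds.le
  refine (h2.comp h1).congr fun t => ?_
  rw [Function.comp_apply, ← D.conj_ex _ hX.1, D.a_neg, inv_inv]

end Std

end Pool.Agent.P.MP_d483fb_an.Z
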