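import Pool.Agent.P.MP_d483fb_an.Z.Stmt

/-!
Working definitions for the structure theory: a group with an exponential chart (`ExpData`) and a
semisimple group in standard form, with a diagonal Cartan subspace (`Std`).
-/

open scoped Matrix Matrix.Norms.Operator InnerProductSpace RealInnerProductSpace Topology
open NormedSpace Filter Set

noncomputable section

namespace Pool.Agent.P.MP_d483fb_an.Z

/-- The Cartan subspace and its dual. -/
abbrev Euc (k : ℕ) : Type := EuclideanSpace ℝ (Fin k)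

/-- The trace form `tr (X Yᵀ)`. -/
def ip {n : ℕ} (X Y : Mat n) : ℝ := ∑ i, ∑ j, X i j * Y i j

/-- A local inverse of the exponential near `1` in a Banach algebra. -/
def mlog {A : Type} [NormedRing A] [NormedAlgebra ℝ A] [CompleteSpace A] : A → A :=
  (hasStrictFDerivAt_exp_zero (𝕂 := ℝ) (𝔸 := A)).localInverse (f := exp)
    (f' := ContinuousLinearEquiv.refl ℝ A) (a := 0)

/-- A group that is locally a closed matrix group, with its exponential map. -/
structure ExpData (G : Type) [Group G] [TopologicalSpace G] (n : ℕ) where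
  ρ : G →* Mat n
  g : Submodule ℝ (Mat n)
  ex : Mat n → G
  cont : Continuous ρ
  ρ_ex : ∀ X ∈ g, ρ (ex X) = exp X
  ex_cont : ContinuousOn ex g
  ex_zero : ex 0 = 1
  ex_nhds : Filter.map ex (𝓝[g] 0) = 𝓝 1
  disc : ∀ᶠ x in 𝓝 (1 : G), ρ x = 1 → x = 1
  Ad_mem' : ∀ x, ∀ X ∈ g, ρ x * X * ρ x⁻¹ ∈ g

namespace ExpData

variable {G : Type} [Group G] [TopologicalSpace G] {n : ℕ} (D : ExpData G n)

/-- The adjoint action. -/
def Ad (x : G) : Mat n →ₗ[ℝ] Mat n := LinearMap.mulLeftRight ℝ (D.ρ x, D.ρ x⁻¹)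

theorem Ad_apply (x : G) (X : Mat n) : D.Ad x X = D.ρ x * X * D.ρ x⁻¹ := by
  simp [Ad]

theorem Ad_mem (x : G) {X : Mat n} (hX : X ∈ D.g) : D.Ad x X ∈ D.g := by
  rw [Ad_apply]
  exact D.Ad_mem' x X hX

/-- The logarithm near the identity. -/
def lg (x : G) : Mat n := mlog (D.ρ x)

/-- The Lie algebra of a closed subgroup. -/
def lie (H : Subgroup G) : Submodule ℝ (Mat n) :=
  Submodule.span ℝ {X | X ∈ D.g ∧ ∀ t : ℝ, D.ex (t • X) ∈ H}

/-- The subgroup generated by the exponentials of a subspace. -/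
def grp (v : Submodule ℝ (Mat n)) : Subgroup G := Subgroup.closure (D.ex '' v)

/-- `m < v(G)`. -/
def ltV (m : ℕ) : Prop :=
  ∀ H : Subgroup G, IsClosed (H : Set G) → H ≠ ⊤ →
    m < Module.finrank ℝ D.g - Module.finrank ℝ (D.lie H)

end ExpData

/-- A subspace closed under brackets. -/
def IsSub {n : ℕ} (v : Submodule ℝ (Mat n)) : Prop := ∀ X ∈ v, ∀ Y ∈ v, ⁅X, Y⁆ ∈ v

/-- `I` is an ideal of `g`. -/
def IsIdl {n : ℕ} (g I : Submodule ℝ (Mat n)) : Prop := I ≤ g ∧ ∀ X ∈ g, ∀ Y ∈ I, ⁅X, Y⁆ ∈ I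

/-- A semisimple group in standard form: the Cartan subspace is diagonal with weights `lam i`. -/
structure Std (G : Type) [Group G] [TopologicalSpace G] (n k : ℕ) extends ExpData G n where
  lam : Fin n → Euc k
  closed : IsClosed (Set.range ρ)
  opn : Filter.map ρ (𝓝 1) = 𝓝[Set.range ρ] 1
  tr : ∀ x, ∃ x', ρ x' = (ρ x)ᵀ
  cent : ∀ X ∈ g, (∀ Y ∈ g, ⁅X, Y⁆ = 0) → X = 0
  dg_mem' : ∀ s, Matrix.diagonal (fun i => ⟪lam i, s⟫) ∈ g
  frame : ∀ s t, ∑ i, ⟪lam i, s⟫ * ⟪lam i, t⟫ = ⟪s, t⟫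
  max' : ∀ X ∈ g, X.IsSymm → (∀ i j, X i j ≠ 0 → lam i = lam j) →
    ∃ s, X = Matrix.diagonal fun i => ⟪lam i, s⟫
  rank : ∀ I : Submodule ℝ (Mat n), IsIdl g I → I ≠ ⊥ →
    ∃ X ∈ I, ∃ Y ∈ I, X.IsSymm ∧ Y.IsSymm ∧ ⁅X, Y⁆ = 0 ∧ LinearIndependent ℝ ![X, Y]

namespace Std

variable {G : Type} [Group G] [TopologicalSpace G] {n k : ℕ} (D : Std G n k)

/-- The Cartan subspace. -/
def dg : Euc k →ₗ[ℝ] Mat n where
  toFun s := Matrix.diagonal fun i => ⟪D.lam i, s⟫
  map_add' s t := by simp [inner_add_right, Matrix.diagonal_add]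
  map_smul' c s := by
    simp only [inner_smul_right, RingHom.id_apply, ← Matrix.diagonal_smul]
    rfl

theorem dg_apply (s : Euc k) : D.dg s = Matrix.diagonal fun i => ⟪D.lam i, s⟫ := rfl

theorem dg_mem (s : Euc k) : D.dg s ∈ D.g := D.dg_mem' s

/-- The Cartan subgroup. -/
def a (s : Euc k) : G := D.ex (D.dg s)

/-- The preimage of the orthogonal group. -/
def K : Subgroup G where
  carrier := {x | D.ρ x * (D.ρ x)ᵀ = 1}
  one_mem' := by simp
  mul_mem' := by
    intro x y hx hy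
    simp only [mem_ofPred_eq, map_mul, Matrix.transpose_mul] at hx hy ⊢
    rw [mul_assoc, ← mul_assoc (D.ρ y), hy, one_mul, hx]
  inv_mem' := by
    intro x hx
    simp only [mem_ofPred_eq] at hx ⊢
    have h1 : D.ρ x⁻¹ * D.ρ x = 1 := by rw [← map_mul, inv_mul_cancel, map_one]
    have h2 : D.ρ x⁻¹ = (D.ρ x)ᵀ := by
      rw [← mul_one (D.ρ x⁻¹), ← hx, ← mul_assoc, h1, one_mul]
    rw [h2, Matrix.transpose_transpose, ← h2, h1]

theorem mem_K {x : G} : x ∈ D.K ↔ D.ρ x * (D.ρ x)ᵀ = 1 := Iff.rfl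

/-- Matrices all of whose weights lie in `S`. -/
def wtS (S : Set (Euc k)) : Submodule ℝ (Mat n) where
  carrier := {X | ∀ i j, X i j ≠ 0 → D.lam i - D.lam j ∈ S}
  zero_mem' := by intro i j h; exact absurd rfl h
  add_mem' := by
    intro X Y hX hY i j h
    by_cases h1 : X i j = 0
    · refine hY i j fun h2 => h ?_
      rw [Matrix.add_apply, h1, h2, add_zero]
    · exact hX i j h1
  smul_mem' := by
    intro c X hX i j h
    refine hX i j fun h1 => h ?_
    rw [Matrix.smul_apply, h1, smul_zero]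

theorem mem_wtS {S : Set (Euc k)} {X : Mat n} :
    X ∈ D.wtS S ↔ ∀ i j, X i j ≠ 0 → D.lam i - D.lam j ∈ S := Iff.rfl

theorem wtS_mul {S T R : Set (Euc k)} {X Y : Mat n} (hX : X ∈ D.wtS S) (hY : Y ∈ D.wtS T)
    (h : ∀ β ∈ S, ∀ γ ∈ T, β + γ ∈ R) : X * Y ∈ D.wtS R := by
  intro i j hij
  rw [Matrix.mul_apply] at hij
  obtain ⟨l, -, hl⟩ := Finset.exists_ne_zero_of_sum_ne_zero hij
  have := h _ (hX i l (left_ne_zero_of_mul hl)) _ (hY l j (right_ne_zero_of_mul hl))
  rwa [sub_add_sub_cancel] at this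

theorem one_mem_wtS {S : Set (Euc k)} (h : (0 : Euc k) ∈ S) : (1 : Mat n) ∈ D.wtS S := by
  intro i j hij
  obtain rfl : i = j := by
    by_contra hne
    exact hij (Matrix.one_apply_ne hne)
  rwa [sub_self]

/-- Group elements all of whose weights lie in the additive monoid `S`. -/
def stab (S : AddSubmonoid (Euc k)) : Subgroup G where
  carrier := {x | D.ρ x ∈ D.wtS S ∧ D.ρ x⁻¹ ∈ D.wtS S}
  one_mem' := by
    simp only [mem_ofPred_eq, inv_one, map_one, and_self]
    exact D.one_mem_wtS S.zero_mem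
  mul_mem' := by
    rintro x y ⟨hx, hx'⟩ ⟨hy, hy'⟩
    refine ⟨?_, ?_⟩
    · rw [map_mul]
      exact D.wtS_mul hx hy fun β hβ γ hγ => S.add_mem hβ hγ
    · rw [mul_inv_rev, map_mul]
      exact D.wtS_mul hy' hx' fun β hβ γ hγ => S.add_mem hβ hγ
  inv_mem' := by
    rintro x ⟨hx, hx'⟩
    exact ⟨hx', by rwa [inv_inv]⟩

theorem mem_stab {S : AddSubmonoid (Euc k)} {x : G} :
    x ∈ D.stab S ↔ D.ρ x ∈ D.wtS S ∧ D.ρ x⁻¹ ∈ D.wtS S := Iff.rfl

/-- The closed half space of `s`. -/
def half (s : Euc k) : AddSubmonoid (Euc k) where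
  carrier := {γ | 0 ≤ ⟪γ, s⟫}
  zero_mem' := by simp
  add_mem' := by
    intro x y hx hy
    simp only [mem_ofPred_eq, inner_add_left] at hx hy ⊢
    exact add_nonneg hx hy

/-- The hyperplane orthogonal to `s`. -/
def wall (s : Euc k) : AddSubmonoid (Euc k) where
  carrier := {γ | ⟪γ, s⟫ = 0}
  zero_mem' := by simp
  add_mem' := by
    intro x y hx hy
    simp only [mem_ofPred_eq, inner_add_left] at hx hy ⊢
    rw [hx, hy, add_zero]

/-- The parabolic subgroup of `s`. -/
def Par (s : Euc k) : Subgroup G := D.stab (half s)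

/-- The Levi subgroup of `s`: the stabiliser of `dg s`. -/
def Zc (s : Euc k) : Subgroup G := D.stab (wall s)

/-- The centraliser of the Cartan subspace in `K`. -/
def M : Subgroup G := D.K ⊓ D.stab ⊥

/-- The sum of the weight spaces of the Lie algebra with weights in `S`. -/
def grS (S : Set (Euc k)) : Submodule ℝ (Mat n) := D.g ⊓ D.wtS S

/-- The weight space of the weight `β`. -/
def gr (β : Euc k) : Submodule ℝ (Mat n) := D.grS {β}

open Classical in
/-- The projection on the weights in `S`. -/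
def prS (S : Set (Euc k)) : Mat n →ₗ[ℝ] Mat n where
  toFun X := Matrix.of fun i j => if D.lam i - D.lam j ∈ S then X i j else 0
  map_add' X Y := by
    ext i j
    simp only [Matrix.of_apply, Matrix.add_apply]
    split_ifs <;> simp
  map_smul' c X := by
    ext i j
    simp only [Matrix.of_apply, Matrix.smul_apply, RingHom.id_apply]
    split_ifs <;> simp

open Classical in
theorem prS_apply (S : Set (Euc k)) (X : Mat n) (i j : Fin n) :
    D.prS S X i j = if D.lam i - D.lam j ∈ S then X i j else 0 := rfl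

/-- The projection on the weight `β`. -/
def pr (β : Euc k) : Mat n →ₗ[ℝ] Mat n := D.prS {β}

open Classical in
/-- All differences of weights. -/
def wts : Finset (Euc k) := Finset.univ.image fun p : Fin n × Fin n => D.lam p.1 - D.lam p.2

open Classical in
/-- The restricted roots. -/
def roots : Finset (Euc k) := D.wts.filter fun β => β ≠ 0 ∧ D.gr β ≠ ⊥

/-- The reflection in the hyperplane orthogonal to `β`. -/
def refl (β s : Euc k) : Euc k := s - (2 * ⟪β, s⟫ / ⟪β, β⟫) • β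

/-- The class of positive multiples of `β`. -/
def cls (β : Euc k) : Set (Euc k) := {γ | ∃ c : ℝ, 0 < c ∧ γ = c • β}

/-- The Lie algebra of the coarse root group of `β`. -/
def u (β : Euc k) : Submodule ℝ (Mat n) := D.grS (cls β)

/-- The coarse root group of `β`. -/
def U (β : Euc k) : Subgroup G := D.grp (D.u β)

/-- The Lie algebra of the horospherical group expanded by `s`. -/
def np (s : Euc k) : Submodule ℝ (Mat n) := D.grS {γ | 0 < ⟪γ, s⟫}

/-- The horospherical group expanded by `s`. -/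
def N (s : Euc k) : Subgroup G := D.grp (D.np s)

/-- Two roots belong to the same simple factor. -/
def Conn (β γ : Euc k) : Prop :=
  Relation.ReflTransGen (fun x y => x ∈ D.roots ∧ y ∈ D.roots ∧ ⟪x, y⟫ ≠ 0) β γ

/-- `s` has a nonzero component in every simple factor. -/
def Full (s : Euc k) : Prop := ∀ γ ∈ D.roots, ∃ β ∈ D.roots, D.Conn γ β ∧ ⟪β, s⟫ ≠ 0

end Std

end Pool.Agent.P.MP_d483fb_an.Z
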