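import Pool.Agent.P.MP_d483fb_an.Z.Lie.Mx1

/-! The exponential map of a group with an exponential chart. -/

open scoped Matrix Matrix.Norms.Operator InnerProductSpace RealInnerProductSpace Topology
open NormedSpace Filter Set

noncomputable section

namespace Pool.Agent.P.MP_d483fb_an.Z

theorem Ex1_norm_mlog {A : Type} [NormedRing A] [NormedAlgebra ℝ A] [CompleteSpace A] :
    ∀ᶠ y in 𝓝 (1 : A), ‖mlog y‖ ≤ 2 * ‖y - 1‖ ∧ ‖y - 1‖ ≤ 2 * ‖mlog y‖ := by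
  have h := (mlog_strict (A := A)).hasFDerivAt.isLittleO.def (c := 1 / 2) (by norm_num)
  filter_upwards [h] with y hy
  rw [mlog_one, sub_zero, ContinuousLinearMap.id_apply] at hy
  have h1 := norm_sub_norm_le (mlog y) (y - 1)
  have h2 := norm_sub_norm_le (y - 1) (mlog y)
  rw [norm_sub_rev (y - 1) (mlog y)] at h2
  have h3 := norm_nonneg (y - 1)
  constructor <;> linarith

theorem Ex1_br_smul {n : ℕ} (s t : ℝ) (X Y : Mat n) : ⁅s • X, t • Y⁆ = (s * t) • ⁅X, Y⁆ := by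
  simp only [Ring.lie_def, smul_mul_smul_comm, smul_sub, mul_comm t s]

namespace ExpData

variable {G : Type} [Group G] [TopologicalSpace G] {n : ℕ} (D : ExpData G n)

theorem ρ_mul_inv (x : G) : D.ρ x * D.ρ x⁻¹ = 1 := by
  rw [← map_mul, mul_inv_cancel, map_one]

theorem ρ_inv_mul (x : G) : D.ρ x⁻¹ * D.ρ x = 1 := by
  rw [← map_mul, inv_mul_cancel, map_one]

theorem Ad_one (X : Mat n) : D.Ad 1 X = X := by
  simp [Ad_apply]

theorem Ad_mul (x y : G) (X : Mat n) : D.Ad (x * y) X = D.Ad x (D.Ad y X) := by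
  simp only [Ad_apply, mul_inv_rev, map_mul, mul_assoc]

theorem Ad_inv_Ad (x : G) (X : Mat n) : D.Ad x⁻¹ (D.Ad x X) = X := by
  rw [← Ad_mul, inv_mul_cancel, Ad_one]

theorem Ad_Ad_inv (x : G) (X : Mat n) : D.Ad x (D.Ad x⁻¹ X) = X := by
  rw [← Ad_mul, mul_inv_cancel, Ad_one]

theorem Ad_mul_mat (x : G) (X Y : Mat n) : D.Ad x (X * Y) = D.Ad x X * D.Ad x Y := by
  simp only [Ad_apply, mul_assoc]
  rw [← mul_assoc (D.ρ x⁻¹), ρ_inv_mul, one_mul]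

theorem Ad_br (x : G) (X Y : Mat n) : D.Ad x ⁅X, Y⁆ = ⁅D.Ad x X, D.Ad x Y⁆ := by
  simp only [Ring.lie_def, map_sub, Ad_mul_mat]

theorem Ad_exp (x : G) (X : Mat n) : D.Ad x (exp X) = exp (D.Ad x X) := by
  rw [Ad_apply, Ad_apply]
  exact exp_conj (D.ρ_mul_inv x) (D.ρ_inv_mul x) X

theorem norm_Ad_le (x : G) (X : Mat n) : ‖D.Ad x X‖ ≤ ‖D.ρ x‖ * ‖D.ρ x⁻¹‖ * ‖X‖ := by
  rw [Ad_apply, mul_right_comm]
  exact (norm_mul_le _ _).trans (mul_le_mul_of_nonneg_right (norm_mul_le _ _) (norm_nonneg _))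

theorem Ex1_tendsto_ρ : Tendsto D.ρ (𝓝 1) (𝓝 1) := by
  have h := D.cont.tendsto 1
  rwa [map_one] at h

theorem lg_one : D.lg 1 = 0 := by
  rw [lg, map_one]
  exact mlog_one

theorem ex_smul_cont {X : Mat n} (hX : X ∈ D.g) : Continuous fun t : ℝ => D.ex (t • X) :=
  D.ex_cont.comp_continuous (continuous_id.smul continuous_const) fun t => D.g.smul_mem t hX

theorem lg_ex : ∀ᶠ X in 𝓝[D.g] (0 : Mat n), D.lg (D.ex X) = X := by
  have h : ∀ᶠ X in 𝓝 (0 : Mat n), mlog (exp X) = X := mlog_exp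
  filter_upwards [self_mem_nhdsWithin, nhdsWithin_le_nhds h] with X hX h
  rw [lg, D.ρ_ex X hX]
  exact h

theorem ex_lg : ∀ᶠ x in 𝓝 (1 : G), D.lg x ∈ D.g ∧ D.ex (D.lg x) = x := by
  rw [← D.ex_nhds, eventually_map]
  filter_upwards [self_mem_nhdsWithin, D.lg_ex] with X hX h
  rw [h]
  exact ⟨hX, rfl⟩

theorem lg_cont : ∀ᶠ x in 𝓝 (1 : G), ContinuousAt D.lg x := by
  have h : ∀ᶠ y in 𝓝 (1 : Mat n), ContinuousAt mlog y := mlog_cont
  filter_upwards [D.Ex1_tendsto_ρ.eventually h] with x hx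
  exact ContinuousAt.comp (g := mlog) (f := D.ρ) hx D.cont.continuousAt

theorem tendsto_lg : Tendsto D.lg (𝓝 1) (𝓝[D.g] 0) := by
  refine tendsto_nhdsWithin_iff.2 ⟨?_, D.ex_lg.mono fun x hx => hx.1⟩
  have h : Tendsto D.lg (𝓝 1) (𝓝 (D.lg 1)) := D.lg_cont.self_of_nhds
  rwa [lg_one] at h

/-- The exponential chart. -/
theorem chart : ∃ r > 0, ∃ U : Set G, IsOpen U ∧ ContinuousOn D.lg U ∧
    (∀ x ∈ U, D.lg x ∈ D.g ∧ ‖D.lg x‖ < r ∧ D.ex (D.lg x) = x) ∧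
    ∀ X ∈ D.g, ‖X‖ < r → D.ex X ∈ U ∧ D.lg (D.ex X) = X := by
  obtain ⟨V, hV, hVo, hV1⟩ := eventually_nhds_iff.1 (D.ex_lg.and D.lg_cont)
  have h1 : ∀ᶠ X in 𝓝[D.g] (0 : Mat n), D.ex X ∈ V := by
    have h : V ∈ Filter.map D.ex (𝓝[D.g] 0) := by
      rw [D.ex_nhds]
      exact hVo.mem_nhds hV1
    exact h
  obtain ⟨r, hr, h2⟩ := Metric.mem_nhdsWithin_iff.1 (h1.and D.lg_ex)
  have hc : ContinuousOn D.lg V := fun x hx => (hV x hx).2.continuousWithinAt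
  refine ⟨r, hr, V ∩ D.lg ⁻¹' Metric.ball 0 r, hc.isOpen_inter_preimage hVo Metric.isOpen_ball,
    hc.mono inter_subset_left, fun x hx => ⟨(hV x hx.1).1.1, mem_ball_zero_iff.1 hx.2,
      (hV x hx.1).1.2⟩, fun X hX hr' => ?_⟩
  obtain ⟨h3, h4⟩ := h2 ⟨mem_ball_zero_iff.2 hr', hX⟩
  refine ⟨⟨h3, ?_⟩, h4⟩
  rw [mem_preimage, h4]
  exact mem_ball_zero_iff.2 hr'

theorem norm_lg_le : ∀ᶠ x in 𝓝 (1 : G),
    ‖D.lg x‖ ≤ 2 * ‖D.ρ x - 1‖ ∧ ‖D.ρ x - 1‖ ≤ 2 * ‖D.lg x‖ := by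
  have h : ∀ᶠ y in 𝓝 (1 : Mat n), ‖mlog y‖ ≤ 2 * ‖y - 1‖ ∧ ‖y - 1‖ ≤ 2 * ‖mlog y‖ := Ex1_norm_mlog
  exact D.Ex1_tendsto_ρ.eventually h

variable [IsTopologicalGroup G]

theorem Ad_cont : Continuous fun p : G × Mat n => D.Ad p.1 p.2 := by
  simp only [Ad_apply]
  exact ((D.cont.comp continuous_fst).mul continuous_snd).mul (D.cont.comp continuous_fst.inv)

/-- Uniqueness of lifts. -/
theorem lift_eq {T : Type} [TopologicalSpace T] {S : Set T} (hS : IsPreconnected S)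
    {f₁ f₂ : T → G} (h₁ : ContinuousOn f₁ S) (h₂ : ContinuousOn f₂ S)
    (h : ∀ t ∈ S, D.ρ (f₁ t) = D.ρ (f₂ t)) {t₀ : T} (ht₀ : t₀ ∈ S) (h0 : f₁ t₀ = f₂ t₀) :
    ∀ t ∈ S, f₁ t = f₂ t := by
  let q : T → G := fun t => f₁ t * (f₂ t)⁻¹
  have hq : ContinuousOn q S := h₁.mul h₂.inv
  have hρ : ∀ t ∈ S, D.ρ (q t) = 1 := fun t ht => by
    rw [map_mul, h t ht, ρ_mul_inv]
  have hloc : ∀ t ∈ S, ∀ᶠ t' in 𝓝[S] t, q t = q t' ∧ q t' = q t := by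
    intro t ht
    have h1 : Tendsto (fun t' => q t' * (q t)⁻¹) (𝓝[S] t) (𝓝 1) := by
      rw [← mul_inv_cancel (q t)]
      exact (hq t ht).tendsto.mul_const _
    filter_upwards [h1.eventually D.disc, self_mem_nhdsWithin] with t' h2 ht'
    have h3 : D.ρ (q t)⁻¹ = 1 := by rw [← D.ρ_inv_mul (q t), hρ t ht, mul_one]
    have h4 := mul_inv_eq_one.1 (h2 (by rw [map_mul, hρ t' ht', h3, mul_one]))
    exact ⟨h4.symm, h4⟩
  intro t ht
  have h5 : q t = q t₀ :=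
    hS.induction₂' (fun x y => q x = q y) hloc (fun _ _ _ _ _ _ => Eq.trans) ht ht₀
  have h6 : q t₀ = 1 := mul_inv_eq_one.2 h0
  exact mul_inv_eq_one.1 (h5.trans h6)

theorem ex_add_of_commute {X Y : Mat n} (hX : X ∈ D.g) (hY : Y ∈ D.g) (h : ⁅X, Y⁆ = 0) :
    D.ex (X + Y) = D.ex X * D.ex Y := by
  have key := D.lift_eq (S := univ) isPreconnected_univ
    (D.ex_smul_cont (D.g.add_mem hX hY)).continuousOn
    ((D.ex_smul_cont hX).mul (D.ex_smul_cont hY)).continuousOn (fun t _ => ?_) (mem_univ 0)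
    (by simp [D.ex_zero]) 1 (mem_univ _)
  · simpa using key
  · have hc : Commute X Y := sub_eq_zero.1 h
    rw [Pi.mul_apply, map_mul, D.ρ_ex _ (D.g.smul_mem t hX), D.ρ_ex _ (D.g.smul_mem t hY),
      D.ρ_ex _ (D.g.smul_mem t (D.g.add_mem hX hY)), smul_add]
    exact Matrix.exp_add_of_commute _ _ ((hc.smul_left t).smul_right t)

theorem ex_add_smul {X : Mat n} (hX : X ∈ D.g) (s t : ℝ) :
    D.ex ((s + t) • X) = D.ex (s • X) * D.ex (t • X) := by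
  rw [add_smul]
  refine D.ex_add_of_commute (D.g.smul_mem s hX) (D.g.smul_mem t hX) ?_
  rw [Ex1_br_smul, Ring.lie_def, sub_self, smul_zero]

theorem ex_neg {X : Mat n} (hX : X ∈ D.g) : D.ex (-X) = (D.ex X)⁻¹ := by
  have h := D.ex_add_smul hX 1 (-1)
  rw [add_neg_cancel, zero_smul, D.ex_zero, one_smul, neg_one_smul] at h
  exact eq_inv_of_mul_eq_one_right h.symm

theorem ex_nsmul {X : Mat n} (hX : X ∈ D.g) (m : ℕ) : D.ex ((m : ℝ) • X) = D.ex X ^ m := by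
  induction m with
  | zero => simp [D.ex_zero]
  | succ m ih => rw [Nat.cast_succ, D.ex_add_smul hX, ih, one_smul, pow_succ]

theorem ex_zsmul {X : Mat n} (hX : X ∈ D.g) (m : ℤ) : D.ex ((m : ℝ) • X) = D.ex X ^ m := by
  obtain ⟨m, rfl | rfl⟩ := Int.eq_nat_or_neg m
  · rw [Int.cast_natCast, zpow_natCast, D.ex_nsmul hX]
  · rw [Int.cast_neg, Int.cast_natCast, zpow_neg, zpow_natCast, neg_smul,
      D.ex_neg (D.g.smul_mem _ hX), D.ex_nsmul hX]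

theorem ρ_ex_inv {X : Mat n} (hX : X ∈ D.g) : D.ρ (D.ex X)⁻¹ = exp (-X) := by
  rw [← D.ex_neg hX, D.ρ_ex _ (D.g.neg_mem hX)]

theorem Ad_ex {X : Mat n} (hX : X ∈ D.g) (Y : Mat n) :
    D.Ad (D.ex X) Y = exp X * Y * exp (-X) := by
  rw [Ad_apply, D.ρ_ex_inv hX, D.ρ_ex _ hX]

theorem conj_ex (x : G) {X : Mat n} (hX : X ∈ D.g) :
    x * D.ex X * x⁻¹ = D.ex (D.Ad x X) := by
  have key := D.lift_eq (S := univ) isPreconnected_univ
    (f₁ := fun t : ℝ => x * D.ex (t • X) * x⁻¹)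
    ((continuous_const.mul (D.ex_smul_cont hX)).mul continuous_const).continuousOn
    (D.ex_smul_cont (D.Ad_mem x hX)).continuousOn (fun t _ => ?_) (mem_univ 0)
    (by simp [D.ex_zero]) 1 (mem_univ _)
  · simpa using key
  · rw [map_mul, map_mul, D.ρ_ex _ (D.g.smul_mem t hX), D.ρ_ex _ (D.g.smul_mem t (D.Ad_mem x hX)),
      ← map_smul, ← Ad_exp, Ad_apply]

theorem br_mem {X Y : Mat n} (hX : X ∈ D.g) (hY : Y ∈ D.g) : ⁅X, Y⁆ ∈ D.g := by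
  refine br_mem_of_conj (A := Mat n) (Submodule.closed_of_finiteDimensional D.g)
    (Eventually.of_forall fun t => ?_)
  have h := D.Ad_mem (D.ex (t • X)) hY
  rw [D.Ad_ex (D.g.smul_mem t hX)] at h
  exact h

theorem Ad_ex_mem {v : Submodule ℝ (Mat n)} {X Y : Mat n} (hX : X ∈ D.g)
    (h : ∀ Z ∈ v, ⁅X, Z⁆ ∈ v) (hY : Y ∈ v) : D.Ad (D.ex X) Y ∈ v := by
  rw [D.Ad_ex hX]
  exact conj_mem (A := Mat n) (Submodule.closed_of_finiteDimensional v) h hY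

theorem inj_nhds : ∃ U ∈ 𝓝 (1 : G), InjOn D.ρ U := by
  obtain ⟨V, hV, h⟩ := exists_nhds_split_inv D.disc
  refine ⟨V, hV, fun v hv w hw he => div_eq_one.1 (h v hv w hw ?_)⟩
  rw [div_eq_mul_inv, map_mul, he, ρ_mul_inv]

theorem ex_heis {X Y : Mat n} (hX : X ∈ D.g) (hY : Y ∈ D.g) (h1 : ⁅X, ⁅X, Y⁆⁆ = 0)
    (h2 : ⁅Y, ⁅X, Y⁆⁆ = 0) :
    D.ex X * D.ex Y = D.ex (X + Y + (1 / 2 : ℝ) • ⁅X, Y⁆) := by
  have hm : ∀ t : ℝ, t • X + t • Y + (1 / 2 : ℝ) • (t * t) • ⁅X, Y⁆ ∈ D.g := fun t =>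
    D.g.add_mem (D.g.add_mem (D.g.smul_mem t hX) (D.g.smul_mem t hY))
      (D.g.smul_mem _ (D.g.smul_mem _ (D.br_mem hX hY)))
  have key := D.lift_eq (S := univ) isPreconnected_univ
    (f₂ := fun t : ℝ => D.ex (t • X + t • Y + (1 / 2 : ℝ) • (t * t) • ⁅X, Y⁆))
    ((D.ex_smul_cont hX).mul (D.ex_smul_cont hY)).continuousOn
    (D.ex_cont.comp_continuous (by fun_prop) hm).continuousOn (fun t _ => ?_) (mem_univ 0)
    (by simp [D.ex_zero]) 1 (mem_univ _)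
  · simpa using key
  · rw [Pi.mul_apply, map_mul, D.ρ_ex _ (D.g.smul_mem t hX), D.ρ_ex _ (D.g.smul_mem t hY),
      D.ρ_ex _ (hm t), ← Ex1_br_smul]
    refine exp_heis (A := Mat n) ?_ ?_
    · rw [Ex1_br_smul, Ex1_br_smul, h1, smul_zero]
    · rw [Ex1_br_smul, Ex1_br_smul, h2, smul_zero]

theorem ex_sl2 {e f h : Mat n} (hE : e ∈ D.g) (hF : f ∈ D.g) (he : ⁅h, e⁆ = (2 : ℝ) • e)
    (hf : ⁅h, f⁆ = -((2 : ℝ) • f)) (hef : ⁅e, f⁆ = h) {s t : ℝ} (hc : 0 < 1 + s * t) :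
    D.ex (s • e) * D.ex (t • f) =
      D.ex ((t / (1 + s * t)) • f) * D.ex (Real.log (1 + s * t) • h) *
        D.ex ((s / (1 + s * t)) • e) := by
  have hH : h ∈ D.g := hef ▸ D.br_mem hE hF
  have hp : ∀ u ∈ Icc (0 : ℝ) 1, 0 < 1 + u * s * t := by
    intro u hu
    nlinarith [hu.1, hu.2, mul_nonneg hu.1 hc.le]
  have c0 : ContinuousOn (fun u : ℝ => 1 + u * s * t) (Icc 0 1) := by fun_prop
  have key := D.lift_eq (S := Icc (0 : ℝ) 1) isPreconnected_Icc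
    (f₁ := fun u : ℝ => D.ex ((u * s) • e) * D.ex (t • f))
    (f₂ := fun u : ℝ => D.ex ((t / (1 + u * s * t)) • f) * D.ex (Real.log (1 + u * s * t) • h) *
      D.ex ((u * s / (1 + u * s * t)) • e))
    (((D.ex_smul_cont hE).comp (by fun_prop)).mul continuous_const).continuousOn
    ((((D.ex_smul_cont hF).comp_continuousOn
        (continuousOn_const.div c0 fun u hu => (hp u hu).ne')).mul
      ((D.ex_smul_cont hH).comp_continuousOn (c0.log fun u hu => (hp u hu).ne'))).mul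
      ((D.ex_smul_cont hE).comp_continuousOn
        (ContinuousOn.div (by fun_prop) c0 fun u hu => (hp u hu).ne')))
    (fun u hu => ?_) (left_mem_Icc.2 zero_le_one) (by simp [D.ex_zero]) 1
    (right_mem_Icc.2 zero_le_one)
  · simpa using key
  · simp only [map_mul]
    rw [D.ρ_ex _ (D.g.smul_mem _ hE), D.ρ_ex _ (D.g.smul_mem _ hF), D.ρ_ex _ (D.g.smul_mem _ hF),
      D.ρ_ex _ (D.g.smul_mem _ hH), D.ρ_ex _ (D.g.smul_mem _ hE)]
    exact exp_sl2 (A := Mat n) he hf hef (hp u hu)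

end ExpData

end Pool.Agent.P.MP_d483fb_an.Z
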