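import Pool.Agent.P.MP_d483fb_an.Z.Lie.StdK

/-! The local big cell. -/

open scoped Matrix Matrix.Norms.Operator InnerProductSpace RealInnerProductSpace Topology
open NormedSpace Filter Set

noncomputable section

namespace Pool.Agent.P.MP_d483fb_an.Z

namespace Std

variable {G : Type} [Group G] [TopologicalSpace G] [IsTopologicalGroup G] {n k : ℕ}
  (D : Std G n k)

/-- Near `1` every element is `p n` and `n p` with `p` in the parabolic group of `-s` and `n` in the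
horospherical group of `s`. -/
theorem cell (s : Euc k) : ∃ p q p' q' : G → Mat n,
    (∀ᶠ x in 𝓝 (1 : G), p x ∈ D.grS (half (-s)) ∧ q x ∈ D.np s ∧ D.ex (p x) * D.ex (q x) = x ∧
      p' x ∈ D.grS (half (-s)) ∧ q' x ∈ D.np s ∧ D.ex (q' x) * D.ex (p' x) = x ∧
      ContinuousAt p x ∧ ContinuousAt q x ∧ ContinuousAt p' x ∧ ContinuousAt q' x) ∧
    ∃ C : ℝ, ∀ᶠ x in 𝓝 (1 : G), ‖p x‖ + ‖q x‖ + ‖p' x‖ + ‖q' x‖ ≤ C * ‖D.ρ x - 1‖ := by
  have hv : D.grS (half (-s)) ≤ D.g := D.grS_le _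
  have hw : D.np s ≤ D.g := D.grS_le _
  have hm : ∀ γ : Euc k, γ ∈ (half (-s) : Set (Euc k)) ↔ ⟪γ, s⟫ ≤ 0 := fun γ => by
    change 0 ≤ ⟪γ, -s⟫ ↔ _
    rw [inner_neg_right, neg_nonneg]
  have hs : D.g ≤ D.grS (half (-s)) ⊔ D.np s := by
    rw [np, ← D.grS_union, ← D.grS_univ]
    refine D.grS_mono fun γ _ => ?_
    exact (le_or_gt ⟪γ, s⟫ 0).imp (hm γ).2 id
  have hd : Disjoint (D.grS (half (-s))) (D.np s) := by
    refine Submodule.disjoint_def.2 fun X h1 h2 => ?_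
    ext i j
    by_contra h
    exact absurd ((hm _).1 (h1.2 i j h)) (not_le.2 (h2.2 i j h))
  obtain ⟨p, q, h1, -, C, hC⟩ := D.factor2 hv hw hs hd
  obtain ⟨q', p', h2, -, C', hC'⟩ := D.factor2 hw hv (hs.trans_eq (sup_comm _ _)) hd.symm
  refine ⟨p, q, p', q', ?_, C + C', ?_⟩
  · filter_upwards [h1, h2] with x a b
    exact ⟨a.1, a.2.1, a.2.2.1, b.2.1, b.1, b.2.2.1, a.2.2.2.1, a.2.2.2.2, b.2.2.2.2, b.2.2.2.1⟩
  · filter_upwards [hC, hC'] with x a b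
    linarith

theorem norm_Ad_half {s : Euc k} {X : Mat n} (hX : X ∈ D.grS (half (-s))) {t : ℝ} (ht : 0 ≤ t) :
    ‖D.Ad (D.a (t • s)) X‖ ≤ ‖X‖ := by
  have h := D.norm_Ad_a_le' (t • s) hX (c := 0) fun β hβ _ => by
    have h : 0 ≤ ⟪β, -s⟫ := hβ
    rw [inner_neg_right, neg_nonneg] at h
    rw [inner_smul_right]
    exact mul_nonpos_of_nonneg_of_nonpos ht h
  rwa [Real.exp_zero, one_mul] at h

/-- Products of small elements of the centralisers of wall elements fill a neighbourhood of `1`. -/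
theorem Zc_nhds {s : ℕ} (σ : Fin s → Euc k) (h : D.g ≤ ⨆ i, D.grS (wall (σ i))) {O : Set G}
    (hO : O ∈ 𝓝 (1 : G)) :
    {x | ∃ y : Fin s → G, (∀ i, y i ∈ D.Zc (σ i) ∧ y i ∈ O) ∧ x = (List.ofFn y).prod} ∈
      𝓝 (1 : G) := by
  have h1 : ∀ᶠ X in 𝓝[D.g] (0 : Mat n), D.ex X ∈ O := by
    have h : O ∈ Filter.map D.ex (𝓝[D.g] 0) := D.ex_nhds ▸ hO
    exact h
  obtain ⟨r, hr, h2⟩ := Metric.eventually_nhds_iff.1 (eventually_nhdsWithin_iff.1 h1)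
  refine mem_of_superset (D.prod_nhds (fun i => D.grS (wall (σ i))) (fun i => D.grS_le _) h hr) ?_
  rintro x ⟨X, hX, rfl⟩
  exact ⟨fun i => D.ex (X i), fun i => ⟨D.ex_mem_stab (hX i).1,
    h2 (by rw [dist_zero_right]; exact (hX i).2) (D.grS_le _ (hX i).1)⟩, rfl⟩

end Std

end Pool.Agent.P.MP_d483fb_an.Z
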