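import Pool.Agent.P.MP_d483fb_an.Z.Stmt

/-! Conjugation of the representation by an orthogonal matrix. -/

open scoped Matrix Matrix.Norms.Operator InnerProductSpace RealInnerProductSpace Topology
open scoped TensorProduct
open NormedSpace Filter Set

noncomputable section

namespace Pool.Agent.P.MP_d483fb_an.Z

section Lie

variable {R L L' : Type} [CommRing R] [LieRing L] [LieAlgebra R L] [LieRing L'] [LieAlgebra R L']

/-- Transport of ideals along an isomorphism. -/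
def Conj_ord (e : L ≃ₗ⁅R⁆ L') : LieIdeal R L' ≃o LieIdeal R L where
  toFun I := I.comap (e : L →ₗ⁅R⁆ L')
  invFun I := I.comap (e.symm : L' →ₗ⁅R⁆ L)
  left_inv I := by ext x; simp [LieIdeal.mem_comap]
  right_inv I := by ext x; simp [LieIdeal.mem_comap]
  map_rel_iff' {I J} := by
    refine ⟨fun h x hx => ?_, fun h => LieIdeal.comap_mono h⟩
    have : e.symm x ∈ I.comap (e : L →ₗ⁅R⁆ L') := by simpa [LieIdeal.mem_comap] using hx
    simpa [LieIdeal.mem_comap] using h this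

theorem Conj_mem (e : L ≃ₗ⁅R⁆ L') {I : LieIdeal R L'} {x : L} : x ∈ Conj_ord e I ↔ e x ∈ I :=
  Iff.rfl

/-- The isomorphism between corresponding ideals. -/
def Conj_id (e : L ≃ₗ⁅R⁆ L') (I : LieIdeal R L') : Conj_ord e I ≃ₗ⁅R⁆ I where
  toFun x := ⟨e x, x.2⟩
  invFun y := ⟨e.symm y, by rw [Conj_mem, e.apply_symm_apply]; exact y.2⟩
  map_add' x y := Subtype.ext (map_add e _ _)
  map_smul' c x := Subtype.ext (map_smul e _ _)
  map_lie' {x y} := Subtype.ext (e.map_lie _ _)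
  left_inv x := Subtype.ext (e.symm_apply_apply _)
  right_inv y := Subtype.ext (e.apply_symm_apply _)

theorem Conj_ss (e : L ≃ₗ⁅R⁆ L') (h : LieAlgebra.IsSemisimple R L) :
    LieAlgebra.IsSemisimple R L' where
  sSup_atoms_eq_top := by
    apply (Conj_ord e).injective
    rw [OrderIso.map_sSup_eq_sSup_symm_preimage, OrderIso.map_top, ← h.sSup_atoms_eq_top]
    congr 1
    ext I
    exact (Conj_ord e).symm.isAtom_iff I
  sSupIndep_isAtom := by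
    intro I hI
    rw [← disjoint_map_orderIso_iff (Conj_ord e), OrderIso.map_sSup_eq_sSup_symm_preimage]
    refine (h.sSupIndep_isAtom (((Conj_ord e).isAtom_iff I).2 hI)).mono_right (sSup_le_sSup ?_)
    rintro J ⟨h1, h2⟩
    refine ⟨((Conj_ord e).symm.isAtom_iff J).1 h1, fun h3 => h2 ?_⟩
    rw [mem_singleton_iff.1 h3, OrderIso.symm_apply_apply]
    rfl
  non_abelian_of_isAtom I hI := by
    rw [← lie_abelian_iff_equiv_lie_abelian (Conj_id e I)]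
    exact h.non_abelian_of_isAtom _ (((Conj_ord e).isAtom_iff I).2 hI)

/-- Base change of an isomorphism. -/
def Conj_bc (A : Type) [CommRing A] [Algebra R A] (e : L ≃ₗ⁅R⁆ L') :
    A ⊗[R] L ≃ₗ⁅A⁆ A ⊗[R] L' :=
  { LinearEquiv.baseChange R A L L' e.toLinearEquiv with
    map_lie' := fun {x y} =>
      (LieAlgebra.ExtendScalars.map (AlgHom.id R A) (e : L →ₗ⁅R⁆ L')).map_lie x y }

theorem Conj_li (e : L ≃ₗ⁅R⁆ L') {X Y : L} (h : LinearIndependent R ![X, Y]) :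
    LinearIndependent R ![e X, e Y] := by
  have : ![e X, e Y] = e.toLinearEquiv.toLinearMap ∘ ![X, Y] := by
    ext i : 1
    fin_cases i <;> rfl
  rw [this]
  exact h.map' _ e.toLinearEquiv.ker

end Lie

attribute [local instance 100] LieRing.ofAssociativeRing

variable {G : Type} [Group G] [TopologicalSpace G] {n : ℕ}

theorem Conj_cont (φ : Mat n ≃ₐ[ℝ] Mat n) : Continuous φ :=
  φ.toLinearMap.continuous_of_finiteDimensional

theorem Conj_lieSet (φ : Mat n ≃ₐ[ℝ] Mat n) (S : Set (Mat n)) :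
    lieSet (φ '' S) = φ '' lieSet S := by
  have h : ∀ X : Mat n, φ (exp X) = exp (φ X) := fun X => map_exp φ (Conj_cont φ) X
  ext Y
  obtain ⟨X, rfl⟩ := φ.surjective Y
  rw [φ.injective.mem_set_image]
  refine forall_congr' fun t => ?_
  rw [← map_smul, ← h, φ.injective.mem_set_image]

/-- The isomorphism of the Lie algebras. -/
def Conj_alg (φ : Mat n ≃ₐ[ℝ] Mat n) (S S' : Set (Mat n)) (h : S' = φ '' S) :
    lieAlg S ≃ₗ⁅ℝ⁆ lieAlg S' :=
  LieEquiv.ofSubalgebras _ _ φ.toLieEquiv (by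
    rw [h, lieAlg, lieAlg, LieSubalgebra.map_lieSpan, Conj_lieSet]
    rfl)

/-- Conjugation by an orthogonal matrix. -/
def Conj_phi {U : Mat n} (hU : U * Uᵀ = 1) : Mat n ≃ₐ[ℝ] Mat n where
  toFun X := U * X * Uᵀ
  invFun X := Uᵀ * X * U
  left_inv X := by
    simp only [← mul_assoc, mul_eq_one_comm.1 hU, one_mul]
    rw [mul_assoc, mul_eq_one_comm.1 hU, mul_one]
  right_inv X := by
    simp only [← mul_assoc, hU, one_mul]
    rw [mul_assoc, hU, mul_one]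
  map_mul' X Y := by
    simp only [mul_assoc]
    rw [← mul_assoc Uᵀ U, mul_eq_one_comm.1 hU, one_mul]
  map_add' X Y := by rw [mul_add, add_mul]
  commutes' r := by
    simp only [Algebra.algebraMap_eq_smul_one, mul_smul_comm, smul_mul_assoc, mul_one, hU]

theorem Conj_tr {U : Mat n} (hU : U * Uᵀ = 1) (X : Mat n) :
    Conj_phi hU Xᵀ = (Conj_phi hU X)ᵀ := by
  change U * Xᵀ * Uᵀ = (U * X * Uᵀ)ᵀ
  rw [Matrix.transpose_mul, Matrix.transpose_mul, Matrix.transpose_transpose, mul_assoc]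

omit [Group G] in
theorem Conj_cov (φ : Mat n ≃ₐ[ℝ] Mat n) {f f' : G → Mat n} (h : ∀ x, f' x = φ (f x))
    (hc : IsCoveringMap (rangeFactorization f)) : IsCoveringMap (rangeFactorization f') := by
  obtain rfl : f' = φ ∘ f := funext h
  let ψ : Mat n ≃ₜ Mat n := ⟨φ.toEquiv, Conj_cont φ, Conj_cont φ.symm⟩
  exact hc.homeomorph_comp ((ψ.image _).trans (Homeomorph.setCongr (range_comp φ f).symm))

theorem Conj_closed (φ : Mat n ≃ₐ[ℝ] Mat n) {S : Set (Mat n)} (h : IsClosed S) :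
    IsClosed (φ '' S) :=
  (⟨φ.toEquiv, Conj_cont φ, Conj_cont φ.symm⟩ : Mat n ≃ₜ Mat n).isClosedMap _ h

theorem Conj_val (φ : Mat n ≃ₐ[ℝ] Mat n) (S S' : Set (Mat n)) (h : S' = φ '' S) (X : lieAlg S) :
    (Conj_alg φ S S' h X).1 = φ X.1 := rfl

theorem Conj_rank (φ : Mat n ≃ₐ[ℝ] Mat n) (hφ : ∀ X, φ Xᵀ = (φ X)ᵀ) {S S' : Set (Mat n)}
    (h : S' = φ '' S) (hS : ∀ I : LieIdeal ℝ (lieAlg S), IsAtom I → ∃ X ∈ I, ∃ Y ∈ I,
      X.1.IsSymm ∧ Y.1.IsSymm ∧ ⁅X, Y⁆ = 0 ∧ LinearIndependent ℝ ![X, Y])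
    (I : LieIdeal ℝ (lieAlg S')) (hI : IsAtom I) : ∃ X ∈ I, ∃ Y ∈ I,
      X.1.IsSymm ∧ Y.1.IsSymm ∧ ⁅X, Y⁆ = 0 ∧ LinearIndependent ℝ ![X, Y] := by
  have hv := Conj_val φ S S' h
  generalize Conj_alg φ S S' h = e at hv
  obtain ⟨X, hX, Y, hY, h1, h2, h3, h4⟩ := hS _ (((Conj_ord e).isAtom_iff I).2 hI)
  refine ⟨e X, (Conj_mem e).1 hX, e Y, (Conj_mem e).1 hY, ?_, ?_,
    by rw [← e.map_lie, h3, map_zero], Conj_li e h4⟩
  · rw [Matrix.IsSymm, hv, ← hφ, h1.eq]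
  · rw [Matrix.IsSymm, hv, ← hφ, h2.eq]

theorem Conj_atom {L L' K : Type} [LieRing L] [LieAlgebra ℂ L] [LieRing L'] [LieAlgebra ℂ L']
    [LieRing K] [LieAlgebra ℂ K] (e : L ≃ₗ⁅ℂ⁆ L')
    (h : ∃ I : LieIdeal ℂ L', IsAtom I ∧ Nonempty (K ≃ₗ⁅ℂ⁆ I)) :
    ∃ I : LieIdeal ℂ L, IsAtom I ∧ Nonempty (K ≃ₗ⁅ℂ⁆ I) := by
  obtain ⟨I, hI, ⟨f⟩⟩ := h
  exact ⟨Conj_ord e I, ((Conj_ord e).isAtom_iff I).2 hI, ⟨f.trans (Conj_id e I).symm⟩⟩

theorem Conj_main (R : HigherRank G n) (φ : Mat n ≃ₐ[ℝ] Mat n) (hφ : ∀ X, φ Xᵀ = (φ X)ᵀ) :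
    ∃ R' : HigherRank G n, (∀ x, R'.ρ x = φ (R.ρ x)) ∧
      (∀ m, R.ltV m → R'.ltV m) ∧ ∀ m, R.ltD m → R'.ltD m := by
  obtain ⟨ρ', hρ⟩ : ∃ ρ' : G →* Mat n, ∀ x, ρ' x = φ (R.ρ x) :=
    ⟨(φ : Mat n →* Mat n).comp R.ρ, fun _ => rfl⟩
  have hi : ∀ S : Set G, ρ' '' S = φ '' (R.ρ '' S) := fun S => by
    rw [image_image]; exact image_congr fun x _ => hρ x
  have hr : range ρ' = φ '' range R.ρ := by rw [← image_univ, hi, image_univ]
  have hdim : ∀ H : Subgroup G, Module.finrank ℝ (lieAlg (ρ' '' H)) =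
      Module.finrank ℝ (lieAlg (R.ρ '' H)) := fun H =>
    (Conj_alg φ (R.ρ '' H) (ρ' '' H) (hi H)).toLinearEquiv.finrank_eq.symm
  refine ⟨⟨ρ', ?_, Conj_cov φ hρ R.cov, fun g => ?_, Conj_ss (Conj_alg φ _ _ hr) R.ss,
    Conj_rank φ hφ hr R.rank⟩, hρ, fun m h H h1 h2 => ?_,
    fun m h N K C h1 h2 h3 h4 h5 h6 => ?_⟩
  · rw [hr]
    exact Conj_closed φ R.closed
  · obtain ⟨g', hg⟩ := R.tr g
    exact ⟨g', by rw [hρ, hρ, hg, hφ]⟩
  · have := h H h1 h2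
    simpa only [HigherRank.dim, hdim] using this
  · exact h N K C h1 h2 h3 h4 h5 (Conj_atom (Conj_bc ℂ (Conj_alg φ _ _ hr)) h6)

theorem HigherRank.exists_conj (R : HigherRank G n) {U : Mat n} (hU : U * Uᵀ = 1) :
    ∃ R' : HigherRank G n, (∀ x, R'.ρ x = U * R.ρ x * Uᵀ) ∧
      (∀ m, R.ltV m → R'.ltV m) ∧ ∀ m, R.ltD m → R'.ltD m :=
  Conj_main R (Conj_phi hU) (Conj_tr hU)

end Pool.Agent.P.MP_d483fb_an.Z
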