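import Pool.Agent.P.MP_d483fb_an.Z.Lie.MatGrp

/-! The exponential map of a covering group. -/

open scoped Matrix Matrix.Norms.Operator InnerProductSpace RealInnerProductSpace Topology
open NormedSpace Filter Set

noncomputable section

namespace Pool.Agent.P.MP_d483fb_an.Z

variable {G : Type} [Group G] [TopologicalSpace G] {n : ℕ}

/-- A closed matrix group as a group with an exponential chart. -/
theorem exists_expData_of_cov (ρ : G →* Mat n) (hS : MatGrp (range ρ))
    (cov : IsCoveringMap (Set.rangeFactorization ρ)) :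
    ∃ D : ExpData G n, D.ρ = ρ ∧ D.g = lieOf (range ρ) := by
  classical
  have hm : ∀ X : lieOf (range ρ), exp (X : Mat n) ∈ range ρ := fun X => by
    simpa using hS.mem_lieOf_mat.1 X.2 1
  have hc : Continuous (exp : Mat n → Mat n) := exp_continuous
  let f : C(lieOf (range ρ), range ρ) :=
    ⟨fun X => ⟨exp (X : Mat n), hm X⟩, (hc.comp continuous_subtype_val).subtype_mk _⟩
  have he : Set.rangeFactorization ρ 1 = f 0 := Subtype.ext (by simp [f])
  have : LocallyConvexSpace ℝ (lieOf (range ρ)) := NormedSpace.toLocallyConvexSpace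
  obtain ⟨F, ⟨hF0, hF⟩, -⟩ := cov.existsUnique_continuousMap_lifts f 0 1 he
  have hF' : ∀ X, ρ (F X) = exp (X : Mat n) := fun X => congrArg Subtype.val (congrFun hF X)
  obtain ⟨U, hUo, hU1, hU⟩ := cov.isLocalHomeomorph.isLocallyInjective 1
  have hU' : InjOn ρ U := fun x hx y hy h => hU hx hy (Subtype.ext h)
  have hρ : Continuous ρ := continuous_subtype_val.comp cov.continuous
  have hUn := hUo.mem_nhds hU1
  let ex : Mat n → G := fun X => if h : X ∈ lieOf (range ρ) then F ⟨X, h⟩ else 1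
  have hex : ∀ X : lieOf (range ρ), ex X = F X := fun X => dif_pos X.2
  have hFc : Tendsto F (𝓝 0) (𝓝 1) := hF0 ▸ F.continuous.tendsto 0
  refine ⟨⟨ρ, lieOf (range ρ), ex, hρ, fun X hX => ?_, ?_, ?_, ?_, ?_, fun x X hX => ?_⟩, rfl, rfl⟩
  · rw [hex ⟨X, hX⟩, hF']
  · rw [continuousOn_iff_continuous_domRestrict]
    exact F.continuous.congr fun X => (hex X).symm
  · exact (hex 0).trans hF0
  · have e0 : 𝓝[lieOf (range ρ)] (0 : Mat n) = Filter.map Subtype.val (𝓝 (0 : lieOf (range ρ))) :=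
      nhdsWithin_eq_map_subtype_coe (zero_mem _)
    have e1 : ex ∘ Subtype.val = F := funext hex
    rw [e0, Filter.map_map, e1]
    refine le_antisymm hFc fun s hs => ?_
    have h1 : (fun X : lieOf (range ρ) => exp (X : Mat n)) '' (F ⁻¹' (s ∩ U)) ∈ 𝓝[range ρ] 1 := by
      rw [← hS.map_exp_mat, e0, Filter.map_map]
      exact image_mem_map (inter_mem (s := F ⁻¹' s) hs (hFc hUn))
    have h2 : Tendsto ρ (𝓝 1) (𝓝[range ρ] 1) :=
      tendsto_nhdsWithin_iff.2 ⟨by simpa using hρ.tendsto 1, .of_forall fun x => ⟨x, rfl⟩⟩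
    filter_upwards [h2 h1, hUn] with x hx hxU
    obtain ⟨X, hX, hXx⟩ := hx
    have : F X = x := hU' hX.2 hxU ((hF' X).trans hXx)
    exact this ▸ hX.1
  · filter_upwards [hUn] with x hx h
    exact hU' hx hU1 (by rw [h, map_one])
  · exact MatGrp.conj_mem (A := Mat n) hS ⟨x, rfl⟩ (by rw [← map_mul, mul_inv_cancel, map_one]) hX

theorem HigherRank.matGrp (R : HigherRank G n) : MatGrp (range R.ρ) := by
  refine MatGrp.of_isClosed R.closed ⟨1, map_one _⟩ ?_ ?_
  · rintro _ ⟨x, rfl⟩ _ ⟨y, rfl⟩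
    exact ⟨x * y, map_mul _ _ _⟩
  · rintro _ ⟨x, rfl⟩
    exact ⟨_, ⟨x⁻¹, rfl⟩, by rw [← map_mul, mul_inv_cancel, map_one]⟩

theorem HigherRank.opn (R : HigherRank G n) : Filter.map R.ρ (𝓝 1) = 𝓝[range R.ρ] 1 := by
  have h := R.cov.isLocalHomeomorph.map_nhds_eq 1
  have e : (R.ρ : G → Mat n) = Subtype.val ∘ Set.rangeFactorization R.ρ := rfl
  rw [e, ← Filter.map_map, h, map_nhds_subtype_val]
  simp

theorem HigherRank.exists_expData (R : HigherRank G n) :
    ∃ D : ExpData G n, D.ρ = R.ρ ∧ D.g = lieOf (range R.ρ) := exists_expData_of_cov R.ρ R.matGrp R.cov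

variable [IsTopologicalGroup G] [PreconnectedSpace G]

attribute [local instance 100] LieRing.ofAssociativeRing in
theorem ExpData.mem_lieAlg_image (D : ExpData G n) (hg : lieOf (range D.ρ) ≤ D.g)
    {H : Subgroup G} (hH : IsClosed (H : Set G)) {X : Mat n} :
    X ∈ lieAlg (D.ρ '' H) ↔ X ∈ D.lie H := by
  have key : ∀ Y, Y ∈ lieSet (D.ρ '' H) ↔ Y ∈ D.lie H := by
    intro Y
    rw [D.mem_lie hH]
    refine ⟨fun h => ?_, fun h t => ⟨_, h.2 t, D.ρ_ex _ (D.g.smul_mem t h.1)⟩⟩
    have hY : Y ∈ D.g := hg (Submodule.subset_span fun t => image_subset_range _ _ (h t))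
    refine ⟨hY, ?_⟩
    have : Countable {z | D.ρ z = 1} := D.ker_countable.to_subtype
    obtain ⟨z, t₀, ht₀⟩ := nonempty_interior_of_iUnion_of_closed
      (f := fun z : {z | D.ρ z = 1} => {t : ℝ | D.ex (t • Y) * (z : G)⁻¹ ∈ H})
      (fun z => hH.preimage ((D.ex_smul_cont hY).mul continuous_const))
      (eq_univ_of_forall fun t => by
        obtain ⟨x, hx, e⟩ := h t
        refine mem_iUnion.2 ⟨⟨x⁻¹ * D.ex (t • Y), ?_⟩, ?_⟩
        · show D.ρ _ = 1
          rw [map_mul, D.ρ_ex _ (D.g.smul_mem t hY), ← e, D.ρ_inv_mul]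
        · show D.ex (t • Y) * (x⁻¹ * D.ex (t • Y))⁻¹ ∈ H
          simpa using hx)
    have h1 := mem_interior_iff_mem_nhds.1 ht₀
    have h2 : ∀ᶠ s in 𝓝 (0 : ℝ), D.ex (s • Y) ∈ H := by
      have hc : Tendsto (fun s : ℝ => s + t₀) (𝓝 0) (𝓝 t₀) := by
        simpa using (continuous_add_const t₀).tendsto 0
      filter_upwards [hc h1] with s hs
      have h4 : D.ex (t₀ • Y) * (z : G)⁻¹ ∈ H := (mem_of_mem_nhds h1 :)
      have h3 := H.mul_mem hs (H.inv_mem h4)
      rw [D.ex_add_smul hY] at h3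
      simpa using h3
    intro t
    have hc : Tendsto (fun m : ℕ => t / m) atTop (𝓝 0) := tendsto_const_div_atTop_nhds_zero_nat t
    obtain ⟨m, hm, hm0⟩ := ((hc.eventually h2).and (eventually_gt_atTop 0)).exists
    have h3 := H.pow_mem hm m
    rw [← D.ex_nsmul (D.g.smul_mem _ hY), smul_smul,
      mul_div_cancel₀ _ (by exact_mod_cast hm0.ne')] at h3
    exact h3
  refine ⟨fun h => ?_, fun h => LieSubalgebra.subset_lieSpan ((key X).2 h)⟩
  let L : LieSubalgebra ℝ (Mat n) :=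
    { toSubmodule := D.lie H, lie_mem' := fun {x y} hx hy => D.lie_isSub H x hx y hy }
  exact (LieSubalgebra.lieSpan_le (K := L)).2 (fun Y hY => (key Y).1 hY) h

attribute [local instance 100] LieRing.ofAssociativeRing in
theorem HigherRank.ltV_iff (R : HigherRank G n) (D : ExpData G n) (h : D.ρ = R.ρ)
    (hg : D.g = lieOf (range R.ρ)) (m : ℕ) : R.ltV m ↔ D.ltV m := by
  have hd : ∀ H : Subgroup G, IsClosed (H : Set G) → R.dim H = Module.finrank ℝ (D.lie H) := by
    intro H hH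
    have e : (lieAlg (R.ρ '' H)).toSubmodule = D.lie H := by
      ext X
      rw [← D.mem_lieAlg_image (by rw [hg, h]) hH, h]
      rfl
    rw [← e]
    rfl
  refine forall_congr' fun H => forall_congr' fun hH => ?_
  rw [hd H hH, hd ⊤ isClosed_univ, D.lie_top]

end Pool.Agent.P.MP_d483fb_an.Z
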