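import Pool.Agent.P.MP_d483fb_an.Z.Lie.Defs

/-! Further definitions: closed groups of units, simple factors. -/

open scoped Matrix Matrix.Norms.Operator InnerProductSpace RealInnerProductSpace Topology
open NormedSpace Filter Set

noncomputable section

namespace Pool.Agent.P.MP_d483fb_an.Z

/-- A group of units which is closed in the group of all units. -/
structure MatGrp {A : Type} [Monoid A] [TopologicalSpace A] (S : Set A) : Prop where
  one : 1 ∈ S
  mul : ∀ x ∈ S, ∀ y ∈ S, x * y ∈ S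
  inv : ∀ x ∈ S, ∃ y ∈ S, x * y = 1 ∧ y * x = 1
  closed : ∀ x ∈ closure S, IsUnit x → x ∈ S

/-- The Lie algebra of a group of units. -/
def lieOf {A : Type} [Ring A] [Algebra ℝ A] [TopologicalSpace A] [IsTopologicalRing A]
    (S : Set A) : Submodule ℝ A :=
  Submodule.span ℝ {X | ∀ t : ℝ, exp (t • X) ∈ S}

namespace Std

variable {G : Type} [Group G] [TopologicalSpace G] {n k : ℕ} (D : Std G n k)

/-- The roots of the simple factor of `β`. -/
def facR (β : Euc k) : Set (Euc k) := {γ | γ ∈ D.roots ∧ D.Conn β γ}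

/-- The simple ideal that contains the root space of `β`. -/
def fac (β : Euc k) : Submodule ℝ (Mat n) :=
  D.grS (D.facR β) ⊔ Submodule.span ℝ
    {Z | ∃ γ ∈ D.facR β, ∃ E ∈ D.gr γ, ∃ F ∈ D.gr (-γ), Z = ⁅E, F⁆}

/-- `s` is regular. -/
def Reg (s : Euc k) : Prop := ∀ β ∈ D.roots, ⟪β, s⟫ ≠ 0

/-- `P` is closed under addition and positive on `H`. -/
structure Pos (P : Set (Euc k)) (H : Euc k) : Prop where
  add : ∀ β ∈ P, ∀ γ ∈ P, β + γ ∈ P
  pos : ∀ β ∈ P, 0 < ⟪β, H⟫

end Std

end Pool.Agent.P.MP_d483fb_an.Z
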