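import Pool.Agent.P.MP_d483fb_an.Z.Lie.Ex2

/-! Limits and products of exponentials. -/

open scoped Matrix Matrix.Norms.Operator InnerProductSpace RealInnerProductSpace Topology
open NormedSpace Filter Set

noncomputable section

namespace Pool.Agent.P.MP_d483fb_an.Z

theorem strict_list_prod {A E ι : Type} [NormedRing A] [NormedAlgebra ℝ A] [NormedAddCommGroup E]
    [NormedSpace ℝ E] {f : ι → E → A} {f' : ι → E →L[ℝ] A} {x : E}
    (h : ∀ i, HasStrictFDerivAt (f i) (f' i) x) (h1 : ∀ i, f i x = 1) (l : List ι) :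
    HasStrictFDerivAt (fun e => (l.map fun i => f i e).prod) (l.map f').sum x ∧
      (l.map fun i => f i x).prod = 1 := by
  induction l with
  | nil => exact ⟨by simpa using hasStrictFDerivAt_const (1 : A) x, rfl⟩
  | cons a l ih =>
    refine ⟨?_, by rw [List.map_cons, List.prod_cons, h1, ih.2, one_mul]⟩
    simp only [List.map_cons, List.prod_cons, List.sum_cons]
    refine ((h a).mul' ih.1).congr_fderiv ?_
    rw [h1, ih.2, add_comm]
    ext e
    simp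

theorem strict_exp {A E : Type} [NormedRing A] [NormedAlgebra ℝ A] [CompleteSpace A]
    [NormedAddCommGroup E] [NormedSpace ℝ E] (L : E →L[ℝ] A) :
    HasStrictFDerivAt (fun e => exp (L e)) L 0 := by
  have h : HasStrictFDerivAt (exp : A → A) (1 : A →L[ℝ] A) (L 0) := by
    rw [map_zero]
    exact hasStrictFDerivAt_exp_zero
  exact h.comp 0 L.hasStrictFDerivAt

section Gen

variable {A : Type} [NormedRing A] [NormedAlgebra ℝ A] [CompleteSpace A] [FiniteDimensional ℝ A]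

omit [CompleteSpace A] in
theorem exists_clm_proj (g : Submodule ℝ A) :
    ∃ π : A →L[ℝ] g, ∀ X (hX : X ∈ g), π X = ⟨X, hX⟩ := by
  obtain ⟨q, hq⟩ := g.exists_isCompl
  exact ⟨LinearMap.toContinuousLinearMap (g.projectionOnto q hq), fun X hX =>
    Submodule.projectionOnto_apply_left hq ⟨X, hX⟩⟩

omit [FiniteDimensional ℝ A] in
theorem strict_mlog {E F : Type} [NormedAddCommGroup E] [NormedSpace ℝ E] [NormedAddCommGroup F]
    [NormedSpace ℝ F] {φ : E → A} {L : E →L[ℝ] A} (h0 : φ 0 = 1) (hd : HasStrictFDerivAt φ L 0)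
    (π : A →L[ℝ] F) : HasStrictFDerivAt (fun e => π (mlog (φ e))) (π.comp L) 0 := by
  have h : HasStrictFDerivAt (mlog : A → A) (ContinuousLinearMap.id ℝ A) (φ 0) := by
    rw [h0]
    exact mlog_strict
  exact π.hasStrictFDerivAt.comp 0 (h.comp 0 hd)

theorem gen_prod {s : ℕ} {g : Submodule ℝ A} (V : Fin s → Submodule ℝ A) (hs : g ≤ ⨆ i, V i)
    {p : (Fin s → A) → Prop} (hp : ∀ᶠ X in 𝓝 0, (∀ i, X i ∈ V i) →
      p X ∧ mlog (List.ofFn fun i => exp (X i)).prod ∈ g) :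
    ∀ᶠ Y in 𝓝[g] (0 : A), ∃ X : Fin s → A, (∀ i, X i ∈ V i) ∧ p X ∧
      mlog (List.ofFn fun i => exp (X i)).prod = Y := by
  obtain ⟨π, hπ⟩ := exists_clm_proj g
  let L : Fin s → (∀ i, V i) →L[ℝ] A := fun i => (V i).subtypeL.comp (ContinuousLinearMap.proj i)
  obtain ⟨hd, h0⟩ := strict_list_prod (f := fun i e => exp (L i e)) (f' := L) (x := 0)
    (fun i => by exact strict_exp (E := ∀ i, V i) (L i)) (fun i => by rw [map_zero, exp_zero])
    (List.finRange s)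
  have : CompleteSpace (∀ i, V i) := FiniteDimensional.complete ℝ _
  have : CompleteSpace g := FiniteDimensional.complete ℝ _
  have hm := (strict_mlog h0 hd π).map_nhds_eq_of_surj (by
    refine LinearMap.range_eq_top.mpr fun Y => ?_
    obtain ⟨f, hf, hY⟩ := (Submodule.mem_iSup_iff_exists_finsupp _ _).mp (hs Y.2)
    refine ⟨fun i => ⟨f i, hf i⟩, ?_⟩
    rw [Finsupp.sum_fintype _ _ fun _ => rfl] at hY
    have : ((List.finRange s).map L).sum (fun i => ⟨f i, hf i⟩) = Y := by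
      rw [← Fin.sum_univ_def, sum_apply, ← hY]
      rfl
    change π (((List.finRange s).map L).sum fun i => ⟨f i, hf i⟩) = Y
    rw [this, hπ _ Y.2])
  rw [h0, mlog_one, map_zero] at hm
  have ht : Tendsto (fun (e : ∀ i, V i) i => (e i : A)) (𝓝 0) (𝓝 0) :=
    Continuous.tendsto' (by fun_prop) _ _ rfl
  rw [nhdsWithin_eq_map_subtype_coe g.zero_mem, eventually_map]
  change ∀ᶠ Y : g in 𝓝 0, _
  rw [← hm]
  refine mem_of_superset (image_mem_map (ht.eventually hp)) ?_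
  rintro _ ⟨e, he, rfl⟩
  obtain ⟨h1, h2⟩ := he fun i => (e i).2
  refine ⟨fun i => e i, fun i => (e i).2, h1, ?_⟩
  rw [List.ofFn_eq_map] at h2 ⊢
  exact (congrArg Subtype.val (hπ _ h2)).symm

theorem gen_fac {g v w : Submodule ℝ A} (hv : v ≤ g) (hw : w ≤ g) (hs : g ≤ v ⊔ w)
    (hd : Disjoint v w)
    (hg : ∀ᶠ Z in 𝓝 (0 : A × A), Z.1 ∈ v → Z.2 ∈ w → mlog (exp Z.1 * exp Z.2) ∈ g) :
    ∃ p q : A → A, (∀ Y, p Y ∈ v ∧ q Y ∈ w) ∧
      (∀ᶠ Y in 𝓝 0, ContinuousAt p Y ∧ ContinuousAt q Y ∧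
        (Y ∈ g → mlog (exp (p Y) * exp (q Y)) = Y)) ∧
      (∀ᶠ Z in 𝓝 (0 : A × A), Z.1 ∈ v → Z.2 ∈ w →
        p (mlog (exp Z.1 * exp Z.2)) = Z.1 ∧ q (mlog (exp Z.1 * exp Z.2)) = Z.2) ∧
      Tendsto (fun Y => (p Y, q Y)) (𝓝 0) (𝓝 0) ∧
      ∃ C : ℝ, 0 ≤ C ∧ ∀ᶠ Y in 𝓝 0, ‖p Y‖ + ‖q Y‖ ≤ C * ‖Y‖ := by
  obtain ⟨π, hπ⟩ := exists_clm_proj g
  let L1 : v × w →L[ℝ] A := v.subtypeL.comp (ContinuousLinearMap.fst ℝ v w)
  let L2 : v × w →L[ℝ] A := w.subtypeL.comp (ContinuousLinearMap.snd ℝ v w)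
  let φ : v × w → A := fun e => exp (e.1 : A) * exp (e.2 : A)
  have h0 : φ 0 = 1 := by simp [φ]
  have hρ : HasStrictFDerivAt φ (L1 + L2) 0 := by
    refine ((strict_exp L1).mul' (strict_exp L2)).congr_fderiv ?_
    rw [map_zero, map_zero, exp_zero, one_smul, MulOpposite.op_one, one_smul, add_comm]
  have hL : ∀ e : v × w, π.comp (L1 + L2) e = ⟨e.1 + e.2, g.add_mem (hv e.1.2) (hw e.2.2)⟩ :=
    fun e => hπ _ _
  have hb : Function.Bijective (π.comp (L1 + L2)).toLinearMap := by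
    refine ⟨(injective_iff_map_eq_zero _).mpr fun e he => ?_, fun Y => ?_⟩
    · have h1 : (e.1 : A) + e.2 = 0 := congrArg Subtype.val ((hL e).symm.trans he)
      have h2 : (e.1 : A) = 0 := (Submodule.disjoint_def.mp hd) _ e.1.2 (by
        rw [eq_neg_of_add_eq_zero_left h1]
        exact w.neg_mem e.2.2)
      rw [h2, zero_add] at h1
      exact Prod.ext (Subtype.ext h2) (Subtype.ext h1)
    · obtain ⟨a, ha, b, hb, hab⟩ := Submodule.mem_sup.mp (hs Y.2)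
      exact ⟨(⟨a, ha⟩, ⟨b, hb⟩), (hL _).trans (Subtype.ext hab)⟩
  have : CompleteSpace (v × w) := FiniteDimensional.complete ℝ _
  have hΦ : HasStrictFDerivAt (fun e => π (mlog (φ e)))
      ((LinearEquiv.ofBijective _ hb).toContinuousLinearEquiv : v × w →L[ℝ] g) 0 :=
    strict_mlog h0 hρ π
  have z : π (mlog (φ 0)) = 0 := by rw [h0, mlog_one, map_zero]
  obtain ⟨ψ, hr, hl, hc, hB⟩ : ∃ ψ : g → v × w, (∀ᶠ y in 𝓝 0, π (mlog (φ (ψ y))) = y) ∧
      (∀ᶠ e in 𝓝 0, ψ (π (mlog (φ e))) = e) ∧ (∀ᶠ y in 𝓝 0, ContinuousAt ψ y) ∧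
      ψ =O[𝓝 0] fun y => y := by
    refine ⟨hΦ.localInverse _ _ _, z ▸ hΦ.eventually_right_inverse, hΦ.eventually_left_inverse,
      ?_, ?_⟩
    · filter_upwards [(hΦ.toOpenPartialHomeomorph _).open_target.mem_nhds
        (z ▸ hΦ.image_mem_toOpenPartialHomeomorph_target)] with y hy
      exact (hΦ.toOpenPartialHomeomorph _).continuousAt_symm hy
    · have h1 := hΦ.to_localInverse.hasFDerivAt.isBigO_sub
      rw [hΦ.localInverse_apply_image, z] at h1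
      simpa only [sub_zero] using h1
  have ty : Tendsto π (𝓝 0) (𝓝 0) := π.continuous.tendsto' _ _ (map_zero π)
  have tv : Tendsto (fun e : v × w => ((e.1 : A), (e.2 : A))) (𝓝 0) (𝓝 0) :=
    Continuous.tendsto' (by fun_prop) _ _ rfl
  have tψ := tv.comp ((hB.trans_tendsto tendsto_id).comp ty)
  refine ⟨fun x => (ψ (π x)).1, fun x => (ψ (π x)).2, fun Y => ⟨(ψ _).1.2, (ψ _).2.2⟩, ?_, ?_,
    tψ, ?_⟩
  · filter_upwards [ty.eventually hr, ty.eventually hc, tψ.eventually hg] with x h1 h2 h3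
    have c : ContinuousAt (fun x => ψ (π x)) x := h2.comp π.continuous.continuousAt
    refine ⟨continuous_subtype_val.continuousAt.comp c.fst,
      continuous_subtype_val.continuousAt.comp c.snd, fun hx => ?_⟩
    exact congrArg Subtype.val ((hπ _ (h3 (ψ _).1.2 (ψ _).2.2)).symm.trans (h1.trans (hπ _ hx)))
  · obtain ⟨ε, hε, h1⟩ := Metric.eventually_nhds_iff_ball.mp hl
    filter_upwards [Metric.ball_mem_nhds (0 : A × A) hε] with Z hZ a b
    have := h1 (⟨Z.1, a⟩, ⟨Z.2, b⟩) (mem_ball_zero_iff.mpr (mem_ball_zero_iff.mp hZ))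
    exact ⟨congrArg (fun e : v × w => (e.1 : A)) this, congrArg (fun e : v × w => (e.2 : A)) this⟩
  · obtain ⟨C, hC, hB⟩ := hB.exists_nonneg
    refine ⟨2 * C * ‖π‖, by positivity, ?_⟩
    filter_upwards [ty.eventually hB.bound] with x h1
    have a : ‖((ψ (π x)).1 : A)‖ ≤ ‖ψ (π x)‖ := norm_fst_le (ψ (π x))
    have b : ‖((ψ (π x)).2 : A)‖ ≤ ‖ψ (π x)‖ := norm_snd_le (ψ (π x))
    nlinarith [mul_le_mul_of_nonneg_left (π.le_opNorm x) hC]

end Gen

namespace ExpData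

variable {G : Type} [Group G] [TopologicalSpace G] [IsTopologicalGroup G] {n : ℕ}
  (D : ExpData G n)

theorem tendsto_zpow {x : ℕ → G} {c : ℕ → ℝ} {X : Mat n} (hx : Tendsto x atTop (𝓝 1))
    (h : Tendsto (fun m => c m • D.lg (x m)) atTop (𝓝 X)) :
    X ∈ D.g ∧ Tendsto (fun m => x m ^ ⌊c m⌋) atTop (𝓝 (D.ex X)) := by
  have e := hx.eventually D.ex_lg
  have hX : X ∈ D.g := D.g.closed_of_finiteDimensional.mem_of_tendsto h
    (e.mono fun m hm => D.g.smul_mem _ hm.1)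
  refine ⟨hX, ?_⟩
  have l0 : Tendsto (fun m => D.lg (x m)) atTop (𝓝 0) :=
    (D.tendsto_lg.mono_right nhdsWithin_le_nhds).comp hx
  have d0 : Tendsto (fun m => ((⌊c m⌋ : ℝ) - c m) • D.lg (x m)) atTop (𝓝 0) := by
    refine squeeze_zero_norm (fun m => ?_) (tendsto_zero_iff_norm_tendsto_zero.mp l0)
    rw [norm_smul]
    refine mul_le_of_le_one_left (norm_nonneg _) ?_
    rw [Real.norm_eq_abs, abs_le]
    constructor
    · linarith [Int.lt_floor_add_one (c m)]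
    · linarith [Int.floor_le (c m)]
  have t : Tendsto (fun m => (⌊c m⌋ : ℝ) • D.lg (x m)) atTop (𝓝[D.g] X) := by
    refine tendsto_nhdsWithin_iff.mpr ⟨?_, e.mono fun m hm => D.g.smul_mem _ hm.1⟩
    simpa [sub_smul] using d0.add h
  refine ((D.ex_cont X hX).tendsto.comp t).congr' (e.mono fun m hm => ?_)
  rw [Function.comp, D.ex_zsmul hm.1, hm.2]

theorem trotter {X Y : Mat n} (hX : X ∈ D.g) (hY : Y ∈ D.g) :
    Tendsto (fun m : ℕ => (D.ex ((m : ℝ)⁻¹ • X) * D.ex ((m : ℝ)⁻¹ • Y)) ^ m) atTop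
      (𝓝 (D.ex (X + Y))) := by
  have t : ∀ Z ∈ D.g, Tendsto (fun m : ℕ => D.ex ((m : ℝ)⁻¹ • Z)) atTop (𝓝 1) := fun Z hZ => by
    have := ((D.ex_smul_cont hZ).tendsto 0).comp (tendsto_inv_atTop_nhds_zero_nat (𝕜 := ℝ))
    rwa [zero_smul, D.ex_zero] at this
  have := (D.tendsto_zpow (c := fun m => (m : ℝ)) (X := X + Y)
    (by simpa using (t X hX).mul (t Y hY)) ((trotter_log X Y).congr fun m => by
      rw [lg, map_mul, D.ρ_ex _ (D.g.smul_mem _ hX), D.ρ_ex _ (D.g.smul_mem _ hY)]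
      rfl)).2
  simpa using this

omit [IsTopologicalGroup G] in
theorem tendsto_ex_of {α : Type} {l : Filter α} {f : α → Mat n} (h : Tendsto f l (𝓝 0))
    (hf : ∀ᶠ a in l, f a ∈ D.g) : Tendsto (fun a => D.ex (f a)) l (𝓝 1) := by
  rw [← D.ex_nhds]
  exact tendsto_map.comp (tendsto_nhdsWithin_iff.mpr ⟨h, hf⟩)

/-- Products of small exponentials of spanning subspaces fill a neighbourhood of `1`. -/
theorem prod_nhds {s : ℕ} (V : Fin s → Submodule ℝ (Mat n)) (hV : ∀ i, V i ≤ D.g)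
    (hs : D.g ≤ ⨆ i, V i) {r : ℝ} (hr : 0 < r) :
    {x | ∃ X : Fin s → Mat n, (∀ i, X i ∈ V i ∧ ‖X i‖ < r) ∧
      x = (List.ofFn fun i => D.ex (X i)).prod} ∈ 𝓝 (1 : G) := by
  let φ : (Fin s → Mat n) → G := fun X => (List.ofFn fun i => D.ex (X i)).prod
  have hρ : ∀ X : Fin s → Mat n, (∀ i, X i ∈ V i) →
      D.lg (φ X) = mlog (List.ofFn fun i => exp (X i)).prod := fun X hX => by
    simp only [lg, φ, map_list_prod, List.map_ofFn]
    congr 3
    exact funext fun i => D.ρ_ex _ (hV i (hX i))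
  have ht : Tendsto φ (𝓝[{X | ∀ i, X i ∈ V i}] 0) (𝓝 1) := by
    have := tendsto_list_prod (List.finRange s) (f := fun i (X : Fin s → Mat n) => D.ex (X i))
      (x := 𝓝[{X | ∀ i, X i ∈ V i}] 0) (a := fun _ => 1) fun i _ =>
        D.tendsto_ex_of (((continuous_apply i).tendsto 0).mono_left nhdsWithin_le_nhds)
          (eventually_mem_nhdsWithin.mono fun X hX => hV i (hX i))
    simpa [φ, List.ofFn_eq_map] using this
  have hb : ∀ᶠ X : Fin s → Mat n in 𝓝 0, ∀ i, ‖X i‖ < r := eventually_all.mpr fun i =>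
    ((continuous_apply i).tendsto (0 : Fin s → Mat n)).eventually
      (p := fun Y : Mat n => ‖Y‖ < r) (by
        filter_upwards [Metric.ball_mem_nhds (0 : Mat n) hr] with Y hY using
          mem_ball_zero_iff.mp hY)
  have key := gen_prod (g := D.g) V hs (p := fun X => (∀ i, ‖X i‖ < r) ∧ D.ex (D.lg (φ X)) = φ X)
    (by
      filter_upwards [hb, eventually_nhdsWithin_iff.mp (ht.eventually D.ex_lg)] with X h1 h2 h3
      exact ⟨⟨h1, (h2 h3).2⟩, hρ X h3 ▸ (h2 h3).1⟩)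
  rw [← D.ex_nhds, Filter.mem_map]
  refine Eventually.mono key ?_
  rintro Y ⟨X, h1, ⟨h2, h3⟩, h4⟩
  exact ⟨X, fun i => ⟨h1 i, h2 i⟩, (congrArg D.ex ((hρ X h1).trans h4)).symm.trans h3⟩

/-- Local factorisation along a direct sum decomposition of the Lie algebra. -/
theorem factor2 {v w : Submodule ℝ (Mat n)} (hv : v ≤ D.g) (hw : w ≤ D.g) (hs : D.g ≤ v ⊔ w)
    (hd : Disjoint v w) : ∃ p q : G → Mat n,
      (∀ᶠ x in 𝓝 (1 : G), p x ∈ v ∧ q x ∈ w ∧ D.ex (p x) * D.ex (q x) = x ∧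
        ContinuousAt p x ∧ ContinuousAt q x) ∧
      (∀ᶠ Z in 𝓝 (0 : Mat n × Mat n), Z.1 ∈ v → Z.2 ∈ w →
        p (D.ex Z.1 * D.ex Z.2) = Z.1 ∧ q (D.ex Z.1 * D.ex Z.2) = Z.2) ∧
      ∃ C : ℝ, ∀ᶠ x in 𝓝 (1 : G), ‖p x‖ + ‖q x‖ ≤ C * ‖D.ρ x - 1‖ := by
  have hρ : ∀ X ∈ v, ∀ Y ∈ w, D.lg (D.ex X * D.ex Y) = mlog (exp X * exp Y) := fun X hX Y hY => by
    rw [lg, map_mul, D.ρ_ex _ (hv hX), D.ρ_ex _ (hw hY)]
  have ht : Tendsto (fun Z : Mat n × Mat n => D.ex Z.1 * D.ex Z.2)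
      (𝓝[{Z | Z.1 ∈ v ∧ Z.2 ∈ w}] 0) (𝓝 1) := by
    simpa using (D.tendsto_ex_of ((continuous_fst.tendsto (0 : Mat n × Mat n)).mono_left
      nhdsWithin_le_nhds) (eventually_mem_nhdsWithin.mono fun Z hZ => hv hZ.1)).mul
      (D.tendsto_ex_of ((continuous_snd.tendsto (0 : Mat n × Mat n)).mono_left
        nhdsWithin_le_nhds) (eventually_mem_nhdsWithin.mono fun Z hZ => hw hZ.2))
  have he := eventually_nhdsWithin_iff.mp (ht.eventually D.ex_lg)
  obtain ⟨p, q, h0, h1, h2, h3, C, hC, h4⟩ := gen_fac hv hw hs hd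
    (he.mono fun Z hZ a b => hρ _ a _ b ▸ (hZ ⟨a, b⟩).1)
  have ty : Tendsto D.lg (𝓝 1) (𝓝 0) := D.tendsto_lg.mono_right nhdsWithin_le_nhds
  refine ⟨fun x => p (D.lg x), fun x => q (D.lg x), ?_, ?_, 2 * C, ?_⟩
  · filter_upwards [ty.eventually h1, D.ex_lg, D.lg_cont, (Tendsto.comp h3 ty).eventually he]
      with x a b c d
    refine ⟨(h0 _).1, (h0 _).2, ?_, ContinuousAt.comp a.1 c, ContinuousAt.comp a.2.1 c⟩
    exact (d (h0 _)).2.symm.trans
      ((congrArg D.ex ((hρ _ (h0 _).1 _ (h0 _).2).trans (a.2.2 b.1))).trans b.2)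
  · refine Eventually.mono h2 fun Z hZ a b => ?_
    simp only [hρ _ a _ b]
    exact hZ a b
  · filter_upwards [ty.eventually h4, D.norm_lg_le] with x a b
    exact a.trans ((mul_le_mul_of_nonneg_left b.1 hC).trans_eq (by ring))

end ExpData

end Pool.Agent.P.MP_d483fb_an.Z
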