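import Pool.Agent.P.MP_d483fb_an.Z.Lie.Mx1
import Pool.Agent.P.MP_d483fb_an.Z.Lie.Mx2

/-! Spectral facts about symmetric matrices. -/

open scoped Matrix Matrix.Norms.Operator InnerProductSpace RealInnerProductSpace Topology
open NormedSpace Filter Set

noncomputable section

namespace Pool.Agent.P.MP_d483fb_an.Z

variable {n : ℕ}

theorem Mx3_eigenbasis (v : Submodule ℝ (Mat n)) (hs : ∀ X ∈ v, X.IsSymm)
    (hc : ∀ X ∈ v, ∀ Y ∈ v, ⁅X, Y⁆ = 0) :
    ∃ b : OrthonormalBasis (Fin n) ℝ (Euc n), ∀ X ∈ v, ∀ a, ∃ c : ℝ,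
      Matrix.toLpLin 2 2 X (b a) = c • b a := by
  classical
  let T : v → Module.End ℝ (Euc n) := fun X => Matrix.toLpLin 2 2 (X : Mat n)
  have hT : ∀ X, (T X).IsSymmetric := fun X =>
    Matrix.isSymmetric_toEuclideanLin_iff.mpr (Matrix.isHermitian_iff_isSymm.mpr (hs X X.2))
  have hC : Pairwise (Function.onFun Commute T) := fun X Y _ => by
    have h := hc X X.2 Y Y.2
    rw [Ring.lie_def, sub_eq_zero] at h
    show T X ∘ₗ T Y = T Y ∘ₗ T X
    simp only [T]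
    rw [← Matrix.toLpLin_mul_same, ← Matrix.toLpLin_mul_same, h]
  have hI := LinearMap.IsSymmetric.directSum_isInternal_of_pairwise_commute hT hC
  have hO := LinearMap.IsSymmetric.orthogonalFamily_iInf_eigenspaces hT
  have hF := Submodule.finite_ne_bot_of_iSupIndep hI.submodule_iSupIndep
  let _ : Fintype {χ : v → ℝ // (⨅ j, Module.End.eigenspace (T j) (χ j)) ≠ ⊥} := hF.fintype
  have hI' := DirectSum.isInternal_ne_bot_iff.mpr hI
  have hO' := hO.comp (f := fun χ : {χ : v → ℝ //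
    (⨅ j, Module.End.eigenspace (T j) (χ j)) ≠ ⊥} => χ.1) Subtype.val_injective
  have hn : Module.finrank ℝ (Euc n) = n := by simp
  refine ⟨hI'.subordinateOrthonormalBasis hn hO', fun X hX a => ?_⟩
  have h1 := hI'.subordinateOrthonormalBasis_subordinate hn a hO'
  exact ⟨_, Module.End.mem_eigenspace_iff.mp ((Submodule.mem_iInf _).mp h1 ⟨X, hX⟩)⟩

theorem simul_diag (v : Submodule ℝ (Mat n)) (hs : ∀ X ∈ v, X.IsSymm)
    (hc : ∀ X ∈ v, ∀ Y ∈ v, ⁅X, Y⁆ = 0) :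
    ∃ U : Mat n, U * Uᵀ = 1 ∧ ∀ X ∈ v, (U * X * Uᵀ).IsDiag := by
  obtain ⟨b, hb⟩ := Mx3_eigenbasis v hs hc
  have h1 : ∀ a c, ∑ j, b a j * b c j = if a = c then 1 else 0 := fun a c => by
    rw [← orthonormal_iff_ite.mp b.orthonormal a c, PiLp.inner_apply]
    exact Finset.sum_congr rfl fun j _ => by simp [mul_comm]
  refine ⟨Matrix.of fun a j => b a j, ?_, fun X hX a c hac => ?_⟩
  · ext a c
    rw [Matrix.mul_apply, Matrix.one_apply, ← h1]
    rfl
  · obtain ⟨t, ht⟩ := hb X hX c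
    have h2 : ∀ i, ∑ j, X i j * b c j = t * b c i := fun i =>
      congrArg (fun x : Euc n => x i) ht
    rw [Matrix.mul_assoc, Matrix.mul_apply]
    have h3 : ∀ i, (X * (Matrix.of fun a j => b a j : Mat n)ᵀ) i c = t * b c i := fun i => by
      rw [Matrix.mul_apply, ← h2]
      rfl
    have h4 := h1 a c
    rw [if_neg hac] at h4
    calc ∑ i, (Matrix.of fun a j => b a j : Mat n) a i *
          (X * (Matrix.of fun a j => b a j : Mat n)ᵀ) i c = t * ∑ i, b a i * b c i := by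
          rw [Finset.mul_sum]
          refine Finset.sum_congr rfl fun i _ => ?_
          rw [h3, Matrix.of_apply]
          ring
      _ = 0 := by rw [h4, mul_zero]

/-- The diagonal of a matrix as a Euclidean vector. -/
def Mx3_diag : Mat n →ₗ[ℝ] Euc n where
  toFun X := WithLp.toLp 2 fun i => X i i
  map_add' _ _ := rfl
  map_smul' _ _ := rfl

theorem exists_frame (v : Submodule ℝ (Mat n)) (hd : ∀ X ∈ v, X.IsDiag) :
    ∃ (k : ℕ) (lam : Fin n → Euc k), (∀ s t, ∑ i, ⟪lam i, s⟫ * ⟪lam i, t⟫ = ⟪s, t⟫) ∧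
      ∀ X, X ∈ v ↔ ∃ s, X = Matrix.diagonal fun i => ⟪lam i, s⟫ := by
  let W : Submodule ℝ (Euc n) := v.map Mx3_diag
  let b := stdOrthonormalBasis ℝ W
  let lam : Fin n → Euc (Module.finrank ℝ W) := fun i => WithLp.toLp 2 fun j => (b j : Euc n) i
  have h1 : ∀ s i, ⟪lam i, s⟫ = (b.repr.symm s : Euc n) i := fun s i => by
    rw [← b.sum_repr_symm s, PiLp.inner_apply]
    simp [lam]
  refine ⟨_, lam, fun s t => ?_, fun X => ⟨fun hX => ?_, ?_⟩⟩
  · rw [← b.repr.symm.inner_map_map s t, Submodule.coe_inner, PiLp.inner_apply]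
    refine Finset.sum_congr rfl fun i _ => ?_
    rw [h1, h1, mul_comm]
    rfl
  · refine ⟨b.repr ⟨Mx3_diag X, Submodule.mem_map_of_mem hX⟩, ?_⟩
    simp only [h1, LinearIsometryEquiv.symm_apply_apply]
    exact (hd X hX).diagonal_diag.symm
  · rintro ⟨s, rfl⟩
    obtain ⟨Y, hY, e⟩ := (b.repr.symm s).2
    simp only [h1, ← e]
    have h2 : Matrix.diagonal (fun i => Mx3_diag Y i) = Y := (hd Y hY).diagonal_diag
    rw [h2]
    exact hY

theorem exists_max_abelian (g : Submodule ℝ (Mat n)) :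
    ∃ v : Submodule ℝ (Mat n), v ≤ g ∧ (∀ X ∈ v, X.IsSymm) ∧ (∀ X ∈ v, ∀ Y ∈ v, ⁅X, Y⁆ = 0) ∧
      ∀ X ∈ g, X.IsSymm → (∀ Y ∈ v, ⁅X, Y⁆ = 0) → X ∈ v := by
  obtain ⟨v, ⟨h1, h2, h3⟩, hm⟩ := (wellFounded_gt (α := Submodule ℝ (Mat n))).has_min
    {v | v ≤ g ∧ (∀ X ∈ v, X.IsSymm) ∧ ∀ X ∈ v, ∀ Y ∈ v, ⁅X, Y⁆ = 0}
    ⟨⊥, bot_le, fun X hX => by
      rw [(Submodule.mem_bot ℝ).mp hX]
      exact Matrix.isSymm_zero, fun X hX Y _ => by
      rw [(Submodule.mem_bot ℝ).mp hX, Ring.lie_def, zero_mul, mul_zero, sub_self]⟩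
  refine ⟨v, h1, h2, h3, fun X hX hS hC => ?_⟩
  by_contra hn
  have key : ∀ Z ∈ v ⊔ ℝ ∙ X, ∃ Y ∈ v, ∃ c : ℝ, Z = Y + c • X := fun Z hZ => by
    obtain ⟨Y, hY, W, hW, rfl⟩ := Submodule.mem_sup.mp hZ
    obtain ⟨c, rfl⟩ := Submodule.mem_span_singleton.mp hW
    exact ⟨Y, hY, c, rfl⟩
  refine hm (v ⊔ ℝ ∙ X) ⟨sup_le h1 ((Submodule.span_singleton_le_iff_mem _ _).mpr hX),
    fun Z hZ => ?_, fun Z hZ Z' hZ' => ?_⟩ ?_
  · obtain ⟨Y, hY, c, rfl⟩ := key Z hZ
    exact (h2 Y hY).add (hS.smul c)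
  · obtain ⟨Y, hY, c, rfl⟩ := key Z hZ
    obtain ⟨Y', hY', c', rfl⟩ := key Z' hZ'
    have e1 := h3 Y hY Y' hY'
    have e2 := hC Y hY
    have e3 := hC Y' hY'
    rw [Ring.lie_def, sub_eq_zero] at e1 e2 e3 ⊢
    simp only [add_mul, mul_add, smul_mul_assoc, mul_smul_comm, e1, e2, e3, smul_add, smul_smul,
      mul_comm c c']
    abel
  · exact lt_of_le_of_ne le_sup_left fun e => hn
      (e ▸ Submodule.mem_sup_right (Submodule.mem_span_singleton_self X))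

theorem orth_compact : IsCompact {U : Mat n | U * Uᵀ = 1} := by
  have hK : IsCompact (Set.pi univ fun _ : Fin n => Set.pi univ fun _ : Fin n =>
      Icc (-1 : ℝ) 1) := isCompact_univ_pi fun _ => isCompact_univ_pi fun _ => isCompact_Icc
  refine IsCompact.of_isClosed_subset (X := Mat n) hK
    (isClosed_eq (continuous_id.matrix_mul continuous_id.matrix_transpose) continuous_const)
    fun (U : Mat n) hU i _ j _ => ?_
  have h1 : (U * Uᵀ) i i = 1 := by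
    rw [show U * Uᵀ = 1 from hU, Matrix.one_apply_eq]
  rw [Matrix.mul_apply] at h1
  have h2 : U i j * U i j ≤ 1 := by
    rw [← h1]
    exact Finset.single_le_sum (f := fun l => U i l * Uᵀ l i)
      (fun l _ => mul_self_nonneg (U i l)) (Finset.mem_univ j)
  exact abs_le.mp (abs_le_one_iff_mul_self_le_one.mpr h2)

end Pool.Agent.P.MP_d483fb_an.Z
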