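import Pool.Agent.P.MP_d483fb_an.Z.Lie.Cover
import Pool.Agent.P.MP_d483fb_an.Z.Lie.Conj
import Pool.Agent.P.MP_d483fb_an.Z.Lie.Mx3

/-! Every higher rank group has a standard form. -/

open scoped Matrix Matrix.Norms.Operator InnerProductSpace RealInnerProductSpace Topology
open NormedSpace Filter Set

attribute [local instance 100] LieRing.ofAssociativeRing

noncomputable section

namespace Pool.Agent.P.MP_d483fb_an.Z

variable {G : Type} [Group G] [TopologicalSpace G] {n : ℕ}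

theorem HigherRank.mem_lieAlg_iff (R : HigherRank G n) {X : Mat n} :
    X ∈ lieAlg (range R.ρ) ↔ X ∈ lieOf (range R.ρ) :=
  R.matGrp.mem_lieAlg.trans R.matGrp.mem_lieOf_mat.symm

theorem HigherRank.cent (R : HigherRank G n) {X : Mat n} (hX : X ∈ lieOf (range R.ρ))
    (h : ∀ Y ∈ lieOf (range R.ρ), ⁅X, Y⁆ = 0) : X = 0 := by
  have := R.ss
  let x : lieAlg (range R.ρ) := ⟨X, R.mem_lieAlg_iff.2 hX⟩
  have hx : x ∈ LieAlgebra.center ℝ (lieAlg (range R.ρ)) := by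
    rw [LieAlgebra.center, LieModule.mem_maxTrivSubmodule]
    intro y
    rw [← lie_skew, neg_eq_zero]
    exact Subtype.ext (h y.1 (R.mem_lieAlg_iff.1 y.2))
  rw [LieAlgebra.center_eq_bot, LieSubmodule.mem_bot] at hx
  exact congrArg Subtype.val hx

theorem HigherRank.rank' (R : HigherRank G n) {I : Submodule ℝ (Mat n)}
    (hI : IsIdl (lieOf (range R.ρ)) I) (h0 : I ≠ ⊥) :
    ∃ X ∈ I, ∃ Y ∈ I, X.IsSymm ∧ Y.IsSymm ∧ ⁅X, Y⁆ = 0 ∧ LinearIndependent ℝ ![X, Y] := by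
  let J : LieIdeal ℝ (lieAlg (range R.ρ)) :=
    { I.comap (lieAlg (range R.ρ)).toSubmodule.subtype with
      lie_mem := fun {x m} hm => hI.2 x.1 (R.mem_lieAlg_iff.1 x.2) m.1 hm }
  have hJ : ∀ x, x ∈ J ↔ x.1 ∈ I := fun x => Iff.rfl
  have hJ0 : J ≠ ⊥ := by
    intro hb
    refine h0 ((Submodule.eq_bot_iff I).2 fun X hX => ?_)
    have hx : (⟨X, R.mem_lieAlg_iff.2 (hI.1 hX)⟩ : lieAlg (range R.ρ)) ∈ J := (hJ _).2 hX
    rw [hb, LieSubmodule.mem_bot] at hx
    exact congrArg Subtype.val hx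
  obtain ⟨A, hA, hAJ⟩ := (eq_bot_or_exists_atom_le J).resolve_left hJ0
  obtain ⟨X, hX, Y, hY, h1, h2, h3, h4⟩ := R.rank A hA
  refine ⟨X.1, (hJ _).1 (hAJ hX), Y.1, (hJ _).1 (hAJ hY), h1, h2, congrArg Subtype.val h3, ?_⟩
  rw [LinearIndependent.pair_iff] at h4 ⊢
  intro s t hst
  exact h4 s t (Subtype.ext hst)

theorem ExStd_conj {S S' : Set (Mat n)} (hS : MatGrp S) (hS' : MatGrp S') {U V : Mat n}
    (h : U * V = 1) (h' : V * U = 1) (hm : ∀ x ∈ S, U * x * V ∈ S') {X : Mat n}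
    (hX : X ∈ lieOf S) : U * X * V ∈ lieOf S' := by
  rw [hS.mem_lieOf_mat] at hX
  rw [hS'.mem_lieOf_mat]
  intro t
  have e : exp (t • (U * X * V)) = U * exp (t • X) * V := by
    have := Matrix.exp_units_conj (⟨U, V, h, h'⟩ : (Mat n)ˣ) (t • X)
    rw [← Matrix.smul_mul, ← Matrix.mul_smul]
    exact this
  rw [e]
  exact hm _ (hX t)

theorem HigherRank.exists_std [IsTopologicalGroup G] [PreconnectedSpace G] (R : HigherRank G n) :
    ∃ (k : ℕ) (D : Std G n k) (R' : HigherRank G n), R'.ρ = D.ρ ∧ (∀ x, D.ρ x = 1 ↔ R.ρ x = 1) ∧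
      (∀ m, R.ltV m → D.ltV m) ∧ ∀ m, R.ltD m → R'.ltD m := by
  obtain ⟨v, hvg, hvs, hvc, hvm⟩ := exists_max_abelian (lieOf (range R.ρ))
  obtain ⟨U, hU, hd⟩ := simul_diag v hvs hvc
  have hU' : Uᵀ * U = 1 := mul_eq_one_comm.1 hU
  obtain ⟨R', hρ, hV, hD⟩ := R.exists_conj hU
  obtain ⟨E, hE, hg⟩ := R'.exists_expData
  let c : Mat n →ₗ[ℝ] Mat n := LinearMap.mulLeftRight ℝ (U, Uᵀ)
  have hc : ∀ X, c X = U * X * Uᵀ := fun X => by simp [c]
  have hback : ∀ X : Mat n, Uᵀ * (U * X * Uᵀ) * U = X := fun X => by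
    rw [← mul_assoc, ← mul_assoc, hU', one_mul, mul_assoc, hU', mul_one]
  have hfor : ∀ X : Mat n, U * (Uᵀ * X * U) * Uᵀ = X := fun X => by
    rw [← mul_assoc, ← mul_assoc, hU, one_mul, mul_assoc, hU, mul_one]
  have h1 : ∀ X ∈ lieOf (range R.ρ), U * X * Uᵀ ∈ lieOf (range R'.ρ) := fun X hX =>
    ExStd_conj R.matGrp R'.matGrp hU hU' (by rintro _ ⟨x, rfl⟩; exact ⟨x, hρ x⟩) hX
  have h2 : ∀ X ∈ lieOf (range R'.ρ), Uᵀ * X * U ∈ lieOf (range R.ρ) := fun X hX =>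
    ExStd_conj R'.matGrp R.matGrp hU' hU
      (by rintro _ ⟨x, rfl⟩; exact ⟨x, by rw [hρ, hback]⟩) hX
  obtain ⟨k, lam, hfr, hlam⟩ := exists_frame (v.map c) (by
    rintro _ ⟨X, hX, rfl⟩
    rw [hc]
    exact hd X hX)
  let D : Std G n k :=
    { E with
      lam := lam
      closed := by rw [hE]; exact R'.closed
      opn := by rw [hE]; exact R'.opn
      tr := by rw [hE]; exact R'.tr
      cent := by rw [hg]; exact fun X hX h => R'.cent hX h
      dg_mem' := by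
        intro s
        obtain ⟨X, hX, hs⟩ := (hlam _).2 ⟨s, rfl⟩
        rw [hg, ← hs, hc]
        exact h1 X (hvg hX)
      frame := hfr
      max' := by
        intro X hX hs hw
        rw [hg] at hX
        refine (hlam X).1 ⟨Uᵀ * X * U, hvm _ (h2 X hX) ?_ fun Y hY => ?_, by rw [hc, hfor]⟩
        · rw [Matrix.IsSymm, Matrix.transpose_mul, Matrix.transpose_mul,
            Matrix.transpose_transpose, hs.eq, mul_assoc]
        · obtain ⟨s, hs⟩ := (hlam (c Y)).1 ⟨Y, hY, rfl⟩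
          have e : X * c Y = c Y * X := by
            rw [hs]
            ext i j
            rw [Matrix.mul_diagonal, Matrix.diagonal_mul]
            by_cases h0 : X i j = 0
            · simp [h0]
            · rw [hw i j h0, mul_comm]
          rw [hc] at e
          rw [Ring.lie_def, sub_eq_zero, ← hback Y]
          calc Uᵀ * X * U * (Uᵀ * (U * Y * Uᵀ) * U)
              = Uᵀ * (X * (U * Uᵀ) * (U * Y * Uᵀ)) * U := by simp only [mul_assoc]
            _ = Uᵀ * ((U * Y * Uᵀ) * (U * Uᵀ) * X) * U := by rw [hU, mul_one, mul_one, e]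
            _ = Uᵀ * (U * Y * Uᵀ) * U * (Uᵀ * X * U) := by simp only [mul_assoc]
      rank := by rw [hg]; exact fun I hI h0 => R'.rank' hI h0 }
  refine ⟨k, D, R', hE.symm, fun x => ?_, fun m hm => (R'.ltV_iff E hE hg m).1 (hV m hm), hD⟩
  change E.ρ x = 1 ↔ _
  rw [hE, hρ]
  constructor
  · intro h
    rw [← hback (R.ρ x), h, mul_one, hU']
  · intro h
    rw [h, mul_one, hU]

end Pool.Agent.P.MP_d483fb_an.Z
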