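import Pool.Agent.P.MP_d483fb_an.Z.Lie.Root2

/-! Haar measure. -/

open scoped Matrix Matrix.Norms.Operator InnerProductSpace RealInnerProductSpace Topology
open NormedSpace Filter Set

noncomputable section

namespace Pool.Agent.P.MP_d483fb_an.Z

open MeasureTheory

variable {G : Type} [Group G] [TopologicalSpace G] [IsTopologicalGroup G] [T2Space G]
  [LocallyCompactSpace G] [SecondCountableTopology G] [MeasurableSpace G] [BorelSpace G] {n k : ℕ}

theorem Std.haar_right [PreconnectedSpace G] (D : Std G n k) (μ : Measure G) [μ.IsHaarMeasure] :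
    μ.IsMulRightInvariant := by
  refine ⟨fun g => ?_⟩
  have h : Measure.modularCharacterFun g = 1 := D.perfect Measure.modularCharacter g
  rw [Measure.map_right_mul_eq_modularCharacterFun_smul μ g, h, one_smul]

theorem Std.haar_inv [PreconnectedSpace G] (D : Std G n k) (μ : Measure G) [μ.IsHaarMeasure] :
    μ.IsInvInvariant := by
  have := D.haar_right μ
  constructor
  let c : ENNReal := Measure.haarScalarFactor μ.inv μ
  have hc : μ.inv = c • μ := Measure.isMulLeftInvariant_eq_smul μ.inv μ
  have h1 : Measure.map Inv.inv (Measure.map Inv.inv μ) = c ^ 2 • μ := by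
    rw [← Measure.inv_def μ, hc, Measure.map_smul, ← Measure.inv_def μ, hc, smul_smul, pow_two]
  have h2 : μ = c ^ 2 • μ := by
    rw [Measure.map_map continuous_inv.measurable continuous_inv.measurable] at h1
    rw [← h1, inv_involutive.comp_self, Measure.map_id]
  have K : TopologicalSpace.PositiveCompacts G := Classical.arbitrary _
  have h3 : c ^ 2 * μ K = 1 ^ 2 * μ K := by
    conv_rhs => rw [h2]
    rw [one_pow, one_mul, Measure.smul_apply, smul_eq_mul]
  have h4 : c ^ 2 = 1 ^ 2 :=
    (ENNReal.mul_left_inj (Measure.measure_pos_of_nonempty_interior _ K.interior_nonempty).ne'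
      K.isCompact.measure_lt_top.ne).1 h3
  have h5 : c = 1 := (ENNReal.pow_right_strictMono two_ne_zero).injective h4
  rw [hc, h5, one_smul]

end Pool.Agent.P.MP_d483fb_an.Z
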