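import Pool.Agent.P.MP_d483fb_an.Z.Lie.Ex3

/-! Haar measure in the exponential chart. -/

open scoped Matrix Matrix.Norms.Operator InnerProductSpace RealInnerProductSpace Topology
open NormedSpace Filter Set

noncomputable section

namespace Pool.Agent.P.MP_d483fb_an.Z

open MeasureTheory
open scoped ENNReal NNReal

/-- Lipschitz maps expand an additive Haar measure by a bounded factor. -/
theorem HC_lip {V : Type} [NormedAddCommGroup V] [NormedSpace ℝ V] [FiniteDimensional ℝ V]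
    [MeasurableSpace V] [BorelSpace V] (ν : Measure V) [ν.IsAddHaarMeasure] {K : ℝ≥0} {f : V → V}
    {s : Set V} (h : LipschitzOnWith K f s) :
    ν (f '' s) ≤ (K : ℝ≥0∞) ^ (Module.finrank ℝ V : ℝ) * ν s := by
  have e := Measure.isAddLeftInvariant_eq_smul ν (μH[Module.finrank ℝ V] : Measure V)
  have h1 := h.hausdorffMeasure_image_le (d := Module.finrank ℝ V) (Nat.cast_nonneg _)
  rw [e, Measure.smul_apply, Measure.smul_apply, ENNReal.smul_def, ENNReal.smul_def, smul_eq_mul,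
    smul_eq_mul, mul_left_comm]
  exact mul_le_mul_right h1 _

/-- Left translation is uniformly Lipschitz in the logarithmic chart. -/
theorem HC_mul {A V : Type} [NormedRing A] [NormedAlgebra ℝ A] [CompleteSpace A]
    [NormedAddCommGroup V] [NormedSpace ℝ V] (i : V →L[ℝ] A) (π : A →L[ℝ] V) :
    ∃ K : ℝ≥0, ∃ r > 0, ∀ᶠ a in 𝓝 (1 : A),
      LipschitzOnWith K (fun Y : V => π (mlog (a * exp (i Y)))) (Metric.ball 0 r) := by
  have h1 : HasStrictFDerivAt (fun p : A × V => exp (i p.2)) (i.comp (ContinuousLinearMap.snd ℝ A V))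
      (1, 0) := by
    have h0 : HasStrictFDerivAt (fun e : V => exp (i e)) i ((1, 0) : A × V).2 := strict_exp i
    exact h0.comp ((1, 0) : A × V) hasStrictFDerivAt_snd
  have h2 := (hasStrictFDerivAt_fst (𝕜 := ℝ) (p := ((1, 0) : A × V))).mul' h1
  have h3 : HasStrictFDerivAt (mlog : A → A) (ContinuousLinearMap.id ℝ A)
      (((Prod.fst : A × V → A) * fun p : A × V => exp (i p.2)) (1, 0)) := by
    simpa using (mlog_strict (A := A))
  have h4 := π.hasStrictFDerivAt.comp ((1, 0) : A × V) (h3.comp ((1, 0) : A × V) h2)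
  obtain ⟨K, s, hs, hK⟩ := h4.exists_lipschitzOnWith
  obtain ⟨u, hu, v, hv, huv⟩ := mem_nhds_prod_iff.1 hs
  obtain ⟨r, hr, hrv⟩ := Metric.mem_nhds_iff.1 hv
  refine ⟨K, r, hr, Filter.mem_of_superset hu fun a ha Y hY Z hZ => ?_⟩
  have := hK (huv (mk_mem_prod ha (hrv hY))) (huv (mk_mem_prod ha (hrv hZ)))
  simpa [Prod.edist_eq] using this

variable {G : Type} [Group G] [TopologicalSpace G] [IsTopologicalGroup G] [T2Space G]
  [LocallyCompactSpace G] [SecondCountableTopology G] [MeasurableSpace G] [BorelSpace G] {n : ℕ}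
  (D : ExpData G n) (μ : Measure G) [μ.IsHaarMeasure]

/-- A finite symmetric measure that is almost invariant near the identity is comparable with the
Haar measure there. -/
theorem HC_cmp (lam : Measure G) [IsFiniteMeasure lam] (hpos : ∀ V ∈ 𝓝 (1 : G), lam V ≠ 0)
    (hinv : ∀ A, MeasurableSet A → lam {y | y⁻¹ ∈ A} = lam A) {O : Set G} (hO : O ∈ 𝓝 (1 : G))
    {C : ℝ≥0∞} (hC : C ≠ ∞)
    (h : ∀ x ∈ O, ∀ A ⊆ O, MeasurableSet A → lam {y | x⁻¹ * y ∈ A} ≤ C * lam A) :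
    ∃ V ∈ 𝓝 (1 : G), ∃ C' : ℝ≥0, ∀ A ⊆ V, MeasurableSet A → μ A ≤ C' * lam A ∧ lam A ≤ C' * μ A := by
  obtain ⟨Kc, hKc, hKO, hK⟩ := local_compact_nhds hO
  obtain ⟨V, hV, hVc, hVi, hVV⟩ := exists_closed_nhds_one_inv_eq_mul_subset hKc
  have hmul : ∀ a ∈ V, ∀ b ∈ V, a * b ∈ Kc := fun a ha b hb => hVV (mul_mem_mul ha hb)
  have hsub : V ⊆ O := fun a ha => hKO (by simpa using hmul a ha 1 (mem_of_mem_nhds hV))
  have hi : ∀ a ∈ V, a⁻¹ ∈ V := fun a ha => by
    rw [← hVi]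
    simpa using ha
  have hμV : μ V ≠ 0 := (Measure.measure_pos_of_mem_nhds μ hV).ne'
  have hμK : μ Kc ≠ ∞ := hK.measure_lt_top.ne
  have hμV' : μ V ≠ ∞ := ne_top_of_le_ne_top hμK
    (measure_mono fun a ha => by simpa using hmul a ha 1 (mem_of_mem_nhds hV))
  have fub : ∀ S A : Set G, MeasurableSet S → MeasurableSet A →
      lam S * μ A = ∫⁻ x, lam (S ∩ {y | y⁻¹ * x ∈ A}) ∂μ := by
    intro S A hS hA
    have hm : MeasurableSet {p : G × G | p.1 ∈ S ∧ p.1⁻¹ * p.2 ∈ A} :=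
      (measurable_fst hS).inter ((measurable_fst.inv.mul measurable_snd) hA)
    have e1 := Measure.prod_apply (μ := lam) (ν := μ) hm
    have e2 := Measure.prod_apply_symm (μ := lam) (ν := μ) hm
    refine Eq.trans ?_ (e1.symm.trans e2)
    rw [mul_comm, ← lintegral_indicator_const hS]
    refine lintegral_congr fun y => ?_
    by_cases hy : y ∈ S
    · rw [indicator_of_mem hy, ← measure_preimage_mul μ y⁻¹ A]
      congr 1
      ext x
      simp [hy]
    · rw [indicator_of_notMem hy]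
      simp [hy]
  set C1 := μ Kc * C / lam V
  set C2 := C * lam univ / μ V
  have f1 : C1 ≠ ∞ := ENNReal.div_ne_top (ENNReal.mul_ne_top hμK hC) (hpos V hV)
  have f2 : C2 ≠ ∞ := ENNReal.div_ne_top (ENNReal.mul_ne_top hC (measure_ne_top _ _)) hμV
  refine ⟨V, hV, (C1 + C2).toNNReal, fun A hA hAm => ?_⟩
  rw [ENNReal.coe_toNNReal (ENNReal.add_ne_top.2 ⟨f1, f2⟩)]
  have hA' : MeasurableSet {y : G | y⁻¹ ∈ A} := measurable_inv hAm
  have hA'V : ∀ y : G, y⁻¹ ∈ A → y ∈ V := fun y hy => by simpa using hi _ (hA hy)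
  constructor
  · have key : lam V * μ A ≤ μ Kc * C * lam A := by
      rw [fub V A hVc.measurableSet hAm, mul_assoc, mul_comm (μ Kc),
        ← lintegral_indicator_const hK.measurableSet]
      refine lintegral_mono fun x => ?_
      by_cases hx : x ∈ Kc
      · rw [indicator_of_mem hx, ← hinv A hAm]
        refine le_trans (measure_mono fun y hy => ?_)
          (h x (hKO hx) _ (fun y hy => hsub (hA'V y hy)) hA')
        simpa using hy.2
      · rw [indicator_of_notMem hx]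
        refine (measure_mono_null (fun y hy => ?_) measure_empty).le
        exact hx (by simpa using hmul y hy.1 _ (hA hy.2))
    refine le_trans ?_ (mul_le_mul_left le_self_add _)
    rw [ENNReal.mul_comm_div, ← mul_div_assoc,
      ENNReal.le_div_iff_mul_le (Or.inl (hpos V hV)) (Or.inl (measure_ne_top _ _)), mul_comm]
    exact key
  · have key : μ V * lam A ≤ C * lam univ * μ A := by
      rw [mul_assoc, fub univ A MeasurableSet.univ hAm, ← lintegral_const_mul' _ _ hC, mul_comm,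
        ← lintegral_indicator_const hVc.measurableSet]
      refine lintegral_mono fun x => ?_
      by_cases hx : x ∈ V
      · rw [indicator_of_mem hx, ← hinv A hAm, univ_inter]
        refine le_trans (measure_mono fun y hy => ?_) (h x⁻¹ (hsub (hi x hx)) {y | y⁻¹ * x ∈ A}
          (fun y hy => hKO ?_) ((measurable_inv.mul_const x) hAm))
        · simpa using hy
        · simpa using hmul x hx _ (hi _ (hA hy))
      · rw [indicator_of_notMem hx]
        exact zero_le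
    refine le_trans ?_ (mul_le_mul_left le_add_self _)
    rw [ENNReal.mul_comm_div, ← mul_div_assoc,
      ENNReal.le_div_iff_mul_le (Or.inl hμV) (Or.inl hμV'), mul_comm]
    exact key

omit [T2Space G] [LocallyCompactSpace G] [SecondCountableTopology G] [MeasurableSpace G]
  [BorelSpace G] [IsTopologicalGroup G] in
theorem HC_img (δ : ℝ) : (fun X : D.g => D.ex X) '' Metric.ball 0 δ =
    D.ex '' {X | X ∈ D.g ∧ ‖X‖ < δ} := by
  ext x
  constructor
  · rintro ⟨X, hX, rfl⟩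
    exact ⟨X, ⟨X.2, by simpa using hX⟩, rfl⟩
  · rintro ⟨X, hX, rfl⟩
    exact ⟨⟨X, hX.1⟩, by simpa using hX.2, rfl⟩

section core
variable {V : Type} [NormedAddCommGroup V] [NormedSpace ℝ V] [FiniteDimensional ℝ V]
  [MeasurableSpace V] [BorelSpace V] (ν : Measure V) [ν.IsAddHaarMeasure]

theorem HC_core {e : V → G} (hec : Continuous e) (he0 : e 0 = 1) (hneg : ∀ X, e (-X) = (e X)⁻¹)
    {l : G → V} {r0 r1 : ℝ} (hr0 : 0 < r0) (hr1 : 0 < r1)
    (hl : ∀ X ∈ Metric.ball (0 : V) r0, l (e X) = X)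
    (hn : ∀ r > 0, e '' Metric.ball 0 r ∈ 𝓝 (1 : G)) {K : ℝ≥0}
    (hK : ∀ᶠ x in 𝓝 (1 : G), LipschitzOnWith K (fun Y => l (x * e Y)) (Metric.ball 0 r1)) :
    ∃ r > 0, ∃ C : ℝ≥0, ∀ E : Set V, MeasurableSet E → E ⊆ Metric.ball 0 r →
      MeasurableSet (e '' E) ∧ μ (e '' E) ≤ C * ν E ∧ ν E ≤ C * μ (e '' E) := by
  have hinj : InjOn e (Metric.ball 0 r0) := fun X hX Y hY h => by rw [← hl X hX, h, hl Y hY]
  have : IsFiniteMeasure (ν.restrict (Metric.ball 0 r0)) :=
    isFiniteMeasure_restrict.2 measure_ball_lt_top.ne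
  set lam := (ν.restrict (Metric.ball 0 r0)).map e with hlam
  have happ : ∀ A, MeasurableSet A → lam A = ν (e ⁻¹' A ∩ Metric.ball 0 r0) := fun A hA => by
    rw [hlam, Measure.map_apply hec.measurable hA, Measure.restrict_apply (hec.measurable hA)]
  have hpos : ∀ V ∈ 𝓝 (1 : G), lam V ≠ 0 := fun V hV => by
    obtain ⟨W, hWV, hW, h1⟩ := mem_nhds_iff.1 hV
    refine ne_bot_of_le_ne_bot ?_ (measure_mono hWV)
    rw [happ W hW.measurableSet]
    exact ((hW.preimage hec).inter Metric.isOpen_ball).measure_ne_zero ν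
      ⟨0, by simpa [he0] using h1, Metric.mem_ball_self hr0⟩
  have hinv : ∀ A, MeasurableSet A → lam {y | y⁻¹ ∈ A} = lam A := fun A hA => by
    rw [happ _ (show MeasurableSet {y : G | y⁻¹ ∈ A} from measurable_inv hA), happ A hA,
      ← Measure.measure_neg ν (e ⁻¹' A ∩ Metric.ball 0 r0)]
    congr 1
    ext X
    simp [hneg]
  obtain ⟨V, hV, C, hC⟩ := HC_cmp μ lam hpos hinv (inter_mem (hn _ (lt_min hr0 hr1)) hK)
    (C := (K : ℝ≥0∞) ^ (Module.finrank ℝ V : ℝ))
    (ENNReal.rpow_ne_top_of_nonneg (Nat.cast_nonneg _) ENNReal.coe_ne_top) (by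
      intro x hx A hA hAm
      rw [happ _ (show MeasurableSet {y : G | x⁻¹ * y ∈ A} from measurable_const_mul x⁻¹ hAm),
        happ A hAm]
      have h1 := HC_lip ν (hx.2.mono (show e ⁻¹' A ∩ Metric.ball 0 (min r0 r1) ⊆ _ from
        fun Y hY => Metric.ball_subset_ball (min_le_right _ _) hY.2))
      refine le_trans (measure_mono fun Y hY => ?_) (h1.trans (mul_le_mul_right (measure_mono
        (inter_subset_inter_right _ (Metric.ball_subset_ball (min_le_left _ _)))) _))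
      obtain ⟨Z, hZ, hZ'⟩ := (hA hY.1).1
      refine ⟨Z, ⟨by rw [mem_preimage, hZ']; exact hY.1, hZ⟩, ?_⟩
      simp only [hZ', mul_inv_cancel_left, hl Y hY.2])
  obtain ⟨r2, hr2, hV2⟩ := Metric.mem_nhds_iff.1 (hec.continuousAt.preimage_mem_nhds (he0 ▸ hV))
  refine ⟨min r0 r2, lt_min hr0 hr2, C, fun E hE hEr => ?_⟩
  have hE0 : E ⊆ Metric.ball 0 r0 := hEr.trans (Metric.ball_subset_ball (min_le_left _ _))
  have hm : MeasurableSet (e '' E) :=
    hE.image_of_continuousOn_injOn hec.continuousOn (hinj.mono hE0)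
  have hsub : e '' E ⊆ V := by
    rintro _ ⟨X, hX, rfl⟩
    exact hV2 (Metric.ball_subset_ball (min_le_right _ _) (hEr hX))
  have hval : lam (e '' E) = ν E := by
    rw [happ _ hm, hinj.preimage_image_inter hE0]
  rw [← hval]
  exact ⟨hm, hC _ hsub hm⟩

theorem HC_ball {m : Set V → ℝ≥0∞} {r : ℝ} {C : ℝ≥0} (h : ∀ E : Set V, MeasurableSet E →
    E ⊆ Metric.ball 0 r → m E ≤ C * ν E ∧ ν E ≤ C * m E) : ∃ c > 0, ∃ C : ℝ, ∀ δ : ℝ, 0 < δ →
      δ ≤ r → ENNReal.ofReal (c * δ ^ Module.finrank ℝ V) ≤ m (Metric.ball 0 δ) ∧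
        m (Metric.ball 0 δ) ≤ ENNReal.ofReal (C * δ ^ Module.finrank ℝ V) := by
  set b := (ν (Metric.ball 0 1)).toReal with hb
  have hb0 : 0 < b := ENNReal.toReal_pos (Metric.measure_ball_pos ν 0 one_pos).ne'
    measure_ball_lt_top.ne
  have hC : (0 : ℝ) ≤ C := C.2
  refine ⟨b / (C + 1), by positivity, C * b, fun δ hδ hδr => ?_⟩
  obtain ⟨h1, h2⟩ := h (Metric.ball 0 δ) measurableSet_ball (Metric.ball_subset_ball hδr)
  have hν : ν (Metric.ball 0 δ) = ENNReal.ofReal (b * δ ^ Module.finrank ℝ V) := by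
    rw [Measure.addHaar_ball_of_pos ν 0 hδ, mul_comm b, ENNReal.ofReal_mul (by positivity), hb,
      ENNReal.ofReal_toReal measure_ball_lt_top.ne]
  rw [hν] at h1 h2
  constructor
  · have h3 : ENNReal.ofReal (b * δ ^ Module.finrank ℝ V) ≤
        m (Metric.ball 0 δ) * ENNReal.ofReal (C + 1) := by
      rw [mul_comm (m _)]
      refine h2.trans (mul_le_mul_left ?_ _)
      rw [← ENNReal.ofReal_coe_nnreal]
      exact ENNReal.ofReal_le_ofReal (by linarith)
    rw [div_mul_eq_mul_div, ENNReal.ofReal_div_of_pos (by positivity)]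
    exact ENNReal.div_le_of_le_mul h3
  · rwa [mul_assoc, ENNReal.ofReal_mul hC, ENNReal.ofReal_coe_nnreal]

end core

theorem ExpData.haar_chart [MeasurableSpace D.g] [BorelSpace D.g] (ν : Measure D.g)
    [ν.IsAddHaarMeasure] : ∃ r > 0, ∃ C : ℝ≥0, ∀ E : Set D.g, MeasurableSet E →
      E ⊆ Metric.ball 0 r → MeasurableSet ((fun X : D.g => D.ex X) '' E) ∧
        μ ((fun X : D.g => D.ex X) '' E) ≤ C * ν E ∧
        ν E ≤ C * μ ((fun X : D.g => D.ex X) '' E) := by
  obtain ⟨r0, hr0, U, -, -, -, hU⟩ := D.chart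
  obtain ⟨π, hπ⟩ := exists_clm_proj (A := Mat n) D.g
  obtain ⟨K, r1, hr1, hK⟩ := HC_mul (A := Mat n) (V := D.g) D.g.subtypeL π
  refine @HC_core G _ _ _ _ _ _ _ _ μ _ D.g _ _ _ _ ‹BorelSpace D.g› ν ‹ν.IsAddHaarMeasure›
    (fun X => D.ex X) (continuousOn_iff_continuous_domRestrict.1 D.ex_cont) D.ex_zero
    (fun X => D.ex_neg X.2) (fun x => π (D.lg x)) r0 r1 hr0 hr1 (fun X hX => ?_) (fun r hr => ?_)
    K ?_
  · simp only [(hU X X.2 (by simpa using hX)).2, hπ X X.2]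
  · rw [HC_img]
    exact D.ex_ball_nhds hr
  · filter_upwards [D.Ex1_tendsto_ρ.eventually hK] with x hx
    convert hx using 2 with Y
    rw [ExpData.lg, map_mul, D.ρ_ex Y Y.2]
    rfl

theorem ExpData.haar_ball : ∃ r > 0, ∃ c > 0, ∃ C : ℝ, ∀ δ : ℝ, 0 < δ → δ ≤ r →
    ENNReal.ofReal (c * δ ^ Module.finrank ℝ D.g) ≤ μ (D.ex '' {X | X ∈ D.g ∧ ‖X‖ < δ}) ∧
      μ (D.ex '' {X | X ∈ D.g ∧ ‖X‖ < δ}) ≤
        ENNReal.ofReal (C * δ ^ Module.finrank ℝ D.g) := by
  let _ : MeasurableSpace D.g := borel D.g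
  have hB : BorelSpace D.g := ⟨rfl⟩
  obtain ⟨ν, hν⟩ : ∃ ν : Measure D.g, ν.IsAddHaarMeasure :=
    ⟨_, @isAddHaarMeasure_hausdorffMeasure D.g _ _ _ _ hB⟩
  obtain ⟨r, hr, C, h⟩ := D.haar_chart μ ν
  obtain ⟨c, hc, C', h'⟩ := @HC_ball D.g _ _ _ _ hB ν hν
    (fun E => μ ((fun X : D.g => D.ex X) '' E)) r C fun E hE hEr => (h E hE hEr).2
  refine ⟨r, hr, c, hc, C', fun δ hδ hδr => ?_⟩
  rw [← HC_img]
  exact h' δ hδ hδr

end Pool.Agent.P.MP_d483fb_an.Z
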