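import Pool.Agent.P.MP_d483fb_an.Z.Lie.Ex3

/-! The derivative of a continuous homomorphism into a Banach algebra. -/

open scoped Matrix Matrix.Norms.Operator InnerProductSpace RealInnerProductSpace Topology
open NormedSpace Filter Set

noncomputable section

namespace Pool.Agent.P.MP_d483fb_an.Z

namespace ExpData

variable {G : Type} [Group G] [TopologicalSpace G] [IsTopologicalGroup G] {n : ℕ}
  (D : ExpData G n)

theorem Hom_gen {A : Type} [NormedRing A] [NormedAlgebra ℝ A] [CompleteSpace A]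
    (φ : G →* A) (hφ : Continuous φ) (X : D.g) :
    ∃ Z : A, ∀ t : ℝ, φ (D.ex (t • (X : Mat n))) = exp (t • Z) :=
  exists_gen (fun t : ℝ => φ (D.ex (t • (X : Mat n)))) (hφ.comp (D.ex_smul_cont X.2))
    (by simp only [zero_smul, D.ex_zero, map_one])
    (fun s t => by simp only [D.ex_add_smul X.2, map_mul])

theorem Hom_lin {A : Type} [NormedRing A] [NormedAlgebra ℝ A] [CompleteSpace A]
    (φ : G →* A) (hφ : Continuous φ) : ∃ d : Mat n →ₗ[ℝ] A,
      ∀ X ∈ D.g, ∀ t : ℝ, φ (D.ex (t • X)) = exp (t • d X) := by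
  choose d0 hd using D.Hom_gen φ hφ
  have hs : ∀ (c : ℝ) (X : D.g), d0 (c • X) = c • d0 X := by
    intro c X
    refine eq_of_exp_smul_eq (Eventually.of_forall fun t => ?_)
    rw [← hd, smul_smul, ← hd, Submodule.coe_smul, smul_smul]
  have ha : ∀ X Y : D.g, d0 (X + Y) = d0 X + d0 Y := by
    intro X Y
    refine eq_of_exp_smul_eq (Eventually.of_forall fun t => ?_)
    rw [← hd, Submodule.coe_add, smul_add, smul_add]
    have h1 := (hφ.tendsto _).comp (D.trotter (D.g.smul_mem t X.2) (D.g.smul_mem t Y.2))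
    have h2 := Z.trotter (t • d0 X) (t • d0 Y)
    refine tendsto_nhds_unique h1 (h2.congr fun m => ?_)
    simp only [Function.comp, map_pow, map_mul, smul_smul, hd]
  let d1 : D.g →ₗ[ℝ] A := ⟨⟨d0, ha⟩, hs⟩
  obtain ⟨d, hd'⟩ := LinearMap.exists_extend d1
  refine ⟨d, fun X hX t => ?_⟩
  have : d X = d0 ⟨X, hX⟩ := LinearMap.congr_fun hd' ⟨X, hX⟩
  rw [this]
  exact hd ⟨X, hX⟩ t

theorem exists_deriv {A : Type} [NormedRing A] [NormedAlgebra ℝ A] [CompleteSpace A]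
    (φ : G →* A) (hφ : Continuous φ) : ∃ d : Mat n →ₗ[ℝ] A,
      (∀ X ∈ D.g, φ (D.ex X) = exp (d X)) ∧
      (∀ x, ∀ X ∈ D.g, d (D.Ad x X) = φ x * d X * φ x⁻¹) ∧
      ∀ X ∈ D.g, ∀ Y ∈ D.g, d ⁅X, Y⁆ = ⁅d X, d Y⁆ := by
  obtain ⟨d, hd⟩ := D.Hom_lin φ hφ
  have hAd : ∀ x, ∀ X ∈ D.g, d (D.Ad x X) = φ x * d X * φ x⁻¹ := by
    intro x X hX
    refine eq_of_exp_smul_eq (Eventually.of_forall fun t => ?_)
    have h1 : φ x * φ x⁻¹ = 1 := by rw [← map_mul, mul_inv_cancel, map_one]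
    have h2 : φ x⁻¹ * φ x = 1 := by rw [← map_mul, inv_mul_cancel, map_one]
    rw [← hd _ (D.Ad_mem x hX), ← map_smul, ← D.conj_ex x (D.g.smul_mem t hX), map_mul, map_mul,
      hd X hX, exp_conj h1 h2, mul_smul_comm, smul_mul_assoc]
  refine ⟨d, fun X hX => by simpa using hd X hX 1, hAd, fun X hX Y hY => ?_⟩
  have h1 : HasDerivAt (fun t : ℝ => d (exp (t • X) * Y * exp (-(t • X))))
      (d (exp ((0 : ℝ) • X) * ⁅X, Y⁆ * exp (-((0 : ℝ) • X)))) 0 :=
    (LinearMap.toContinuousLinearMap d).hasFDerivAt.comp_hasDerivAt (0 : ℝ)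
      (hasDerivAt_conj X Y 0)
  have h2 := hasDerivAt_conj (d X) (d Y) 0
  have e : (fun t : ℝ => d (exp (t • X) * Y * exp (-(t • X)))) =
      fun t : ℝ => exp (t • d X) * d Y * exp (-(t • d X)) := by
    funext t
    have hX' := D.g.smul_mem t hX
    rw [← D.Ad_ex hX', hAd _ Y hY, ← D.ex_neg hX', ← neg_smul, hd X hX, hd X hX, neg_smul]
  rw [e] at h1
  simpa using h1.unique h2

end ExpData

end Pool.Agent.P.MP_d483fb_an.Z
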