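import Pool.Agent.P.MP_d483fb_an.Z.Lie.Weyl

/-! Conjugation of symmetric elements into the Cartan subspace. -/

open scoped Matrix Matrix.Norms.Operator InnerProductSpace RealInnerProductSpace Topology
open NormedSpace Filter Set

noncomputable section

namespace Pool.Agent.P.MP_d483fb_an.Z

theorem Hunt_der {n : ℕ} (W Y Z : Mat n) :
    HasDerivAt (fun t : ℝ => ip (exp (t • W) * Y * exp (-(t • W))) Z) (ip ⁅W, Y⁆ Z) 0 := by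
  let L : Mat n →ₗ[ℝ] ℝ :=
    { toFun := fun X => ip X Z
      map_add' := fun X X' => ip_add_left X X' Z
      map_smul' := fun c X => ip_smul_left c X Z }
  have h := hasDerivAt_conj (A := Mat n) W Y 0
  simp only [zero_smul, neg_zero, exp_zero, one_mul, mul_one] at h
  exact (LinearMap.toContinuousLinearMap L).hasFDerivAt.comp_hasDerivAt (0 : ℝ) h

theorem Hunt_jac {n : ℕ} {S Y H : Mat n} (h1 : ⁅S, Y⁆ = 0) (h2 : ⁅S, H⁆ = 0) :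
    ⁅S, ⁅Y, H⁆⁆ = 0 := by
  have e : ⁅S, ⁅Y, H⁆⁆ = ⁅⁅S, Y⁆, H⁆ + ⁅Y, ⁅S, H⁆⁆ := by
    simp only [Ring.lie_def]
    noncomm_ring
  rw [e, h1, h2]
  simp [Ring.lie_def]

theorem Hunt_swap {n : ℕ} (X Y : Mat n) : ⁅X, Y⁆ = -⁅Y, X⁆ := by
  simp only [Ring.lie_def, neg_sub]

namespace Std

variable {G : Type} [Group G] [TopologicalSpace G] [IsTopologicalGroup G] {n k : ℕ}
  (D : Std G n k)

theorem Hunt_symm {x : G} (hx : x ∈ D.K) {Y : Mat n} (hs : Y.IsSymm) : (D.Ad x Y).IsSymm := by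
  have h := D.Ad_K_tr hx Y
  rw [hs.eq] at h
  exact h

theorem Hunt_max (s : Euc k) (Y Z : Mat n) : ∃ x ∈ D.K, x ∈ D.Zc s ∧
    ∀ y ∈ D.K, y ∈ D.Zc s → ip (D.Ad y Y) Z ≤ ip (D.Ad x Y) Z := by
  obtain ⟨Q, hQ, hQK, hdec⟩ := D.exists_compact_K
  have key : ∀ y ∈ D.K, y ∈ D.Zc s → ∃ q ∈ Q ∩ (D.Zc s : Set G), ∀ X, D.Ad y X = D.Ad q X := by
    intro y hy hyZ
    obtain ⟨q, hq, z, hz, rfl⟩ := hdec y hy
    have hz' : D.ρ z⁻¹ = 1 := by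
      have h := D.ρ_mul_inv z
      rwa [hz, one_mul] at h
    have e : ∀ X, D.Ad (q * z) X = D.Ad q X := fun X => by
      rw [D.Ad_mul, D.Ad_apply z, hz, hz', one_mul, mul_one]
    refine ⟨q, ⟨hq, ?_⟩, e⟩
    rw [SetLike.mem_coe, D.mem_Zc, ← e]
    exact D.mem_Zc.1 hyZ
  have hC : IsCompact (Q ∩ (D.Zc s : Set G)) := hQ.inter_right (D.stab_closed _)
  obtain ⟨q₀, hq₀, -⟩ := key 1 D.K.one_mem (D.Zc s).one_mem
  have hf : Continuous fun y : G => ip (D.Ad y Y) Z :=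
    ip_cont.comp ((D.Ad_cont.comp (continuous_id.prodMk continuous_const)).prodMk
      continuous_const)
  obtain ⟨x, hx, hmax⟩ := hC.exists_isMaxOn ⟨q₀, hq₀⟩ hf.continuousOn
  refine ⟨x, hQK hx.1, hx.2, fun y hy hyZ => ?_⟩
  obtain ⟨q, hq, e⟩ := key y hy hyZ
  rw [e]
  exact hmax hq

theorem Hunt_reg {H : Euc k} (hH : D.Reg H) {Y : Mat n} (hY : Y ∈ D.g)
    (h : ⁅D.dg H, Y⁆ = 0) : Y ∈ D.gr 0 := by
  have e : D.grS (wall H) = D.gr 0 := by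
    refine D.grS_congr fun β hβ => ⟨fun h1 => ?_, fun h1 => ?_⟩
    · rcases hβ with rfl | hβ
      · rfl
      · exact absurd h1 (hH β hβ)
    · rw [mem_singleton_iff.1 h1]
      exact (wall H).zero_mem
  rw [← e]
  exact ⟨hY, D.mem_wall.2 h⟩

theorem hunt {H : Euc k} (hH : D.Reg H) (s : Euc k) {Y : Mat n} (hY : Y ∈ D.g) (hs : Y.IsSymm)
    (hc : ⁅D.dg s, Y⁆ = 0) : ∃ x ∈ D.K, x ∈ D.Zc s ∧ ∃ t, D.Ad x Y = D.dg t ∧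
      ∀ y ∈ D.K, y ∈ D.Zc s → ip (D.Ad y Y) (D.dg H) ≤ ⟪t, H⟫ := by
  obtain ⟨x, hx, hxZ, hmax⟩ := D.Hunt_max s Y (D.dg H)
  have hY2 : D.Ad x Y ∈ D.g := D.Ad_mem x hY
  have hs2 : (D.Ad x Y).IsSymm := D.Hunt_symm hx hs
  have hc2 : ⁅D.dg s, D.Ad x Y⁆ = 0 := by
    rw [← D.mem_Zc.1 hxZ, ← D.Ad_br, hc, map_zero]
  obtain ⟨W, hW⟩ : ∃ W, W = ⁅D.Ad x Y, D.dg H⁆ := ⟨_, rfl⟩
  have hWg : W ∈ D.g := hW ▸ D.br_mem hY2 (D.dg_mem H)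
  have hWt : Wᵀ = -W := by
    rw [hW, tr_br, D.dg_symm, hs2.eq, Hunt_swap]
  have hWs : W ∈ D.grS (wall s) := ⟨hWg, D.mem_wall.2 (hW ▸ Hunt_jac hc2 (D.dg_br s H))⟩
  have hloc : IsLocalMax
      (fun t : ℝ => ip (exp (t • W) * D.Ad x Y * exp (-(t • W))) (D.dg H)) 0 := by
    refine Eventually.of_forall fun t => ?_
    have h1 : D.ex (t • W) ∈ D.K :=
      D.ex_mem_K (D.g.smul_mem t hWg) (by rw [Matrix.transpose_smul, hWt, smul_neg])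
    have h2 : D.ex (t • W) ∈ D.Zc s := D.ex_mem_stab ((D.grS _).smul_mem t hWs)
    have h3 := hmax _ (D.K.mul_mem h1 hx) ((D.Zc s).mul_mem h2 hxZ)
    rw [D.Ad_mul, D.Ad_ex (D.g.smul_mem t hWg)] at h3
    simpa only [zero_smul, neg_zero, exp_zero, one_mul, mul_one] using h3
  have h0 := hloc.hasDerivAt_eq_zero (Hunt_der W (D.Ad x Y) (D.dg H))
  rw [Hunt_swap, ip_neg_left, ip_br, hs2.eq, ← hW, neg_eq_zero, ip_self_eq_zero] at h0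
  have h4 : ⁅D.dg H, D.Ad x Y⁆ = 0 := by rw [Hunt_swap, ← hW, h0, neg_zero]
  obtain ⟨t, ht⟩ := D.exists_dg (D.Hunt_reg hH hY2 h4) hs2
  refine ⟨x, hx, hxZ, t, ht, fun y hy hyZ => ?_⟩
  rw [← D.ip_dg, ← ht]
  exact hmax y hy hyZ

theorem Hunt_Zc_zero (x : G) : x ∈ D.Zc 0 := by
  rw [D.mem_Zc, map_zero, map_zero]

omit [IsTopologicalGroup G] in
theorem Hunt_br_zero (Y : Mat n) : ⁅D.dg 0, Y⁆ = 0 := by
  rw [map_zero]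
  simp [Ring.lie_def]

theorem conj_chamber {H : Euc k} (hH : D.Reg H) {Y : Mat n} (hY : Y ∈ D.g) (hs : Y.IsSymm) :
    ∃ x ∈ D.K, ∃ t, D.Ad x Y = D.dg t ∧ ∀ β ∈ D.roots, 0 < ⟪β, H⟫ → 0 ≤ ⟪β, t⟫ := by
  obtain ⟨x, hx, -, t, ht, hmax⟩ := D.hunt hH 0 hY hs (D.Hunt_br_zero Y)
  refine ⟨x, hx, t, ht, fun β hβ hpos => ?_⟩
  obtain ⟨w, hw, hAd, -⟩ := D.exists_weyl hβ
  have h := hmax (w * x) (D.K.mul_mem hw hx) (D.Hunt_Zc_zero _)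
  rw [D.Ad_mul, ht, hAd, D.ip_dg, refl, inner_sub_left, real_inner_smul_left] at h
  have hb : 0 < ⟪β, β⟫ := real_inner_self_pos.2 (D.root_ne_zero hβ)
  have h1 : 0 ≤ 2 * ⟪β, t⟫ / ⟪β, β⟫ := nonneg_of_mul_nonneg_left (by linarith) hpos
  have h2 := mul_nonneg h1 hb.le
  rw [div_mul_cancel₀ _ hb.ne'] at h2
  linarith

theorem conj_pair {X Y : Mat n} (hX : X ∈ D.g) (hY : Y ∈ D.g) (hXs : X.IsSymm) (hYs : Y.IsSymm)
    (hc : ⁅X, Y⁆ = 0) : ∃ x ∈ D.K, ∃ s t, D.Ad x X = D.dg s ∧ D.Ad x Y = D.dg t := by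
  obtain ⟨H, hH⟩ := D.exists_reg
  obtain ⟨x, hx, -, s, hs, -⟩ := D.hunt hH 0 hX hXs (D.Hunt_br_zero X)
  obtain ⟨y, hy, hyZ, t, ht, -⟩ := D.hunt hH s (D.Ad_mem x hY) (D.Hunt_symm hx hYs)
    (by rw [← hs, ← D.Ad_br, hc, map_zero])
  refine ⟨y * x, D.K.mul_mem hy hx, s, t, ?_, ?_⟩
  · rw [D.Ad_mul, hs]
    exact D.mem_Zc.1 hyZ
  · rw [D.Ad_mul, ht]

end Std

end Pool.Agent.P.MP_d483fb_an.Z
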