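import Pool.Agent.P.MP_d483fb_an.Z.Lie.Defs2
import Pool.Agent.P.MP_d483fb_an.Z.Lie.Closed

/-! The closed subgroup theorem in a finite dimensional algebra. -/

open scoped Matrix Matrix.Norms.Operator InnerProductSpace RealInnerProductSpace Topology
open NormedSpace Filter Set

noncomputable section

namespace Pool.Agent.P.MP_d483fb_an.Z

namespace MatGrp

set_option linter.unusedSectionVars false

section Alg

variable {A : Type} [NormedRing A] [NormedAlgebra ℝ A] [CompleteSpace A] [FiniteDimensional ℝ A]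
  {S : Set A}

theorem MG_lim (hS : MatGrp S) {x : ℕ → A} {X : A} (h : Tendsto x atTop (𝓝 (exp X)))
    (hx : ∀ᶠ m in atTop, x m ∈ S) : exp X ∈ S :=
  hS.closed _ (mem_closure_of_tendsto h hx) ⟨⟨exp X, exp (-X), exp_mul_neg X, exp_neg_mul X⟩, rfl⟩

theorem MG_pow (hS : MatGrp S) {x : A} (hx : x ∈ S) (m : ℕ) : x ^ m ∈ S := by
  induction m with
  | zero => rw [pow_zero]; exact hS.one
  | succ m ih => rw [pow_succ]; exact hS.mul _ ih _ hx

theorem MG_inv (hS : MatGrp S) {x y : A} (hx : x ∈ S) (hxy : x * y = 1) : y ∈ S ∧ y * x = 1 := by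
  obtain ⟨z, hz, -, h⟩ := hS.inv x hx
  have e : y = z := by rw [← one_mul y, ← h, mul_assoc, hxy, mul_one]
  rw [e]
  exact ⟨hz, h⟩

theorem MG_int (hS : MatGrp S) {L : A} (h : exp L ∈ S) (k : ℤ) : exp ((k : ℝ) • L) ∈ S := by
  obtain ⟨m, rfl | rfl⟩ := Int.eq_nat_or_neg k
  · rw [Int.cast_natCast, exp_nat_smul]
    exact hS.MG_pow h m
  · rw [Int.cast_neg, Int.cast_natCast, neg_smul, ← smul_neg, exp_nat_smul]
    exact hS.MG_pow (hS.MG_inv h (exp_mul_neg L)).1 m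

theorem mem_lieOf (hS : MatGrp S) {X : A} : X ∈ lieOf S ↔ ∀ t : ℝ, exp (t • X) ∈ S := by
  refine ⟨fun hX => ?_, fun h => Submodule.subset_span h⟩
  induction hX using Submodule.span_induction with
  | mem X hX => exact hX
  | zero =>
    intro t
    rw [smul_zero, exp_zero]
    exact hS.one
  | add X X' _ _ h h' =>
    intro t
    rw [smul_add]
    refine hS.MG_lim (trotter (t • X) (t • X')) (Eventually.of_forall fun m => ?_)
    rw [smul_smul, smul_smul]
    exact hS.MG_pow (hS.mul _ (h _) _ (h' _)) m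
  | smul c X _ h =>
    intro t
    rw [smul_smul]
    exact h _

theorem MG_exp (hS : MatGrp S) {X : A} (hX : X ∈ lieOf S) : exp X ∈ S := by
  have h := hS.mem_lieOf.1 hX 1
  rwa [one_smul] at h

theorem conj_mem (hS : MatGrp S) {x y X : A} (hx : x ∈ S) (hxy : x * y = 1)
    (hX : X ∈ lieOf S) : x * X * y ∈ lieOf S := by
  obtain ⟨hy, hyx⟩ := hS.MG_inv hx hxy
  refine hS.mem_lieOf.2 fun t => ?_
  rw [← smul_mul_assoc, ← mul_smul_comm, ← exp_conj hxy hyx]
  exact hS.mul _ (hS.mul _ hx _ (hS.mem_lieOf.1 hX t)) _ hy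

theorem br_mem (hS : MatGrp S) {X Y : A} (hX : X ∈ lieOf S) (hY : Y ∈ lieOf S) :
    ⁅X, Y⁆ ∈ lieOf S :=
  br_mem_of_conj (lieOf S).closed_of_finiteDimensional (Eventually.of_forall fun t =>
    hS.conj_mem (hS.mem_lieOf.1 hX t) (exp_mul_neg _) hY)

theorem MG_mlog : Tendsto (mlog : A → A) (𝓝 1) (𝓝 0) := by
  have h := (mlog_strict (A := A)).continuousAt.tendsto
  rwa [mlog_one] at h

theorem mem_of_tendsto (hS : MatGrp S) {x : ℕ → A} (hx : ∀ m, x m ∈ S)
    (h1 : Tendsto x atTop (𝓝 1)) {c : ℕ → ℝ} {X : A}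
    (h : Tendsto (fun m => c m • mlog (x m)) atTop (𝓝 X)) : X ∈ lieOf S := by
  refine hS.mem_lieOf.2 fun t => ?_
  have h2 : Tendsto (fun m => (t * c m) • mlog (x m)) atTop (𝓝 (t • X)) := by
    simpa only [smul_smul] using h.const_smul t
  have h3 : Tendsto (fun m => Int.fract (t * c m) • mlog (x m)) atTop (𝓝 0) := by
    refine squeeze_zero_norm (fun m => ?_) (tendsto_zero_iff_norm_tendsto_zero.1 (MG_mlog.comp h1))
    rw [norm_smul, Real.norm_of_nonneg (Int.fract_nonneg _)]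
    exact mul_le_of_le_one_left (norm_nonneg _) (Int.fract_lt_one _).le
  have h4 : Tendsto (fun m => (⌊t * c m⌋ : ℝ) • mlog (x m)) atTop (𝓝 (t • X)) := by
    have h5 := h2.sub h3
    rw [sub_zero] at h5
    refine h5.congr fun m => ?_
    rw [← sub_smul, Int.self_sub_fract]
  refine hS.MG_lim ((exp_cont.tendsto _).comp h4) ((h1.eventually exp_mlog).mono fun m hm => ?_)
  exact hS.MG_int (hm.symm ▸ hx m) _

theorem MG_factor (P : A →L[ℝ] A) :
    Filter.map (fun Z => exp (P Z) * exp (Z - P Z)) (𝓝 0) = 𝓝 (1 : A) := by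
  have e0 : HasStrictFDerivAt (exp : A → A) (ContinuousLinearMap.id ℝ A) 0 := exp_strict_refl
  have h1 : HasStrictFDerivAt (fun Z => exp (P Z)) ((ContinuousLinearMap.id ℝ A).comp P) 0 :=
    HasStrictFDerivAt.comp 0 (by rwa [map_zero]) P.hasStrictFDerivAt
  have h2 : HasStrictFDerivAt (fun Z => exp (Z - P Z))
      ((ContinuousLinearMap.id ℝ A).comp (ContinuousLinearMap.id ℝ A - P)) 0 :=
    HasStrictFDerivAt.comp (f := fun Z => Z - P Z) 0 (by rwa [map_zero, sub_zero])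
      (ContinuousLinearMap.id ℝ A - P).hasStrictFDerivAt
  have h3 : HasStrictFDerivAt (fun Z => exp (P Z) * exp (Z - P Z))
      ((ContinuousLinearEquiv.refl ℝ A : A ≃L[ℝ] A) : A →L[ℝ] A) 0 := by
    refine (h1.fun_mul' h2).congr_fderiv ?_
    ext Z
    simp
  have h4 := h3.map_nhds_eq_of_equiv
  rwa [map_zero, sub_zero, exp_zero, mul_one] at h4

theorem mlog_mem (hS : MatGrp S) : ∀ᶠ x in 𝓝 (1 : A), x ∈ S → mlog x ∈ lieOf S := by
  obtain ⟨P, hP, hP'⟩ : ∃ P : A →L[ℝ] A, (∀ Z, P Z ∈ lieOf S) ∧ ∀ Z ∈ lieOf S, P Z = Z := by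
    obtain ⟨g, hg⟩ := (lieOf S).subtype.exists_leftInverse_of_injective (lieOf S).ker_subtype
    refine ⟨LinearMap.toContinuousLinearMap ((lieOf S).subtype ∘ₗ g), fun Z => (g Z).2,
      fun Z hZ => ?_⟩
    exact congrArg Subtype.val (LinearMap.congr_fun hg ⟨Z, hZ⟩)
  have hp : Tendsto P (𝓝 0) (𝓝 0) := P.continuous.tendsto' 0 0 (map_zero P)
  have hq : Tendsto (fun Z => Z - P Z) (𝓝 0) (𝓝 0) :=
    (continuous_id.sub P.continuous).tendsto' 0 0 (by simp)
  by_contra hc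
  rw [← MG_factor P, eventually_map] at hc
  obtain ⟨z, hz, hk⟩ := exists_seq_forall_of_frequently ((not_eventually.1 hc).and_eventually
    ((hp.eventually mlog_exp).and (hq.eventually mlog_exp)))
  have hxS : ∀ m, exp (P (z m)) * exp (z m - P (z m)) ∈ S := fun m => by
    by_contra h
    exact (hk m).1 fun h' => absurd h' h
  have hq0 : ∀ m, z m - P (z m) ≠ 0 := fun m h => by
    refine (hk m).1 fun _ => ?_
    rw [h, exp_zero, mul_one, (hk m).2.1]
    exact hP _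
  have hyS : ∀ m, exp (z m - P (z m)) ∈ S := fun m => by
    have h := hS.mul _ (hS.MG_exp (neg_mem (hP (z m)))) _ (hxS m)
    rwa [← mul_assoc, exp_neg_mul, one_mul] at h
  have : ProperSpace A := FiniteDimensional.proper ℝ A
  obtain ⟨Z, hZ, φ, hφ, hl⟩ := (isCompact_sphere (0 : A) 1).tendsto_subseq
    (x := fun m => ‖z m - P (z m)‖⁻¹ • (z m - P (z m)))
    fun m => mem_sphere_zero_iff_norm.2 (norm_smul_inv_norm (hq0 m))
  have hy : Tendsto (fun m => exp (z (φ m) - P (z (φ m)))) atTop (𝓝 1) :=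
    (exp_cont.tendsto' 0 1 exp_zero).comp (hq.comp (hz.comp hφ.tendsto_atTop))
  have z1 : Z ∈ lieOf S := by
    refine hS.mem_of_tendsto (fun m => hyS (φ m)) hy (c := fun m => ‖z (φ m) - P (z (φ m))‖⁻¹)
      (hl.congr fun m => ?_)
    rw [(hk (φ m)).2.2]
    rfl
  have z2 : P Z = 0 := by
    refine tendsto_nhds_unique ((P.continuous.tendsto Z).comp hl)
      (tendsto_const_nhds.congr fun m => ?_)
    simp only [Function.comp, map_smul, map_sub, hP' _ (hP _), sub_self, smul_zero]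
  rw [hP' Z z1] at z2
  rw [z2] at hZ
  simp at hZ

theorem map_exp (hS : MatGrp S) : Filter.map exp (𝓝[lieOf S] (0 : A)) = 𝓝[S] 1 := by
  refine le_antisymm (tendsto_nhdsWithin_iff.2 ⟨?_, ?_⟩)
    (le_map_of_right_inverse (mba := mlog) ?_ ?_)
  · exact (exp_cont.tendsto' 0 1 exp_zero).mono_left nhdsWithin_le_nhds
  · exact eventually_nhdsWithin_of_forall fun X hX => hS.MG_exp hX
  · exact exp_mlog.filter_mono nhdsWithin_le_nhds
  · exact tendsto_nhdsWithin_iff.2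
      ⟨MG_mlog.mono_left nhdsWithin_le_nhds, eventually_nhdsWithin_iff.2 hS.mlog_mem⟩

end Alg

section Mat

variable {ι : Type} [Fintype ι] [DecidableEq ι] {S : Set (Matrix ι ι ℝ)}

theorem of_isClosed (hc : IsClosed S) (h1 : 1 ∈ S) (hm : ∀ x ∈ S, ∀ y ∈ S, x * y ∈ S)
    (hi : ∀ x ∈ S, ∃ y ∈ S, x * y = 1) : MatGrp S where
  one := h1
  mul := hm
  inv x hx := by
    obtain ⟨y, hy, h⟩ := hi x hx
    exact ⟨y, hy, h, mul_eq_one_comm.1 h⟩
  closed x hx _ := hc.closure_subset hx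

/-- A closed monoid of orthogonal matrices is a group. -/
theorem of_orth (C : Submonoid (Matrix ι ι ℝ)) (hc : IsClosed (C : Set (Matrix ι ι ℝ)))
    (ho : ∀ x ∈ C, x * xᵀ = 1) : MatGrp (C : Set (Matrix ι ι ℝ)) := by
  have hK : IsCompact (C : Set (Matrix ι ι ℝ)) := by
    refine (isCompact_univ_pi fun _ : ι => isCompact_univ_pi fun _ : ι =>
      isCompact_Icc (a := (-1 : ℝ)) (b := 1)).of_isClosed_subset hc fun x hx i _ j _ => ?_
    have h := congrFun (congrFun (ho x hx) i) i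
    rw [Matrix.mul_apply, Matrix.one_apply_eq] at h
    have h2 : x i j * xᵀ j i ≤ 1 := h ▸ Finset.single_le_sum (f := fun j => x i j * xᵀ j i)
      (fun j _ => mul_self_nonneg (x i j)) (Finset.mem_univ j)
    exact abs_le.1 (abs_le_one_iff_mul_self_le_one.2 h2)
  refine of_isClosed hc C.one_mem (fun x hx y hy => C.mul_mem hx hy) fun x hx => ?_
  obtain ⟨_, ⟨c, hcC, rfl⟩, he⟩ := exists_idempotent_in_compact_subsemigroup
    (fun r => continuous_mul_const r) ((fun c => x * c) '' C) ⟨_, 1, C.one_mem, rfl⟩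
    (hK.image (continuous_const_mul x)) (by
      rintro _ ⟨c, h1, rfl⟩ _ ⟨c', h2, rfl⟩
      exact ⟨c * (x * c'), C.mul_mem h1 (C.mul_mem hx h2), (mul_assoc _ _ _).symm⟩)
  refine ⟨c, hcC, ?_⟩
  have h := ho _ (C.mul_mem hx hcC)
  calc x * c = x * c * (x * c * (x * c)ᵀ) := by rw [h, mul_one]
    _ = x * c * (x * c) * (x * c)ᵀ := by rw [mul_assoc (x * c)]
    _ = 1 := by rw [he, h]

theorem mem_lieOf_mat (hS : MatGrp S) {X : Matrix ι ι ℝ} :
    X ∈ lieOf S ↔ ∀ t : ℝ, exp (t • X) ∈ S := mem_lieOf (A := Matrix ι ι ℝ) hS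

theorem map_exp_mat (hS : MatGrp S) :
    Filter.map exp (𝓝[lieOf S] (0 : Matrix ι ι ℝ)) = 𝓝[S] 1 := map_exp (A := Matrix ι ι ℝ) hS

attribute [local instance 100] LieRing.ofAssociativeRing in
theorem MG_lieAlg {n : ℕ} {S : Set (Mat n)} (hS : MatGrp S) :
    (lieAlg S).toSubmodule = lieOf S := by
  refine le_antisymm (fun X hX => ?_) fun X hX =>
    LieSubalgebra.subset_lieSpan (hS.mem_lieOf_mat.1 hX)
  have h : lieAlg S ≤ ⟨lieOf S, fun hx hy => br_mem (A := Mat n) hS hx hy⟩ :=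
    LieSubalgebra.lieSpan_le.2 fun Y hY => hS.mem_lieOf_mat.2 hY
  exact h hX

theorem mem_lieAlg {n : ℕ} {S : Set (Mat n)} (hS : MatGrp S) {X : Mat n} :
    X ∈ lieAlg S ↔ ∀ t : ℝ, exp (t • X) ∈ S := by
  rw [← hS.mem_lieOf_mat, ← hS.MG_lieAlg]
  exact Iff.rfl

theorem finrank_lieAlg {n : ℕ} {S : Set (Mat n)} (hS : MatGrp S) :
    Module.finrank ℝ (lieAlg S) = Module.finrank ℝ (lieOf S) := by
  rw [← hS.MG_lieAlg]
  rfl

end Mat

end MatGrp

end Pool.Agent.P.MP_d483fb_an.Z
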