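import Pool.Agent.P.MP_d483fb_an.Z.Lie.Defs

/-! The exponential and the logarithm near the identity of a Banach algebra. -/

open scoped Matrix Matrix.Norms.Operator InnerProductSpace RealInnerProductSpace Topology
open NormedSpace Filter Set

noncomputable section

namespace Pool.Agent.P.MP_d483fb_an.Z

variable {A : Type} [NormedRing A] [NormedAlgebra ℝ A] [CompleteSpace A]

theorem exp_strict_refl :
    HasStrictFDerivAt (exp : A → A)
      ((ContinuousLinearEquiv.refl ℝ A : A ≃L[ℝ] A) : A →L[ℝ] A) 0 :=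
  hasStrictFDerivAt_exp_zero (𝕂 := ℝ) (𝔸 := A)

theorem mlog_def : (mlog : A → A) =
    (exp_strict_refl (A := A)).localInverse exp (ContinuousLinearEquiv.refl ℝ A) 0 := rfl

theorem mlog_one : mlog (1 : A) = 0 := by
  have h := (exp_strict_refl (A := A)).localInverse_apply_image
  rwa [exp_zero] at h

theorem mlog_exp : ∀ᶠ X in 𝓝 (0 : A), mlog (exp X) = X :=
  (exp_strict_refl (A := A)).eventually_left_inverse

theorem exp_mlog : ∀ᶠ y in 𝓝 (1 : A), exp (mlog y) = y := by
  have h := (exp_strict_refl (A := A)).eventually_right_inverse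
  rwa [exp_zero] at h

theorem mlog_strict :
    HasStrictFDerivAt (mlog : A → A) (ContinuousLinearMap.id ℝ A) 1 := by
  have h := (exp_strict_refl (A := A)).to_localInverse
  rw [exp_zero] at h
  exact h

theorem mlog_contDiffAt : ContDiffAt ℝ ⊤ (mlog : A → A) 1 := by
  have h1 : ContDiffAt ℝ ⊤ (exp : A → A) 0 := (exp_analytic (𝕂 := ℝ) (0 : A)).contDiffAt
  have h := h1.to_localInverse (exp_strict_refl (A := A)).hasFDerivAt (by simp)
  rw [exp_zero] at h
  exact h

theorem mlog_cont : ∀ᶠ y in 𝓝 (1 : A), ContinuousAt mlog y := by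
  have h := ((mlog_contDiffAt (A := A)).of_le (m := 1) le_top).eventually (by simp)
  exact h.mono fun y hy => hy.continuousAt

theorem map_exp_nhds : Filter.map exp (𝓝 (0 : A)) = 𝓝 1 := by
  have h := (exp_strict_refl (A := A)).map_nhds_eq_of_equiv
  rwa [exp_zero] at h

theorem exp_add_comm {X Y : A} (h : Commute X Y) : exp (X + Y) = exp X * exp Y :=
  exp_add_of_commute_of_mem_ball (𝕂 := ℝ) h
    ((expSeries_radius_eq_top ℝ A).symm ▸ edist_lt_top _ _)
    ((expSeries_radius_eq_top ℝ A).symm ▸ edist_lt_top _ _)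

theorem exp_mul_neg (X : A) : exp X * exp (-X) = 1 := by
  rw [← exp_add_comm (Commute.refl X).neg_right, add_neg_cancel, exp_zero]

theorem exp_neg_mul (X : A) : exp (-X) * exp X = 1 := by
  rw [← exp_add_comm (Commute.refl X).neg_left, neg_add_cancel, exp_zero]

theorem exp_add_smul (X : A) (s t : ℝ) :
    exp ((s + t) • X) = exp (s • X) * exp (t • X) := by
  rw [add_smul, exp_add_comm (((Commute.refl X).smul_left s).smul_right t)]

theorem exp_nat_smul (X : A) (m : ℕ) : exp ((m : ℝ) • X) = exp X ^ m := by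
  induction m with
  | zero => simp
  | succ m ih => rw [Nat.cast_succ, exp_add_smul, ih, one_smul, pow_succ]

theorem exp_cont : Continuous (exp : A → A) :=
  continuous_iff_continuousAt.2 fun x => (exp_analytic (𝕂 := ℝ) x).continuousAt

theorem hasDerivAt_exp_mul_exp (X Y : A) :
    HasDerivAt (fun t : ℝ => exp (t • X) * exp (t • Y)) (X + Y) 0 := by
  have h := (hasDerivAt_exp_smul_const (𝕂 := ℝ) X 0).fun_mul
    (hasDerivAt_exp_smul_const (𝕂 := ℝ) Y 0)
  simpa using h

theorem trotter_log (X Y : A) :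
    Tendsto (fun m : ℕ => (m : ℝ) • mlog (exp ((m : ℝ)⁻¹ • X) * exp ((m : ℝ)⁻¹ • Y))) atTop
      (𝓝 (X + Y)) := by
  have h1 : HasFDerivAt (mlog : A → A) (ContinuousLinearMap.id ℝ A)
      (exp ((0 : ℝ) • X) * exp ((0 : ℝ) • Y)) := by
    simpa using (mlog_strict (A := A)).hasFDerivAt
  have h2 := h1.comp_hasDerivAt (0 : ℝ) (hasDerivAt_exp_mul_exp X Y)
  have h3 := (h2.hasFDerivAt.lim_real (1 : ℝ)).comp tendsto_natCast_atTop_atTop
  simpa [Function.comp_def, mlog_one] using h3

theorem trotter (X Y : A) :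
    Tendsto (fun m : ℕ => (exp ((m : ℝ)⁻¹ • X) * exp ((m : ℝ)⁻¹ • Y)) ^ m) atTop
      (𝓝 (exp (X + Y))) := by
  have h1 := (exp_cont.tendsto (X + Y)).comp (trotter_log X Y)
  have h2 : Tendsto (fun m : ℕ => exp ((m : ℝ)⁻¹ • X) * exp ((m : ℝ)⁻¹ • Y)) atTop (𝓝 1) := by
    have h := (hasDerivAt_exp_mul_exp X Y).continuousAt.tendsto.comp
      (tendsto_inv_atTop_nhds_zero_nat (𝕜 := ℝ))
    simpa [Function.comp_def] using h
  refine h1.congr' ?_
  filter_upwards [h2.eventually exp_mlog] with m hm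
  simp only [Function.comp_apply]
  rw [exp_nat_smul, hm]

theorem eq_of_exp_smul_eq {X Y : A} (h : ∀ᶠ t in 𝓝 (0 : ℝ), exp (t • X) = exp (t • Y)) :
    X = Y := by
  have h1 := hasDerivAt_exp_smul_const (𝕂 := ℝ) X 0
  have h2 := (hasDerivAt_exp_smul_const (𝕂 := ℝ) Y 0).congr_of_eventuallyEq h
  simpa using h1.unique h2

/-- A continuous one parameter group is an exponential. -/
theorem exists_gen (φ : ℝ → A) (hc : Continuous φ) (h0 : φ 0 = 1)
    (hadd : ∀ s t, φ (s + t) = φ s * φ t) : ∃ X : A, ∀ t, φ t = exp (t • X) := by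
  set F : ℝ → A := fun u => ∫ x in (0 : ℝ)..u, φ x with hF
  have hd : ∀ u, HasDerivAt F (φ u) u := fun u =>
    intervalIntegral.integral_hasDerivAt_right (hc.intervalIntegrable _ _)
      (hc.stronglyMeasurableAtFilter _ _) hc.continuousAt
  have hF0 : F 0 = 0 := by simp [hF]
  have hs := (hd 0).tendsto_slope_zero
  rw [h0] at hs
  have hu := hs.eventually (Units.isOpen.mem_nhds (isUnit_one (M := A)))
  obtain ⟨r, hr, hr0⟩ := (hu.and self_mem_nhdsWithin).exists
  have hr0' : r ≠ 0 := hr0
  simp only [zero_add, hF0, sub_zero] at hr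
  obtain ⟨v, hv⟩ := hr.exists_right_inv
  have hv' : F r * (r⁻¹ • v) = 1 := by
    rw [mul_smul_comm, ← smul_mul_assoc, hv]
  set w : A := r⁻¹ • v
  have hmul : ∀ t, φ t * F r = F (t + r) - F t := by
    intro t
    have e1 : φ t * F r = ∫ x in (0 : ℝ)..r, φ (t + x) := by
      simp only [hadd, hF]
      exact ((ContinuousLinearMap.mul ℝ A (φ t)).intervalIntegral_comp_comm
        (hc.intervalIntegrable _ _)).symm
    rw [e1, intervalIntegral.integral_comp_add_left, add_zero]
    exact (intervalIntegral.integral_interval_sub_left (hc.intervalIntegrable _ _)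
      (hc.intervalIntegrable _ _)).symm
  have hφ : φ = fun t => (F (t + r) - F t) * w := by
    funext t
    rw [← hmul, mul_assoc, hv', mul_one]
  set X : A := (φ r - 1) * w with hX
  have hder : ∀ t, HasDerivAt φ (φ t * X) t := by
    intro t
    have h1 : HasDerivAt (fun t => F (t + r)) (φ (t + r)) t := by
      simpa using (hd (t + r)).comp_add_const t r
    have h2 := (h1.sub (hd t)).mul_const w
    have e : (φ (t + r) - φ t) * w = φ t * X := by
      rw [hX, hadd, ← mul_assoc, mul_sub, mul_one]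
    rw [e] at h2
    exact h2.congr_of_eventuallyEq (Eventually.of_forall fun s => congrFun hφ s)
  have hψ : ∀ t, HasDerivAt (fun t => φ t * exp (t • (-X))) 0 t := by
    intro t
    have h := (hder t).mul (hasDerivAt_exp_smul_const' (𝕂 := ℝ) (-X) t)
    have e : φ t * X * exp (t • -X) + φ t * (-X * exp (t • -X)) = 0 := by
      rw [neg_mul, mul_neg, mul_assoc, add_neg_cancel]
    rw [e] at h
    exact h
  refine ⟨X, fun t => ?_⟩
  have hconst := is_const_of_deriv_eq_zero (fun t => (hψ t).differentiableAt)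
    (fun t => (hψ t).deriv) t 0
  simp only [zero_smul, exp_zero, h0, mul_one] at hconst
  calc φ t = φ t * (exp (-(t • X)) * exp (t • X)) := by rw [exp_neg_mul, mul_one]
    _ = exp (t • X) := by rw [← mul_assoc, ← smul_neg, hconst, one_mul]

end Pool.Agent.P.MP_d483fb_an.Z
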