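import Pool.Agent.P.MP_d483fb_an.Z.Lie.Mx0

/-! Conjugation by exponentials in a Banach algebra. -/

open scoped Matrix Matrix.Norms.Operator InnerProductSpace RealInnerProductSpace Topology
open NormedSpace Filter Set

noncomputable section

namespace Pool.Agent.P.MP_d483fb_an.Z

variable {A : Type} [NormedRing A] [NormedAlgebra ℝ A] [CompleteSpace A]

theorem Mx1_der {a : ℝ → ℝ} {a' s : ℝ} (ha : HasDerivAt a a' s) (X : A) :
    HasDerivAt (fun s => exp (a s • X)) (a' • (X * exp (a s • X))) s :=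
  (hasDerivAt_exp_smul_const' X (a s)).scomp s ha

omit [CompleteSpace A] in
theorem Mx1_comm (X : A) (a : ℝ) : X * exp (a • X) = exp (a • X) * X :=
  ((Commute.refl X).smul_right a).exp_right.eq

theorem Mx1_der_neg (X : A) (s : ℝ) :
    HasDerivAt (fun s : ℝ => exp (-(s • X))) (-(exp (-(s • X)) * X)) s := by
  have h := Mx1_der (hasDerivAt_neg s) X
  simp only [neg_smul, one_smul] at h
  rw [← neg_smul, ← Mx1_comm, neg_smul]
  exact h

omit [CompleteSpace A] in
theorem Mx1_const {F : ℝ → A} {U : Set ℝ} (hU : Convex ℝ U) (h : ∀ x ∈ U, HasDerivAt F 0 x)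
    {x y : ℝ} (hx : x ∈ U) (hy : y ∈ U) : F y = F x := by
  have := hU.norm_image_sub_le_of_norm_hasDerivWithin_le (f' := fun _ => (0 : A)) (C := 0)
    (fun z hz => (h z hz).hasDerivWithinAt) (fun _ _ => norm_zero.le) hx hy
  rwa [zero_mul, norm_le_zero_iff, sub_eq_zero] at this

theorem Mx1_ode_left {P : ℝ → A} {X : A} {U : Set ℝ} (hU : Convex ℝ U) (h0 : (0 : ℝ) ∈ U)
    (h : ∀ s ∈ U, HasDerivAt P (X * P s) s) {s : ℝ} (hs : s ∈ U) : P s = exp (s • X) * P 0 := by
  have h1 := Mx1_const (F := fun s => exp (-(s • X)) * P s) hU (fun x hx => by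
    have := (Mx1_der_neg X x).mul (h x hx)
    rwa [neg_mul, mul_assoc, neg_add_cancel] at this) h0 hs
  simp only [zero_smul, neg_zero, exp_zero, one_mul] at h1
  rw [← h1, ← mul_assoc, exp_mul_neg, one_mul]

theorem Mx1_ode {f : ℝ → A} {X : A} (h : ∀ s, HasDerivAt f ⁅X, f s⁆ s) :
    exp X * f 0 * exp (-X) = f 1 := by
  have h1 := Mx1_ode_left (P := fun s => f s * exp (s • X)) (X := X) convex_univ (mem_univ _)
    (fun s _ => by
      have := (h s).mul (hasDerivAt_exp_smul_const' X s)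
      refine this.congr_deriv ?_
      rw [Ring.lie_def]
      noncomm_ring) (mem_univ 1)
  simp only [zero_smul, one_smul, exp_zero, mul_one] at h1
  rw [← h1, mul_assoc, exp_mul_neg, mul_one]

theorem hasDerivAt_conj (X Y : A) (t : ℝ) :
    HasDerivAt (fun t : ℝ => exp (t • X) * Y * exp (-(t • X)))
      (exp (t • X) * ⁅X, Y⁆ * exp (-(t • X))) t := by
  have h := ((hasDerivAt_exp_smul_const X t).mul_const Y).mul (Mx1_der_neg X t)
  refine h.congr_deriv ?_
  have e : exp (-(t • X)) * X = X * exp (-(t • X)) := by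
    rw [← neg_smul, Mx1_comm]
  rw [Ring.lie_def, e]
  noncomm_ring

theorem exp_conj {u v : A} (h : u * v = 1) (h' : v * u = 1) (X : A) :
    u * exp X * v = exp (u * X * v) := by
  let _ : NormedAlgebra ℚ A := .restrictScalars ℚ ℝ A
  exact (exp_units_conj ⟨u, v, h, h'⟩ X).symm

theorem Mx1_mem {v : Submodule ℝ A} (hv : IsClosed (v : Set A)) {T : A →L[ℝ] A}
    (h : ∀ Y ∈ v, T Y ∈ v) {Y : A} (hY : Y ∈ v) : exp T Y ∈ v := by
  have hs := (exp_series_hasSum_exp' (𝕂 := ℝ) T).mapL (ContinuousLinearMap.apply ℝ A Y)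
  have hp : ∀ n : ℕ, (T ^ n) Y ∈ v := by
    intro n
    induction n with
    | zero => simpa using hY
    | succ n ih =>
      rw [pow_succ']
      exact h _ ih
  refine hv.mem_of_tendsto hs.tendsto_sum_nat (Eventually.of_forall fun N => ?_)
  exact v.sum_mem fun n _ => v.smul_mem _ (hp n)

theorem conj_mem {v : Submodule ℝ A} (hv : IsClosed (v : Set A)) {X : A}
    (h : ∀ Y ∈ v, ⁅X, Y⁆ ∈ v) {Y : A} (hY : Y ∈ v) : exp X * Y * exp (-X) ∈ v := by
  let T : A →L[ℝ] A := ContinuousLinearMap.mul ℝ A X - (ContinuousLinearMap.mul ℝ A).flip X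
  have hT : ∀ Y, T Y = ⁅X, Y⁆ := fun Y => by simp [T, Ring.lie_def]
  have h1 := Mx1_ode (f := fun s : ℝ => exp (s • T) Y) (X := X) fun s => by
    have := (ContinuousLinearMap.apply ℝ A Y).hasFDerivAt.comp_hasDerivAt s
      (hasDerivAt_exp_smul_const' T s)
    rw [← hT]
    exact this
  rw [zero_smul ℝ T, one_smul, exp_zero, one_apply_eq_self] at h1
  rw [h1]
  exact Mx1_mem hv (fun Y hY => hT Y ▸ h Y hY) hY

theorem br_mem_of_conj {v : Submodule ℝ A} (hv : IsClosed (v : Set A)) {X Y : A}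
    (h : ∀ᶠ t in 𝓝 (0 : ℝ), exp (t • X) * Y * exp (-(t • X)) ∈ v) : ⁅X, Y⁆ ∈ v := by
  have h1 := hasDerivAt_iff_tendsto_slope.1 (hasDerivAt_conj X Y 0)
  simp only [zero_smul, neg_zero, exp_zero, one_mul, mul_one] at h1
  refine hv.mem_of_tendsto h1 ?_
  filter_upwards [h.filter_mono nhdsWithin_le_nhds] with t ht
  rw [slope_def_module]
  exact v.smul_mem _ (v.sub_mem ht h.self_of_nhds)

theorem exp_mem_of_mul {v : Submodule ℝ A} (hv : IsClosed (v : Set A)) {X Y : A}
    (h : ∀ Z ∈ v, X * Z ∈ v) (hY : Y ∈ v) : exp X * Y ∈ v := by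
  have hs := (exp_series_hasSum_exp' (𝕂 := ℝ) X).mul_right Y
  have hp : ∀ n : ℕ, X ^ n * Y ∈ v := by
    intro n
    induction n with
    | zero => simpa using hY
    | succ n ih =>
      rw [pow_succ', mul_assoc]
      exact h _ ih
  refine hv.mem_of_tendsto hs.tendsto_sum_nat (Eventually.of_forall fun N => ?_)
  refine v.sum_mem fun n _ => ?_
  rw [smul_mul_assoc]
  exact v.smul_mem _ (hp n)

omit [CompleteSpace A] in
theorem Mx1_lie_smul (X Y : A) (c : ℝ) : ⁅X, c • Y⁆ = c • ⁅X, Y⁆ := by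
  simp [Ring.lie_def, smul_sub]

omit [CompleteSpace A] in
theorem Mx1_smul_lie (X Y : A) (c : ℝ) : ⁅c • X, Y⁆ = c • ⁅X, Y⁆ := by
  simp [Ring.lie_def, smul_sub]

omit [NormedAlgebra ℝ A] [CompleteSpace A] in
theorem Mx1_lie_add (X Y Z : A) : ⁅X, Y + Z⁆ = ⁅X, Y⁆ + ⁅X, Z⁆ := by
  simp only [Ring.lie_def]
  noncomm_ring

theorem conj_eigen {X Y : A} {c : ℝ} (h : ⁅X, Y⁆ = c • Y) :
    exp X * Y * exp (-X) = Real.exp c • Y := by
  have h1 := Mx1_ode (f := fun s : ℝ => Real.exp (s * c) • Y) (X := X) fun s => by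
    refine (((hasDerivAt_mul_const c).exp).smul_const Y).congr_deriv ?_
    rw [Mx1_lie_smul, h, smul_smul]
  simpa using h1

theorem conj_nil3 {X Y : A} (h : ⁅X, ⁅X, ⁅X, Y⁆⁆⁆ = 0) :
    exp X * Y * exp (-X) = Y + ⁅X, Y⁆ + (1 / 2 : ℝ) • ⁅X, ⁅X, Y⁆⁆ := by
  have h1 := Mx1_ode (f := fun s : ℝ => Y + s • ⁅X, Y⁆ + (s * s / 2) • ⁅X, ⁅X, Y⁆⁆) (X := X)
    fun s => by
      refine ((((hasDerivAt_id s).smul_const ⁅X, Y⁆).const_add Y).add
        ((((hasDerivAt_id s).mul (hasDerivAt_id s)).div_const 2).smul_const _)).congr_deriv ?_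
      rw [Mx1_lie_add, Mx1_lie_add, Mx1_lie_smul, Mx1_lie_smul, h]
      simp
  simpa using h1

theorem conj_rot {X Y Z : A} {c : ℝ} (h1 : ⁅X, Y⁆ = c • Z) (h2 : ⁅X, Z⁆ = -(c • Y)) :
    exp X * Y * exp (-X) = Real.cos c • Y + Real.sin c • Z := by
  have h3 := Mx1_ode (f := fun s : ℝ => Real.cos (s * c) • Y + Real.sin (s * c) • Z) (X := X)
    fun s => by
      refine ((((hasDerivAt_mul_const c).cos).smul_const Y).add
        (((hasDerivAt_mul_const c).sin).smul_const Z)).congr_deriv ?_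
      rw [Mx1_lie_add, Mx1_lie_smul, Mx1_lie_smul, h1, h2]
      module
  simpa using h3

theorem Mx1_swap {X Y Z : A} (h : exp X * Y * exp (-X) = Z) : exp X * Y = Z * exp X := by
  rw [← h, mul_assoc, exp_neg_mul, mul_one]

theorem exp_heis {X Y : A} (h1 : ⁅X, ⁅X, Y⁆⁆ = 0) (h2 : ⁅Y, ⁅X, Y⁆⁆ = 0) :
    exp X * exp Y = exp (X + Y + (1 / 2 : ℝ) • ⁅X, Y⁆) := by
  let _ : NormedAlgebra ℚ A := .restrictScalars ℚ ℝ A
  obtain ⟨Z, hZ⟩ : ∃ Z, Z = ⁅X, Y⁆ := ⟨_, rfl⟩
  rw [← hZ] at h1 h2 ⊢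
  have c1 : Commute X Z := sub_eq_zero.1 h1
  have c2 : Commute Y Z := sub_eq_zero.1 h2
  have h3 := Mx1_ode_left (P := fun s : ℝ => exp (s • X) * exp (s • Y) * exp ((-(s * s / 2)) • Z))
    (X := X + Y) convex_univ (mem_univ _) (fun s _ => by
      refine (((hasDerivAt_exp_smul_const' X s).mul (hasDerivAt_exp_smul_const' Y s)).mul
        (Mx1_der (((hasDerivAt_id s).mul (hasDerivAt_id s)).div_const 2).neg Z)).congr_deriv ?_
      have e1 : exp (s • X) * Y = (Y + s • Z) * exp (s • X) := by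
        refine Mx1_swap ?_
        have e2 : ⁅s • X, ⁅s • X, Y⁆⁆ = 0 := by
          rw [Mx1_smul_lie, Mx1_smul_lie, Mx1_lie_smul, ← hZ, h1, smul_zero, smul_zero]
        rw [conj_nil3 (by rw [e2, Ring.lie_def, mul_zero, zero_mul, sub_zero]), e2,
          Mx1_smul_lie, ← hZ, smul_zero, add_zero]
      have e3 : exp (s • X) * exp (s • Y) * Z = Z * (exp (s • X) * exp (s • Y)) :=
        (((c1.smul_left s).exp_left).mul_left ((c2.smul_left s).exp_left)).eq
      simp only [Pi.mul_apply, Pi.neg_apply, id, mul_smul_comm]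
      rw [← mul_assoc (exp (s • X)) Y, e1, ← mul_assoc _ Z, e3]
      simp only [add_mul, smul_mul_assoc, mul_assoc]
      module) (mem_univ 1)
  simp only [zero_smul, one_smul, exp_zero, mul_one, mul_zero, zero_div, neg_zero, neg_smul] at h3
  rw [exp_add_of_commute ((c1.add_left c2).smul_right _), ← h3, mul_assoc, exp_neg_mul, mul_one]

theorem exp_sl2 {e f h : A} (he : ⁅h, e⁆ = (2 : ℝ) • e) (hf : ⁅h, f⁆ = -((2 : ℝ) • f))
    (hef : ⁅e, f⁆ = h) {s t : ℝ} (hc : 0 < 1 + s * t) :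
    exp (s • e) * exp (t • f) =
      exp ((t / (1 + s * t)) • f) * exp (Real.log (1 + s * t) • h) *
        exp ((s / (1 + s * t)) • e) := by
  have hU : Convex ℝ {x : ℝ | 0 < 1 + x * t} := by
    intro x hx y hy a b ha hb hab
    simp only [mem_ofPred_eq, smul_eq_mul] at hx hy ⊢
    have e1 : 1 + (a * x + b * y) * t = a * (1 + x * t) + b * (1 + y * t) := by
      linear_combination -hab
    rw [e1]
    rcases ha.eq_or_lt with rfl | ha'
    · rw [zero_add] at hab
      subst hab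
      simpa using hy
    · exact add_pos_of_pos_of_nonneg (mul_pos ha' hx) (mul_nonneg hb hy.le)
  have fh : ⁅f, h⁆ = (2 : ℝ) • f := by
    rw [← neg_neg ((2 : ℝ) • f), ← hf, Ring.lie_def, Ring.lie_def, neg_sub]
  have fe : ⁅f, e⁆ = (-1 : ℝ) • h := by
    rw [← hef, Ring.lie_def, Ring.lie_def, neg_smul, one_smul, neg_sub]
  have ff : ⁅f, f⁆ = 0 := sub_self _
  have h3 := Mx1_ode_left (P := fun x : ℝ => exp ((t / (1 + x * t)) • f) *
      exp (Real.log (1 + x * t) • h) * exp ((x / (1 + x * t)) • e)) (X := e) hU (by simp)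
    (fun x hx => by
      have hx' : 0 < 1 + x * t := hx
      have du : HasDerivAt (fun x : ℝ => 1 + x * t) t x := (hasDerivAt_mul_const t).const_add 1
      have da : HasDerivAt (fun x : ℝ => t / (1 + x * t)) (-(t / (1 + x * t)) ^ 2) x := by
        refine ((hasDerivAt_const x t).div du hx'.ne').congr_deriv ?_
        field_simp
        ring
      have db : HasDerivAt (fun x : ℝ => Real.log (1 + x * t)) (t / (1 + x * t)) x :=
        du.log hx'.ne'
      have dc : HasDerivAt (fun x : ℝ => x / (1 + x * t)) (((1 + x * t) ^ 2)⁻¹) x := by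
        refine ((hasDerivAt_id x).div du hx'.ne').congr_deriv ?_
        simp only [id]
        field_simp
        ring
      refine (((Mx1_der da f).mul (Mx1_der db h)).mul (Mx1_der dc e)).congr_deriv ?_
      obtain ⟨a, ha⟩ : ∃ a, a = t / (1 + x * t) := ⟨_, rfl⟩
      have e1 : exp (Real.log (1 + x * t) • h) * e =
          ((1 + x * t) ^ 2 • e) * exp (Real.log (1 + x * t) • h) := by
        refine Mx1_swap ?_
        rw [conj_eigen (c := Real.log (1 + x * t) * 2) (by rw [Mx1_smul_lie, he, smul_smul]),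
          mul_two, Real.exp_add, Real.exp_log hx', sq]
      have b1 : ⁅a • f, a • h + e⁆ = (2 * a ^ 2) • f + (-a) • h := by
        rw [Mx1_smul_lie, Mx1_lie_add, Mx1_lie_smul, fh, fe]
        module
      have b2 : ⁅a • f, (2 * a ^ 2) • f + (-a) • h⁆ = (-2 * a ^ 2) • f := by
        rw [Mx1_smul_lie, Mx1_lie_add, Mx1_lie_smul, Mx1_lie_smul, fh, ff]
        module
      have e2 : exp (a • f) * (a • h + e) = (e + a ^ 2 • f) * exp (a • f) := by
        refine Mx1_swap ?_
        rw [conj_nil3 (by rw [b1, b2, Mx1_smul_lie, Mx1_lie_smul, ff, smul_zero, smul_zero]),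
          b1, b2]
        module
      have e3 : exp (a • f) * e = (e + a ^ 2 • f) * exp (a • f) - a • (exp (a • f) * h) := by
        rw [← e2, mul_add, mul_smul_comm, add_sub_cancel_left]
      have e4 : ∀ W : A, ((1 + x * t) ^ 2)⁻¹ •
          (exp (a • f) * exp (Real.log (1 + x * t) • h) * (e * W)) =
          exp (a • f) * e * exp (Real.log (1 + x * t) • h) * W := by
        intro W
        rw [← mul_assoc _ e, mul_assoc _ _ e, e1, smul_mul_assoc, mul_smul_comm, smul_mul_assoc,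
          smul_smul, inv_mul_cancel₀ (by positivity), one_smul, ← mul_assoc _ e]
      simp only [Pi.mul_apply, ← ha, mul_smul_comm]
      rw [e4, e3]
      simp only [add_mul, sub_mul, smul_mul_assoc, mul_assoc]
      module) hc
  rw [h3]
  simp

end Pool.Agent.P.MP_d483fb_an.Z
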