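import Pool.Agent.P.MP_d483fb_an.Z.Lie.Mx3

/-! Logarithms of positive matrices and symmetric normalisers. -/

open scoped Matrix Matrix.Norms.Operator InnerProductSpace RealInnerProductSpace Topology
open NormedSpace Filter Set

noncomputable section

namespace Pool.Agent.P.MP_d483fb_an.Z

variable {n : ℕ}

theorem Mx4_diag {W : Mat n} (hW : W.IsSymm) :
    ∃ (U : Mat n) (d : Fin n → ℝ), U * Uᵀ = 1 ∧ Uᵀ * U = 1 ∧ U * W * Uᵀ = Matrix.diagonal d := by
  obtain ⟨U, hU, hd⟩ := simul_diag (Submodule.span ℝ {W})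
    (fun X hX => by
      obtain ⟨c, rfl⟩ := Submodule.mem_span_singleton.1 hX
      exact hW.smul c)
    (fun X hX Y hY => by
      obtain ⟨c, rfl⟩ := Submodule.mem_span_singleton.1 hX
      obtain ⟨c', rfl⟩ := Submodule.mem_span_singleton.1 hY
      rw [Ring.lie_def, Matrix.smul_mul, Matrix.smul_mul, Matrix.mul_smul, Matrix.mul_smul,
        smul_comm, sub_self])
  exact ⟨U, _, hU, mul_eq_one_comm.1 hU,
    (hd W (Submodule.mem_span_singleton_self W)).diagonal_diag.symm⟩

theorem Mx4_exp_conj {U V : Mat n} (h : U * V = 1) (h' : V * U = 1) (X : Mat n) :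
    U * exp X * V = exp (U * X * V) := exp_conj h h' X

theorem Mx4_exp_diag (d : Fin n → ℝ) :
    exp (Matrix.diagonal d : Mat n) = Matrix.diagonal fun i => Real.exp (d i) := by
  rw [Matrix.exp_diagonal]
  congr 1
  funext i
  rw [Pi.coe_exp, Real.exp_eq_exp_ℝ]

theorem Mx4_back {U V W : Mat n} (h' : V * U = 1) : V * (U * W * V) * U = W := by
  calc V * (U * W * V) * U = (V * U) * W * (V * U) := by simp only [Matrix.mul_assoc]
    _ = W := by rw [h', Matrix.one_mul, Matrix.mul_one]

theorem exists_symm_log {y : Mat n} (hy : IsUnit y) :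
    ∃ W : Mat n, W.IsSymm ∧ exp W = yᵀ * y := by
  obtain ⟨U, d, h1, h2, hd⟩ := Mx4_diag (W := yᵀ * y) (Matrix.isSymm_transpose_mul_self y)
  have hB : (y * Uᵀ)ᵀ * (y * Uᵀ) = Matrix.diagonal d := by
    rw [← hd, Matrix.transpose_mul, Matrix.transpose_transpose]
    simp only [Matrix.mul_assoc]
  have hdet : (y * Uᵀ).det ≠ 0 := by
    rw [Matrix.det_mul]
    refine mul_ne_zero ((Matrix.isUnit_iff_isUnit_det y).1 hy).ne_zero fun h0 => ?_
    have := congrArg Matrix.det h1
    rw [Matrix.det_mul, h0, mul_zero, Matrix.det_one] at this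
    exact zero_ne_one this
  have hpos : ∀ i, 0 < d i := by
    intro i
    have e : d i = ∑ k, (y * Uᵀ) k i * (y * Uᵀ) k i := by
      have := congrFun (congrFun hB i) i
      rw [Matrix.diagonal_apply_eq, Matrix.mul_apply] at this
      exact this.symm
    by_contra hn
    have h0 : ∑ k, (y * Uᵀ) k i * (y * Uᵀ) k i = 0 :=
      le_antisymm (e ▸ not_lt.1 hn) (Finset.sum_nonneg fun k _ => mul_self_nonneg _)
    rw [Finset.sum_eq_zero_iff_of_nonneg fun k _ => mul_self_nonneg _] at h0
    exact hdet (Matrix.det_eq_zero_of_column_eq_zero i fun k =>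
      mul_self_eq_zero.1 (h0 k (Finset.mem_univ k)))
  refine ⟨Uᵀ * Matrix.diagonal (fun i => Real.log (d i)) * U, ?_, ?_⟩
  · show (Uᵀ * Matrix.diagonal (fun i => Real.log (d i)) * U)ᵀ = _
    rw [Matrix.transpose_mul, Matrix.transpose_mul, Matrix.transpose_transpose,
      Matrix.diagonal_transpose, Matrix.mul_assoc]
  · rw [← Mx4_exp_conj h2 h1, Mx4_exp_diag]
    have e : (fun i => Real.exp (Real.log (d i))) = d := funext fun i => Real.exp_log (hpos i)
    rw [e, ← hd, Mx4_back h2]

theorem br_mem_of_conj_symm (v : Submodule ℝ (Mat n)) {W : Mat n} (hW : W.IsSymm)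
    (h : ∀ X ∈ v, exp W * X * exp (-W) ∈ v) {X : Mat n} (hX : X ∈ v) : ⁅W, X⁆ ∈ v := by
  classical
  obtain ⟨U, d, h1, h2, hd⟩ := Mx4_diag hW
  let v' : Submodule ℝ (Mat n) := v.comap (LinearMap.mulLeftRight ℝ (Uᵀ, U))
  have hv' : ∀ Y, Y ∈ v' ↔ Uᵀ * Y * U ∈ v := fun Y => Iff.rfl
  have e1 : U * exp W * Uᵀ = Matrix.diagonal fun i => Real.exp (d i) := by
    rw [Mx4_exp_conj h1 h2, hd, Mx4_exp_diag]
  have e2 : U * exp (-W) * Uᵀ = Matrix.diagonal fun i => Real.exp (-d i) := by
    rw [Mx4_exp_conj h1 h2, Matrix.mul_neg, Matrix.neg_mul, hd, Matrix.diagonal_neg, Mx4_exp_diag]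
  have hc : ∀ (_ : Unit), ∀ Y ∈ v',
      (Matrix.of fun i j => Real.exp (d i - d j) * Y i j) ∈ v' := by
    intro _ Y hY
    have e : (Matrix.of fun i j => Real.exp (d i - d j) * Y i j) =
        U * (exp W * (Uᵀ * Y * U) * exp (-W)) * Uᵀ := by
      have : U * (exp W * (Uᵀ * Y * U) * exp (-W)) * Uᵀ =
          (U * exp W * Uᵀ) * Y * (U * exp (-W) * Uᵀ) := by simp only [Matrix.mul_assoc]
      rw [this, e1, e2]
      ext i j
      rw [Matrix.of_apply, Matrix.mul_diagonal, Matrix.diagonal_mul, sub_eq_add_neg, Real.exp_add]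
      ring
    rw [hv', e, Mx4_back h2]
    exact h _ ((hv' Y).1 hY)
  have hY : U * X * Uᵀ ∈ v' := by rw [hv', Mx4_back h2]; exact hX
  have hm : ∀ r : ℝ, (Matrix.of fun i j =>
      if (i, j) ∈ {p : Fin n × Fin n | d p.1 - d p.2 = r} then (U * X * Uᵀ) i j else 0) ∈ v' := by
    intro r
    have := mask_mem v' (fun (_ : Unit) i j => Real.exp (d i - d j)) hc
      {p : Fin n × Fin n | d p.1 - d p.2 = r}
      (fun p hp q hq => (Real.exp_injective (hq ())).symm.trans hp) hY
    refine (congrArg (fun M => M ∈ v') ?_).mp this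
    ext i j
    simp only [Matrix.of_apply]
  have key : U * ⁅W, X⁆ * Uᵀ =
      ∑ r ∈ Finset.univ.image (fun p : Fin n × Fin n => d p.1 - d p.2), r • (Matrix.of fun i j =>
      if (i, j) ∈ {p : Fin n × Fin n | d p.1 - d p.2 = r} then (U * X * Uᵀ) i j else 0) := by
    have : U * ⁅W, X⁆ * Uᵀ = (U * W * Uᵀ) * (U * X * Uᵀ) - (U * X * Uᵀ) * (U * W * Uᵀ) := by
      rw [Ring.lie_def, Matrix.mul_sub, Matrix.sub_mul]
      simp only [Matrix.mul_assoc]
      rw [← Matrix.mul_assoc Uᵀ U, ← Matrix.mul_assoc Uᵀ U, h2, Matrix.one_mul, Matrix.one_mul]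
    rw [this, hd]
    ext i j
    rw [Matrix.sum_apply, Finset.sum_eq_single (d i - d j), Matrix.sub_apply, Matrix.mul_diagonal,
      Matrix.diagonal_mul, Matrix.smul_apply, Matrix.of_apply, if_pos (by rfl), smul_eq_mul]
    · ring
    · intro r _ hr
      have hn : (i, j) ∉ {p : Fin n × Fin n | d p.1 - d p.2 = r} := fun hh => hr (Eq.symm hh)
      rw [Matrix.smul_apply, Matrix.of_apply, if_neg hn, smul_zero]
    · intro hh
      exact absurd (Finset.mem_image.2 ⟨(i, j), Finset.mem_univ _, rfl⟩) hh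
  have hfin : U * ⁅W, X⁆ * Uᵀ ∈ v' := by
    rw [key]
    exact Submodule.sum_mem _ fun r _ => v'.smul_mem r (hm r)
  rwa [hv', Mx4_back h2] at hfin

theorem eq_zero_of_det {G : Type} [Group G] (ρ : G →* Mat n) {Z : Mat n} (hZ : Z.IsSymm)
    (hc : ∀ x, ρ x * Z = Z * ρ x) (hp : ∀ (χ : G →* ℝ) (x : G), χ x = 1) {x : G}
    (hx : ρ x = exp Z) : Z = 0 := by
  classical
  obtain ⟨U, d, h1, h2, hd⟩ := Mx4_diag hZ
  have hmul : ∀ A B : Mat n, U * (A * B) * Uᵀ = (U * A * Uᵀ) * (U * B * Uᵀ) := by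
    intro A B
    simp only [Matrix.mul_assoc]
    rw [← Matrix.mul_assoc Uᵀ U, h2, Matrix.one_mul]
  have hd0 : ∀ i₀, d i₀ = 0 := by
    intro i₀
    let E : Mat n := Matrix.diagonal fun i => if d i = d i₀ then 1 else 0
    have hE : E * E = E := by
      simp only [E, Matrix.diagonal_mul_diagonal]
      congr 1
      funext i
      split_ifs <;> simp
    have hcE : ∀ g, E * (U * ρ g * Uᵀ) = (U * ρ g * Uᵀ) * E := by
      intro g
      have hcd : (U * ρ g * Uᵀ) * Matrix.diagonal d = Matrix.diagonal d * (U * ρ g * Uᵀ) := by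
        rw [← hd, ← hmul, ← hmul, hc]
      ext i j
      have hij := congrFun (congrFun hcd i) j
      rw [Matrix.mul_diagonal, Matrix.diagonal_mul] at hij
      simp only [E]
      rw [Matrix.mul_diagonal, Matrix.diagonal_mul]
      by_cases h0 : (U * ρ g * Uᵀ) i j = 0
      · rw [h0, mul_zero, zero_mul]
      · have : d j = d i := mul_left_cancel₀ h0 (hij.trans (mul_comm _ _))
        rw [this, mul_comm]
    let χ : G →* ℝ :=
      { toFun := fun g => ((U * ρ g * Uᵀ) * E + (1 - E)).det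
        map_one' := by
          rw [map_one, Matrix.mul_one, h1, Matrix.one_mul, add_sub_cancel, Matrix.det_one]
        map_mul' := fun g g' => by
          rw [← Matrix.det_mul, map_mul, hmul]
          congr 1
          have k1 := hcE g'
          generalize U * ρ g * Uᵀ = A at *
          generalize U * ρ g' * Uᵀ = B at *
          have k2 : A * E * (B * E) = A * B * E := by
            rw [Matrix.mul_assoc, ← Matrix.mul_assoc E, k1, Matrix.mul_assoc B, hE,
              Matrix.mul_assoc]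
          have k3 : A * E * (1 - E) = 0 := by
            rw [Matrix.mul_assoc, Matrix.mul_sub, Matrix.mul_one, hE, sub_self, Matrix.mul_zero]
          have k4 : (1 - E) * (B * E) = 0 := by
            rw [← k1, ← Matrix.mul_assoc, Matrix.sub_mul, Matrix.one_mul, hE, sub_self,
              Matrix.zero_mul]
          have k5 : (1 - E) * (1 - E) = 1 - E := by
            rw [Matrix.mul_sub, Matrix.mul_one, Matrix.sub_mul, Matrix.one_mul, hE, sub_self,
              sub_zero]
          rw [Matrix.add_mul, Matrix.mul_add, Matrix.mul_add, k2, k3, k4, k5, add_zero,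
            zero_add] }
    have hχ : ((U * ρ x * Uᵀ) * E + (1 - E)).det = 1 := hp χ x
    have e : (U * ρ x * Uᵀ) * E + (1 - E) =
        Matrix.diagonal fun i => Real.exp (d i₀ * if d i = d i₀ then 1 else 0) := by
      rw [hx, Mx4_exp_conj h1 h2, hd, Mx4_exp_diag]
      simp only [E]
      rw [Matrix.diagonal_mul_diagonal, ← Matrix.diagonal_one, Matrix.diagonal_sub,
        Matrix.diagonal_add]
      congr 1
      funext i
      by_cases hi : d i = d i₀
      · simp [hi]
      · simp [hi]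
    rw [e, Matrix.det_diagonal, ← Real.exp_sum, Real.exp_eq_one_iff, ← Finset.mul_sum] at hχ
    refine (mul_eq_zero.1 hχ).resolve_right (ne_of_gt ?_)
    refine Finset.sum_pos' (fun i _ => by split_ifs <;> norm_num) ⟨i₀, Finset.mem_univ _, ?_⟩
    rw [if_pos rfl]
    exact one_pos
  have : Matrix.diagonal d = 0 := by
    rw [show d = fun _ => 0 from funext hd0]
    exact Matrix.diagonal_zero
  rw [← Mx4_back (W := Z) h2, hd, this, Matrix.mul_zero, Matrix.zero_mul]

end Pool.Agent.P.MP_d483fb_an.Z
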