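import Pool.Agent.P.MP_d483fb_an.Z.Lie.Root2
import Pool.Agent.P.MP_d483fb_an.Z.Lie.Mx4

/-! Polar and Cartan decompositions. -/

open scoped Matrix Matrix.Norms.Operator InnerProductSpace RealInnerProductSpace Topology
open NormedSpace Filter Set

noncomputable section

namespace Pool.Agent.P.MP_d483fb_an.Z

namespace Std

variable {G : Type} [Group G] [TopologicalSpace G] [IsTopologicalGroup G] [PreconnectedSpace G]
  {n k : ℕ} (D : Std G n k)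

/-- A symmetric matrix whose exponential lies in the group belongs to the Lie algebra. -/
theorem Polar_mem_g {W : Mat n} (hW : W.IsSymm) {x : G} (hx : D.ρ x = exp W) : W ∈ D.g := by
  have hi : D.ρ x⁻¹ = exp (-W) := by
    have h1 : exp W * exp (-W) = 1 := exp_mul_neg W
    rw [← mul_one (D.ρ x⁻¹), ← h1, ← hx, ← mul_assoc, D.ρ_inv_mul, one_mul]
  have hb : ∀ X ∈ D.g, ⁅W, X⁆ ∈ D.g := by
    intro X hX
    refine br_mem_of_conj_symm D.g hW (fun X hX => ?_) hX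
    rw [← hx, ← hi]
    exact D.Ad_mem' x X hX
  obtain ⟨Y, hY, hc, hs⟩ := D.normaliser hb
  have hc' : ∀ X ∈ D.g, ⁅X, W - Y⁆ = 0 := by
    intro X hX
    have := hc X hX
    rw [Ring.lie_def, sub_eq_zero] at this ⊢
    exact this.symm
  have hcm : Commute (-Y) W := by
    have := hc Y hY
    rw [Ring.lie_def, sub_mul, mul_sub, sub_sub_sub_cancel_right, sub_eq_zero] at this
    exact Commute.neg_left this.symm
  have hz : D.ρ ((D.ex Y)⁻¹ * x) = exp (W - Y) := by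
    rw [map_mul, D.ρ_ex_inv hY, hx, sub_eq_neg_add, Matrix.exp_add_of_commute _ _ hcm]
  have h0 : W - Y = 0 :=
    eq_zero_of_det D.ρ (hW.sub (hs hW)) (D.comm_of_br hc') (fun χ x => D.perfect χ x) hz
  rw [sub_eq_zero] at h0
  rwa [h0]

theorem polar (x : G) : ∃ y ∈ D.K, ∃ Y ∈ D.g, Y.IsSymm ∧ x = y * D.ex Y := by
  obtain ⟨W, hW, he⟩ := exists_symm_log (y := D.ρ x) ((Group.isUnit x).map D.ρ)
  obtain ⟨x', hx'⟩ := D.tr x
  have hg : W ∈ D.g := D.Polar_mem_g hW (x := x' * x) (by rw [map_mul, hx', he])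
  have hY : (1 / 2 : ℝ) • W ∈ D.g := D.g.smul_mem _ hg
  have hs : ((1 / 2 : ℝ) • W).IsSymm := hW.smul _
  refine ⟨x * (D.ex ((1 / 2 : ℝ) • W))⁻¹, ?_, _, hY, hs, by simp⟩
  rw [mem_K, mul_eq_one_comm, map_mul, D.ρ_ex_inv hY, Matrix.transpose_mul, ← Matrix.exp_transpose,
    hs.neg.eq, mul_assoc, ← mul_assoc (D.ρ x)ᵀ, ← he]
  have h1 : exp W = exp ((1 / 2 : ℝ) • W) * exp ((1 / 2 : ℝ) • W) := by
    have := exp_add_smul W (1 / 2) (1 / 2)
    rwa [add_halves, one_smul] at this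
  have h2 : exp ((1 / 2 : ℝ) • W) * exp (-((1 / 2 : ℝ) • W)) = 1 := exp_mul_neg _
  have h3 : exp (-((1 / 2 : ℝ) • W)) * exp ((1 / 2 : ℝ) • W) = 1 := exp_neg_mul _
  rw [h1, mul_assoc, h2, mul_one, h3]

theorem kak_chamber {H : Euc k} (hH : D.Reg H) (x : G) : ∃ y ∈ D.K, ∃ z ∈ D.K, ∃ s,
    x = y * D.a s * z ∧ ∀ β ∈ D.roots, 0 < ⟪β, H⟫ → 0 ≤ ⟪β, s⟫ := by
  obtain ⟨y, hy, Y, hY, hs, rfl⟩ := D.polar x
  obtain ⟨w, hw, t, ht, hc⟩ := D.conj_chamber hH hY hs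
  refine ⟨y * w⁻¹, D.K.mul_mem hy (D.K.inv_mem hw), w, hw, t, ?_, hc⟩
  rw [a, ← ht, ← D.conj_ex w hY]
  group

theorem kak (x : G) : ∃ y ∈ D.K, ∃ z ∈ D.K, ∃ s, x = y * D.a s * z := by
  obtain ⟨H, hH⟩ := D.exists_reg
  obtain ⟨y, hy, z, hz, s, h, -⟩ := D.kak_chamber hH x
  exact ⟨y, hy, z, hz, s, h⟩

omit [PreconnectedSpace G] in
theorem Polar_norm {y z x : G} (hy : y ∈ D.K) (hz : z ∈ D.K) {R : ℝ}
    (h : ‖D.ρ (y * x * z)‖ ≤ Real.exp R) : ‖D.ρ x‖ ≤ Real.exp (R + 2 * n) := by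
  have e : x = y⁻¹ * (y * x * z) * z⁻¹ := by group
  have hn : (n : ℝ) ≤ Real.exp n := (le_add_of_nonneg_right zero_le_one).trans
    (Real.add_one_le_exp _)
  have h1 := (D.norm_ρ_K (D.K.inv_mem hy)).trans hn
  have h2 := (D.norm_ρ_K (D.K.inv_mem hz)).trans hn
  calc ‖D.ρ x‖ = ‖D.ρ y⁻¹ * D.ρ (y * x * z) * D.ρ z⁻¹‖ := by rw [← map_mul, ← map_mul, ← e]
    _ ≤ ‖D.ρ y⁻¹‖ * ‖D.ρ (y * x * z)‖ * ‖D.ρ z⁻¹‖ := norm_mul₃_le
    _ ≤ Real.exp n * Real.exp R * Real.exp n := by gcongr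
    _ = Real.exp (R + 2 * n) := by
      rw [← Real.exp_add, ← Real.exp_add]
      congr 1
      ring

theorem kak_norm : ∃ C : ℝ, ∀ y ∈ D.K, ∀ z ∈ D.K, ∀ s, ∀ R : ℝ, 0 ≤ R →
    ‖D.ρ (y * D.a s * z)‖ ≤ Real.exp R → ‖D.ρ (y * D.a s * z)⁻¹‖ ≤ Real.exp R →
      ‖s‖ ≤ C * (R + 1) := by
  refine ⟨n * (2 * n + 1), fun y hy z hz s R hR h h' => ?_⟩
  have e : (y * D.a s * z)⁻¹ = z⁻¹ * (D.a s)⁻¹ * y⁻¹ := by group
  rw [e] at h'
  have := D.norm_le_of_ρ_a (D.Polar_norm hy hz h)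
    (D.Polar_norm (D.K.inv_mem hz) (D.K.inv_mem hy) h')
  refine this.trans ?_
  have hn : (0 : ℝ) ≤ n := Nat.cast_nonneg n
  rw [mul_assoc]
  refine mul_le_mul_of_nonneg_left ?_ hn
  nlinarith [mul_nonneg hn hR]

omit [PreconnectedSpace G] in
theorem Polar_Ad {x : G} (h : ∀ y, x * y = y * x) {X : Mat n} (hX : X ∈ D.g) : D.Ad x X = X := by
  refine eq_of_exp_smul_eq (A := Mat n) (Eventually.of_forall fun t => ?_)
  have ht := D.g.smul_mem t hX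
  have := congrArg D.ρ (D.conj_ex x ht)
  rw [h, mul_inv_cancel_right, D.ρ_ex _ ht, D.ρ_ex _ (D.Ad_mem x ht), map_smul] at this
  exact this.symm

/-- An element that acts trivially in the adjoint representation is central and lies in `K`. -/
theorem mem_K_of_central {x : G} (h : ∀ y, x * y = y * x) : x ∈ D.K := by
  obtain ⟨y, hy, z, hz, s, e⟩ := D.kak x
  have hk : (z * y)⁻¹ ∈ D.K := D.K.inv_mem (D.K.mul_mem hz hy)
  have ea : D.a s = (z * y)⁻¹ * x := by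
    have : z * x = x * z := (h z).symm
    calc D.a s = (z * y)⁻¹ * (z * (y * D.a s * z)) * z⁻¹ := by group
      _ = (z * y)⁻¹ * x := by rw [← e, this]; group
  have hs : s = 0 := by
    refine D.roots_span fun β hβ => ?_
    obtain ⟨E, hE, h0⟩ := D.exists_ne_zero hβ
    have h1 := D.ip_Ad_K hk E E
    have h2 : D.Ad (z * y)⁻¹ E = Real.exp ⟪β, s⟫ • E := by
      rw [← D.Ad_a_gr s hE, ea, D.Ad_mul, D.Polar_Ad h (D.gr_le β hE)]
    rw [h2, ip_smul_left, ip_smul_right, ← mul_assoc, ← Real.exp_add,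
      mul_eq_right₀ (ip_self_pos h0).ne', Real.exp_eq_one_iff] at h1
    linarith
  rw [e, hs, D.a_zero, mul_one]
  exact D.K.mul_mem hy hz

end Std

end Pool.Agent.P.MP_d483fb_an.Z
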