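import Pool.Agent.P.MP_d483fb_an.Z.Lie.StdW

/-! Brackets of root vectors, integrality, proportional roots. -/

open scoped Matrix Matrix.Norms.Operator InnerProductSpace RealInnerProductSpace Topology
open NormedSpace Filter Set

noncomputable section

namespace Pool.Agent.P.MP_d483fb_an.Z

section Sl2

attribute [local instance 100] LieRing.ofAssociativeRing

theorem sl2_nat {n : ℕ} {h e f m : Mat n} {μ : ℝ} (h0 : h ≠ 0) (hef : e * f - f * e = h)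
    (he : h * e - e * h = (2 : ℝ) • e) (hf : h * f - f * h = -((2 : ℝ) • f)) (hm0 : m ≠ 0)
    (hm : h * m - m * h = μ • m) (hem : e * m - m * e = 0) : ∃ j : ℕ, μ = j := by
  have t : IsSl2Triple h e f :=
    { h_ne_zero := h0
      lie_e_f := hef
      lie_h_e_nsmul := by rw [two_nsmul, ← two_smul ℝ e]; exact he
      lie_h_f_nsmul := by rw [two_nsmul, ← two_smul ℝ f]; exact hf }
  have P : t.HasPrimitiveVectorWith m μ := { ne_zero := hm0, lie_h := hm, lie_e := hem }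
  exact P.exists_nat

end Sl2

namespace Std

variable {G : Type} [Group G] [TopologicalSpace G] [IsTopologicalGroup G] {n k : ℕ}
  (D : Std G n k)

theorem br_tr {β : Euc k} {E : Mat n} (hE : E ∈ D.gr β) : ⁅E, Eᵀ⁆ = ip E E • D.dg β := by
  have h0 : ⁅E, Eᵀ⁆ ∈ D.gr 0 := by
    have := D.br_gr hE (D.tr_gr hE)
    rwa [add_neg_cancel] at this
  have hs : Matrix.IsSymm ⁅E, Eᵀ⁆ := by
    rw [Matrix.IsSymm, tr_br, Matrix.transpose_transpose]
  obtain ⟨s₀, hs₀⟩ := D.exists_dg h0 hs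
  have key : ∀ s, ⟪s₀, s⟫ = ⟪ip E E • β, s⟫ := by
    intro s
    have h1 : ⁅Eᵀ, D.dg s⁆ = ⟪β, s⟫ • Eᵀ := by
      have := D.br_dg (D.tr_gr hE) s
      rw [inner_neg_left, Ring.lie_def] at this
      rw [Ring.lie_def, ← neg_sub, this, neg_smul, neg_neg]
    rw [← D.ip_dg, ← hs₀, ip_br, h1, ip_smul_right, ip_tr, real_inner_smul_left, mul_comm]
  have : s₀ = ip E E • β := ext_inner_right ℝ key
  rw [hs₀, this, map_smul]

theorem ip_br_key {α β : Euc k} {E Z : Mat n} (hE : E ∈ D.gr α) (hZ : Z ∈ D.gr β) :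
    ip ⁅Eᵀ, Z⁆ ⁅Eᵀ, Z⁆ = ip ⁅E, Z⁆ ⁅E, Z⁆ + ip E E * ⟪α, β⟫ * ip Z Z := by
  have h1 : ⁅E, ⁅Eᵀ, Z⁆⁆ = ⁅Eᵀ, ⁅E, Z⁆⁆ + ⁅⁅E, Eᵀ⁆, Z⁆ := by
    simp only [Ring.lie_def]
    noncomm_ring
  have h2 : ⁅⁅E, Eᵀ⁆, Z⁆ = (ip E E * ⟪α, β⟫) • Z := by
    have := D.br_dg hZ α
    rw [D.br_tr hE, Ring.lie_def, smul_mul_assoc, mul_smul_comm, ← smul_sub, ← Ring.lie_def, this,
      smul_smul, real_inner_comm]
  rw [ip_br Eᵀ, Matrix.transpose_transpose, h1, ip_add_right, h2, ip_smul_right, ip_br E]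

theorem br_ne_zero {α β : Euc k} {E Z : Mat n} (hE : E ∈ D.gr α) (hE0 : E ≠ 0) (hZ : Z ∈ D.gr β)
    (hZ0 : Z ≠ 0) (h : ⟪α, β⟫ < 0) : ⁅E, Z⁆ ≠ 0 := by
  intro h0
  have h1 := D.ip_br_key hE hZ
  rw [h0, ip_zero_left, zero_add] at h1
  have h2 := ip_self_nonneg ⁅Eᵀ, Z⁆
  have h3 : ip E E * ⟪α, β⟫ * ip Z Z < 0 :=
    mul_neg_of_neg_of_pos (mul_neg_of_pos_of_neg (ip_self_pos hE0) h) (ip_self_pos hZ0)
  linarith

theorem br_onto {α β : Euc k} {E Z : Mat n} (hE : E ∈ D.gr α) (hE0 : E ≠ 0) (h : 0 < ⟪α, β⟫)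
    (hZ : Z ∈ D.gr β) : ∃ W ∈ D.gr (β - α), ⁅E, W⁆ = Z := by
  let L : Mat n →ₗ[ℝ] Mat n := LinearMap.mulLeft ℝ E - LinearMap.mulRight ℝ E
  have hL : ∀ W, L W = ⁅E, W⁆ := fun W => by simp [L, Ring.lie_def]
  have hle : (D.gr (β - α)).map L ≤ D.gr β := by
    rintro _ ⟨W, hW, rfl⟩
    have := D.br_gr hE hW
    rwa [add_sub_cancel, ← hL] at this
  have hge : D.gr β ≤ (D.gr (β - α)).map L := by
    refine le_of_orth hle fun X hX hor => ?_
    have hW : ⁅Eᵀ, X⁆ ∈ D.gr (β - α) := by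
      have := D.br_gr (D.tr_gr hE) hX
      rwa [neg_add_eq_sub] at this
    have h1 := hor _ ⟨_, hW, rfl⟩
    rw [hL, ip_comm, ip_br] at h1
    have h2 := D.ip_br_key hE hX
    have h3 := ip_self_nonneg ⁅E, X⁆
    by_contra hX0
    have h4 : 0 < ip E E * ⟪α, β⟫ * ip X X :=
      mul_pos (mul_pos (ip_self_pos hE0) h) (ip_self_pos hX0)
    linarith
  obtain ⟨W, hW, hWZ⟩ := hge hZ
  exact ⟨W, hW, by rw [← hL, hWZ]⟩

theorem mem_roots_of {β : Euc k} {E : Mat n} (hβ : β ≠ 0) (hE : E ∈ D.gr β) (hE0 : E ≠ 0) :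
    β ∈ D.roots :=
  D.mem_roots.2 ⟨hβ, fun h => hE0 (by rwa [h, Submodule.mem_bot] at hE)⟩

theorem add_mem_roots {α β : Euc k} (hα : α ∈ D.roots) (hβ : β ∈ D.roots) (h : ⟪α, β⟫ < 0)
    (hne : α + β ≠ 0) : α + β ∈ D.roots := by
  obtain ⟨E, hE, hE0⟩ := D.exists_ne_zero hα
  obtain ⟨Z, hZ, hZ0⟩ := D.exists_ne_zero hβ
  exact D.mem_roots_of hne (D.br_gr hE hZ) (D.br_ne_zero hE hE0 hZ hZ0 h)

theorem sub_mem_roots {α β : Euc k} (hα : α ∈ D.roots) (hβ : β ∈ D.roots) (h : 0 < ⟪α, β⟫)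
    (hne : β ≠ α) : β - α ∈ D.roots := by
  have := D.add_mem_roots (D.neg_mem_roots hα) hβ (by rw [inner_neg_left]; linarith)
    (by rw [neg_add_eq_sub]; exact sub_ne_zero.2 hne)
  rwa [neg_add_eq_sub] at this

theorem exists_sl2 {β : Euc k} {E : Mat n} (hβ : β ≠ 0) (hE : E ∈ D.gr β) (hE0 : E ≠ 0) :
    ∃ F ∈ D.gr (-β), ⁅E, F⁆ = D.dg ((2 / ⟪β, β⟫) • β) := by
  have hp := (ip_self_pos hE0).ne'
  refine ⟨(2 / ⟪β, β⟫ / ip E E) • Eᵀ, Submodule.smul_mem _ _ (D.tr_gr hE), ?_⟩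
  have _h := hβ
  rw [Ring.lie_def, smul_mul_assoc, mul_smul_comm, ← smul_sub, ← Ring.lie_def, D.br_tr hE,
    smul_smul, div_mul_cancel₀ _ hp, map_smul]

theorem integral {α β : Euc k} (hα : α ∈ D.roots) (hβ : β ∈ D.roots) :
    ∃ m : ℤ, 2 * ⟪α, β⟫ = m * ⟪α, α⟫ := by
  have hα0 := D.root_ne_zero hα
  have hαα : ⟪α, α⟫ ≠ 0 := fun h => hα0 (inner_self_eq_zero.1 h)
  obtain ⟨E, hE, hE0⟩ := D.exists_ne_zero hα
  obtain ⟨Z, hZ, hZ0⟩ := D.exists_ne_zero hβ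
  obtain ⟨F, hF, hEF⟩ := D.exists_sl2 hα0 hE hE0
  let v : ℕ → Mat n := fun j => (fun X => ⁅E, X⁆)^[j] Z
  have hv0 : v 0 = Z := rfl
  have hvs : ∀ j, v (j + 1) = ⁅E, v j⁆ := fun j => Function.iterate_succ_apply' _ _ _
  have hv : ∀ j : ℕ, v j ∈ D.gr (β + (j : ℝ) • α) := by
    intro j
    induction j with
    | zero => simpa [hv0] using hZ
    | succ j ih =>
      have := D.br_gr hE ih
      rw [hvs]
      convert this using 2
      rw [Nat.cast_succ, add_smul, one_smul]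
      abel
  have hex : ∃ j, v j = 0 := by
    by_contra hno
    push Not at hno
    have hinj : Function.Injective fun j : ℕ => β + (j : ℝ) • α := by
      intro i j hij
      have := smul_left_injective ℝ hα0 (add_left_cancel hij)
      exact_mod_cast this
    have hfin : (range fun j : ℕ => β + (j : ℝ) • α).Finite := by
      refine ((D.roots.finite_toSet).insert 0).subset ?_
      rintro _ ⟨j, rfl⟩
      by_cases h0 : β + (j : ℝ) • α = 0
      · exact Or.inl h0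
      · exact Or.inr (D.mem_roots_of h0 (hv j) (hno j))
    exact infinite_range_of_injective hinj hfin
  obtain ⟨j, hj, hj'⟩ := Nat.exists_not_and_succ_of_not_zero_of_exists (p := fun j => v j = 0)
    (by rw [hv0]; exact hZ0) hex
  have hH : D.dg ((2 / ⟪α, α⟫) • α) ≠ 0 := by
    intro h
    have := D.dg_inj (h.trans (map_zero D.dg).symm)
    rcases smul_eq_zero.1 this with h1 | h1
    · exact div_ne_zero two_ne_zero hαα h1
    · exact hα0 h1
  have h2 : ⟪α, (2 / ⟪α, α⟫) • α⟫ = 2 := by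
    rw [real_inner_smul_right, div_mul_cancel₀ _ hαα]
  have he := D.br_dg hE ((2 / ⟪α, α⟫) • α)
  have hf := D.br_dg hF ((2 / ⟪α, α⟫) • α)
  have hm := D.br_dg (hv j) ((2 / ⟪α, α⟫) • α)
  rw [h2] at he
  rw [inner_neg_left, h2, neg_smul] at hf
  rw [hvs] at hj'
  obtain ⟨i, hi⟩ := sl2_nat hH hEF he hf hj hm hj'
  rw [inner_add_left, real_inner_smul_left, h2, real_inner_smul_right, real_inner_comm α β] at hi
  refine ⟨(i : ℤ) - 2 * j, ?_⟩
  push_cast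
  rw [← hi]
  field_simp
  ring

theorem prop_roots {β : Euc k} {c : ℝ} (hβ : β ∈ D.roots) (hc : c • β ∈ D.roots) (h : 0 < c) :
    c = 1 / 2 ∨ c = 1 ∨ c = 2 := by
  have hββ : ⟪β, β⟫ ≠ 0 := fun h => D.root_ne_zero hβ (inner_self_eq_zero.1 h)
  obtain ⟨m, hm⟩ := D.integral hβ hc
  obtain ⟨m', hm'⟩ := D.integral hc hβ
  simp only [real_inner_smul_left, real_inner_smul_right] at hm hm'
  have h1 : 2 * c = m := by
    apply mul_right_cancel₀ hββ
    linarith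
  have h2 : 2 = m' * c := by
    apply mul_right_cancel₀ (mul_ne_zero h.ne' hββ)
    linarith
  have h3 : m * m' = 4 := by
    have : (m : ℝ) * m' = 4 := by
      rw [← h1]
      linarith
    exact_mod_cast this
  have h4 : 0 < m := by
    have : (0 : ℝ) < m := by linarith
    exact_mod_cast this
  have h5 : m ≤ 4 := Int.le_of_dvd (by norm_num) ⟨m', h3.symm⟩
  interval_cases m
  · left
    push_cast at h1
    linarith
  · right; left
    push_cast at h1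
    linarith
  · omega
  · right; right
    push_cast at h1
    linarith

omit [IsTopologicalGroup G] in
theorem self_mem_cls (β : Euc k) : β ∈ cls β := ⟨1, one_pos, (one_smul _ _).symm⟩

omit [IsTopologicalGroup G] in
theorem cls_eq {β γ : Euc k} (h : γ ∈ cls β) : cls γ = cls β := by
  obtain ⟨c, hc, rfl⟩ := h
  ext δ
  constructor
  · rintro ⟨a, ha, rfl⟩
    exact ⟨a * c, mul_pos ha hc, smul_smul _ _ _⟩
  · rintro ⟨a, ha, rfl⟩
    exact ⟨a / c, div_pos ha hc, by rw [smul_smul, div_mul_cancel₀ _ hc.ne']⟩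

omit [IsTopologicalGroup G] in
theorem cls_neg (β : Euc k) : cls (-β) = -cls β := by
  ext δ
  rw [Set.mem_neg]
  constructor
  · rintro ⟨a, ha, rfl⟩
    exact ⟨a, ha, by rw [smul_neg, neg_neg]⟩
  · rintro ⟨a, ha, h⟩
    exact ⟨a, ha, by rw [smul_neg, ← h, neg_neg]⟩

theorem u_eq_sup {b : Euc k} (hb : b ≠ 0)
    (hu : ∀ γ ∈ D.roots, γ ∈ cls b → γ = b ∨ γ = (2 : ℝ) • b) :
    D.u b = D.gr b ⊔ D.gr ((2 : ℝ) • b) := by
  rw [gr, gr, ← D.grS_union, u]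
  refine D.grS_congr fun γ hγ => ⟨fun h => ?_, ?_⟩
  · rcases hγ with rfl | hγ
    · obtain ⟨c, hc, h⟩ := h
      exact absurd h.symm (smul_ne_zero hc.ne' hb)
    · exact hu γ hγ h
  · rintro (rfl | rfl)
    · exact self_mem_cls _
    · exact ⟨2, two_pos, rfl⟩

theorem exists_base {β : Euc k} (hβ : β ∈ D.roots) : ∃ b ∈ D.roots, b ∈ cls β ∧
    (∀ γ ∈ D.roots, γ ∈ cls β → γ = b ∨ γ = (2 : ℝ) • b) ∧
    D.u β = D.gr b ⊔ D.gr ((2 : ℝ) • b) := by
  have key : ∀ b ∈ D.roots, (1 / 2 : ℝ) • b ∉ D.roots →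
      ∀ γ ∈ D.roots, γ ∈ cls b → γ = b ∨ γ = (2 : ℝ) • b := by
    rintro b hb hn _ hγ ⟨c, hc, rfl⟩
    rcases D.prop_roots hb hγ hc with rfl | rfl | rfl
    · exact absurd hγ hn
    · exact Or.inl (one_smul _ _)
    · exact Or.inr rfl
  obtain ⟨b, hb, hc, hn⟩ : ∃ b ∈ D.roots, b ∈ cls β ∧ (1 / 2 : ℝ) • b ∉ D.roots := by
    by_cases h : (1 / 2 : ℝ) • β ∈ D.roots
    · refine ⟨_, h, ⟨1 / 2, by norm_num, rfl⟩, fun h' => ?_⟩
      rw [smul_smul] at h'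
      have := D.prop_roots hβ h' (by norm_num)
      norm_num at this
    · exact ⟨β, hβ, self_mem_cls β, h⟩
  have hu := key b hb hn
  refine ⟨b, hb, hc, by rwa [← cls_eq hc], ?_⟩
  rw [← D.u_eq_sup (D.root_ne_zero hb) hu, u, u, cls_eq hc]

theorem br_onto_two {b : Euc k} {E Z : Mat n} (hb : b ≠ 0) (hE : E ∈ D.gr b) (hE0 : E ≠ 0)
    (hZ : Z ∈ D.gr ((2 : ℝ) • b)) : ∃ W ∈ D.gr b, ⁅E, W⁆ = Z := by
  have h : 0 < ⟪b, (2 : ℝ) • b⟫ := by
    rw [real_inner_smul_right]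
    exact mul_pos two_pos (real_inner_self_pos.2 hb)
  have := D.br_onto hE hE0 h hZ
  rwa [two_smul, add_sub_cancel_right] at this

/-- A subalgebra of the coarse root algebra that projects onto the base root space is everything. -/
theorem eq_u_of_onto {b : Euc k} (hb : b ∈ D.roots)
    (hu : ∀ γ ∈ D.roots, γ ∈ cls b → γ = b ∨ γ = (2 : ℝ) • b) {q : Submodule ℝ (Mat n)}
    (hq : IsSub q) (hle : q ≤ D.u b) (h : ∀ E ∈ D.gr b, ∃ X ∈ q, D.pr b X = E) :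
    q = D.u b := by
  have hb0 := D.root_ne_zero hb
  have hsup := D.u_eq_sup hb0 hu
  have hinj := smul_left_injective ℝ hb0
  have lift : ∀ E ∈ D.gr b, ∃ B ∈ D.gr ((2 : ℝ) • b), E + B ∈ q := by
    intro E hE
    obtain ⟨X, hX, hXE⟩ := h E hE
    have hX' := hle hX
    rw [hsup, Submodule.mem_sup] at hX'
    obtain ⟨A, hA, B, hB, rfl⟩ := hX'
    have h1 : D.pr b A = A := D.prS_eq_self.2 hA.2
    have h2 : D.pr b B = 0 := by
      refine D.prS_eq_zero hB.2 (disjoint_singleton.2 fun h' => ?_)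
      have := hinj ((one_smul ℝ b).trans h')
      norm_num at this
    rw [map_add, h1, h2, add_zero] at hXE
    exact ⟨B, hB, hXE ▸ hX⟩
  have van : ∀ (c d : ℝ) (X Y : Mat n), X ∈ D.gr (c • b) → Y ∈ D.gr (d • b) → 2 < c + d →
      ⁅X, Y⁆ = 0 := by
    intro c d X Y hX hY hcd
    have hpos : 0 < c + d := by linarith
    refine D.br_eq_zero hX hY ?_ fun hr => ?_
    · rw [← add_smul]
      exact smul_ne_zero hpos.ne' hb0
    · rw [← add_smul] at hr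
      rcases hu _ hr ⟨_, hpos, rfl⟩ with h' | h'
      · have := hinj (h'.trans (one_smul ℝ b).symm)
        linarith
      · have := hinj h'
        linarith
  have two : D.gr ((2 : ℝ) • b) ≤ q := by
    intro Z hZ
    obtain ⟨E, hE, hE0⟩ := D.exists_ne_zero hb
    obtain ⟨W, hW, hEW⟩ := D.br_onto_two hb0 hE hE0 hZ
    obtain ⟨B, hB, hEB⟩ := lift E hE
    obtain ⟨C, hC, hWC⟩ := lift W hW
    have h0 := hq _ hEB _ hWC
    have h1 := van 1 2 E C (by rwa [one_smul]) hC (by norm_num)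
    have h2 := van 2 1 B W hB (by rwa [one_smul]) (by norm_num)
    have h3 := van 2 2 B C hB hC (by norm_num)
    have h4 : ⁅E + B, W + C⁆ = ⁅E, W⁆ + ⁅E, C⁆ + ⁅B, W⁆ + ⁅B, C⁆ := by
      simp only [Ring.lie_def]
      noncomm_ring
    rwa [h4, h1, h2, h3, add_zero, add_zero, add_zero, hEW] at h0
  refine le_antisymm hle ?_
  rw [hsup]
  refine sup_le (fun E hE => ?_) two
  obtain ⟨B, hB, hEB⟩ := lift E hE
  have := q.sub_mem hEB (two hB)
  rwa [add_sub_cancel_right] at this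

theorem finrank_u_neg (β : Euc k) :
    Module.finrank ℝ (D.u (-β)) = Module.finrank ℝ (D.u β) := by
  rw [u, u, cls_neg, D.finrank_grS_neg]

end Std

end Pool.Agent.P.MP_d483fb_an.Z
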