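import Pool.Agent.P.MP_d483fb_an.Z.Lie.Root0

/-! Ideals, perfectness and normalisers of the Lie algebra. -/

open scoped Matrix Matrix.Norms.Operator InnerProductSpace RealInnerProductSpace Topology
open NormedSpace Filter Set

noncomputable section

namespace Pool.Agent.P.MP_d483fb_an.Z

namespace Std

variable {G : Type} [Group G] [TopologicalSpace G] [IsTopologicalGroup G] {n k : ℕ}
  (D : Std G n k)

theorem Semi_skew (X Y : Mat n) : ⁅X, Y⁆ = -⁅Y, X⁆ := by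
  simp only [Ring.lie_def, neg_sub]

theorem Semi_sub (X Y Z : Mat n) : ⁅X - Y, Z⁆ = ⁅X, Z⁆ - ⁅Y, Z⁆ := by
  simp only [Ring.lie_def]
  noncomm_ring

theorem idl_orth {I : Submodule ℝ (Mat n)} (hI : IsIdl D.g I) :
    ∃ J : Submodule ℝ (Mat n), IsIdl D.g J ∧ (∀ X, X ∈ J ↔ X ∈ D.g ∧ ∀ Y ∈ I, ip X Y = 0) ∧
      I ⊔ J = D.g ∧ Disjoint I J ∧ ∀ X ∈ I, ∀ Y ∈ J, ⁅X, Y⁆ = 0 := by
  let J : Submodule ℝ (Mat n) :=
    { carrier := {X | X ∈ D.g ∧ ∀ Y ∈ I, ip X Y = 0}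
      zero_mem' := ⟨D.g.zero_mem, fun Y _ => ip_zero_left Y⟩
      add_mem' := fun hX hY => ⟨D.g.add_mem hX.1 hY.1, fun Z hZ => by
        rw [ip_add_left, hX.2 Z hZ, hY.2 Z hZ, add_zero]⟩
      smul_mem' := fun c X hX => ⟨D.g.smul_mem c hX.1, fun Z hZ => by
        rw [ip_smul_left, hX.2 Z hZ, mul_zero]⟩ }
  have hJ : IsIdl D.g J := ⟨fun X hX => hX.1, fun X hX Y hY => ⟨D.br_mem hX hY.1, fun Z hZ => by
    rw [ip_br]
    exact hY.2 _ (hI.2 _ (D.tr_mem hX) _ hZ)⟩⟩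
  have hd : ∀ X, X ∈ I → X ∈ J → X = 0 := fun X h1 h2 => ip_self_eq_zero.1 (h2.2 X h1)
  refine ⟨J, hJ, fun X => Iff.rfl, le_antisymm (sup_le hI.1 hJ.1) fun X hX => ?_,
    Submodule.disjoint_def.2 hd, fun X hX Y hY => hd _ ?_ (hJ.2 _ (hI.1 hX) _ hY)⟩
  · obtain ⟨Y, hY, h⟩ := exists_proj I X
    exact Submodule.mem_sup.2 ⟨Y, hY, X - Y, ⟨D.g.sub_mem hX (hI.1 hY), h⟩, add_sub_cancel _ _⟩
  · rw [Semi_skew]
    exact I.neg_mem (hI.2 _ hY.1 _ hX)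

theorem idl_tr {I : Submodule ℝ (Mat n)} (hI : IsIdl D.g I) {X : Mat n} (hX : X ∈ I) :
    Xᵀ ∈ I := by
  obtain ⟨J, hJ, hm, hs, hd, hc⟩ := D.idl_orth hI
  have hXg := D.tr_mem (hI.1 hX)
  have key : ∀ V ∈ D.g, (∀ W ∈ J, ip V W = 0) → V ∈ I := fun V hV h => by
    rw [← hs] at hV
    obtain ⟨A, hA, B, hB, rfl⟩ := Submodule.mem_sup.1 hV
    have h1 := h B hB
    rw [ip_add_left, ip_comm A, ((hm B).1 hB).2 A hA, zero_add, ip_self_eq_zero] at h1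
    rwa [h1, add_zero]
  have h2 := hXg
  rw [← hs] at h2
  obtain ⟨A, hA, B, hB, hAB⟩ := Submodule.mem_sup.1 h2
  have hB0 : B = 0 := D.cent B (hJ.1 hB) fun Z hZ => by
    refine Submodule.disjoint_def.1 hd _ ?_ ?_
    · rw [← eq_sub_iff_add_eq'] at hAB
      rw [hAB, Semi_sub]
      refine I.sub_mem (key _ (D.br_mem hXg hZ) fun W hW => ?_) ?_
      · rw [ip_br, Matrix.transpose_transpose, hc X hX W hW, ip_zero_right]
      · rw [Semi_skew]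
        exact I.neg_mem (hI.2 _ hZ _ hA)
    · rw [Semi_skew]
      exact J.neg_mem (hJ.2 _ hZ _ hB)
  rwa [← hAB, hB0, add_zero]

theorem span_br : Submodule.span ℝ {Z | ∃ X ∈ D.g, ∃ Y ∈ D.g, Z = ⁅X, Y⁆} = D.g := by
  have hle : Submodule.span ℝ {Z | ∃ X ∈ D.g, ∃ Y ∈ D.g, Z = ⁅X, Y⁆} ≤ D.g :=
    Submodule.span_le.2 (by rintro _ ⟨X, hX, Y, hY, rfl⟩; exact D.br_mem hX hY)
  refine le_antisymm hle fun X hX => ?_
  obtain ⟨Y, hY, h⟩ := exists_proj (Submodule.span ℝ {Z | ∃ X ∈ D.g, ∃ Y ∈ D.g, Z = ⁅X, Y⁆}) X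
  have hZ := D.g.sub_mem hX (hle hY)
  have h0 : X - Y = 0 := D.cent _ hZ fun W hW => by
    rw [Semi_skew, neg_eq_zero, ← ip_self_eq_zero, ip_br]
    exact h _ (Submodule.subset_span ⟨_, D.tr_mem hW, _, D.br_mem hW hZ, rfl⟩)
  rwa [sub_eq_zero.1 h0]

theorem trace_eq_zero {X : Mat n} (hX : X ∈ D.g) : X.trace = 0 := by
  rw [← D.span_br] at hX
  induction hX using Submodule.span_induction with
  | mem Z hZ =>
    obtain ⟨X, -, Y, -, rfl⟩ := hZ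
    rw [Ring.lie_def, Matrix.trace_sub, Matrix.trace_mul_comm, sub_self]
  | zero => exact Matrix.trace_zero _ _
  | add X Y _ _ hX hY => rw [Matrix.trace_add, hX, hY, add_zero]
  | smul c X _ hX => rw [Matrix.trace_smul, hX, smul_zero]

theorem normaliser {W : Mat n} (h : ∀ X ∈ D.g, ⁅W, X⁆ ∈ D.g) :
    ∃ Y ∈ D.g, (∀ X ∈ D.g, ⁅W - Y, X⁆ = 0) ∧ (W.IsSymm → Y.IsSymm) := by
  obtain ⟨Y, hY, ho⟩ := exists_proj D.g W
  refine ⟨Y, hY, fun X hX => ?_, fun hW => ?_⟩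
  · have h1 : ⁅W - Y, X⁆ ∈ D.g := by
      rw [Semi_sub]
      exact D.g.sub_mem (h X hX) (D.br_mem hY hX)
    rw [← ip_self_eq_zero]
    conv_lhs => enter [1]; rw [Semi_skew]
    rw [ip_neg_left, ip_br, ho _ (D.br_mem (D.tr_mem hX) h1), neg_zero]
  · have h1 := D.g.sub_mem (D.tr_mem hY) hY
    have h2 : Yᵀ - Y = (W - Y) - (W - Y)ᵀ := by
      rw [Matrix.transpose_sub, hW.eq]
      abel
    rw [Matrix.IsSymm, ← sub_eq_zero, ← ip_self_eq_zero]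
    conv_lhs => enter [1]; rw [h2]
    rw [ip_sub_left, ho _ h1, ← ip_tr, Matrix.transpose_transpose, ho _ (D.tr_mem h1), sub_zero]

theorem idl_gr {I : Submodule ℝ (Mat n)} (hI : IsIdl D.g I) {β : Euc k} {E : Mat n}
    (hβ : β ≠ 0) (hE : E ∈ D.gr β) (hE0 : E ≠ 0) (hEI : E ∈ I) : D.gr β ≤ I := by
  have h1 : ⁅E, Eᵀ⁆ ∈ I := by
    rw [Semi_skew]
    exact I.neg_mem (hI.2 _ (D.tr_mem (D.gr_le β hE)) _ hEI)
  rw [D.br_tr hE, I.smul_mem_iff (ip_self_pos hE0).ne'] at h1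
  intro X hX
  have h2 : ⁅D.dg β, X⁆ ∈ I := by
    rw [Semi_skew]
    exact I.neg_mem (hI.2 _ (D.gr_le β hX) _ h1)
  rwa [D.br_dg hX, I.smul_mem_iff (inner_self_ne_zero.2 hβ)] at h2

end Std

end Pool.Agent.P.MP_d483fb_an.Z
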