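import Pool.Agent.P.MP_d483fb_an.Z.Lie.Hunt
import Pool.Agent.P.MP_d483fb_an.Z.Lie.Semi

/-! Simple factors and the rank condition. -/

open scoped Matrix Matrix.Norms.Operator InnerProductSpace RealInnerProductSpace Topology
open NormedSpace Filter Set

attribute [local instance 100] LieRing.ofAssociativeRing

set_option linter.unusedSectionVars false

noncomputable section

namespace Pool.Agent.P.MP_d483fb_an.Z

namespace Std

variable {G : Type} [Group G] [TopologicalSpace G] [IsTopologicalGroup G] [PreconnectedSpace G]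
  {n k : ℕ} (D : Std G n k)

omit [PreconnectedSpace G] in
theorem roots_span {s : Euc k} (h : ∀ β ∈ D.roots, ⟪β, s⟫ = 0) : s = 0 := by
  refine D.dg_inj ?_
  rw [map_zero]
  refine D.cent _ (D.dg_mem s) fun Y hY => ?_
  rw [← D.decomp hY, lie_add, lie_sum, D.br_dg (D.pr_mem 0 hY), inner_zero_left, zero_smul,
    zero_add]
  exact Finset.sum_eq_zero fun β hβ => by rw [D.br_dg (D.pr_mem β hY), h β hβ, zero_smul]

omit [PreconnectedSpace G] in
theorem span_roots : Submodule.span ℝ (D.roots : Set (Euc k)) = ⊤ := by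
  rw [← Submodule.orthogonal_eq_bot_iff, eq_bot_iff]
  intro s hs
  exact D.roots_span fun β hβ => hs β (Submodule.subset_span hβ)

omit [IsTopologicalGroup G] [PreconnectedSpace G] in
theorem conn_symm {β γ : Euc k} (h : D.Conn β γ) : D.Conn γ β := by
  induction h with
  | refl => exact .refl
  | tail _ h ih => exact .head ⟨h.2.1, h.1, by rw [real_inner_comm]; exact h.2.2⟩ ih

omit [IsTopologicalGroup G] [PreconnectedSpace G] in
theorem conn_mem {β γ : Euc k} (hβ : β ∈ D.roots) (h : D.Conn β γ) : γ ∈ D.roots := by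
  induction h with
  | refl => exact hβ
  | tail _ h _ => exact h.2.1

omit [PreconnectedSpace G] in
theorem conn_neg {β : Euc k} (hβ : β ∈ D.roots) : D.Conn β (-β) := by
  refine .single ⟨hβ, D.neg_mem_roots hβ, ?_⟩
  rw [inner_neg_right, neg_ne_zero]
  exact inner_self_ne_zero.2 (D.root_ne_zero hβ)

omit [PreconnectedSpace G] in
theorem facR_neg {β γ : Euc k} (h : γ ∈ D.facR β) : -γ ∈ D.facR β :=
  ⟨D.neg_mem_roots h.1, h.2.trans (D.conn_neg h.1)⟩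

omit [IsTopologicalGroup G] [PreconnectedSpace G] in
theorem facR_of_inner {β γ δ : Euc k} (hγ : γ ∈ D.facR β) (hδ : δ ∈ D.roots) (h : ⟪γ, δ⟫ ≠ 0) :
    δ ∈ D.facR β :=
  ⟨hδ, hγ.2.tail ⟨hγ.1, hδ, h⟩⟩

omit [PreconnectedSpace G] in
theorem orth_of_not_conn {β γ δ : Euc k} (hγ : γ ∈ D.facR β) (hδ : δ ∈ D.roots)
    (h : δ ∉ D.facR β) : ⟪γ, δ⟫ = 0 ∧ γ + δ ≠ 0 ∧ γ + δ ∉ D.roots := by
  have h0 : ⟪γ, δ⟫ = 0 := by
    by_contra h1
    exact h (D.facR_of_inner hγ hδ h1)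
  have h1 : ⟪γ + δ, δ⟫ ≠ 0 := by
    rw [inner_add_left, h0, zero_add]
    exact inner_self_ne_zero.2 (D.root_ne_zero hδ)
  refine ⟨h0, fun h2 => h1 (by rw [h2, inner_zero_left]), fun h2 => h ?_⟩
  refine D.facR_of_inner (D.facR_of_inner hγ h2 ?_) hδ h1
  rw [inner_add_right, h0, add_zero]
  exact inner_self_ne_zero.2 (D.root_ne_zero hγ.1)

omit [PreconnectedSpace G] in
theorem gr_le_fac {β γ : Euc k} (h : γ ∈ D.facR β) : D.gr γ ≤ D.fac β :=
  (D.gr_le_grS h).trans le_sup_left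

omit [PreconnectedSpace G] in
theorem fac_le_of {β : Euc k} {v : Submodule ℝ (Mat n)} (h1 : ∀ γ ∈ D.facR β, D.gr γ ≤ v)
    (h2 : ∀ γ ∈ D.facR β, ∀ E ∈ D.gr γ, ∀ F ∈ D.gr (-γ), ⁅E, F⁆ ∈ v) : D.fac β ≤ v := by
  refine sup_le (D.grS_le_of fun γ hγ _ => h1 γ hγ) (Submodule.span_le.2 ?_)
  rintro _ ⟨γ, hγ, E, hE, F, hF, rfl⟩
  exact h2 γ hγ E hE F hF

omit [PreconnectedSpace G] in
theorem br_mem_fac {β γ : Euc k} (h : γ ∈ D.facR β) {X E : Mat n} (hX : X ∈ D.g)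
    (hE : E ∈ D.gr γ) : ⁅X, E⁆ ∈ D.fac β := by
  rw [← D.decomp hX, add_lie, sum_lie]
  refine add_mem (D.gr_le_fac h ?_) (Submodule.sum_mem _ fun δ hδ => ?_)
  · simpa using D.br_gr (D.pr_mem 0 hX) hE
  have hY := D.pr_mem δ hX
  by_cases h0 : δ + γ = 0
  · have hδγ : γ = -δ := eq_neg_of_add_eq_zero_right h0
    refine Submodule.mem_sup_right (Submodule.subset_span ⟨δ, ?_, _, hY, E, hδγ ▸ hE, rfl⟩)
    simpa [hδγ] using D.facR_neg h
  by_cases h1 : δ + γ ∈ D.roots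
  · refine D.gr_le_fac ?_ (D.br_gr hY hE)
    by_contra h2
    exact (D.orth_of_not_conn (D.facR_neg h) h1 h2).2.2 (by simpa using hδ)
  · rw [D.br_eq_zero hY hE h0 h1]
    exact zero_mem _

omit [PreconnectedSpace G] in
theorem fac_le_grS (β : Euc k) : D.fac β ≤ D.grS {γ | γ = 0 ∨ γ ∈ D.facR β} := by
  refine D.fac_le_of (fun γ hγ => D.gr_le_grS (Or.inr hγ)) fun γ _ E hE F hF => ?_
  refine D.gr_le_grS (β := 0) (Or.inl rfl) ?_
  simpa using D.br_gr hE hF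

omit [PreconnectedSpace G] in
theorem fac_isIdl (β : Euc k) : IsIdl D.g (D.fac β) := by
  refine ⟨(D.fac_le_grS β).trans (D.grS_le _), fun X hX => ?_⟩
  have h : D.fac β ≤ (D.fac β).comap (LieAlgebra.ad ℝ (Mat n) X) := by
    refine D.fac_le_of (fun γ hγ E hE => D.br_mem_fac hγ hX hE) fun γ hγ E hE F hF => ?_
    change ⁅X, ⁅E, F⁆⁆ ∈ D.fac β
    rw [leibniz_lie, ← lie_skew E]
    exact add_mem (D.br_mem_fac (D.facR_neg hγ) (D.br_mem hX (D.gr_le _ hE)) hF)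
      (neg_mem (D.br_mem_fac hγ (D.br_mem hX (D.gr_le _ hF)) hE))
  exact fun Y hY => h hY

omit [PreconnectedSpace G] in
theorem dg_mem_fac {β s : Euc k} :
    D.dg s ∈ D.fac β ↔ s ∈ Submodule.span ℝ (D.facR β) := by
  constructor
  · intro hs
    rw [← Submodule.orthogonal_orthogonal (Submodule.span ℝ (D.facR β))]
    intro t ht
    have ht' : ∀ γ ∈ D.facR β, ⟪γ, t⟫ = 0 := fun γ hγ => ht γ (Submodule.subset_span hγ)
    let v : Submodule ℝ (Mat n) :=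
      { carrier := {Z | ip Z (D.dg t) = 0}
        add_mem' := fun {X Y} hX hY => by
          rw [mem_ofPred_eq] at hX hY ⊢
          rw [ip_add_left, hX, hY, add_zero]
        zero_mem' := ip_zero_left _
        smul_mem' := fun c X hX => by
          rw [mem_ofPred_eq] at hX ⊢
          rw [ip_smul_left, hX, mul_zero] }
    have h : D.fac β ≤ v := by
      refine D.fac_le_of (fun γ hγ E hE => ?_) fun γ hγ E hE F hF => ?_
      · exact D.ip_wtS hE.2 (D.dg_mem_gr t).2 (disjoint_singleton.2 (D.root_ne_zero hγ.1))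
      · change ip ⁅E, F⁆ (D.dg t) = 0
        rw [ip_br, ← lie_skew, D.br_dg (D.tr_gr hE), inner_neg_left, ht' γ hγ, neg_zero, zero_smul,
          neg_zero, ip_zero_right]
    have h1 : ip (D.dg s) (D.dg t) = 0 := h hs
    rwa [D.ip_dg, real_inner_comm] at h1
  · intro hs
    have h : Submodule.span ℝ (D.facR β) ≤ (D.fac β).comap D.dg := by
      refine Submodule.span_le.2 fun γ hγ => ?_
      obtain ⟨E, hE, hE0⟩ := D.exists_ne_zero hγ.1
      have h1 : ⁅E, Eᵀ⁆ ∈ D.fac β := D.br_mem_fac (D.facR_neg hγ) (D.gr_le _ hE) (D.tr_gr hE)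
      rw [D.br_tr hE] at h1
      exact ((D.fac β).smul_mem_iff (ip_self_pos hE0).ne').1 h1
    exact h hs

omit [PreconnectedSpace G] in
theorem fac_le {q : Submodule ℝ (Mat n)} (hq : IsSub q) {β : Euc k}
    (h : ∀ γ ∈ D.facR β, D.gr γ ≤ q) : D.fac β ≤ q :=
  D.fac_le_of h fun γ hγ E hE F hF => hq E (h γ hγ hE) F (h _ (D.facR_neg hγ) hF)

theorem grp_fac_normal (β : Euc k) : (D.grp (D.fac β)).Normal :=
  ⟨fun _ hy x => D.grp_normal (D.fac_isIdl β).1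
    (fun _ hX => D.Ad_mem_of_br (D.fac_isIdl β).2 x hX) hy⟩

/-- Every root has a root that is neither orthogonal nor proportional to it. -/
theorem rank2 {β : Euc k} (hβ : β ∈ D.roots) :
    ∃ α ∈ D.roots, 0 < ⟪α, β⟫ ∧ ∀ c : ℝ, α ≠ c • β := by
  by_contra hcon
  have h1 : ∀ α ∈ D.roots, 0 < ⟪α, β⟫ → ∃ c : ℝ, α = c • β := by
    intro α hα h
    by_contra h2
    exact hcon ⟨α, hα, h, fun c hc => h2 ⟨c, hc⟩⟩
  have h2 : ∀ γ, D.Conn β γ → ∃ c : ℝ, γ = c • β := by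
    intro γ hγ
    induction hγ with
    | refl => exact ⟨1, (one_smul _ _).symm⟩
    | @tail x y _ h ih =>
      obtain ⟨c, rfl⟩ := ih
      have h3 : ⟪y, β⟫ ≠ 0 := fun h4 => h.2.2 (by
        rw [real_inner_smul_left, real_inner_comm, h4, mul_zero])
      rcases lt_or_gt_of_ne h3 with h4 | h4
      · obtain ⟨d, hd⟩ := h1 _ (D.neg_mem_roots h.2.1) (by rw [inner_neg_left]; linarith)
        exact ⟨-d, by rw [neg_smul, ← hd, neg_neg]⟩
      · exact h1 _ h.2.1 h4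
  have h3 : Submodule.span ℝ (D.facR β) ≤ Submodule.span ℝ {β} := by
    refine Submodule.span_le.2 fun γ hγ => ?_
    obtain ⟨c, rfl⟩ := h2 γ hγ.2
    exact Submodule.smul_mem _ c (Submodule.mem_span_singleton_self β)
  have hI := D.fac_isIdl β
  have hne : D.fac β ≠ ⊥ := by
    obtain ⟨E, hE, hE0⟩ := D.exists_ne_zero hβ
    exact (Submodule.ne_bot_iff _).2 ⟨E, D.gr_le_fac ⟨hβ, .refl⟩ hE, hE0⟩
  obtain ⟨X, hX, Y, hY, hXs, hYs, hc, hli⟩ := D.rank _ hI hne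
  obtain ⟨x, -, s, t, hs, ht⟩ := D.conj_pair (hI.1 hX) (hI.1 hY) hXs hYs hc
  obtain ⟨a, rfl⟩ := Submodule.mem_span_singleton.1
    (h3 (D.dg_mem_fac.1 (hs ▸ D.Ad_mem_of_br hI.2 x hX)))
  obtain ⟨b, rfl⟩ := Submodule.mem_span_singleton.1
    (h3 (D.dg_mem_fac.1 (ht ▸ D.Ad_mem_of_br hI.2 x hY)))
  have hX' : X = a • D.Ad x⁻¹ (D.dg β) := by rw [← map_smul, ← map_smul, ← hs, D.Ad_inv_Ad]
  have hY' : Y = b • D.Ad x⁻¹ (D.dg β) := by rw [← map_smul, ← map_smul, ← ht, D.Ad_inv_Ad]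
  rw [LinearIndependent.pair_iff] at hli
  have h4 := hli b (-a) (by rw [hX', hY']; module)
  have h5 := hli 1 0 (by rw [hX', neg_eq_zero.1 h4.2]; simp)
  exact one_ne_zero h5.1

/-- Every root is a sum of two roots off its line, with a surjective bracket. -/
theorem exists_sum {β : Euc k} (hβ : β ∈ D.roots) : ∃ α ∈ D.roots, ∃ γ ∈ D.roots, α + γ = β ∧
    (∀ c : ℝ, α ≠ c • β) ∧ (∀ c : ℝ, γ ≠ c • β) ∧
    ∀ E ∈ D.gr α, E ≠ 0 → ∀ Z ∈ D.gr β, ∃ W ∈ D.gr γ, ⁅E, W⁆ = Z := by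
  obtain ⟨α, hα, h1, h2⟩ := D.rank2 hβ
  refine ⟨α, hα, β - α, D.sub_mem_roots hα hβ h1 fun h => h2 1 (by rw [one_smul, h]),
    add_sub_cancel α β, h2, fun c hc => h2 (1 - c) ?_,
    fun E hE hE0 Z hZ => D.br_onto hE hE0 h1 hZ⟩
  rw [sub_smul, one_smul, ← hc, sub_sub_cancel]

theorem exists_longest {γ : Euc k} (hγ : γ ∈ D.roots) : ∃ b ∈ D.roots, D.Conn γ b ∧
    ∀ δ ∈ D.roots, ⟪δ, b⟫ ≠ 0 → ‖δ‖ ≤ ‖b‖ := by
  have hf : (D.facR γ).Finite := D.roots.finite_toSet.subset fun β hβ => hβ.1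
  obtain ⟨b, hb, h⟩ := exists_max_image (D.facR γ) (fun β => ‖β‖) hf ⟨γ, hγ, .refl⟩
  exact ⟨b, hb.1, hb.2, fun δ hδ h1 =>
    h δ (D.facR_of_inner hb hδ (by rwa [real_inner_comm]))⟩

end Std

end Pool.Agent.P.MP_d483fb_an.Z
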