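import Pool.Agent.P.MP_d483fb_an.Z.Lie.STLie
import Pool.Agent.P.MP_d483fb_an.Z.Lie.Root2
import Pool.Agent.P.MP_d483fb_an.Z.Lie.Unip
import Pool.Agent.P.MP_d483fb_an.Z.ST.Defs

/-! The group data for the averaging theorem. -/

set_option linter.unusedSectionVars false

open scoped Matrix Matrix.Norms.Operator InnerProductSpace RealInnerProductSpace Topology
open NormedSpace Filter Set

noncomputable section

namespace Pool.Agent.P.MP_d483fb_an.Z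

theorem STData_br_add {n : ℕ} (X Y Z : Mat n) : ⁅X, Y + Z⁆ = ⁅X, Y⁆ + ⁅X, Z⁆ := by
  simp only [Ring.lie_def, mul_add, add_mul]
  abel

theorem STData_add_br {n : ℕ} (X Y Z : Mat n) : ⁅X + Y, Z⁆ = ⁅X, Z⁆ + ⁅Y, Z⁆ := by
  simp only [Ring.lie_def, mul_add, add_mul]
  abel

theorem STData_br_smul {n : ℕ} (c : ℝ) (X Y : Mat n) : ⁅X, c • Y⁆ = c • ⁅X, Y⁆ := by
  simp only [Ring.lie_def, mul_smul_comm, smul_mul_assoc, smul_sub]

theorem STData_smul_br {n : ℕ} (c : ℝ) (X Y : Mat n) : ⁅c • X, Y⁆ = c • ⁅X, Y⁆ := by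
  simp only [Ring.lie_def, mul_smul_comm, smul_mul_assoc, smul_sub]

theorem STData_br_self {n : ℕ} (X : Mat n) : ⁅X, X⁆ = 0 := sub_self _

theorem STData_br_zero {n : ℕ} (X : Mat n) : ⁅X, (0 : Mat n)⁆ = 0 := by
  rw [Ring.lie_def, mul_zero, zero_mul, sub_zero]

theorem STData_br_comm {n : ℕ} {X Y : Mat n} (h : ⁅X, Y⁆ = 0) : ⁅Y, X⁆ = 0 := by
  rw [Ring.lie_def, sub_eq_zero] at h ⊢
  exact h.symm

theorem STData_sz_pow {G : Type} [Group G] {sz dd : G → ℝ} (hs : ST.Size sz dd) (g : G) (m : ℕ) :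
    sz (g ^ m) ≤ sz 1 * sz g ^ m := by
  induction m with
  | zero => simp
  | succ m ih =>
    rw [pow_succ, pow_succ, ← mul_assoc]
    exact (hs.mul _ _).trans (mul_le_mul_of_nonneg_right ih (zero_le_one.trans (hs.one_le _)))

namespace Std

variable {G : Type} [Group G] [TopologicalSpace G] [IsTopologicalGroup G] [PreconnectedSpace G]
  {n k : ℕ} (D : Std G n k)

theorem STData_ball {sz dd : G → ℝ} (hs : ST.Size sz dd)
    (hd : ∃ C : ℝ, ∀ X ∈ D.g, ‖X‖ ≤ 1 → dd (D.ex X) ≤ C * ‖X‖) :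
    ∃ B : ℝ, ∀ X ∈ D.g, ‖X‖ ≤ 1 → sz (D.ex X) ≤ B := by
  obtain ⟨C, hC⟩ := hd
  obtain ⟨L, hL⟩ := hs.loc
  obtain ⟨N, hN⟩ := exists_nat_ge (max 1 |C|)
  have h1 : (1 : ℝ) ≤ N := (le_max_left _ _).trans hN
  have h2 : |C| ≤ N := (le_max_right _ _).trans hN
  have h0 : (0 : ℝ) < N := one_pos.trans_le h1
  refine ⟨sz 1 * L ^ N, fun X hX h => ?_⟩
  have hY : (N : ℝ)⁻¹ • X ∈ D.g := D.g.smul_mem _ hX
  have hn : ‖(N : ℝ)⁻¹ • X‖ ≤ (N : ℝ)⁻¹ := by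
    rw [norm_smul, Real.norm_of_nonneg (inv_nonneg.2 h0.le)]
    exact mul_le_of_le_one_right (inv_nonneg.2 h0.le) h
  have e : D.ex X = D.ex ((N : ℝ)⁻¹ • X) ^ N := by
    rw [← D.ex_nsmul hY, smul_smul, mul_inv_cancel₀ h0.ne', one_smul]
  have h3 : dd (D.ex ((N : ℝ)⁻¹ • X)) ≤ 1 := by
    refine (hC _ hY (hn.trans (inv_le_one_of_one_le₀ h1))).trans ?_
    refine (mul_le_mul (le_abs_self C) hn (norm_nonneg _) (abs_nonneg C)).trans ?_
    rw [← div_eq_mul_inv, div_le_one h0]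
    exact h2
  rw [e]
  exact (STData_sz_pow hs _ _).trans (mul_le_mul_of_nonneg_left
    (pow_le_pow_left₀ (zero_le_one.trans (hs.one_le _)) (hL _ h3) _)
    (zero_le_one.trans (hs.one_le _)))

theorem STData_poly {sz dd : G → ℝ} (hs : ST.Size sz dd)
    (hd : ∃ C : ℝ, ∀ X ∈ D.g, ‖X‖ ≤ 1 → dd (D.ex X) ≤ C * ‖X‖) (H : Euc k) :
    ∃ (C : ℝ) (E : ℕ), 0 ≤ C ∧ ∀ Y ∈ D.np H, sz (D.ex Y) ≤ C * (1 + ‖Y‖) ^ E := by
  obtain ⟨B, hB⟩ := D.STData_ball hs hd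
  obtain ⟨C, hC⟩ := D.ex_eq_conj H
  have hp : ∀ g, 0 ≤ sz g := fun g => zero_le_one.trans (hs.one_le g)
  have hB0 : 0 ≤ B := (hp _).trans (hB 0 D.g.zero_mem (by simp))
  set A := sz (D.a H) with hA
  have hA1 : 1 ≤ A := hs.one_le _
  have hl : 0 ≤ Real.log A := Real.log_nonneg hA1
  obtain ⟨E, hE⟩ := exists_nat_ge (|C| * Real.log A)
  refine ⟨(sz 1 * Real.exp E) ^ 2 * B, 2 * E, mul_nonneg (sq_nonneg _) hB0, fun Y hY => ?_⟩
  obtain ⟨m, Z, hZ, hZ1, hm, e⟩ := hC Y hY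
  have hy : 1 ≤ 1 + ‖Y‖ := le_add_of_nonneg_right (norm_nonneg _)
  have hly : 0 ≤ Real.log (1 + ‖Y‖) := Real.log_nonneg hy
  have h1 : A ^ m ≤ Real.exp E * (1 + ‖Y‖) ^ E := by
    have e1 : A ^ m = Real.exp (m * Real.log A) := by
      rw [Real.exp_nat_mul, Real.exp_log (one_pos.trans_le hA1)]
    have e2 : (1 + ‖Y‖) ^ E = Real.exp (E * Real.log (1 + ‖Y‖)) := by
      rw [Real.exp_nat_mul, Real.exp_log (one_pos.trans_le hy)]
    rw [e1, e2, ← Real.exp_add, Real.exp_le_exp]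
    have h2 : (m : ℝ) ≤ |C| * (1 + Real.log (1 + ‖Y‖)) :=
      hm.trans (mul_le_mul_of_nonneg_right (le_abs_self C) (by linarith))
    calc (m : ℝ) * Real.log A ≤ |C| * (1 + Real.log (1 + ‖Y‖)) * Real.log A :=
          mul_le_mul_of_nonneg_right h2 hl
      _ = |C| * Real.log A * (1 + Real.log (1 + ‖Y‖)) := by ring
      _ ≤ E * (1 + Real.log (1 + ‖Y‖)) := mul_le_mul_of_nonneg_right hE (by linarith)
      _ = _ := by ring
  have h2 : sz (D.a H ^ m) ≤ sz 1 * Real.exp E * (1 + ‖Y‖) ^ E := by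
    rw [mul_assoc]
    exact (STData_sz_pow hs _ _).trans (mul_le_mul_of_nonneg_left h1 (hp _))
  have h3 : sz (D.ex Z) ≤ B := hB Z (D.grS_le _ hZ) hZ1
  calc sz (D.ex Y) ≤ sz (D.a H ^ m) * sz (D.ex Z) * sz (D.a H ^ m) := by
        rw [e]
        refine (hs.mul _ _).trans ?_
        rw [hs.inv]
        exact mul_le_mul_of_nonneg_right (hs.mul _ _) (hp _)
    _ = sz (D.a H ^ m) ^ 2 * sz (D.ex Z) := by ring
    _ ≤ (sz 1 * Real.exp E * (1 + ‖Y‖) ^ E) ^ 2 * B :=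
        mul_le_mul (pow_le_pow_left₀ (hp _) h2 2) h3 (hp _) (sq_nonneg _)
    _ = _ := by ring

/-- The exponential of a combination of three matrices. -/
def STData_e (z x u : Mat n) (v : ST.V3) : G := D.ex (v 0 • z + v 1 • x + v 2 • u)

theorem STData_unip {sz dd : G → ℝ} (hs : ST.Size sz dd)
    (hd : ∃ C : ℝ, ∀ X ∈ D.g, ‖X‖ ≤ 1 → dd (D.ex X) ≤ C * ‖X‖) {H : Euc k} {z x u : Mat n}
    (hz : z ∈ D.np H) (hx : x ∈ D.np H) (hu : u ∈ D.np H) (h1 : ⁅z, x⁆ = 0) (h2 : ⁅z, u⁆ = 0)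
    (h3 : ⁅x, u⁆ = 0) : ST.Unip sz (D.STData_e z x u) := by
  have hm : ∀ v : ST.V3, v 0 • z + v 1 • x + v 2 • u ∈ D.np H := fun v =>
    add_mem (add_mem (Submodule.smul_mem _ _ hz) (Submodule.smul_mem _ _ hx))
      (Submodule.smul_mem _ _ hu)
  have hg : ∀ v : ST.V3, v 0 • z + v 1 • x + v 2 • u ∈ D.g := fun v => D.grS_le _ (hm v)
  refine ⟨fun v w => ?_, ?_, ?_⟩
  · rw [STData_e, STData_e, STData_e, ← D.ex_add_of_commute (hg v) (hg w)]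
    · congr 1
      simp only [Pi.add_apply, add_smul]
      abel
    · simp only [STData_br_add, STData_add_br, STData_br_smul, STData_smul_br, STData_br_self,
        h1, h2, h3, STData_br_comm h1, STData_br_comm h2, STData_br_comm h3, smul_zero, add_zero]
  · exact D.ex_cont.comp_continuous (by fun_prop) hg
  · obtain ⟨C, E, hC, h⟩ := D.STData_poly hs hd H
    refine ⟨C * (1 + (‖z‖ + ‖x‖ + ‖u‖)) ^ E, E, fun v => (h _ (hm v)).trans ?_⟩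
    rw [mul_assoc, ← mul_pow]
    refine mul_le_mul_of_nonneg_left (pow_le_pow_left₀ (by positivity) ?_ _) hC
    have hv : ∀ i (Y : Mat n), ‖v i • Y‖ ≤ ‖v‖ * ‖Y‖ := fun i Y => by
      rw [norm_smul]
      exact mul_le_mul_of_nonneg_right (norm_le_pi_norm v i) (norm_nonneg _)
    have h4 := (norm_add₃_le (a := v 0 • z) (b := v 1 • x) (c := v 2 • u)).trans
      (add_le_add (add_le_add (hv 0 z) (hv 1 x)) (hv 2 u))
    nlinarith [norm_nonneg z, norm_nonneg x, norm_nonneg u, norm_nonneg v]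

theorem STData_lip {sz dd : G → ℝ} (hs : ST.Size sz dd)
    (hd : ∃ C : ℝ, ∀ X ∈ D.g, ‖X‖ ≤ 1 → dd (D.ex X) ≤ C * ‖X‖) {β : Euc k} (hβ : β ≠ 0)
    {w : Mat n} (hw : w ∈ D.gr β) : ST.LipAt dd fun s => D.ex (s • w) := by
  obtain ⟨C, hC⟩ := hd
  have hb : ⟪β, β⟫ ≠ 0 := fun h => hβ (inner_self_eq_zero.1 h)
  have hp : 0 < ‖w‖ + 1 := by positivity
  set g := D.a ((Real.log (‖w‖ + 1) / ⟪β, β⟫) • β) with hg
  refine ⟨sz g⁻¹ ^ 2 * (C * (‖w‖ / (‖w‖ + 1))), fun s h => ?_⟩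
  have hm : (s / (‖w‖ + 1)) • w ∈ D.gr β := Submodule.smul_mem _ _ hw
  have e : D.ex (s • w) = g⁻¹⁻¹ * D.ex ((s / (‖w‖ + 1)) • w) * g⁻¹ := by
    rw [inv_inv, hg, D.a_conj_ex _ hm, inner_smul_right, div_mul_cancel₀ _ hb, Real.exp_log hp,
      smul_smul, mul_div_cancel₀ _ hp.ne']
  have e2 : ‖(s / (‖w‖ + 1)) • w‖ = ‖w‖ / (‖w‖ + 1) * |s| := by
    rw [norm_smul, Real.norm_eq_abs, abs_div, abs_of_pos hp]
    ring
  have h1 : ‖(s / (‖w‖ + 1)) • w‖ ≤ 1 := by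
    rw [e2]
    exact mul_le_one₀ ((div_le_one hp).2 (by linarith)) (abs_nonneg _) h
  have h2 := hC _ (D.gr_le β hm) h1
  rw [e2] at h2
  change dd (D.ex (s • w)) ≤ _
  rw [e, mul_assoc (sz g⁻¹ ^ 2), mul_assoc C]
  exact (hs.conj _ _).trans (mul_le_mul_of_nonneg_left h2 (sq_nonneg _))

theorem STData_contr {sz dd : G → ℝ} (hs : ST.Size sz dd)
    (hd : ∃ C : ℝ, ∀ X ∈ D.g, ‖X‖ ≤ 1 → dd (D.ex X) ≤ C * ‖X‖) {β H : Euc k} (h : ⟪β, H⟫ < 0)
    {w : Mat n} (hw : w ∈ D.gr β) : ST.Contr dd (D.a H) (D.ex w) := by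
  obtain ⟨C, hC⟩ := D.STData_lip hs hd (β := β) (by rintro rfl; simp at h) hw
  have h0 := (Real.exp_pos ⟪β, H⟫).le
  have h1 : Real.exp ⟪β, H⟫ < 1 := Real.exp_lt_one_iff.2 h
  refine ⟨C, Real.exp ⟪β, H⟫, h0, h1, fun m => ?_⟩
  have h2 := hC (Real.exp ⟪β, H⟫ ^ m) (by
    rw [abs_of_nonneg (pow_nonneg h0 m)]
    exact pow_le_one₀ h0 h1.le)
  rw [abs_of_nonneg (pow_nonneg h0 m)] at h2
  rwa [← D.a_nsmul, D.a_conj_ex _ hw, inner_smul_right, Real.exp_nat_mul]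

theorem STData_conj {w V : Mat n} (hw : w ∈ D.g) (hV : V ∈ D.g) (h : ⁅w, ⁅w, ⁅w, V⁆⁆⁆ = 0) :
    D.ex w * D.ex V = D.ex (V + ⁅w, V⁆ + (1 / 2 : ℝ) • ⁅w, ⁅w, V⁆⁆) * D.ex w := by
  have e : exp w * V * exp (-w) = V + ⁅w, V⁆ + (1 / 2 : ℝ) • ⁅w, ⁅w, V⁆⁆ := conj_nil3 h
  rw [← e, ← D.Ad_ex hw, ← D.conj_ex _ hV, inv_mul_cancel_right]

theorem STData_sh {z x w : Mat n} (hz : z ∈ D.g) (hx : x ∈ D.g) (hw : w ∈ D.g) (h1 : ⁅w, z⁆ = x)
    (h2 : ⁅w, ⁅w, x⁆⁆ = 0) (s : ℝ) (v : ST.V3) : D.ex (s • w) * D.STData_e z x ⁅w, x⁆ v =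
      D.STData_e z x ⁅w, x⁆ (ST.sh s v) * D.ex (s • w) := by
  obtain ⟨u, hu⟩ : ∃ u, u = ⁅w, x⁆ := ⟨_, rfl⟩
  have hug : u ∈ D.g := hu ▸ D.br_mem hw hx
  rw [← hu] at h2 ⊢
  rw [STData_e, STData_e, D.STData_conj (D.g.smul_mem _ hw) (add_mem (add_mem (D.g.smul_mem _ hz)
    (D.g.smul_mem _ hx)) (D.g.smul_mem _ hug))]
  · congr 2
    simp only [STData_br_add, STData_br_smul, STData_smul_br, h1, ← hu, h2, ST.sh,
      STData_br_zero, Matrix.cons_val_zero, Matrix.cons_val_one, Matrix.cons_val]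
    module
  · simp only [STData_br_add, STData_br_smul, STData_smul_br, h1, ← hu, h2, smul_zero,
      add_zero]

theorem STData_data {sz dd : G → ℝ} (hs : ST.Size sz dd)
    (hd : ∃ C : ℝ, ∀ X ∈ D.g, ‖X‖ ≤ 1 → dd (D.ex X) ≤ C * ‖X‖) {b : Euc k} (hb : b ∈ D.roots)
    (hl : ∀ δ ∈ D.roots, ⟪δ, b⟫ ≠ 0 → ‖δ‖ ≤ ‖b‖) :
    ∃ T : ST.Data sz dd, T.a = D.a (Real.log 2 • (2 / ⟪b, b⟫) • b) := by
  obtain ⟨a, c, x, y, z, w, w', f, -, ha, hc, hac, hca, hx, hy, hz, hw, hw', hf, xy, zx, zy, wz,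
    wx, zu, xu, wz', wy, zv, yv, zf⟩ := D.exists_stLie hb hl
  have a0 : a ≠ 0 := by rintro rfl; simp at ha
  have c0 : c ≠ 0 := by rintro rfl; simp at hc
  have b0 := D.root_ne_zero hb
  have bb : ⟪b, b⟫ ≠ 0 := fun h => b0 (inner_self_eq_zero.1 h)
  have np : ∀ {β H : Euc k} {X : Mat n}, X ∈ D.gr β → 0 < ⟪β, H⟫ → X ∈ D.np H := fun h h' =>
    D.gr_le_grS (S := {γ | 0 < ⟪γ, _⟫}) h' h
  have gx := D.gr_le _ hx
  have gy := D.gr_le _ hy
  have gz := D.gr_le _ hz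
  have gf := D.gr_le _ hf
  refine ⟨⟨D.STData_e z x ⁅w, x⁆, D.STData_e z y ⁅w', y⁆, fun s => D.ex (s • w),
    fun s => D.ex (s • w'), fun s => D.ex (s • f), D.a (Real.log 2 • (2 / ⟪b, b⟫) • b),
    D.STData_unip hs hd (H := a) (np hz (by rwa [real_inner_comm]))
      (np hx (real_inner_self_pos.2 a0)) (np (D.br_gr hw hx) (by rwa [neg_add_eq_sub])) zx zu xu,
    D.STData_unip hs hd (H := c) (np hz (by rwa [real_inner_comm]))
      (np hy (real_inner_self_pos.2 c0)) (np (D.br_gr hw' hy) (by rwa [neg_add_eq_sub])) zy zv yv,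
    D.STData_lip hs hd (neg_ne_zero.2 c0) hw, D.STData_lip hs hd (neg_ne_zero.2 a0) hw',
    D.STData_lip hs hd (neg_ne_zero.2 b0) hf, fun t => by simp [STData_e],
    D.STData_sh gz gx (D.gr_le _ hw) wz wx, D.STData_sh gz gy (D.gr_le _ hw') wz' wy,
    fun s t r => ?_, fun d hd0 => ?_⟩, rfl⟩
  · simp only [STData_e, Matrix.cons_val_zero, Matrix.cons_val_one, Matrix.cons_val, zero_smul,
      add_zero, zero_add]
    rw [D.STData_conj (D.g.smul_mem _ gx) (add_mem (D.g.smul_mem _ gz) (D.g.smul_mem _ gy))]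
    · congr 2
      simp only [STData_br_add, STData_br_smul, STData_smul_br, xy, STData_br_comm zx,
        STData_br_zero]
      module
    · simp only [STData_br_add, STData_br_smul, STData_smul_br, xy, STData_br_comm zx,
        STData_br_zero, smul_zero, zero_add]
  · have h2 : 1 + d⁻¹ * d = 2 := by rw [inv_mul_cancel₀ hd0.ne']; norm_num
    have h := D.ex_sl2 gz gf (h := D.dg ((2 / ⟪b, b⟫) • b))
      (by rw [D.br_dg hz, inner_smul_right, div_mul_cancel₀ _ bb])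
      (by rw [D.br_dg hf, inner_neg_left, inner_smul_right, div_mul_cancel₀ _ bb, neg_smul]) zf
      (s := d⁻¹) (t := d) (by rw [h2]; norm_num)
    have h3 := D.a_conj_ex (Real.log 2 • (2 / ⟪b, b⟫) • b) (Submodule.smul_mem _ (2 * d) hf)
    have e : Real.exp ⟪-b, Real.log 2 • (2 / ⟪b, b⟫) • b⟫ • (2 * d) • f = (d / 2) • f := by
      rw [inner_neg_left, inner_smul_right, inner_smul_right, div_mul_cancel₀ _ bb, smul_smul,
        Real.exp_neg, mul_two, Real.exp_add, Real.exp_log two_pos]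
      congr 1
      ring
    rw [e, mul_inv_eq_iff_eq_mul] at h3
    simp only [STData_e, Matrix.cons_val_zero, Matrix.cons_val_one, Matrix.cons_val, zero_smul,
      add_zero]
    rw [h, h2, h3, mul_assoc, ← D.ex_add_smul gz, ← map_smul,
      show d⁻¹ / 2 + -(2 * d)⁻¹ = 0 by ring, zero_smul, D.ex_zero, mul_one]
    rfl

theorem exists_stData {sz dd : G → ℝ} (hs : ST.Size sz dd)
    (hd : ∃ C : ℝ, ∀ X ∈ D.g, ‖X‖ ≤ 1 → dd (D.ex X) ≤ C * ‖X‖) :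
    ∃ (ι : Type) (_ : Finite ι) (T : ι → ST.Data sz dd) (N : ι → Subgroup G),
      (∀ i, (N i).Normal) ∧
      (∀ i (S : Subgroup G), IsClosed (S : Set G) →
        (∀ g, ST.Contr dd (T i).a g ∨ ST.Contr dd (T i).a⁻¹ g → g ∈ S) → N i ≤ S) ∧
      ∀ S : Subgroup G, IsClosed (S : Set G) → (∀ i, N i ≤ S) → S = ⊤ := by
  choose b hb hc hl using fun i : D.roots => D.exists_longest i.2
  choose T hT using fun i : D.roots => D.STData_data hs hd (hb i) (hl i)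
  refine ⟨D.roots, inferInstance, T, fun i => D.grp (D.fac (b i)), fun i => D.grp_fac_normal _,
    fun i S hS h => ?_, fun S _ h => ?_⟩
  · have bb : 0 < ⟪b i, b i⟫ := real_inner_self_pos.2 (D.root_ne_zero (hb i))
    have hq := D.lie_isSub S
    refine D.grp_le hS (D.fac_le hq fun γ hγ => D.gen_conn hq (s := b i) (fun δ _ hδ => ?_) (hb i)
      bb.ne' hγ.2)
    refine D.le_lie (D.gr_le δ) fun X hX => h _ ?_
    have hp : 0 < Real.log 2 * (2 / ⟪b i, b i⟫) := mul_pos (Real.log_pos one_lt_two) (by positivity)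
    rw [hT, ← D.a_neg]
    rcases lt_or_gt_of_ne hδ with h1 | h1
    · refine Or.inl (D.STData_contr hs hd ?_ hX)
      rw [smul_smul, inner_smul_right]
      exact mul_neg_of_pos_of_neg hp h1
    · refine Or.inr (D.STData_contr hs hd ?_ hX)
      rw [smul_smul, inner_neg_right, inner_smul_right]
      exact neg_neg_of_pos (mul_pos hp h1)
  · refine D.eq_top_of_roots fun β hβ X hX => h ⟨β, hβ⟩ (Subgroup.subset_closure ⟨X, ?_, rfl⟩)
    exact Submodule.mem_sup_left (D.gr_le_grS (S := D.facR (b ⟨β, hβ⟩))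
      ⟨hβ, D.conn_symm (hc ⟨β, hβ⟩)⟩ hX)

end Std

end Pool.Agent.P.MP_d483fb_an.Z
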