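import Pool.Agent.P.MP_d483fb_an.Z.Lie.Defs2
import Pool.Agent.P.MP_d483fb_an.Z.Lie.Ex1
import Pool.Agent.P.MP_d483fb_an.Z.Lie.Mx2

/-! Weight spaces of a group in standard form. -/

open scoped Matrix Matrix.Norms.Operator InnerProductSpace RealInnerProductSpace Topology
open NormedSpace Filter Set

noncomputable section

namespace Pool.Agent.P.MP_d483fb_an.Z

namespace Std

variable {G : Type} [Group G] [TopologicalSpace G] [IsTopologicalGroup G] {n k : ℕ}
  (D : Std G n k)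

set_option linter.unusedSectionVars false

theorem mem_g_iff {X : Mat n} : X ∈ D.g ↔ ∀ t : ℝ, exp (t • X) ∈ range D.ρ := by
  refine ⟨fun hX t => ⟨D.ex (t • X), D.ρ_ex _ (D.g.smul_mem t hX)⟩, fun h => ?_⟩
  have h0 : Tendsto (fun t : ℝ => t • X) (𝓝 0) (𝓝 0) := by
    have : Continuous fun t : ℝ => t • X := continuous_id.smul continuous_const
    simpa using this.tendsto 0
  have h1 : Tendsto (fun t : ℝ => exp (t • X)) (𝓝 0) (𝓝[range D.ρ] 1) := by
    refine tendsto_nhdsWithin_iff.2 ⟨?_, Eventually.of_forall h⟩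
    have hc : Continuous (exp : Mat n → Mat n) := exp_cont
    have := (hc.tendsto 0).comp h0
    rwa [exp_zero] at this
  rw [← D.opn] at h1
  have h2 : ∀ᶠ y in Filter.map D.ρ (𝓝 (1 : G)), mlog y ∈ D.g := by
    rw [Filter.eventually_map]
    filter_upwards [D.ex_lg] with x hx using hx.1
  have h3 : ∀ᶠ Y in 𝓝 (0 : Mat n), mlog (exp Y) = Y := mlog_exp
  have h4 : ∀ᶠ t : ℝ in 𝓝 0, t • X ∈ D.g := by
    filter_upwards [h1.eventually h2, h0.eventually h3] with t ht ht'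
    rwa [ht'] at ht
  obtain ⟨t, ht, ht0⟩ := ((h4.filter_mono nhdsWithin_le_nhds).and
    (self_mem_nhdsWithin (a := (0 : ℝ)) (s := {0}ᶜ))).exists
  have := D.g.smul_mem t⁻¹ ht
  rwa [smul_smul, inv_mul_cancel₀ ht0, one_smul] at this

theorem lieOf_range : lieOf (range D.ρ) = D.g := by
  have : {X : Mat n | ∀ t : ℝ, exp (t • X) ∈ range D.ρ} = D.g := by
    ext X
    exact D.mem_g_iff.symm
  rw [lieOf, this, Submodule.span_eq]

theorem tr_mem {X : Mat n} (hX : X ∈ D.g) : Xᵀ ∈ D.g := by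
  refine D.mem_g_iff.2 fun t => ?_
  obtain ⟨x, hx⟩ := D.mem_g_iff.1 hX t
  obtain ⟨x', hx'⟩ := D.tr x
  refine ⟨x', ?_⟩
  rw [hx', hx, ← Matrix.transpose_smul, Matrix.exp_transpose]

theorem g_isSub : IsSub D.g := fun _ hX _ hY => D.br_mem hX hY

theorem dg_symm (s : Euc k) : (D.dg s)ᵀ = D.dg s := by
  rw [dg_apply, Matrix.diagonal_transpose]

theorem br_dg_apply (s : Euc k) (X : Mat n) (i j : Fin n) :
    ⁅D.dg s, X⁆ i j = ⟪D.lam i - D.lam j, s⟫ * X i j := by
  rw [Ring.lie_def, Matrix.sub_apply, dg_apply, Matrix.diagonal_mul, Matrix.mul_diagonal,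
    inner_sub_left]
  ring

theorem dg_br (s t : Euc k) : ⁅D.dg s, D.dg t⁆ = 0 := by
  ext i j
  rw [br_dg_apply, Matrix.zero_apply]
  by_cases h : i = j
  · rw [h, sub_self, inner_zero_left, zero_mul]
  · rw [dg_apply, Matrix.diagonal_apply_ne _ h, mul_zero]

theorem ip_dg (s t : Euc k) : ip (D.dg s) (D.dg t) = ⟪s, t⟫ := by
  rw [← D.frame, ip]
  refine Finset.sum_congr rfl fun i _ => ?_
  rw [Finset.sum_eq_single i]
  · rw [dg_apply, dg_apply, Matrix.diagonal_apply_eq, Matrix.diagonal_apply_eq]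
  · intro j _ hj
    rw [dg_apply, Matrix.diagonal_apply_ne _ hj.symm, zero_mul]
  · intro h
    exact absurd (Finset.mem_univ i) h

theorem dg_inj : Function.Injective D.dg := by
  refine (injective_iff_map_eq_zero _).2 fun s hs => ?_
  have := D.ip_dg s s
  rw [hs, ip_zero_left] at this
  exact inner_self_eq_zero.1 this.symm

theorem wtS_mono {S T : Set (Euc k)} (h : S ⊆ T) : D.wtS S ≤ D.wtS T :=
  fun _ hX i j hij => h (hX i j hij)

theorem grS_mono {S T : Set (Euc k)} (h : S ⊆ T) : D.grS S ≤ D.grS T :=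
  inf_le_inf_left _ (D.wtS_mono h)

theorem grS_le (S : Set (Euc k)) : D.grS S ≤ D.g := inf_le_left

theorem grS_univ : D.grS univ = D.g :=
  le_antisymm (D.grS_le _) (le_inf le_rfl fun _ _ _ _ _ => mem_univ _)

theorem gr_le (β : Euc k) : D.gr β ≤ D.g := D.grS_le _

theorem gr_le_grS {S : Set (Euc k)} {β : Euc k} (h : β ∈ S) : D.gr β ≤ D.grS S :=
  D.grS_mono (singleton_subset_iff.2 h)

theorem mem_wtS_singleton {β : Euc k} {X : Mat n} :
    X ∈ D.wtS {β} ↔ ∀ s, ⁅D.dg s, X⁆ = ⟪β, s⟫ • X := by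
  rw [mem_wtS]
  constructor
  · intro h s
    ext i j
    rw [br_dg_apply, Matrix.smul_apply, smul_eq_mul]
    by_cases h0 : X i j = 0
    · rw [h0, mul_zero, mul_zero]
    · rw [mem_singleton_iff.1 (h i j h0)]
  · intro h i j h0
    refine mem_singleton_iff.2 (ext_inner_right ℝ fun s => ?_)
    have := congrFun (congrFun (h s) i) j
    rw [br_dg_apply, Matrix.smul_apply, smul_eq_mul] at this
    exact mul_right_cancel₀ h0 this

theorem mem_gr {β : Euc k} {X : Mat n} :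
    X ∈ D.gr β ↔ X ∈ D.g ∧ ∀ s, ⁅D.dg s, X⁆ = ⟪β, s⟫ • X := by
  rw [← mem_wtS_singleton]
  exact Submodule.mem_inf

theorem br_dg {β : Euc k} {X : Mat n} (hX : X ∈ D.gr β) (s : Euc k) :
    ⁅D.dg s, X⁆ = ⟪β, s⟫ • X := (D.mem_gr.1 hX).2 s

theorem mem_wall {s : Euc k} {X : Mat n} : X ∈ D.wtS (wall s) ↔ ⁅D.dg s, X⁆ = 0 := by
  rw [mem_wtS]
  constructor
  · intro h
    ext i j
    rw [br_dg_apply, Matrix.zero_apply]
    by_cases h0 : X i j = 0
    · rw [h0, mul_zero]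
    · have : ⟪D.lam i - D.lam j, s⟫ = 0 := h i j h0
      rw [this, zero_mul]
  · intro h i j h0
    have := congrFun (congrFun h i) j
    rw [br_dg_apply, Matrix.zero_apply] at this
    exact (mul_eq_zero.1 this).resolve_right h0

theorem dg_mem_gr (s : Euc k) : D.dg s ∈ D.gr 0 :=
  D.mem_gr.2 ⟨D.dg_mem s, fun t => by rw [dg_br, inner_zero_left, zero_smul]⟩

theorem exists_dg {X : Mat n} (hX : X ∈ D.gr 0) (hs : X.IsSymm) : ∃ s, X = D.dg s :=
  D.max' X hX.1 hs fun i j h => sub_eq_zero.1 (mem_singleton_iff.1 (hX.2 i j h))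

end Std

end Pool.Agent.P.MP_d483fb_an.Z
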