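import Pool.Agent.P.MP_d483fb_an.Z.Lie.Std1
import Pool.Agent.P.MP_d483fb_an.Z.Lie.Closed
import Pool.Agent.P.MP_d483fb_an.Z.Lie.Mx3

/-! Stabilisers of weight filtrations and the maximal compact subgroup. -/

open scoped Matrix Matrix.Norms.Operator InnerProductSpace RealInnerProductSpace Topology
open NormedSpace Filter Set

noncomputable section

namespace Pool.Agent.P.MP_d483fb_an.Z

theorem mem_of_exp_smul_mem {A : Type} [NormedRing A] [NormedAlgebra ℝ A] [CompleteSpace A]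
    {v : Submodule ℝ A} (hv : IsClosed (v : Set A)) {X : A} (h : ∀ t : ℝ, exp (t • X) ∈ v) :
    X ∈ v := by
  have := (hasDerivAt_exp_smul_const (𝕂 := ℝ) X 0).tendsto_slope_zero
  rw [zero_smul, exp_zero, one_mul] at this
  refine hv.mem_of_tendsto this (Eventually.of_forall fun t => v.smul_mem _ (v.sub_mem (h _) ?_))
  simpa using h 0

namespace Std

variable {G : Type} [Group G] [TopologicalSpace G] [IsTopologicalGroup G] {n k : ℕ}
  (D : Std G n k)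

theorem stab_closed (S : AddSubmonoid (Euc k)) : IsClosed (D.stab S : Set G) :=
  ((D.wtS S).closed_of_finiteDimensional.preimage D.cont).inter
    ((D.wtS S).closed_of_finiteDimensional.preimage (D.cont.comp continuous_inv))

omit [IsTopologicalGroup G] in
theorem K_closed : IsClosed (D.K : Set G) :=
  isClosed_eq (D.cont.matrix_mul D.cont.matrix_transpose) continuous_const

omit [IsTopologicalGroup G] in
theorem exp_mem_wtS {S : AddSubmonoid (Euc k)} {X : Mat n} (hX : X ∈ D.wtS S) :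
    exp X ∈ D.wtS S := by
  have := exp_mem_of_mul (D.wtS S).closed_of_finiteDimensional
    (fun Z hZ => D.wtS_mul hX hZ fun β hβ γ hγ => S.add_mem hβ hγ) (D.one_mem_wtS S.zero_mem)
  rwa [mul_one] at this

theorem ex_mem_stab {S : AddSubmonoid (Euc k)} {X : Mat n} (hX : X ∈ D.grS S) :
    D.ex X ∈ D.stab S := by
  rw [mem_stab, D.ρ_ex_inv hX.1, D.ρ_ex _ hX.1]
  exact ⟨D.exp_mem_wtS hX.2, D.exp_mem_wtS ((D.wtS S).neg_mem hX.2)⟩

theorem a_mem_stab (S : AddSubmonoid (Euc k)) (s : Euc k) : D.a s ∈ D.stab S :=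
  D.ex_mem_stab (D.gr_le_grS S.zero_mem (D.dg_mem_gr s))

theorem lie_stab (S : AddSubmonoid (Euc k)) : D.lie (D.stab S) = D.grS S := by
  refine le_antisymm (fun X hX => ?_) (D.le_lie (D.grS_le _) fun X hX => D.ex_mem_stab hX)
  obtain ⟨h1, h2⟩ := (D.mem_lie (D.stab_closed S)).mp hX
  refine ⟨h1, mem_of_exp_smul_mem (D.wtS S).closed_of_finiteDimensional fun t => ?_⟩
  have := (h2 t).1
  rwa [D.ρ_ex _ (D.g.smul_mem t h1)] at this

theorem mem_Zc {s : Euc k} {x : G} : x ∈ D.Zc s ↔ D.Ad x (D.dg s) = D.dg s := by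
  have key : ∀ y : G, ⁅D.dg s, D.ρ y⁆ = 0 ↔ D.Ad y (D.dg s) = D.dg s := fun y => by
    rw [Ring.lie_def, sub_eq_zero, D.Ad_apply]
    refine ⟨fun h => ?_, fun h => ?_⟩
    · rw [← h, mul_assoc, D.ρ_mul_inv, mul_one]
    · rw [← h, mul_assoc, D.ρ_inv_mul, mul_one, h]
  rw [Zc, mem_stab, D.mem_wall, D.mem_wall, key, key]
  refine ⟨fun h => h.1, fun h => ⟨h, ?_⟩⟩
  rw [← h, D.Ad_inv_Ad, h]

theorem comm_of_mem_Zc {s : Euc k} {x : G} (hx : x ∈ D.Zc s) (t : ℝ) :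
    x * D.a (t • s) = D.a (t • s) * x := by
  rw [← mul_inv_eq_iff_eq_mul, a, D.conj_ex x (D.dg_mem _), map_smul, map_smul, D.mem_Zc.mp hx]

omit [IsTopologicalGroup G] in
theorem Ad_stab {S : AddSubmonoid (Euc k)} {T : Set (Euc k)} {x : G} (hx : x ∈ D.stab S)
    (h : ∀ β ∈ S, ∀ γ ∈ T, β + γ ∈ T) {X : Mat n} (hX : X ∈ D.wtS T) :
    D.Ad x X ∈ D.wtS T := by
  rw [D.Ad_apply]
  exact D.wtS_mul (D.wtS_mul hx.1 hX h) hx.2 fun γ hγ β hβ => add_comm β γ ▸ h β hβ γ hγ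

omit [IsTopologicalGroup G] in
theorem ρ_inv_K {x : G} (hx : x ∈ D.K) : D.ρ x⁻¹ = (D.ρ x)ᵀ := by
  rw [← mul_one (D.ρ x⁻¹), ← D.mem_K.mp hx, ← mul_assoc, D.ρ_inv_mul, one_mul]

omit [IsTopologicalGroup G] in
theorem ker_le_K {x : G} (hx : D.ρ x = 1) : x ∈ D.K := by
  rw [mem_K, hx, Matrix.transpose_one, one_mul]

omit [IsTopologicalGroup G] in
theorem ex_mem_K {X : Mat n} (hX : X ∈ D.g) (h : Xᵀ = -X) : D.ex X ∈ D.K := by
  rw [mem_K, D.ρ_ex _ hX, ← Matrix.exp_transpose, h]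
  exact exp_mul_neg X

theorem mem_lie_K {X : Mat n} : X ∈ D.lie D.K ↔ X ∈ D.g ∧ Xᵀ = -X := by
  rw [D.mem_lie D.K_closed]
  refine and_congr_right fun hX => ⟨fun h => ?_, fun h t => D.ex_mem_K (D.g.smul_mem t hX) ?_⟩
  · refine eq_of_exp_smul_eq (A := Mat n) (Eventually.of_forall fun t => ?_)
    have := D.ρ_inv_K (h t)
    rw [D.ρ_ex_inv (D.g.smul_mem t hX), D.ρ_ex _ (D.g.smul_mem t hX), ← Matrix.exp_transpose,
      Matrix.transpose_smul, ← smul_neg] at this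
    exact this.symm
  · rw [Matrix.transpose_smul, h, smul_neg]

omit [IsTopologicalGroup G] in
theorem Ad_K_tr {x : G} (hx : x ∈ D.K) (X : Mat n) : (D.Ad x X)ᵀ = D.Ad x Xᵀ := by
  rw [D.Ad_apply, D.Ad_apply, D.ρ_inv_K hx, Matrix.transpose_mul, Matrix.transpose_mul,
    Matrix.transpose_transpose, mul_assoc]

omit [IsTopologicalGroup G] in
theorem ip_Ad_K {x : G} (hx : x ∈ D.K) (X Y : Mat n) : ip (D.Ad x X) (D.Ad x Y) = ip X Y := by
  rw [ip_eq_trace, ip_eq_trace, D.Ad_K_tr hx, ← D.Ad_mul_mat, D.Ad_apply, Matrix.trace_mul_cycle,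
    D.ρ_inv_mul, one_mul]

omit [IsTopologicalGroup G] in
theorem norm_ρ_K {x : G} (hx : x ∈ D.K) : ‖D.ρ x‖ ≤ n := by
  have h : ∀ i j, ‖D.ρ x i j‖₊ ≤ 1 := fun i j =>
    entry_norm_bound_of_unitary (Matrix.mem_unitaryGroup_iff.mpr (D.mem_K.mp hx)) i j
  rw [Matrix.linfty_opNorm_def]
  have : (Finset.univ.sup fun i => ∑ j, ‖D.ρ x i j‖₊) ≤ n := Finset.sup_le fun i _ =>
    (Finset.sum_le_sum fun j _ => h i j).trans (by simp)
  exact_mod_cast this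

omit [IsTopologicalGroup G] in
theorem ρK_compact : IsCompact (D.ρ '' D.K) := by
  convert orth_compact.inter_right D.closed using 1
  ext y
  exact ⟨fun ⟨x, hx, e⟩ => e ▸ ⟨hx, x, rfl⟩, fun ⟨h, x, e⟩ => ⟨x, D.mem_K.mpr (e ▸ h), e⟩⟩

theorem map_ρ_nhds (x : G) : Filter.map D.ρ (𝓝 x) = 𝓝[range D.ρ] (D.ρ x) := by
  have he : Topology.IsEmbedding fun y : Mat n => D.ρ x * y :=
    Function.LeftInverse.isEmbedding (f := fun y => D.ρ x⁻¹ * y)
      (fun y => by simp only [← mul_assoc, D.ρ_inv_mul, one_mul])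
      (continuous_const.matrix_mul continuous_id) (continuous_const.matrix_mul continuous_id)
  have h1 := he.map_nhdsWithin_eq (range D.ρ) 1
  have h2 : (fun y : Mat n => D.ρ x * y) '' range D.ρ = range D.ρ := by
    ext y
    constructor
    · rintro ⟨_, ⟨z, rfl⟩, rfl⟩
      exact ⟨x * z, map_mul _ _ _⟩
    · rintro ⟨z, rfl⟩
      exact ⟨_, ⟨x⁻¹ * z, rfl⟩, by simp only [← map_mul, mul_inv_cancel_left]⟩
  rw [h2, mul_one, ← D.opn, Filter.map_map] at h1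
  rw [← h1, ← map_mul_left_nhds_one x, Filter.map_map]
  congr 1
  exact funext fun y => map_mul _ _ _

theorem exists_compact_lift {C : Set (Mat n)} (hC : IsCompact C) :
    ∃ Q : Set G, IsCompact Q ∧ D.ρ '' Q = C ∩ range D.ρ := by
  have := D.locallyCompactSpace
  obtain ⟨Q, hQ, h⟩ : ∃ Q : Set G, IsCompact Q ∧ C ∩ range D.ρ ⊆ D.ρ '' Q := by
    refine (hC.inter_right D.closed).induction_on
      (p := fun S => ∃ Q : Set G, IsCompact Q ∧ S ⊆ D.ρ '' Q) ⟨∅, isCompact_empty, by simp⟩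
      (fun s t hst ⟨Q, hQ, h⟩ => ⟨Q, hQ, hst.trans h⟩)
      (fun s t ⟨Q, hQ, h⟩ ⟨Q', hQ', h'⟩ => ⟨Q ∪ Q', hQ.union hQ', ?_⟩) ?_
    · rw [image_union]
      exact union_subset_union h h'
    · rintro _ ⟨-, x, rfl⟩
      obtain ⟨Q, hQ, hx⟩ := exists_compact_mem_nhds x
      refine ⟨D.ρ '' Q, nhdsWithin_mono _ inter_subset_right ?_, Q, hQ, Subset.rfl⟩
      rw [← D.map_ρ_nhds]
      exact image_mem_map hx
  refine ⟨Q ∩ D.ρ ⁻¹' C, hQ.inter_right (hC.isClosed.preimage D.cont), ?_⟩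
  rw [image_inter_preimage]
  exact Subset.antisymm (fun y hy => ⟨hy.2, image_subset_range _ _ hy.1⟩) fun y hy => ⟨h hy, hy.1⟩

omit [IsTopologicalGroup G] in
theorem ρ_inv_mul_eq_one {q x : G} (h : D.ρ q = D.ρ x) : D.ρ (q⁻¹ * x) = 1 := by
  rw [map_mul, ← h, D.ρ_inv_mul]

theorem compact_preimage (hf : {x | D.ρ x = 1}.Finite) {C : Set (Mat n)} (hC : IsCompact C) :
    IsCompact (D.ρ ⁻¹' C) := by
  obtain ⟨Q, hQ, h⟩ := D.exists_compact_lift hC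
  refine (hQ.mul hf.isCompact).of_isClosed_subset (hC.isClosed.preimage D.cont) fun x hx => ?_
  obtain ⟨q, hq, e⟩ := h.ge ⟨hx, x, rfl⟩
  exact ⟨q, hq, q⁻¹ * x, D.ρ_inv_mul_eq_one e, mul_inv_cancel_left q x⟩

theorem exists_compact_K : ∃ Q : Set G, IsCompact Q ∧ Q ⊆ D.K ∧
    ∀ x ∈ D.K, ∃ q ∈ Q, ∃ z, D.ρ z = 1 ∧ x = q * z := by
  obtain ⟨Q, hQ, h⟩ := D.exists_compact_lift orth_compact
  refine ⟨Q, hQ, fun q hq => (h.le ⟨q, hq, rfl⟩).1, fun x hx => ?_⟩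
  obtain ⟨q, hq, e⟩ := h.ge ⟨hx, x, rfl⟩
  exact ⟨q, hq, q⁻¹ * x, D.ρ_inv_mul_eq_one e, (mul_inv_cancel_left q x).symm⟩

end Std

end Pool.Agent.P.MP_d483fb_an.Z
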