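import Pool.Agent.P.MP_d483fb_an.Z.Lie.Root0
import Pool.Agent.P.MP_d483fb_an.Z.Lie.StdK

/-! Weyl elements and the rank one lemma. -/

open scoped Matrix Matrix.Norms.Operator InnerProductSpace RealInnerProductSpace Topology
open NormedSpace Filter Set

noncomputable section

namespace Pool.Agent.P.MP_d483fb_an.Z

namespace Std

variable {G : Type} [Group G] [TopologicalSpace G] [IsTopologicalGroup G] {n k : ℕ}
  (D : Std G n k)

omit [IsTopologicalGroup G] in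
theorem inner_refl (β s t : Euc k) : ⟪refl β s, t⟫ = ⟪s, refl β t⟫ := by
  simp only [refl, inner_sub_left, inner_sub_right, real_inner_smul_left, real_inner_smul_right]
  rw [real_inner_comm β s]
  ring

omit [IsTopologicalGroup G] in
theorem refl_refl (β s : Euc k) : refl β (refl β s) = s := by
  rcases eq_or_ne β 0 with rfl | hβ
  · simp [refl]
  have h : ⟪β, β⟫ ≠ 0 := inner_self_ne_zero.2 hβ
  have h1 : 2 * ⟪β, refl β s⟫ / ⟪β, β⟫ = -(2 * ⟪β, s⟫ / ⟪β, β⟫) := by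
    simp only [refl, inner_sub_right, real_inner_smul_right]
    field_simp
    ring
  rw [refl, h1, refl, neg_smul, sub_neg_eq_add, sub_add_cancel]

omit [IsTopologicalGroup G] in
theorem refl_smul_self {β : Euc k} (c : ℝ) : refl β (c • β) = -(c • β) := by
  rcases eq_or_ne β 0 with rfl | hβ
  · simp [refl]
  have h : ⟪β, β⟫ ≠ 0 := inner_self_ne_zero.2 hβ
  have h1 : 2 * ⟪β, c • β⟫ / ⟪β, β⟫ = 2 * c := by
    rw [real_inner_smul_right]
    field_simp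
  rw [refl, h1, ← sub_smul, ← neg_smul]
  congr 1
  ring

omit [IsTopologicalGroup G] in
theorem refl_of_orth {β s : Euc k} (h : ⟪β, s⟫ = 0) : refl β s = s := by
  simp [refl, h]

omit [IsTopologicalGroup G] in
theorem norm_refl (β s : Euc k) : ‖refl β s‖ = ‖s‖ := by
  rw [norm_eq_sqrt_real_inner, inner_refl, refl_refl, ← norm_eq_sqrt_real_inner]

theorem weyl {β : Euc k} {E : Mat n} (hβ : β ≠ 0) (hE : E ∈ D.gr β) (hE0 : E ≠ 0) :
    ∃ t : ℝ, ∀ s, D.Ad (D.ex (t • (E - Eᵀ))) (D.dg s) = D.dg (refl β s) := by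
  have hb : 0 < ⟪β, β⟫ := real_inner_self_pos.2 hβ
  have he : 0 < ip E E := ip_self_pos hE0
  have hW : E - Eᵀ ∈ D.g := D.g.sub_mem (D.gr_le β hE) (D.tr_mem (D.gr_le β hE))
  have h1 : ∀ s, ⁅E - Eᵀ, D.dg s⁆ = -(⟪β, s⟫ • (E + Eᵀ)) := by
    intro s
    have h2 := D.br_dg hE s
    have h3 := D.br_dg (D.tr_gr hE) s
    rw [inner_neg_left, neg_smul] at h3
    rw [Ring.lie_def] at h2 h3 ⊢
    rw [smul_add, ← h2, ← neg_neg (⟪β, s⟫ • Eᵀ), ← h3]
    noncomm_ring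
  have h4 : ⁅E - Eᵀ, E + Eᵀ⁆ = (2 * ip E E) • D.dg β := by
    have h5 := D.br_tr hE
    rw [Ring.lie_def] at h5 ⊢
    rw [mul_smul, ← h5, two_smul]
    noncomm_ring
  obtain ⟨c, hc, hc2⟩ : ∃ c : ℝ, 0 < c ∧ c * c = 2 * ip E E * ⟪β, β⟫ :=
    ⟨√(2 * ip E E * ⟪β, β⟫), Real.sqrt_pos.2 (by positivity), Real.mul_self_sqrt (by positivity)⟩
  have hsm : ∀ (a : ℝ) (X Y : Mat n), ⁅a • X, Y⁆ = a • ⁅X, Y⁆ := fun a X Y => by
    simp only [Ring.lie_def, smul_mul_assoc, mul_smul_comm, smul_sub]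
  have hsm' : ∀ (a : ℝ) (X Y : Mat n), ⁅X, a • Y⁆ = a • ⁅X, Y⁆ := fun a X Y => by
    simp only [Ring.lie_def, smul_mul_assoc, mul_smul_comm, smul_sub]
  refine ⟨Real.pi / c, fun s => ?_⟩
  have hW' := D.g.smul_mem (Real.pi / c) hW
  have h6 : D.Ad (D.ex ((Real.pi / c) • (E - Eᵀ))) (D.dg β) = -D.dg β := by
    rw [D.Ad_ex hW']
    have h7 := conj_rot (X := (Real.pi / c) • (E - Eᵀ)) (Y := D.dg β)
      (Z := (-(⟪β, β⟫ / c)) • (E + Eᵀ)) (c := Real.pi) (by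
        rw [hsm, h1, smul_neg, smul_smul, smul_smul, ← neg_smul]
        congr 1
        ring) (by
        rw [hsm, hsm', h4, smul_smul, smul_smul, ← neg_smul]
        congr 1
        field_simp
        linear_combination hc2)
    rw [Real.cos_pi, Real.sin_pi, zero_smul, add_zero, neg_one_smul] at h7
    exact h7
  have h8 : ∀ s, ⟪β, s⟫ = 0 → D.Ad (D.ex ((Real.pi / c) • (E - Eᵀ))) (D.dg s) = D.dg s := by
    intro s hs
    rw [D.Ad_ex hW']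
    have h9 := conj_eigen (X := (Real.pi / c) • (E - Eᵀ)) (Y := D.dg s) (c := 0) (by
      rw [hsm, h1, hs, zero_smul, neg_zero, smul_zero, zero_smul])
    rw [Real.exp_zero, one_smul] at h9
    exact h9
  have h10 : ⟪β, s - (⟪β, s⟫ / ⟪β, β⟫) • β⟫ = 0 := by
    rw [inner_sub_right, real_inner_smul_right, div_mul_cancel₀ _ hb.ne', sub_self]
  have h11 := h8 _ h10
  rw [map_sub, map_smul, map_sub, map_smul, h6, sub_eq_iff_eq_add] at h11
  rw [h11, refl, map_sub, map_smul, smul_neg, mul_div_assoc, mul_smul, two_smul]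
  abel

theorem Ad_gr_of_refl {β : Euc k} {w : G} (h : ∀ s, D.Ad w (D.dg s) = D.dg (refl β s))
    {γ : Euc k} {X : Mat n} (hX : X ∈ D.gr γ) : D.Ad w X ∈ D.gr (refl β γ) := by
  refine D.mem_gr.2 ⟨D.Ad_mem w (D.gr_le γ hX), fun s => ?_⟩
  have h1 := h (refl β s)
  rw [refl_refl] at h1
  rw [← h1, ← D.Ad_br, D.br_dg hX, map_smul, inner_refl]

theorem Ad_inv_of_refl {β : Euc k} {w : G} (h : ∀ s, D.Ad w (D.dg s) = D.dg (refl β s))
    (s : Euc k) : D.Ad w⁻¹ (D.dg s) = D.dg (refl β s) := by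
  have h1 := h (refl β s)
  rw [refl_refl] at h1
  rw [← h1, D.Ad_inv_Ad]

theorem exists_weyl {β : Euc k} (hβ : β ∈ D.roots) : ∃ w ∈ D.K,
    (∀ s, D.Ad w (D.dg s) = D.dg (refl β s)) ∧ ∀ s, w * D.a s * w⁻¹ = D.a (refl β s) := by
  obtain ⟨E, hE, hE0⟩ := D.exists_ne_zero hβ
  obtain ⟨t, ht⟩ := D.weyl (D.root_ne_zero hβ) hE hE0
  have hW : t • (E - Eᵀ) ∈ D.g :=
    D.g.smul_mem t (D.g.sub_mem (D.gr_le β hE) (D.tr_mem (D.gr_le β hE)))
  refine ⟨_, D.ex_mem_K hW ?_, ht, fun s => ?_⟩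
  · rw [Matrix.transpose_smul, Matrix.transpose_sub, Matrix.transpose_transpose, ← smul_neg,
      neg_sub]
  · rw [a, D.conj_ex _ (D.dg_mem s), ht, a]

theorem refl_mem_roots {β γ : Euc k} (hβ : β ∈ D.roots) (hγ : γ ∈ D.roots) :
    refl β γ ∈ D.roots := by
  obtain ⟨w, -, hw, -⟩ := D.exists_weyl hβ
  obtain ⟨E, hE, hE0⟩ := D.exists_ne_zero hγ
  refine D.mem_roots.2 ⟨fun h => D.root_ne_zero hγ ?_, fun h => hE0 ?_⟩
  · rw [← norm_eq_zero, ← norm_refl β γ, h, norm_zero]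
  · have h1 := D.Ad_gr_of_refl hw hE
    rw [h, Submodule.mem_bot] at h1
    rw [← D.Ad_inv_Ad w E, h1, map_zero]

/-- The rank one lemma. -/
theorem rank_one {q : Submodule ℝ (Mat n)} (hq : IsSub q) {β γ : Euc k} (hβ : β ≠ 0)
    (hu : D.u β ≤ q) (hγ : γ ∈ cls (-β)) {E : Mat n} (hE : E ∈ D.gr γ) (hEq : E ∈ q)
    (hE0 : E ≠ 0) : D.u (-β) ≤ q := by
  obtain ⟨c, hc, rfl⟩ := hγ
  have hγ0 : c • -β ≠ 0 := smul_ne_zero hc.ne' (neg_ne_zero.2 hβ)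
  have hneg : ∀ c : ℝ, 0 < c → D.gr (-(c • -β)) ≤ q := fun c hc =>
    (D.gr_le_grS (S := cls β) ⟨c, hc, by rw [smul_neg, neg_neg]⟩).trans hu
  obtain ⟨t, ht⟩ := D.weyl hγ0 hE hE0
  have hW : t • (E - Eᵀ) ∈ D.g :=
    D.g.smul_mem t (D.g.sub_mem (D.gr_le _ hE) (D.tr_mem (D.gr_le _ hE)))
  have hWq : t • (E - Eᵀ) ∈ q := q.smul_mem t (q.sub_mem hEq (hneg c hc (D.tr_gr hE)))
  refine D.grS_le_of ?_
  rintro _ ⟨c', hc', rfl⟩ - X hX
  have h1 := D.Ad_gr_of_refl (D.Ad_inv_of_refl ht) hX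
  have h2 : c' • -β = (c' / c) • c • -β := by rw [smul_smul, div_mul_cancel₀ _ hc.ne']
  rw [h2, refl_smul_self, ← h2] at h1
  rw [← D.Ad_Ad_inv (D.ex (t • (E - Eᵀ))) X]
  exact D.Ad_ex_mem hW (hq _ hWq) (hneg c' hc' h1)

end Std

end Pool.Agent.P.MP_d483fb_an.Z
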